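import Mathlib

/-!
# MP_fd8964_an: abstract setting (Hilbert triple) and the interface statements of the abstract modules
-/

open MeasureTheory Set Filter Topology
open scoped RealInnerProductSpace

noncomputable section

namespace Pool.Agent.NSD

/-- Abstract data of Navier-Stokes type.  `ι : V → K` is the embedding of `V` in `L²`, `a` the Dirichlet form,
`b` the trilinear form.  `b_young` is the form in which `|b(w,u,w)| ≤ C ‖w‖^{1/2} |w|_V^{3/2} |u|_V` is used. -/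
structure Data (V K : Type*) [NormedAddCommGroup V] [InnerProductSpace ℝ V]
    [NormedAddCommGroup K] [InnerProductSpace ℝ K] where
  ι : V →L[ℝ] K
  a : V →L[ℝ] V →L[ℝ] ℝ
  b : V →L[ℝ] V →L[ℝ] V →L[ℝ] ℝ
  a_symm : ∀ u v, a u v = a v u
  c₀ : ℝ
  c₀_pos : 0 < c₀
  a_coer : ∀ v, c₀ * ‖v‖ ^ 2 ≤ a v v
  a_le : ∀ v, a v v ≤ ‖v‖ ^ 2
  b_skew : ∀ u v, b u v v = 0
  CY : ℝ
  CY_nonneg : 0 ≤ CY
  b_young : ∀ m : ℝ, 0 < m → ∀ u w,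
    |b w u w| ≤ m * a w w + CY / m ^ 3 * (a u u) ^ 2 * ‖ι w‖ ^ 2

/-- The nonlocal extra viscosity `ε (√(max s κ) - √κ)` as a function of `s = |∇u|_{L²}`: it vanishes for `s ≤ κ`
and is at most `ε √s`. -/
def phi (ε κ s : ℝ) : ℝ := ε * (√(max s κ) - √κ)

section
variable {V K : Type*} [NormedAddCommGroup V] [InnerProductSpace ℝ V]
    [NormedAddCommGroup K] [InnerProductSpace ℝ K]

/-- `σ(u) = a(u,u)^{1/2}`, the `L²` norm of the gradient. -/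
def Data.sig (D : Data V K) (u : V) : ℝ := √(D.a u u)

/-- The Gronwall coefficient. -/
def Data.Lam (D : Data V K) (η ε κ : ℝ) (u : V) : ℝ :=
  128 * D.CY * (D.a u u) ^ 2 / (η + phi ε κ (D.sig u)) ^ 3

/-- `u` (with derivative `du`) solves on `[0,∞)` the Voigt regularisation
`(J + δA) u' + (η + phi(σ(u))) A u + B(u,u) = f`.  `δ = 0` is allowed in this definition. -/
structure IsVoigt (D : Data V K) (η ε κ δ : ℝ) (f : ℝ → (V →L[ℝ] ℝ)) (u du : ℝ → V) : Prop where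
  deriv : ∀ t, 0 ≤ t → HasDerivWithinAt u (du t) (Ici 0) t
  cont : ContinuousOn du (Ici 0)
  eq : ∀ t, 0 ≤ t → ∀ v, ⟪D.ι (du t), D.ι v⟫ + δ * D.a (du t) v
      + (η + phi ε κ (D.sig (u t))) * D.a (u t) v + D.b (u t) (u t) v = f t v

/-- `f ∈ H¹_loc([0,∞); X)` with derivative `f₁`. -/
structure IsH1loc {X : Type*} [NormedAddCommGroup X] [NormedSpace ℝ X] (f f₁ : ℝ → X) : Prop where
  memLp : ∀ T : ℝ, MemLp f₁ 2 (volume.restrict (Ioc 0 T))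
  eq : ∀ t : ℝ, 0 ≤ t → f t = f 0 + ∫ s in (0 : ℝ)..t, f₁ s

end

/-! ## Interface statements (abstract part) -/

/-- A1. Global existence for ODEs in Banach spaces with a locally Lipschitz right-hand side, from an a priori
bound. -/
def Stmt_ODE : Prop := ∀ (X : Type) [NormedAddCommGroup X] [NormedSpace ℝ X] [CompleteSpace X]
    (F : ℝ → X → X) (x₀ : X),
    (∀ x, ContinuousOn (fun t => F t x) (Ici 0)) →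
    (∀ T R : ℝ, ∃ L : NNReal, ∀ t ∈ Icc 0 T, LipschitzOnWith L (F t) (Metric.closedBall 0 R)) →
    (∀ T : ℝ, ∃ R : ℝ, ∀ T' ∈ Icc 0 T, ∀ y : ℝ → X, y 0 = x₀ →
      (∀ t ∈ Icc 0 T', HasDerivWithinAt y (F t (y t)) (Icc 0 T') t) → ∀ t ∈ Icc 0 T', ‖y t‖ ≤ R) →
    ∃ y : ℝ → X, y 0 = x₀ ∧ ∀ t, 0 ≤ t → HasDerivWithinAt y (F t (y t)) (Ici 0) t

/-- A2. Existence for the Voigt regularisation. -/
def Stmt_VoigtExists : Prop := ∀ (V K : Type) [NormedAddCommGroup V] [InnerProductSpace ℝ V]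
    [CompleteSpace V] [NormedAddCommGroup K] [InnerProductSpace ℝ K] (D : Data V K)
    (η ε κ δ : ℝ) (f : ℝ → (V →L[ℝ] ℝ)) (u₀ : V), 0 < η → 0 ≤ ε → 0 < κ → 0 < δ →
    ContinuousOn f (Ici 0) → ∃ u du : ℝ → V, u 0 = u₀ ∧ IsVoigt D η ε κ δ f u du

/-- A3a. Gronwall inequality with a good term `z` (integrated form). -/
def Stmt_Gronwall : Prop := ∀ (T : ℝ) (y y' Λ r z : ℝ → ℝ),
    (∀ t ∈ Icc 0 T, HasDerivWithinAt y (y' t) (Icc 0 T) t) →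
    ContinuousOn Λ (Icc 0 T) → ContinuousOn r (Icc 0 T) → ContinuousOn z (Icc 0 T) →
    (∀ t ∈ Icc 0 T, 0 ≤ Λ t) → (∀ t ∈ Icc 0 T, 0 ≤ r t) → (∀ t ∈ Icc 0 T, 0 ≤ z t) →
    (∀ t ∈ Icc 0 T, y' t + z t ≤ Λ t * y t + r t) → 0 ≤ y 0 →
    ∀ t ∈ Icc 0 T, y t + ∫ s in (0 : ℝ)..t, z s ≤
      (y 0 + ∫ s in (0 : ℝ)..t, r s) * Real.exp (∫ s in (0 : ℝ)..t, Λ s)

/-- A3b. Energy identity and inequality for Voigt solutions (`δ ≥ 0`). -/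
def Stmt_Energy : Prop := ∀ (V K : Type) [NormedAddCommGroup V] [InnerProductSpace ℝ V]
    [NormedAddCommGroup K] [InnerProductSpace ℝ K] (D : Data V K)
    (η ε κ δ : ℝ) (f : ℝ → (V →L[ℝ] ℝ)) (u du : ℝ → V), 0 < η → 0 ≤ ε → 0 < κ → 0 ≤ δ →
    ContinuousOn f (Ici 0) → IsVoigt D η ε κ δ f u du → ∀ T : ℝ, 0 ≤ T →
    (‖D.ι (u T)‖ ^ 2 + δ * D.a (u T) (u T)
        + 2 * ∫ s in (0 : ℝ)..T, (η + phi ε κ (D.sig (u s))) * D.a (u s) (u s)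
      = ‖D.ι (u 0)‖ ^ 2 + δ * D.a (u 0) (u 0) + 2 * ∫ s in (0 : ℝ)..T, f s (u s)) ∧
    (‖D.ι (u T)‖ ^ 2 + δ * D.a (u T) (u T)
        + ∫ s in (0 : ℝ)..T, (η + 2 * phi ε κ (D.sig (u s))) * D.a (u s) (u s)
      ≤ ‖D.ι (u 0)‖ ^ 2 + δ * D.a (u 0) (u 0) + 1 / (D.c₀ * η) * ∫ s in (0 : ℝ)..T, ‖f s‖ ^ 2)

/-- A3c. Difference of two Voigt solutions with the same `δ ≥ 0` and different forces. -/
def Stmt_Diff : Prop := ∀ (V K : Type) [NormedAddCommGroup V] [InnerProductSpace ℝ V]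
    [NormedAddCommGroup K] [InnerProductSpace ℝ K] (D : Data V K)
    (η ε κ δ : ℝ) (f g : ℝ → (V →L[ℝ] ℝ)) (u du v dv : ℝ → V), 0 < η → 0 ≤ ε → 0 < κ → 0 ≤ δ →
    ContinuousOn f (Ici 0) → ContinuousOn g (Ici 0) →
    IsVoigt D η ε κ δ f u du → IsVoigt D η ε κ δ g v dv → ∀ T : ℝ, 0 ≤ T →
    ‖D.ι (u T - v T)‖ ^ 2 + δ * D.a (u T - v T) (u T - v T)
        + ∫ s in (0 : ℝ)..T, η / 2 * D.a (u s - v s) (u s - v s) ≤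
      (‖D.ι (u 0 - v 0)‖ ^ 2 + δ * D.a (u 0 - v 0) (u 0 - v 0)
        + ∫ s in (0 : ℝ)..T, 1 / (D.c₀ * η) * ‖f s - g s‖ ^ 2) *
      Real.exp (∫ s in (0 : ℝ)..T, D.Lam η ε κ (u s))

/-- A3d. The Gronwall coefficient is controlled by the dissipation. -/
def Stmt_Lam : Prop := ∀ (V K : Type) [NormedAddCommGroup V] [InnerProductSpace ℝ V]
    [NormedAddCommGroup K] [InnerProductSpace ℝ K] (D : Data V K) (η ε κ : ℝ), 0 < η → 0 < ε → 0 < κ →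
    ∃ C : ℝ, 0 ≤ C ∧ ∀ u : V, D.Lam η ε κ u ≤ C * (1 + phi ε κ (D.sig u) * D.a u u)

/-- A4. Bound for the time derivative, uniform in `δ ∈ (0,1]`. -/
def Stmt_Deriv : Prop := ∀ (V K : Type) [NormedAddCommGroup V] [InnerProductSpace ℝ V]
    [CompleteSpace V] [NormedAddCommGroup K] [InnerProductSpace ℝ K] (D : Data V K)
    (η ε κ : ℝ) (f f₁ : ℝ → (V →L[ℝ] ℝ)) (u₀ : V) (h₀ : K), 0 < η → 0 < ε → 0 < κ →
    IsH1loc f f₁ → D.sig u₀ ≤ κ →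
    (∀ v, f 0 v - η * D.a u₀ v - D.b u₀ u₀ v = ⟪h₀, D.ι v⟫) →
    ∀ T : ℝ, 0 ≤ T → ∃ C : ℝ, ∀ δ : ℝ, 0 < δ → δ ≤ 1 → ∀ u du : ℝ → V,
      IsVoigt D η ε κ δ f u du → u 0 = u₀ →
      (∀ t ∈ Icc 0 T, ‖D.ι (du t)‖ ^ 2 + δ * D.a (du t) (du t) ≤ C) ∧
      (∫ s in (0 : ℝ)..T, D.a (du s) (du s)) ≤ C

/-- A5. Convergence of the Voigt solutions, locally uniformly in `V`, along `δₙ = 1/(n+1)`. -/
def Stmt_Limit : Prop := ∀ (V K : Type) [NormedAddCommGroup V] [InnerProductSpace ℝ V]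
    [CompleteSpace V] [NormedAddCommGroup K] [InnerProductSpace ℝ K] (D : Data V K)
    (η ε κ : ℝ) (f f₁ : ℝ → (V →L[ℝ] ℝ)) (u₀ : V) (h₀ : K), 0 < η → 0 < ε → 0 < κ →
    IsH1loc f f₁ → D.sig u₀ ≤ κ →
    (∀ v, f 0 v - η * D.a u₀ v - D.b u₀ u₀ v = ⟪h₀, D.ι v⟫) →
    ∀ u du : ℕ → ℝ → V, (∀ n : ℕ, IsVoigt D η ε κ (1 / ((n : ℝ) + 1)) f (u n) (du n)) → (∀ n, u n 0 = u₀) →
    ∃ ulim : ℝ → V, ∀ T : ℝ, 0 ≤ T → TendstoUniformlyOn u ulim atTop (Icc 0 T)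

/-- A6. Weak compactness in `L²(α,β;X)` plus identification: if `xₙ(t) = xₙ(α) + ∫_α^t yₙ` with `∫ ‖yₙ‖² ≤ C`
and `xₙ → x` pointwise on `[α,β]`, then `x(t) = x(α) + ∫_α^t y` with `y ∈ L²`. -/
def Stmt_WeakLimit : Prop := ∀ (X : Type) [NormedAddCommGroup X] [InnerProductSpace ℝ X] [CompleteSpace X]
    (α β C : ℝ) (x : ℕ → ℝ → X) (y : ℕ → ℝ → X) (xlim : ℝ → X), α ≤ β →
    (∀ n, MemLp (y n) 2 (volume.restrict (Ioc α β))) →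
    (∀ n, ∫ s in α..β, ‖y n s‖ ^ 2 ≤ C) →
    (∀ n, ∀ t ∈ Icc α β, x n t = x n α + ∫ s in α..t, y n s) →
    (∀ t ∈ Icc α β, Tendsto (fun n => x n t) atTop (𝓝 (xlim t))) →
    ∃ w : ℝ → X, MemLp w 2 (volume.restrict (Ioc α β)) ∧ (∫ s in α..β, ‖w s‖ ^ 2 ≤ C) ∧
      ∀ t ∈ Icc α β, xlim t = xlim α + ∫ s in α..t, w s

/-- A7. `H¹_loc` criterion: a function whose increments are controlled by those of `∫ k`, `k ∈ L²_loc`, is in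
`H¹_loc([0,∞);X)`, `X` a Hilbert space. -/
def Stmt_H1Criterion : Prop := ∀ (X : Type) [NormedAddCommGroup X] [InnerProductSpace ℝ X] [CompleteSpace X]
    (x : ℝ → X) (k : ℝ → ℝ), (∀ T : ℝ, MemLp k 2 (volume.restrict (Ioc 0 T))) → (∀ t, 0 ≤ k t) →
    (∀ T : ℝ, ∃ L : ℝ, ∀ s t, 0 ≤ s → s ≤ t → t ≤ T → ‖x t - x s‖ ≤ L * ∫ r in s..t, k r) →
    ∃ x₁ : ℝ → X, IsH1loc x x₁

/-- A7'. Gluing: a function that is `H¹` on every `[n,n+1]` is `H¹_loc`. -/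
def Stmt_Glue : Prop := ∀ (X : Type) [NormedAddCommGroup X] [NormedSpace ℝ X] [CompleteSpace X]
    (x : ℝ → X),
    (∀ n : ℕ, ∃ w : ℝ → X, MemLp w 2 (volume.restrict (Ioc (n : ℝ) (n + 1))) ∧
      ∀ t ∈ Icc (n : ℝ) (n + 1), x t = x n + ∫ s in (n : ℝ)..t, w s) →
    ∃ w : ℝ → X, IsH1loc x w

/-- A8. The nonlocal-viscosity problem has a global regular solution. -/
def Stmt_Abstract : Prop := ∀ (V K : Type) [NormedAddCommGroup V] [InnerProductSpace ℝ V]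
    [CompleteSpace V] [NormedAddCommGroup K] [InnerProductSpace ℝ K] (D : Data V K)
    (η ε κ : ℝ) (f f₁ : ℝ → (V →L[ℝ] ℝ)) (u₀ : V) (h₀ : K), 0 < η → 0 < ε → 0 < κ →
    IsH1loc f f₁ → D.sig u₀ ≤ κ →
    (∀ v, f 0 v - η * D.a u₀ v - D.b u₀ u₀ v = ⟪h₀, D.ι v⟫) →
    ∃ u w : ℝ → V, IsH1loc u w ∧ u 0 = u₀ ∧
      (∀ T : ℝ, ∃ C : ℝ, ∀ᵐ t ∂(volume.restrict (Ioc 0 T)), ‖D.ι (w t)‖ ≤ C) ∧
      (∀ᵐ t ∂(volume.restrict (Ioi (0 : ℝ))), ∀ v, ⟪D.ι (w t), D.ι v⟫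
        + (η + phi ε κ (D.sig (u t))) * D.a (u t) v + D.b (u t) (u t) v = f t v) ∧
      (∀ T : ℝ, 0 ≤ T → ‖D.ι (u T)‖ ^ 2
          + 2 * ∫ s in (0 : ℝ)..T, (η + phi ε κ (D.sig (u s))) * D.a (u s) (u s)
        = ‖D.ι u₀‖ ^ 2 + 2 * ∫ s in (0 : ℝ)..T, f s (u s)) ∧
      (∀ T : ℝ, 0 ≤ T → ∫ s in (0 : ℝ)..T, (η + 2 * phi ε κ (D.sig (u s))) * D.a (u s) (u s)
        ≤ ‖D.ι u₀‖ ^ 2 + 1 / (D.c₀ * η) * ∫ s in (0 : ℝ)..T, ‖f s‖ ^ 2)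

/-- A9. The abstract density theorem. -/
def Stmt_AbstractFinal : Prop := ∀ (V K : Type) [NormedAddCommGroup V] [InnerProductSpace ℝ V]
    [CompleteSpace V] [NormedAddCommGroup K] [InnerProductSpace ℝ K] (D : Data V K)
    (η τ : ℝ) (f f₁ : ℝ → (V →L[ℝ] ℝ)) (u₀ : V) (h₀ : K), 0 < η → 0 < τ →
    IsH1loc f f₁ →
    (∀ v, f 0 v - η * D.a u₀ v - D.b u₀ u₀ v = ⟪h₀, D.ι v⟫) →
    ∃ (g g₁ : ℝ → (V →L[ℝ] ℝ)) (u w : ℝ → V), IsH1loc g g₁ ∧ g 0 = f 0 ∧ IsH1loc u w ∧ u 0 = u₀ ∧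
      (∀ T : ℝ, ∃ C : ℝ, ∀ᵐ t ∂(volume.restrict (Ioc 0 T)), ‖D.ι (w t)‖ ≤ C) ∧
      (∀ᵐ t ∂(volume.restrict (Ioi (0 : ℝ))), ∀ v, ⟪D.ι (w t), D.ι v⟫
        + D.b (u t) (u t) v + η * D.a (u t) v = g t v) ∧
      (∀ T : ℝ, 0 ≤ T →
        ‖D.ι (u T)‖ ^ 2 + 2 * η * ∫ s in (0 : ℝ)..T, D.a (u s) (u s)
          ≤ ‖D.ι u₀‖ ^ 2 + 2 * ∫ s in (0 : ℝ)..T, f s (u s)) ∧
      (∀ T : ℝ, 0 ≤ T → ∫⁻ t in Ioc 0 T, ‖g t - f t‖ₑ ^ (5 / 3 : ℝ)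
        ≤ ENNReal.ofReal (τ * (‖D.ι u₀‖ ^ 2 + ∫ s in (0 : ℝ)..T, ‖f s‖ ^ 2))) ∧
      (∀ T : ℝ, 0 ≤ T → volume {t ∈ Ioc (0 : ℝ) T | g t ≠ f t}
        ≤ ENNReal.ofReal (τ * (‖D.ι u₀‖ ^ 2 + ∫ s in (0 : ℝ)..T, ‖f s‖ ^ 2)))

end Pool.Agent.NSD
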