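import Pool.Agent.NSD.Abstract

/-!
# MP_fd8964_an: elementary facts on `phi`, `sig` and the forms, shared by several modules
-/

open MeasureTheory Set Filter Topology
open scoped RealInnerProductSpace

noncomputable section

namespace Pool.Agent.NSD.H4

theorem phi_nonneg {ε κ : ℝ} (hε : 0 ≤ ε) (s : ℝ) : 0 ≤ phi ε κ s :=
  mul_nonneg hε (sub_nonneg.2 (Real.sqrt_le_sqrt (le_max_right _ _)))

theorem phi_mono {ε κ : ℝ} (hε : 0 ≤ ε) {s t : ℝ} (h : s ≤ t) : phi ε κ s ≤ phi ε κ t :=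
  mul_le_mul_of_nonneg_left (sub_le_sub_right (Real.sqrt_le_sqrt (max_le_max_right κ h)) _) hε

theorem continuous_phi (ε κ : ℝ) : Continuous (phi ε κ) := by
  unfold phi
  fun_prop

section
variable {V K : Type*} [NormedAddCommGroup V] [InnerProductSpace ℝ V]
    [NormedAddCommGroup K] [InnerProductSpace ℝ K]

theorem a_nonneg (D : Data V K) (v : V) : 0 ≤ D.a v v :=
  (mul_nonneg D.c₀_pos.le (sq_nonneg _)).trans (D.a_coer v)

theorem sig_nonneg (D : Data V K) (v : V) : 0 ≤ D.sig v := Real.sqrt_nonneg _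

theorem sig_sq (D : Data V K) (v : V) : D.sig v ^ 2 = D.a v v := Real.sq_sqrt (a_nonneg D v)

theorem continuous_aa (D : Data V K) : Continuous fun v => D.a v v :=
  D.a.continuous.clm_apply continuous_id

theorem continuous_sig (D : Data V K) : Continuous D.sig := (continuous_aa D).sqrt

theorem continuous_phi_sig (D : Data V K) (ε κ : ℝ) : Continuous fun v => phi ε κ (D.sig v) :=
  (continuous_phi ε κ).comp (continuous_sig D)

/-- Young's inequality for the force term: `2 |l v| ≤ θ c₀ ‖v‖² + ‖l‖²/(θ c₀) ≤ θ a(v,v) + ‖l‖²/(θ c₀)`. -/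
theorem force_young (D : Data V K) {θ : ℝ} (hθ : 0 < θ) (l : V →L[ℝ] ℝ) (v : V) :
    2 * |l v| ≤ θ * D.a v v + 1 / (D.c₀ * θ) * ‖l‖ ^ 2 := by
  have h1 : |l v| ≤ ‖l‖ * ‖v‖ := l.le_opNorm v
  have h2 : D.c₀ * ‖v‖ ^ 2 ≤ D.a v v := D.a_coer v
  have hc := D.c₀_pos
  have h3 : 2 * (‖l‖ * ‖v‖) ≤ θ * (D.c₀ * ‖v‖ ^ 2) + 1 / (D.c₀ * θ) * ‖l‖ ^ 2 := by
    have hp : 0 < D.c₀ * θ := mul_pos hc hθ
    have h4 : 0 ≤ 1 / (D.c₀ * θ) * (‖l‖ - D.c₀ * θ * ‖v‖) ^ 2 := mul_nonneg (by positivity) (sq_nonneg _)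
    have h5 : 1 / (D.c₀ * θ) * (‖l‖ - D.c₀ * θ * ‖v‖) ^ 2
        = θ * (D.c₀ * ‖v‖ ^ 2) + 1 / (D.c₀ * θ) * ‖l‖ ^ 2 - 2 * (‖l‖ * ‖v‖) := by
      have := D.c₀_pos.ne'
      have := hθ.ne'
      field_simp
      ring
    linarith
  have h6 : θ * (D.c₀ * ‖v‖ ^ 2) ≤ θ * D.a v v := mul_le_mul_of_nonneg_left h2 hθ.le
  linarith

/-- The derivative of the energy `‖ι w‖² + δ a(w,w)`. -/
theorem hasDerivWithinAt_energy (D : Data V K) (δ : ℝ) {w : ℝ → V} {w' : V} {s : Set ℝ} {t : ℝ}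
    (hw : HasDerivWithinAt w w' s t) :
    HasDerivWithinAt (fun t => ‖D.ι (w t)‖ ^ 2 + δ * D.a (w t) (w t))
      (2 * (⟪D.ι w', D.ι (w t)⟫ + δ * D.a w' (w t))) s t := by
  have h1 : HasDerivWithinAt (fun t => D.ι (w t)) (D.ι w') s t :=
    D.ι.hasFDerivAt.comp_hasDerivWithinAt t hw
  have h2 : HasDerivWithinAt (fun t => ‖D.ι (w t)‖ ^ 2) (2 * ⟪D.ι (w t), D.ι w'⟫) s t := h1.norm_sq
  have h3 : HasDerivWithinAt (fun t => D.a (w t)) (D.a w') s t :=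
    D.a.hasFDerivAt.comp_hasDerivWithinAt t hw
  have h4 : HasDerivWithinAt (fun t => D.a (w t) (w t)) (D.a w' (w t) + D.a (w t) w') s t :=
    h3.clm_apply hw
  refine (h2.add (h4.const_mul δ)).congr_deriv ?_
  rw [D.a_symm (w t) w', real_inner_comm]
  ring

end

end Pool.Agent.NSD.H4
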