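import Pool.Agent.NSD.Abstract

/-! A7': gluing `H¹` functions on the intervals `[n,n+1]`. -/

open MeasureTheory Set Filter Topology
open scoped RealInnerProductSpace

noncomputable section

namespace Pool.Agent.NSD

theorem memLp_two_union {X : Type*} [NormedAddCommGroup X] {w : ℝ → X} {s t : Set ℝ}
    (hs : MemLp w 2 (volume.restrict s)) (ht : MemLp w 2 (volume.restrict t)) :
    MemLp w 2 (volume.restrict (s ∪ t)) := by
  have hm : AEStronglyMeasurable w (volume.restrict (s ∪ t)) :=
    aestronglyMeasurable_union_iff.mpr ⟨hs.1, ht.1⟩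
  rw [memLp_two_iff_integrable_sq_norm hm]
  exact IntegrableOn.union ((memLp_two_iff_integrable_sq_norm hs.1).mp hs)
    ((memLp_two_iff_integrable_sq_norm ht.1).mp ht)

theorem glue_proof : Stmt_Glue := by
  intro X _ _ _ x hx
  choose W hW1 hW2 using hx
  let w : ℝ → X := fun s => W (⌈s⌉₊ - 1) s
  have hw : ∀ n : ℕ, ∀ s ∈ Ioc (n : ℝ) (n + 1), w s = W n s := by
    intro n s hs
    have h1 : ⌈s⌉₊ = n + 1 := by
      rw [Nat.ceil_eq_iff (by omega)]
      push_cast
      simpa using hs
    show W (⌈s⌉₊ - 1) s = W n s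
    rw [h1, Nat.add_sub_cancel]
  have hmem1 : ∀ n : ℕ, MemLp w 2 (volume.restrict (Ioc (n : ℝ) (n + 1))) := by
    intro n
    refine (hW1 n).ae_eq ?_
    filter_upwards [ae_restrict_mem measurableSet_Ioc] with s hs
    exact (hw n s hs).symm
  have hmem2 : ∀ n : ℕ, MemLp w 2 (volume.restrict (Ioc (0 : ℝ) n)) := by
    intro n
    induction n with
    | zero => simp
    | succ n ih =>
      have : Ioc (0 : ℝ) ((n + 1 : ℕ) : ℝ) = Ioc (0 : ℝ) n ∪ Ioc (n : ℝ) (n + 1) := by
        rw [Ioc_union_Ioc_eq_Ioc (by positivity) (by linarith)]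
        push_cast; rfl
      rw [this]
      exact memLp_two_union ih (hmem1 n)
  have hmem : ∀ T : ℝ, MemLp w 2 (volume.restrict (Ioc 0 T)) := by
    intro T
    obtain ⟨n, hn⟩ := exists_nat_ge T
    exact (hmem2 n).mono_measure (Measure.restrict_mono (Ioc_subset_Ioc_right hn) le_rfl)
  have hint : ∀ a b : ℝ, 0 ≤ a → a ≤ b → IntervalIntegrable w volume a b := by
    intro a b ha hab
    rw [intervalIntegrable_iff_integrableOn_Ioc_of_le hab]
    have h1 : IntegrableOn w (Ioc 0 b) := (hmem b).integrable one_le_two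
    exact h1.mono_set (Ioc_subset_Ioc_left ha)
  have hstep : ∀ n : ℕ, ∀ t ∈ Icc (n : ℝ) (n + 1), x t = x n + ∫ s in (n : ℝ)..t, w s := by
    intro n t ht
    rw [hW2 n t ht]
    congr 1
    rw [intervalIntegral.integral_of_le ht.1, intervalIntegral.integral_of_le ht.1]
    apply setIntegral_congr_fun measurableSet_Ioc
    intro s hs
    exact (hw n s ⟨hs.1, hs.2.trans ht.2⟩).symm
  have hnat : ∀ n : ℕ, x n = x 0 + ∫ s in (0 : ℝ)..n, w s := by
    intro n
    induction n with
    | zero => simp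
    | succ n ih =>
      have h1 := hstep n (n + 1) ⟨by linarith, le_rfl⟩
      push_cast
      rw [h1, ih, add_assoc, intervalIntegral.integral_add_adjacent_intervals
        (hint 0 n le_rfl (by positivity)) (hint n (n + 1) (by positivity) (by linarith))]
  refine ⟨w, hmem, ?_⟩
  intro t ht
  have h1 := hstep ⌊t⌋₊ t ⟨Nat.floor_le ht, (Nat.lt_floor_add_one t).le⟩
  rw [h1, hnat, add_assoc, intervalIntegral.integral_add_adjacent_intervals
    (hint 0 _ le_rfl (by positivity)) (hint _ t (by positivity) (Nat.floor_le ht))]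

end Pool.Agent.NSD
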