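import Pool.Agent.NSD.WeakLimit
import Pool.Agent.NSD.Glue

/-! A7: the `H¹_loc` criterion. -/

open MeasureTheory Set Filter Topology
open scoped RealInnerProductSpace

noncomputable section

namespace Pool.Agent.NSD

/-- Cauchy-Schwarz on an interval. -/
theorem sq_intervalIntegral_le {k : ℝ → ℝ} {a b : ℝ} (hab : a < b)
    (h1 : IntervalIntegrable k volume a b) (h2 : IntervalIntegrable (fun s => k s ^ 2) volume a b) :
    (∫ s in a..b, k s) ^ 2 ≤ (b - a) * ∫ s in a..b, k s ^ 2 := by
  set I := ∫ s in a..b, k s with hI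
  set J := ∫ s in a..b, k s ^ 2 with hJ
  have hpos : 0 < b - a := by linarith
  set c := I / (b - a) with hc
  have h3 : 0 ≤ ∫ s in a..b, (k s - c) ^ 2 :=
    intervalIntegral.integral_nonneg hab.le fun s _ => sq_nonneg _
  have h4 : ∫ s in a..b, (k s - c) ^ 2 = J - 2 * c * I + c ^ 2 * (b - a) := by
    have : ∀ s, (k s - c) ^ 2 = (k s ^ 2 - 2 * c * k s) + c ^ 2 := fun s => by ring
    simp_rw [this]
    rw [intervalIntegral.integral_add (h2.sub (h1.const_mul _)) (by simp),
      intervalIntegral.integral_sub h2 (h1.const_mul _), intervalIntegral.integral_const_mul,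
      intervalIntegral.integral_const, smul_eq_mul]
    ring
  rw [h4] at h3
  have h5 : J - I ^ 2 / (b - a) = J - 2 * c * I + c ^ 2 * (b - a) := by
    rw [hc]; field_simp; ring
  rw [← h5] at h3
  have h6 : I ^ 2 / (b - a) ≤ J := by linarith
  rw [div_le_iff₀ hpos] at h6
  linarith

theorem h1Criterion_proof : Stmt_H1Criterion := by
  intro X _ _ _ x k hk hk0 hx
  choose L hL using hx
  -- integrability of `k`, `k²`
  have hki : ∀ a b : ℝ, 0 ≤ a → a ≤ b → IntervalIntegrable k volume a b := by
    intro a b ha hab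
    rw [intervalIntegrable_iff_integrableOn_Ioc_of_le hab]
    have h1 : IntegrableOn k (Ioc 0 b) := (hk b).integrable one_le_two
    exact h1.mono_set (Ioc_subset_Ioc_left ha)
  have hk2i : ∀ a b : ℝ, 0 ≤ a → a ≤ b → IntervalIntegrable (fun s => k s ^ 2) volume a b := by
    intro a b ha hab
    rw [intervalIntegrable_iff_integrableOn_Ioc_of_le hab]
    have h1 : IntegrableOn (fun s => k s ^ 2) (Ioc 0 b) := (hk b).integrable_sq
    exact h1.mono_set (Ioc_subset_Ioc_left ha)
  -- the continuous extension of `x`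
  let z : ℝ → X := fun t => x (max t 0)
  have hzx : ∀ t, 0 ≤ t → z t = x t := fun t ht => by simp [z, ht]
  have hzc : Continuous z := by
    rw [continuous_iff_continuousAt]
    intro t₀
    -- on `[-1 - |t₀|, T]` with `T = |t₀| + 1`
    set T : ℝ := |t₀| + 1 with hT
    let K : ℝ → ℝ := fun t => ∫ r in (0 : ℝ)..t, k r
    have hKc : ContinuousOn K (Icc 0 T) := by
      have := intervalIntegral.continuousOn_primitive_interval (μ := volume) (f := k) (a := 0) (b := T)
        (by
          rw [uIcc_of_le (by positivity), integrableOn_Icc_iff_integrableOn_Ioc]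
          exact (hk T).integrable one_le_two)
      rwa [uIcc_of_le (by positivity)] at this
    have hKz : ContinuousAt (fun t => K (max t 0)) t₀ := by
      have h1 : ContinuousWithinAt K (Icc 0 T) (max t₀ 0) := hKc _ ⟨le_max_right _ _, by
        rw [hT]; exact max_le (by linarith [le_abs_self t₀]) (by positivity)⟩
      have h2 : Tendsto (fun t : ℝ => max t 0) (𝓝 t₀) (𝓝[Icc 0 T] (max t₀ 0)) := by
        rw [tendsto_nhdsWithin_iff]
        refine ⟨(continuous_id.max continuous_const).tendsto t₀, ?_⟩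
        have : Iio T ∈ 𝓝 t₀ := Iio_mem_nhds (by rw [hT]; linarith [le_abs_self t₀])
        filter_upwards [this] with t ht
        exact ⟨le_max_right _ _, max_le (le_of_lt ht) (by positivity)⟩
      exact Filter.Tendsto.comp h1 h2
    rw [ContinuousAt, tendsto_iff_dist_tendsto_zero]
    have hbound : ∀ᶠ t in 𝓝 t₀, dist (z t) (z t₀) ≤ |L T| * dist (K (max t 0)) (K (max t₀ 0)) := by
      have : Iio T ∈ 𝓝 t₀ := Iio_mem_nhds (by rw [hT]; linarith [le_abs_self t₀])
      filter_upwards [this] with t ht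
      have key : ∀ a b : ℝ, 0 ≤ a → a ≤ b → b ≤ T → ‖x b - x a‖ ≤ |L T| * dist (K b) (K a) := by
        intro a b ha hab hbT
        refine (hL T a b ha hab hbT).trans ?_
        have h3 : K b - K a = ∫ r in a..b, k r :=
          intervalIntegral.integral_interval_sub_left (hki 0 b le_rfl (ha.trans hab)) (hki 0 a le_rfl ha)
        rw [Real.dist_eq, h3]
        have h4 : 0 ≤ ∫ r in a..b, k r := intervalIntegral.integral_nonneg hab fun s _ => hk0 s
        rw [abs_of_nonneg h4]
        exact mul_le_mul_of_nonneg_right (le_abs_self _) h4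
      have hb1 : max t 0 ≤ T := max_le (le_of_lt ht) (by positivity)
      have hb2 : max t₀ 0 ≤ T := max_le (by rw [hT]; linarith [le_abs_self t₀]) (by positivity)
      rcases le_total (max t 0) (max t₀ 0) with h | h
      · rw [dist_comm (z t), dist_comm (K _), dist_eq_norm (z t₀)]
        exact key _ _ (le_max_right _ _) h hb2
      · rw [dist_eq_norm (z t)]
        exact key _ _ (le_max_right _ _) h hb1
    refine squeeze_zero' (Eventually.of_forall fun _ => dist_nonneg) hbound ?_
    have h5 := (tendsto_iff_dist_tendsto_zero.mp hKz)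
    simpa using h5.const_mul |L T|
  -- it suffices to treat each interval
  apply glue_proof
  intro n
  have hn0 : (0 : ℝ) ≤ n := by positivity
  let h : ℕ → ℝ := fun j => 1 / ((j : ℝ) + 1)
  have hh0 : ∀ j, 0 < h j := fun j => by positivity
  have hh1 : ∀ j, h j ≤ 1 := fun j => by
    show 1 / ((j : ℝ) + 1) ≤ 1
    rw [div_le_one (by positivity)]; linarith [(Nat.cast_nonneg j : (0 : ℝ) ≤ j)]
  let xj : ℕ → ℝ → X := fun j t => (h j)⁻¹ • ∫ r in t..(t + h j), z r
  let yj : ℕ → ℝ → X := fun j t => (h j)⁻¹ • (z (t + h j) - z t)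
  have hzi : ∀ a b : ℝ, IntervalIntegrable z volume a b := fun a b => hzc.intervalIntegrable a b
  have hyc : ∀ j, Continuous (yj j) := fun j => by
    show Continuous fun t => (h j)⁻¹ • (z (t + h j) - z t)
    fun_prop
  let G : ℝ → ℝ := fun t => ∫ r in (0 : ℝ)..t, k r ^ 2
  have hGsub : ∀ a b : ℝ, 0 ≤ a → a ≤ b → ∫ r in a..b, k r ^ 2 = G b - G a := by
    intro a b ha hab
    exact (intervalIntegral.integral_interval_sub_left (hk2i 0 b le_rfl (ha.trans hab))
      (hk2i 0 a le_rfl ha)).symm
  have hGmono : ∀ a b : ℝ, 0 ≤ a → a ≤ b → G a ≤ G b := by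
    intro a b ha hab
    have h1 := hGsub a b ha hab
    have h2 : 0 ≤ ∫ r in a..b, k r ^ 2 := intervalIntegral.integral_nonneg hab fun s _ => sq_nonneg _
    linarith
  have hGc : ∀ a b : ℝ, 0 ≤ a → a ≤ b → IntervalIntegrable G volume a b := by
    intro a b ha hab
    apply MonotoneOn.intervalIntegrable
    rw [uIcc_of_le hab]
    intro s hs t ht hst
    exact hGmono s t (ha.trans hs.1) hst
  have hG0 : ∀ t, 0 ≤ t → 0 ≤ G t := fun t ht => by
    have := hGmono 0 t le_rfl ht
    simpa [G] using this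
  have main := weakLimit_proof X (n : ℝ) (n + 1) ((L (n + 2)) ^ 2 * G (n + 2)) xj yj z (by linarith)
    (fun j => ?_) (fun j => ?_) (fun j t ht => ?_) (fun t ht => ?_)
  · obtain ⟨w, hw1, -, hw3⟩ := main
    refine ⟨w, hw1, fun t ht => ?_⟩
    have := hw3 t ht
    rwa [hzx t (hn0.trans ht.1), hzx n hn0] at this
  · -- MemLp
    obtain ⟨C, hC⟩ := (isCompact_Icc (a := (n : ℝ)) (b := n + 1)).exists_bound_of_continuousOn
      (hyc j).continuousOn
    refine MemLp.of_bound (hyc j).aestronglyMeasurable C ?_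
    filter_upwards [ae_restrict_mem measurableSet_Ioc] with s hs
    exact hC s ⟨hs.1.le, hs.2⟩
  · -- the bound
    have hpt : ∀ s ∈ Icc (n : ℝ) (n + 1), ‖yj j s‖ ^ 2
        ≤ (L (n + 2)) ^ 2 * ((h j)⁻¹ * (G (s + h j) - G s)) := by
      intro s hs
      have hs0 : 0 ≤ s := hn0.trans hs.1
      have h1 := hL (n + 2) s (s + h j) hs0 (by linarith [hh0 j]) (by linarith [hh1 j, hs.2])
      have h2 := sq_intervalIntegral_le (k := k) (a := s) (b := s + h j) (by linarith [hh0 j])
        (hki _ _ hs0 (by linarith [hh0 j])) (hk2i _ _ hs0 (by linarith [hh0 j]))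
      rw [hGsub _ _ hs0 (by linarith [hh0 j])] at h2
      have h3 : ‖yj j s‖ = (h j)⁻¹ * ‖x (s + h j) - x s‖ := by
        show ‖(h j)⁻¹ • (z (s + h j) - z s)‖ = _
        rw [norm_smul, Real.norm_of_nonneg (inv_nonneg.mpr (hh0 j).le), hzx s hs0,
          hzx (s + h j) (by linarith [hh0 j])]
      rw [h3, mul_pow]
      have h4 : ‖x (s + h j) - x s‖ ^ 2 ≤ (L (n + 2)) ^ 2 * (∫ r in s..(s + h j), k r) ^ 2 := by
        rw [← mul_pow]
        exact pow_le_pow_left₀ (norm_nonneg _) h1 2
      have h5 : s + h j - s = h j := by ring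
      rw [h5] at h2
      have h6 : (h j)⁻¹ * h j = 1 := inv_mul_cancel₀ (hh0 j).ne'
      calc (h j)⁻¹ ^ 2 * ‖x (s + h j) - x s‖ ^ 2
          ≤ (h j)⁻¹ ^ 2 * ((L (n + 2)) ^ 2 * (∫ r in s..(s + h j), k r) ^ 2) := by gcongr
        _ ≤ (h j)⁻¹ ^ 2 * ((L (n + 2)) ^ 2 * (h j * (G (s + h j) - G s))) := by gcongr
        _ = (L (n + 2)) ^ 2 * (((h j)⁻¹ * h j) * ((h j)⁻¹ * (G (s + h j) - G s))) := by ring
        _ = _ := by rw [h6, one_mul]
    have hGshift : IntervalIntegrable (fun s => G (s + h j)) volume (n : ℝ) (n + 1) := by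
      have := (hGc (n + h j) (n + 1 + h j) (by linarith [hh0 j]) (by linarith)).comp_add_right (h j)
      simpa using this
    have hGi := hGc (n : ℝ) (n + 1) hn0 (by linarith)
    calc ∫ s in (n : ℝ)..(n + 1), ‖yj j s‖ ^ 2
        ≤ ∫ s in (n : ℝ)..(n + 1), (L (n + 2)) ^ 2 * ((h j)⁻¹ * (G (s + h j) - G s)) := by
          apply intervalIntegral.integral_mono_on (by linarith)
          · exact ((hyc j).norm.pow 2).intervalIntegrable _ _
          · exact ((hGshift.sub hGi).const_mul _).const_mul _
          · exact hpt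
      _ = (L (n + 2)) ^ 2 * ((h j)⁻¹ * ((∫ s in (n : ℝ)..(n + 1), G (s + h j)) -
            ∫ s in (n : ℝ)..(n + 1), G s)) := by
          rw [intervalIntegral.integral_const_mul, intervalIntegral.integral_const_mul,
            intervalIntegral.integral_sub hGshift hGi]
      _ = (L (n + 2)) ^ 2 * ((h j)⁻¹ * ((∫ s in ((n : ℝ) + 1)..(n + 1 + h j), G s) -
            ∫ s in (n : ℝ)..(n + h j), G s)) := by
          rw [intervalIntegral.integral_comp_add_right (fun s => G s) (h j)]
          congr 2
          have e1 : (∫ s in (n : ℝ)..(n + h j), G s) + ∫ s in ((n : ℝ) + h j)..(n + 1 + h j), G s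
              = ∫ s in (n : ℝ)..(n + 1 + h j), G s :=
            intervalIntegral.integral_add_adjacent_intervals
              (hGc _ _ hn0 (by linarith [hh0 j])) (hGc _ _ (by linarith [hh0 j]) (by linarith))
          have e2 : (∫ s in (n : ℝ)..(n + 1), G s) + ∫ s in ((n : ℝ) + 1)..(n + 1 + h j), G s
              = ∫ s in (n : ℝ)..(n + 1 + h j), G s :=
            intervalIntegral.integral_add_adjacent_intervals
              (hGc _ _ hn0 (by linarith)) (hGc _ _ (by linarith) (by linarith [hh0 j]))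
          linarith
      _ ≤ (L (n + 2)) ^ 2 * ((h j)⁻¹ * (h j * G (n + 2) - 0)) := by
          have e3 : ∫ s in ((n : ℝ) + 1)..(n + 1 + h j), G s ≤ h j * G (n + 2) := by
            have : ∫ s in ((n : ℝ) + 1)..(n + 1 + h j), G s
                ≤ ∫ s in ((n : ℝ) + 1)..(n + 1 + h j), G (n + 2) := by
              apply intervalIntegral.integral_mono_on (by linarith [hh0 j])
                (hGc _ _ (by linarith) (by linarith [hh0 j])) (by simp)
              intro s hs
              exact hGmono _ _ (by linarith [hs.1]) (by linarith [hs.2, hh1 j])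
            refine this.trans (le_of_eq ?_)
            rw [intervalIntegral.integral_const, smul_eq_mul]
            ring
          have e4 : 0 ≤ ∫ s in (n : ℝ)..(n + h j), G s :=
            intervalIntegral.integral_nonneg (by linarith [hh0 j]) fun s hs => hG0 s (hn0.trans hs.1)
          have := (inv_pos.mpr (hh0 j)).le
          gcongr
      _ = (L (n + 2)) ^ 2 * G (n + 2) := by
          have h6 : (h j)⁻¹ * h j = 1 := inv_mul_cancel₀ (hh0 j).ne'
          rw [sub_zero, ← mul_assoc (h j)⁻¹, h6, one_mul]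
  · -- `xj` is a primitive of `yj`
    show (h j)⁻¹ • (∫ r in t..(t + h j), z r) = (h j)⁻¹ • (∫ r in (n : ℝ)..(n + h j), z r)
      + ∫ s in (n : ℝ)..t, (h j)⁻¹ • (z (s + h j) - z s)
    have hsh : IntervalIntegrable (fun s => z (s + h j)) volume (n : ℝ) t :=
      (hzc.comp (continuous_add_const (h j))).intervalIntegrable _ _
    rw [intervalIntegral.integral_smul, intervalIntegral.integral_sub hsh (hzi _ _),
      intervalIntegral.integral_comp_add_right (fun s => z s) (h j), ← smul_add]
    congr 1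
    have e1 : (∫ s in (n : ℝ)..(n + h j), z s) + ∫ s in ((n : ℝ) + h j)..(t + h j), z s
        = ∫ s in (n : ℝ)..(t + h j), z s :=
      intervalIntegral.integral_add_adjacent_intervals (hzi _ _) (hzi _ _)
    have e2 : (∫ s in (n : ℝ)..t, z s) + ∫ s in t..(t + h j), z s
        = ∫ s in (n : ℝ)..(t + h j), z s :=
      intervalIntegral.integral_add_adjacent_intervals (hzi _ _) (hzi _ _)
    have e3 := e1.trans e2.symm
    rw [← add_sub_assoc, e3]
    abel
  · -- pointwise convergence
    have hd : HasDerivAt (fun u => ∫ r in (0 : ℝ)..u, z r) (z t) t :=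
      intervalIntegral.integral_hasDerivAt_right (hzi _ _)
        (hzc.stronglyMeasurableAtFilter _ _) hzc.continuousAt
    have h1 := hd.tendsto_slope_zero
    have h2 : Tendsto h atTop (𝓝[≠] 0) := by
      rw [tendsto_nhdsWithin_iff]
      refine ⟨tendsto_one_div_add_atTop_nhds_zero_nat, Eventually.of_forall fun j => (hh0 j).ne'⟩
    refine (h1.comp h2).congr fun j => ?_
    show (h j)⁻¹ • ((∫ r in (0 : ℝ)..(t + h j), z r) - ∫ r in (0 : ℝ)..t, z r)
      = (h j)⁻¹ • ∫ r in t..(t + h j), z r
    rw [intervalIntegral.integral_interval_sub_left (hzi _ _) (hzi _ _)]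

end Pool.Agent.NSD
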