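import Pool.Agent.NSD.Basic
import Pool.Agent.NSD.BasicH4
import Pool.Agent.NSD.H1Criterion

/-! A9: the abstract density theorem, from the solvability of the nonlocal-viscosity problem. -/

open MeasureTheory Set Filter Topology
open scoped RealInnerProductSpace

noncomputable section

namespace Pool.Agent.NSD

namespace H25

section
variable {V K : Type*} [NormedAddCommGroup V] [InnerProductSpace ℝ V]
    [NormedAddCommGroup K] [InnerProductSpace ℝ K]

theorem a_cs (D : Data V K) (u v : V) : D.a u v ^ 2 ≤ D.a u u * D.a v v := by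
  by_cases hv : v = 0
  · simp [hv]
  have h1 : 0 < D.a v v := by
    have := D.a_coer v
    have h2 : 0 < D.c₀ * ‖v‖ ^ 2 := mul_pos D.c₀_pos (by positivity)
    linarith
  set c := D.a u v / D.a v v with hc
  have h3 : 0 ≤ D.a (u - c • v) (u - c • v) := H4.a_nonneg D _
  have h4 : D.a (u - c • v) (u - c • v) = D.a u u - 2 * c * D.a u v + c ^ 2 * D.a v v := by
    simp only [map_sub, map_smul, _root_.sub_apply, _root_.smul_apply,
      smul_eq_mul]
    rw [D.a_symm v u]
    ring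
  rw [h4] at h3
  have h5 : D.a u u - 2 * c * D.a u v + c ^ 2 * D.a v v = D.a u u - D.a u v ^ 2 / D.a v v := by
    rw [hc]; field_simp; ring
  rw [h5] at h3
  have h6 : D.a u v ^ 2 / D.a v v ≤ D.a u u := by linarith
  rwa [div_le_iff₀ h1] at h6

theorem abs_a_le (D : Data V K) (u v : V) : |D.a u v| ≤ D.sig u * D.sig v := by
  have h1 := a_cs D u v
  rw [← H4.sig_sq, ← H4.sig_sq, ← mul_pow] at h1
  exact abs_le_of_sq_le_sq h1 (mul_nonneg (H4.sig_nonneg D u) (H4.sig_nonneg D v))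

theorem sig_le_norm (D : Data V K) (v : V) : D.sig v ≤ ‖v‖ := by
  unfold Data.sig
  rw [Real.sqrt_le_left (norm_nonneg v)]
  exact D.a_le v

theorem norm_a_le (D : Data V K) (u : V) : ‖D.a u‖ ≤ D.sig u := by
  refine ContinuousLinearMap.opNorm_le_bound _ (H4.sig_nonneg D u) fun v => ?_
  rw [Real.norm_eq_abs]
  exact (abs_a_le D u v).trans (mul_le_mul_of_nonneg_left (sig_le_norm D v) (H4.sig_nonneg D u))

theorem sig_sub_le (D : Data V K) (u v : V) : |D.sig u - D.sig v| ≤ ‖u - v‖ := by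
  have tri : ∀ x y : V, D.sig (x + y) ≤ D.sig x + D.sig y := by
    intro x y
    apply le_of_sq_le_sq _ (add_nonneg (H4.sig_nonneg D x) (H4.sig_nonneg D y))
    rw [H4.sig_sq, add_sq, H4.sig_sq, H4.sig_sq]
    have h1 := (abs_le.mp (abs_a_le D x y)).2
    simp only [map_add, _root_.add_apply]
    rw [D.a_symm y x]
    linarith
  have h1 : D.sig u ≤ D.sig (u - v) + D.sig v := by simpa using tri (u - v) v
  have h2 : D.sig v ≤ D.sig (v - u) + D.sig u := by simpa using tri (v - u) u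
  have h3 := sig_le_norm D (u - v)
  have h4 := sig_le_norm D (v - u)
  rw [norm_sub_rev] at h4
  rw [abs_le]
  constructor <;> linarith

theorem phi_lip {ε κ : ℝ} (hε : 0 ≤ ε) (hκ : 0 < κ) (s t : ℝ) :
    |phi ε κ s - phi ε κ t| ≤ ε / (2 * √κ) * |s - t| := by
  have hk : 0 < √κ := Real.sqrt_pos.mpr hκ
  have h0 : phi ε κ s - phi ε κ t = ε * (√(max s κ) - √(max t κ)) := by unfold phi; ring
  rw [h0, abs_mul, abs_of_nonneg hε]
  have h1 : √κ ≤ √(max s κ) := Real.sqrt_le_sqrt (le_max_right _ _)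
  have h2 : √κ ≤ √(max t κ) := Real.sqrt_le_sqrt (le_max_right _ _)
  have h3 : (√(max s κ) - √(max t κ)) * (√(max s κ) + √(max t κ)) = max s κ - max t κ := by
    have e1 : √(max s κ) ^ 2 = max s κ := Real.sq_sqrt (hκ.le.trans (le_max_right _ _))
    have e2 : √(max t κ) ^ 2 = max t κ := Real.sq_sqrt (hκ.le.trans (le_max_right _ _))
    nlinarith
  have h4 : |√(max s κ) - √(max t κ)| * (√(max s κ) + √(max t κ)) = |max s κ - max t κ| := by
    rw [← h3, abs_mul, abs_of_pos (by linarith : 0 < √(max s κ) + √(max t κ))]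
  have h5 : |max s κ - max t κ| ≤ |s - t| := abs_max_sub_max_le_abs s t κ
  have h6 : |√(max s κ) - √(max t κ)| * (2 * √κ) ≤ |s - t| := by
    calc |√(max s κ) - √(max t κ)| * (2 * √κ) ≤ |√(max s κ) - √(max t κ)| * (√(max s κ) + √(max t κ)) := by
          apply mul_le_mul_of_nonneg_left _ (abs_nonneg _); linarith
      _ ≤ |s - t| := by rw [h4]; exact h5
  have h7 : |√(max s κ) - √(max t κ)| ≤ |s - t| / (2 * √κ) := by
    rwa [le_div_iff₀ (by positivity)]
  calc ε * |√(max s κ) - √(max t κ)| ≤ ε * (|s - t| / (2 * √κ)) := mul_le_mul_of_nonneg_left h7 hε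
    _ = ε / (2 * √κ) * |s - t| := by ring

theorem phi_le_sqrt {ε κ : ℝ} (hε : 0 ≤ ε) {s : ℝ} : phi ε κ s ≤ ε * √s := by
  unfold phi
  apply mul_le_mul_of_nonneg_left _ hε
  rcases le_total s κ with h | h
  · rw [max_eq_right h, sub_self]; exact Real.sqrt_nonneg _
  · rw [max_eq_left h]; linarith [Real.sqrt_nonneg κ]

theorem phi_eq_zero {ε κ s : ℝ} (h : s ≤ κ) : phi ε κ s = 0 := by
  unfold phi; rw [max_eq_right h, sub_self, mul_zero]

theorem rpow_phi {ε κ s : ℝ} (hε : 0 ≤ ε) (hs : 0 ≤ s) :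
    (phi ε κ s * s) ^ (5 / 3 : ℝ) ≤ ε ^ (2 / 3 : ℝ) * (phi ε κ s * s ^ 2) := by
  have hp : 0 ≤ phi ε κ s := H4.phi_nonneg hε s
  have hps : 0 ≤ phi ε κ s * s := mul_nonneg hp hs
  rcases eq_or_lt_of_le hps with h0 | h0
  · rw [← h0, Real.zero_rpow (by norm_num)]
    have := mul_nonneg hps hs
    have : 0 ≤ phi ε κ s * s ^ 2 := by rw [pow_two, ← mul_assoc]; exact this
    positivity
  · have e1 : (phi ε κ s * s) ^ (5 / 3 : ℝ) = (phi ε κ s * s) * (phi ε κ s * s) ^ (2 / 3 : ℝ) := by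
      have h1 := Real.rpow_add h0 1 (2 / 3)
      rw [Real.rpow_one] at h1
      rw [← h1]; norm_num
    have e2 : (phi ε κ s * s) ^ (2 / 3 : ℝ) ≤ ε ^ (2 / 3 : ℝ) * s := by
      have h1 : phi ε κ s * s ≤ ε * s ^ (3 / 2 : ℝ) := by
        calc phi ε κ s * s ≤ ε * √s * s := mul_le_mul_of_nonneg_right (phi_le_sqrt hε) hs
          _ = ε * s ^ (3 / 2 : ℝ) := by
            have hs' : 0 < s := by
              rcases eq_or_lt_of_le hs with h | h
              · rw [← h, mul_zero] at h0; exact absurd h0 (lt_irrefl _)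
              · exact h
            rw [mul_assoc, Real.sqrt_eq_rpow]
            congr 1
            conv_lhs => rw [← Real.rpow_one s]
            rw [← Real.rpow_mul hs, ← Real.rpow_add hs']
            norm_num
      calc (phi ε κ s * s) ^ (2 / 3 : ℝ) ≤ (ε * s ^ (3 / 2 : ℝ)) ^ (2 / 3 : ℝ) :=
            Real.rpow_le_rpow hps h1 (by norm_num)
        _ = ε ^ (2 / 3 : ℝ) * s := by
            rw [Real.mul_rpow hε (by positivity), ← Real.rpow_mul hs]
            norm_num
    rw [e1]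
    calc phi ε κ s * s * (phi ε κ s * s) ^ (2 / 3 : ℝ) ≤ phi ε κ s * s * (ε ^ (2 / 3 : ℝ) * s) :=
          mul_le_mul_of_nonneg_left e2 hps
      _ = ε ^ (2 / 3 : ℝ) * (phi ε κ s * s ^ 2) := by ring

end

/-- An `H¹_loc` function is continuous on `[0,T]`. -/
theorem contOn_of_isH1loc {X : Type*} [NormedAddCommGroup X] [NormedSpace ℝ X] {u w : ℝ → X}
    (h : IsH1loc u w) (T : ℝ) : ContinuousOn u (Icc 0 T) := by
  rcases lt_or_ge T 0 with hT | hT
  · rw [Icc_eq_empty (by linarith)]; exact continuousOn_empty _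
  have h1 : IntegrableOn w (uIcc 0 T) := by
    rw [uIcc_of_le hT, integrableOn_Icc_iff_integrableOn_Ioc]
    exact (h.memLp T).integrable one_le_two
  have h2 := intervalIntegral.continuousOn_primitive_interval h1
  rw [uIcc_of_le hT] at h2
  refine (continuousOn_const.add h2).congr fun t ht => h.eq t ht.1

end H25

open H25 in
theorem abstractFinal_proof (hA : Stmt_Abstract) : Stmt_AbstractFinal := by
  intro V K _ _ _ _ _ D η τ f f₁ u₀ h₀ hη hτ hf hcomp
  have hc₀ := D.c₀_pos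
  -- parameters
  set M : ℝ := max 1 (1 / (D.c₀ * η)) with hM
  have hM1 : 1 ≤ M := le_max_left _ _
  have hM2 : 1 / (D.c₀ * η) ≤ M := le_max_right _ _
  have hM0 : 0 < M := by linarith
  set ε : ℝ := (τ / M) ^ (3 / 2 : ℝ) with hε
  have hε0 : 0 < ε := by positivity
  have hε23 : ε ^ (2 / 3 : ℝ) = τ / M := by
    rw [hε, ← Real.rpow_mul (by positivity)]; norm_num
  set κ : ℝ := max (D.sig u₀) (max 1 (M / (η * τ))) with hκ
  have hκ0 : D.sig u₀ ≤ κ := le_max_left _ _
  have hκ1 : 1 ≤ κ := (le_max_left _ _).trans (le_max_right _ _)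
  have hκ2 : M / (η * τ) ≤ κ := (le_max_right _ _).trans (le_max_right _ _)
  have hκpos : 0 < κ := by linarith
  obtain ⟨u, w, huw, hu0, hbd, heq, hid, hineq⟩ := hA V K D η ε κ f f₁ u₀ h₀ hη hε0 hκpos hf hκ0 hcomp
  -- the correction
  let P : V → V →L[ℝ] ℝ := fun v => phi ε κ (D.sig v) • D.a v
  have hucont : ∀ T, ContinuousOn u (Icc 0 T) := contOn_of_isH1loc huw
  have hAc : ∀ T, ContinuousOn (fun s => D.a (u s) (u s)) (Icc 0 T) := fun T =>
    (H4.continuous_aa D).comp_continuousOn (hucont T)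
  have hpc : ∀ T, ContinuousOn (fun s => phi ε κ (D.sig (u s))) (Icc 0 T) := fun T =>
    (H4.continuous_phi_sig D ε κ).comp_continuousOn (hucont T)
  have hAi : ∀ T, 0 ≤ T → IntervalIntegrable (fun s => D.a (u s) (u s)) volume 0 T := fun T hT =>
    ContinuousOn.intervalIntegrable (by rw [uIcc_of_le hT]; exact hAc T)
  have hpAi : ∀ T, 0 ≤ T → IntervalIntegrable (fun s => phi ε κ (D.sig (u s)) * D.a (u s) (u s)) volume 0 T :=
    fun T hT => ContinuousOn.intervalIntegrable (by rw [uIcc_of_le hT]; exact (hpc T).mul (hAc T))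
  have hA0 : ∀ s, 0 ≤ D.a (u s) (u s) := fun s => H4.a_nonneg D _
  have hp0 : ∀ s, 0 ≤ phi ε κ (D.sig (u s)) := fun s => H4.phi_nonneg hε0.le _
  have hIA : ∀ T, 0 ≤ T → 0 ≤ ∫ s in (0 : ℝ)..T, D.a (u s) (u s) := fun T hT =>
    intervalIntegral.integral_nonneg hT fun s _ => hA0 s
  have hIp : ∀ T, 0 ≤ T → 0 ≤ ∫ s in (0 : ℝ)..T, phi ε κ (D.sig (u s)) * D.a (u s) (u s) := fun T hT =>
    intervalIntegral.integral_nonneg hT fun s _ => mul_nonneg (hp0 s) (hA0 s)
  have hS : ∀ T, 0 ≤ T → 0 ≤ ∫ s in (0 : ℝ)..T, ‖f s‖ ^ 2 := fun T hT =>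
    intervalIntegral.integral_nonneg hT fun s _ => sq_nonneg _
  have hE : ∀ T, 0 ≤ T → ‖D.ι u₀‖ ^ 2 + 1 / (D.c₀ * η) * ∫ s in (0 : ℝ)..T, ‖f s‖ ^ 2
      ≤ M * (‖D.ι u₀‖ ^ 2 + ∫ s in (0 : ℝ)..T, ‖f s‖ ^ 2) := by
    intro T hT
    have h1 := mul_le_mul_of_nonneg_right hM2 (hS T hT)
    have h2 := mul_le_mul_of_nonneg_right hM1 (sq_nonneg ‖D.ι u₀‖)
    linarith
  have hsplit : ∀ c T : ℝ, 0 ≤ T → ∫ s in (0 : ℝ)..T, (η + c * phi ε κ (D.sig (u s))) * D.a (u s) (u s)
      = η * (∫ s in (0 : ℝ)..T, D.a (u s) (u s))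
        + c * ∫ s in (0 : ℝ)..T, phi ε κ (D.sig (u s)) * D.a (u s) (u s) := by
    intro c T hT
    rw [← intervalIntegral.integral_const_mul, ← intervalIntegral.integral_const_mul,
      ← intervalIntegral.integral_add ((hAi T hT).const_mul _) ((hpAi T hT).const_mul _)]
    congr 1; ext s; ring
  have hineq' : ∀ T, 0 ≤ T → η * (∫ s in (0 : ℝ)..T, D.a (u s) (u s))
        + 2 * ∫ s in (0 : ℝ)..T, phi ε κ (D.sig (u s)) * D.a (u s) (u s)
      ≤ M * (‖D.ι u₀‖ ^ 2 + ∫ s in (0 : ℝ)..T, ‖f s‖ ^ 2) := by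
    intro T hT
    rw [← hsplit 2 T hT]
    exact (hineq T hT).trans (hE T hT)
  have hPn : ∀ v, ‖P v‖ ≤ phi ε κ (D.sig v) * D.sig v := by
    intro v
    show ‖phi ε κ (D.sig v) • D.a v‖ ≤ _
    rw [norm_smul, Real.norm_of_nonneg (H4.phi_nonneg hε0.le _)]
    exact mul_le_mul_of_nonneg_left (norm_a_le D v) (H4.phi_nonneg hε0.le _)
  -- the Riesz representative of the correction
  let I : V →L[ℝ] (V →L[ℝ] ℝ) := innerSL ℝ
  let R : V → V := fun v => (InnerProductSpace.toDual ℝ V).symm (P v)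
  have hIR : ∀ v, I (R v) = P v := by
    intro v
    ext z
    show ⟪(InnerProductSpace.toDual ℝ V).symm (P v), z⟫ = P v z
    exact InnerProductSpace.toDual_symm_apply
  have hRsub : ∀ v v', ‖R v - R v'‖ = ‖P v - P v'‖ := by
    intro v v'
    show ‖(InnerProductSpace.toDual ℝ V).symm (P v) - (InnerProductSpace.toDual ℝ V).symm (P v')‖ = _
    rw [← map_sub, LinearIsometryEquiv.norm_map]
  have hPlip : ∀ B : ℝ, ∀ v v', ‖v‖ ≤ B → ‖v'‖ ≤ B →
      ‖P v - P v'‖ ≤ (ε / (2 * √κ) * B + phi ε κ B) * ‖v - v'‖ := by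
    intro B v v' hv hv'
    have h1 : P v - P v' = (phi ε κ (D.sig v) - phi ε κ (D.sig v')) • D.a v
        + phi ε κ (D.sig v') • D.a (v - v') := by
      ext z
      show phi ε κ (D.sig v) * D.a v z - phi ε κ (D.sig v') * D.a v' z
        = (phi ε κ (D.sig v) - phi ε κ (D.sig v')) * D.a v z + phi ε κ (D.sig v') * D.a (v - v') z
      rw [map_sub]
      show _ = _ + phi ε κ (D.sig v') * (D.a v z - D.a v' z)
      ring
    rw [h1]
    refine (norm_add_le _ _).trans ?_
    rw [norm_smul, norm_smul, Real.norm_eq_abs, Real.norm_of_nonneg (H4.phi_nonneg hε0.le _), add_mul]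
    have hB : 0 ≤ B := (norm_nonneg v).trans hv
    have hκs : 0 < √κ := Real.sqrt_pos.mpr hκpos
    have h2 : |phi ε κ (D.sig v) - phi ε κ (D.sig v')| ≤ ε / (2 * √κ) * ‖v - v'‖ :=
      (phi_lip hε0.le hκpos _ _).trans
        (mul_le_mul_of_nonneg_left (sig_sub_le D v v') (by positivity))
    have h3 : ‖D.a v‖ ≤ B := (norm_a_le D v).trans ((sig_le_norm D v).trans hv)
    have h4 : phi ε κ (D.sig v') ≤ phi ε κ B := H4.phi_mono hε0.le ((sig_le_norm D v').trans hv')
    have h5 : ‖D.a (v - v')‖ ≤ ‖v - v'‖ := (norm_a_le D _).trans (sig_le_norm D _)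
    have h6 : |phi ε κ (D.sig v) - phi ε κ (D.sig v')| * ‖D.a v‖ ≤ ε / (2 * √κ) * ‖v - v'‖ * B :=
      mul_le_mul h2 h3 (norm_nonneg _) (by positivity)
    have h7 : phi ε κ (D.sig v') * ‖D.a (v - v')‖ ≤ phi ε κ B * ‖v - v'‖ :=
      mul_le_mul h4 h5 (norm_nonneg _) ((H4.phi_nonneg hε0.le _))
    calc _ ≤ ε / (2 * √κ) * ‖v - v'‖ * B + phi ε κ B * ‖v - v'‖ := add_le_add h6 h7
      _ = _ := by ring
  obtain ⟨x₁, hx₁⟩ := h1Criterion_proof V (fun t => R (u t)) (fun t => ‖w t‖)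
    (fun T => (huw.memLp T).norm) (fun t => norm_nonneg _) (by
      intro T
      obtain ⟨B, hB⟩ := (isCompact_Icc (a := (0 : ℝ)) (b := T)).exists_bound_of_continuousOn (hucont T)
      refine ⟨ε / (2 * √κ) * B + phi ε κ B, fun s t hs hst htT => ?_⟩
      show ‖R (u t) - R (u s)‖ ≤ _
      rw [hRsub]
      have hBs := hB s ⟨hs, hst.trans htT⟩
      have hBt := hB t ⟨hs.trans hst, htT⟩
      refine (hPlip B _ _ hBt hBs).trans ?_
      have hB0 : 0 ≤ B := (norm_nonneg _).trans hBs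
      have hκs : 0 < √κ := Real.sqrt_pos.mpr hκpos
      have hcoef : 0 ≤ ε / (2 * √κ) * B + phi ε κ B :=
        add_nonneg (by positivity) (H4.phi_nonneg hε0.le _)
      refine mul_le_mul_of_nonneg_left ?_ hcoef
      have hwi : ∀ T', 0 ≤ T' → IntervalIntegrable w volume 0 T' := fun T' hT' => by
        rw [intervalIntegrable_iff_integrableOn_Ioc_of_le hT']
        exact (huw.memLp T').integrable one_le_two
      have h1 : u t - u s = ∫ r in s..t, w r := by
        rw [huw.eq t (hs.trans hst), huw.eq s hs, add_sub_add_left_eq_sub]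
        exact intervalIntegral.integral_interval_sub_left (hwi t (hs.trans hst)) (hwi s hs)
      rw [h1]
      exact intervalIntegral.norm_integral_le_integral_norm hst)
  have hgf : ∀ t, f t - P (u t) - f t = - P (u t) := fun t => by abel
  refine ⟨fun t => f t - P (u t), fun t => f₁ t - I (x₁ t), u, w, ⟨?_, ?_⟩, ?_, huw, hu0, hbd, ?_, ?_, ?_, ?_⟩
  · intro T
    exact (hf.memLp T).sub (I.comp_memLp' (hx₁.memLp T))
  · intro t ht
    have hf1i : IntervalIntegrable f₁ volume 0 t := by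
      rw [intervalIntegrable_iff_integrableOn_Ioc_of_le ht]
      exact (hf.memLp t).integrable one_le_two
    have hx1i : IntervalIntegrable x₁ volume 0 t := by
      rw [intervalIntegrable_iff_integrableOn_Ioc_of_le ht]
      exact (hx₁.memLp t).integrable one_le_two
    have hIx1i : IntervalIntegrable (fun s => I (x₁ s)) volume 0 t := by
      rw [intervalIntegrable_iff_integrableOn_Ioc_of_le ht]
      exact (I.comp_memLp' (hx₁.memLp t)).integrable one_le_two
    have h1 : P (u t) = P (u 0) + ∫ s in (0 : ℝ)..t, I (x₁ s) := by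
      rw [← hIR (u t), ← hIR (u 0), show R (u t) = R (u 0) + ∫ s in (0 : ℝ)..t, x₁ s from hx₁.eq t ht,
        map_add, I.intervalIntegral_comp_comm hx1i]
    show f t - P (u t) = f 0 - P (u 0) + ∫ s in (0 : ℝ)..t, (f₁ s - I (x₁ s))
    rw [intervalIntegral.integral_sub hf1i hIx1i, hf.eq t ht, h1]
    abel
  · show f 0 - phi ε κ (D.sig (u 0)) • D.a (u 0) = f 0
    rw [hu0, phi_eq_zero hκ0, zero_smul, sub_zero]
  · filter_upwards [heq] with t ht v
    have := ht v
    show _ = f t v - phi ε κ (D.sig (u t)) * D.a (u t) v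
    rw [← this]; ring
  · intro T hT
    have h1 := hid T hT
    have h2 := hsplit 1 T hT
    simp only [one_mul] at h2
    rw [h2] at h1
    have h3 := hIp T hT
    linarith
  · intro T hT
    have hcont1 : ContinuousOn (fun s => ε ^ (2 / 3 : ℝ) * (phi ε κ (D.sig (u s)) * D.a (u s) (u s))) (Icc 0 T) :=
      continuousOn_const.mul ((hpc T).mul (hAc T))
    calc ∫⁻ t in Ioc 0 T, ‖f t - P (u t) - f t‖ₑ ^ (5 / 3 : ℝ)
        ≤ ∫⁻ t in Ioc 0 T, ENNReal.ofReal (ε ^ (2 / 3 : ℝ) * (phi ε κ (D.sig (u t)) * D.a (u t) (u t))) := by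
          apply lintegral_mono
          intro t
          show ‖f t - P (u t) - f t‖ₑ ^ (5 / 3 : ℝ)
            ≤ ENNReal.ofReal (ε ^ (2 / 3 : ℝ) * (phi ε κ (D.sig (u t)) * D.a (u t) (u t)))
          rw [hgf, enorm_neg, ← ofReal_norm,
            ENNReal.ofReal_rpow_of_nonneg (norm_nonneg _) (by norm_num)]
          apply ENNReal.ofReal_le_ofReal
          rw [← H4.sig_sq]
          exact (Real.rpow_le_rpow (norm_nonneg _) (hPn _) (by norm_num)).trans
            (rpow_phi hε0.le (H4.sig_nonneg D _))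
      _ = ENNReal.ofReal (∫ t in Ioc 0 T, ε ^ (2 / 3 : ℝ) * (phi ε κ (D.sig (u t)) * D.a (u t) (u t))) := by
          rw [ofReal_integral_eq_lintegral_ofReal]
          · exact (hcont1.integrableOn_Icc).mono_set Ioc_subset_Icc_self
          · filter_upwards with t
            have := hp0 t
            have := hA0 t
            positivity
      _ ≤ ENNReal.ofReal (τ * (‖D.ι u₀‖ ^ 2 + ∫ s in (0 : ℝ)..T, ‖f s‖ ^ 2)) := by
          apply ENNReal.ofReal_le_ofReal
          rw [← intervalIntegral.integral_of_le hT, intervalIntegral.integral_const_mul, hε23]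
          have h1 := hineq' T hT
          have h2 := hIA T hT
          have h3 := hIp T hT
          have h4 : ∫ s in (0 : ℝ)..T, phi ε κ (D.sig (u s)) * D.a (u s) (u s)
              ≤ M * (‖D.ι u₀‖ ^ 2 + ∫ s in (0 : ℝ)..T, ‖f s‖ ^ 2) := by
            have : 0 ≤ η * ∫ s in (0 : ℝ)..T, D.a (u s) (u s) := mul_nonneg hη.le h2
            linarith
          calc τ / M * ∫ s in (0 : ℝ)..T, phi ε κ (D.sig (u s)) * D.a (u s) (u s)
              ≤ τ / M * (M * (‖D.ι u₀‖ ^ 2 + ∫ s in (0 : ℝ)..T, ‖f s‖ ^ 2)) := by gcongr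
            _ = _ := by field_simp
  · intro T hT
    set S : ℝ := ‖D.ι u₀‖ ^ 2 + ∫ s in (0 : ℝ)..T, ‖f s‖ ^ 2 with hSdef
    have hsub : {t ∈ Ioc (0 : ℝ) T | f t - P (u t) ≠ f t} ⊆
        {t | ENNReal.ofReal (κ ^ 2) ≤ ENNReal.ofReal (D.a (u t) (u t))} ∩ Ioc 0 T := by
      rintro t ⟨ht, hne⟩
      refine ⟨?_, ht⟩
      have h1 : κ < D.sig (u t) := by
        by_contra hcon
        push Not at hcon
        apply hne
        show f t - phi ε κ (D.sig (u t)) • D.a (u t) = f t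
        rw [phi_eq_zero hcon, zero_smul, sub_zero]
      show ENNReal.ofReal (κ ^ 2) ≤ ENNReal.ofReal (D.a (u t) (u t))
      apply ENNReal.ofReal_le_ofReal
      rw [← H4.sig_sq]
      exact pow_le_pow_left₀ hκpos.le h1.le 2
    have hmeas : AEMeasurable (fun t => ENNReal.ofReal (D.a (u t) (u t))) (volume.restrict (Ioc 0 T)) :=
      (((hAc T).mono Ioc_subset_Icc_self).aestronglyMeasurable measurableSet_Ioc).aemeasurable.ennreal_ofReal
    have hcheb := mul_meas_ge_le_lintegral₀ hmeas (ENNReal.ofReal (κ ^ 2))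
    rw [Measure.restrict_apply' measurableSet_Ioc] at hcheb
    have hint : ∫⁻ t in Ioc 0 T, ENNReal.ofReal (D.a (u t) (u t))
        = ENNReal.ofReal (∫ s in (0 : ℝ)..T, D.a (u s) (u s)) := by
      rw [intervalIntegral.integral_of_le hT, ofReal_integral_eq_lintegral_ofReal]
      · exact ((hAc T).integrableOn_Icc).mono_set Ioc_subset_Icc_self
      · filter_upwards with t
        exact hA0 t
    rw [hint] at hcheb
    have hIAle : ∫ s in (0 : ℝ)..T, D.a (u s) (u s) ≤ κ ^ 2 * (τ * S) := by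
      have h1 := hineq' T hT
      have h3 := hIp T hT
      have h4 : η * (∫ s in (0 : ℝ)..T, D.a (u s) (u s)) ≤ M * S := by linarith
      have hS0 : 0 ≤ S := add_nonneg (sq_nonneg _) (hS T hT)
      have h5 : M ≤ κ ^ 2 * (η * τ) := by
        have h6 : M ≤ κ * (η * τ) := by
          rwa [div_le_iff₀ (by positivity)] at hκ2
        have h7 : κ ≤ κ ^ 2 := by nlinarith
        have h8 : 0 < η * τ := by positivity
        nlinarith
      have h9 : η * (∫ s in (0 : ℝ)..T, D.a (u s) (u s)) ≤ η * (κ ^ 2 * (τ * S)) := by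
        calc _ ≤ M * S := h4
          _ ≤ κ ^ 2 * (η * τ) * S := mul_le_mul_of_nonneg_right h5 hS0
          _ = _ := by ring
      exact le_of_mul_le_mul_left h9 hη
    have h10 : ENNReal.ofReal (κ ^ 2) * volume ({t | ENNReal.ofReal (κ ^ 2) ≤ ENNReal.ofReal (D.a (u t) (u t))} ∩ Ioc 0 T)
        ≤ ENNReal.ofReal (κ ^ 2) * ENNReal.ofReal (τ * S) := by
      refine hcheb.trans ?_
      rw [← ENNReal.ofReal_mul (by positivity)]
      exact ENNReal.ofReal_le_ofReal hIAle
    have h11 : ENNReal.ofReal (κ ^ 2) ≠ 0 := by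
      rw [Ne, ENNReal.ofReal_eq_zero, not_le]; positivity
    have h12 := (ENNReal.mul_le_mul_iff_right h11 ENNReal.ofReal_ne_top).mp h10
    exact (measure_mono hsub).trans h12

end Pool.Agent.NSD
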