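import Pool.Agent.NSD.Nu
import Pool.Agent.NSD.AbstractFinal

/-! A9': the abstract density theorem with the viscosity function. -/

open MeasureTheory Set Filter Topology
open scoped RealInnerProductSpace

noncomputable section

namespace Pool.Agent.NSD

namespace H25

theorem phi_pow5 {ε κ s : ℝ} (hε : 0 ≤ ε) (hs : 0 ≤ s) :
    phi ε κ s ^ 5 ≤ ε ^ 4 * (phi ε κ s * s ^ 2) := by
  have hp : 0 ≤ phi ε κ s := H4.phi_nonneg hε s
  have h1 : phi ε κ s ≤ ε * √s := phi_le_sqrt hε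
  have h2 : phi ε κ s ^ 4 ≤ (ε * √s) ^ 4 := pow_le_pow_left₀ hp h1 4
  have h3 : (ε * √s) ^ 4 = ε ^ 4 * s ^ 2 := by
    have : √s ^ 2 = s := Real.sq_sqrt hs
    calc (ε * √s) ^ 4 = ε ^ 4 * (√s ^ 2) ^ 2 := by ring
      _ = _ := by rw [this]
  rw [h3] at h2
  calc phi ε κ s ^ 5 = phi ε κ s * phi ε κ s ^ 4 := by ring
    _ ≤ phi ε κ s * (ε ^ 4 * s ^ 2) := mul_le_mul_of_nonneg_left h2 hp
    _ = _ := by ring

end H25

open H25 in
theorem abstractNu_proof (hA : Stmt_Abstract) : Stmt_AbstractNu := by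
  intro V K _ _ _ _ _ D η τ f f₁ u₀ h₀ hη hτ hf hcomp
  have hc₀ := D.c₀_pos
  -- parameters
  set M : ℝ := max 1 (1 / (D.c₀ * η)) with hM
  have hM1 : 1 ≤ M := le_max_left _ _
  have hM2 : 1 / (D.c₀ * η) ≤ M := le_max_right _ _
  have hM0 : 0 < M := by linarith
  set ε : ℝ := min ((τ / M) ^ (3 / 2 : ℝ)) ((τ / M) ^ (1 / 4 : ℝ)) with hε
  have hε0 : 0 < ε := lt_min (by positivity) (by positivity)
  have hε23 : ε ^ (2 / 3 : ℝ) ≤ τ / M := by
    calc ε ^ (2 / 3 : ℝ) ≤ ((τ / M) ^ (3 / 2 : ℝ)) ^ (2 / 3 : ℝ) :=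
          Real.rpow_le_rpow hε0.le (min_le_left _ _) (by norm_num)
      _ = τ / M := by rw [← Real.rpow_mul (by positivity)]; norm_num
  have hε4 : ε ^ 4 ≤ τ / M := by
    calc ε ^ 4 ≤ ((τ / M) ^ (1 / 4 : ℝ)) ^ 4 := pow_le_pow_left₀ hε0.le (min_le_right _ _) 4
      _ = τ / M := by
        rw [← Real.rpow_natCast, ← Real.rpow_mul (by positivity)]; norm_num
  set κ : ℝ := max (D.sig u₀) (max 1 (M / (η * τ))) with hκ
  have hκ0 : D.sig u₀ ≤ κ := le_max_left _ _
  have hκ1 : 1 ≤ κ := (le_max_left _ _).trans (le_max_right _ _)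
  have hκ2 : M / (η * τ) ≤ κ := (le_max_right _ _).trans (le_max_right _ _)
  have hκpos : 0 < κ := by linarith
  obtain ⟨u, w, huw, hu0, hbd, heq, hid, hineq⟩ := hA V K D η ε κ f f₁ u₀ h₀ hη hε0 hκpos hf hκ0 hcomp
  -- the correction
  let P : V → V →L[ℝ] ℝ := fun v => phi ε κ (D.sig v) • D.a v
  have hucont : ∀ T, ContinuousOn u (Icc 0 T) := contOn_of_isH1loc huw
  have hAc : ∀ T, ContinuousOn (fun s => D.a (u s) (u s)) (Icc 0 T) := fun T =>
    (H4.continuous_aa D).comp_continuousOn (hucont T)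
  have hpc : ∀ T, ContinuousOn (fun s => phi ε κ (D.sig (u s))) (Icc 0 T) := fun T =>
    (H4.continuous_phi_sig D ε κ).comp_continuousOn (hucont T)
  have hAi : ∀ T, 0 ≤ T → IntervalIntegrable (fun s => D.a (u s) (u s)) volume 0 T := fun T hT =>
    ContinuousOn.intervalIntegrable (by rw [uIcc_of_le hT]; exact hAc T)
  have hpAi : ∀ T, 0 ≤ T → IntervalIntegrable (fun s => phi ε κ (D.sig (u s)) * D.a (u s) (u s)) volume 0 T :=
    fun T hT => ContinuousOn.intervalIntegrable (by rw [uIcc_of_le hT]; exact (hpc T).mul (hAc T))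
  have hA0 : ∀ s, 0 ≤ D.a (u s) (u s) := fun s => H4.a_nonneg D _
  have hp0 : ∀ s, 0 ≤ phi ε κ (D.sig (u s)) := fun s => H4.phi_nonneg hε0.le _
  have hIA : ∀ T, 0 ≤ T → 0 ≤ ∫ s in (0 : ℝ)..T, D.a (u s) (u s) := fun T hT =>
    intervalIntegral.integral_nonneg hT fun s _ => hA0 s
  have hIp : ∀ T, 0 ≤ T → 0 ≤ ∫ s in (0 : ℝ)..T, phi ε κ (D.sig (u s)) * D.a (u s) (u s) := fun T hT =>
    intervalIntegral.integral_nonneg hT fun s _ => mul_nonneg (hp0 s) (hA0 s)
  have hS : ∀ T, 0 ≤ T → 0 ≤ ∫ s in (0 : ℝ)..T, ‖f s‖ ^ 2 := fun T hT =>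
    intervalIntegral.integral_nonneg hT fun s _ => sq_nonneg _
  have hE : ∀ T, 0 ≤ T → ‖D.ι u₀‖ ^ 2 + 1 / (D.c₀ * η) * ∫ s in (0 : ℝ)..T, ‖f s‖ ^ 2
      ≤ M * (‖D.ι u₀‖ ^ 2 + ∫ s in (0 : ℝ)..T, ‖f s‖ ^ 2) := by
    intro T hT
    have h1 := mul_le_mul_of_nonneg_right hM2 (hS T hT)
    have h2 := mul_le_mul_of_nonneg_right hM1 (sq_nonneg ‖D.ι u₀‖)
    linarith
  have hsplit : ∀ c T : ℝ, 0 ≤ T → ∫ s in (0 : ℝ)..T, (η + c * phi ε κ (D.sig (u s))) * D.a (u s) (u s)
      = η * (∫ s in (0 : ℝ)..T, D.a (u s) (u s))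
        + c * ∫ s in (0 : ℝ)..T, phi ε κ (D.sig (u s)) * D.a (u s) (u s) := by
    intro c T hT
    rw [← intervalIntegral.integral_const_mul, ← intervalIntegral.integral_const_mul,
      ← intervalIntegral.integral_add ((hAi T hT).const_mul _) ((hpAi T hT).const_mul _)]
    congr 1; ext s; ring
  have hineq' : ∀ T, 0 ≤ T → η * (∫ s in (0 : ℝ)..T, D.a (u s) (u s))
        + 2 * ∫ s in (0 : ℝ)..T, phi ε κ (D.sig (u s)) * D.a (u s) (u s)
      ≤ M * (‖D.ι u₀‖ ^ 2 + ∫ s in (0 : ℝ)..T, ‖f s‖ ^ 2) := by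
    intro T hT
    rw [← hsplit 2 T hT]
    exact (hineq T hT).trans (hE T hT)
  have hPn : ∀ v, ‖P v‖ ≤ phi ε κ (D.sig v) * D.sig v := by
    intro v
    show ‖phi ε κ (D.sig v) • D.a v‖ ≤ _
    rw [norm_smul, Real.norm_of_nonneg (H4.phi_nonneg hε0.le _)]
    exact mul_le_mul_of_nonneg_left (norm_a_le D v) (H4.phi_nonneg hε0.le _)
  -- the Riesz representative of the correction
  let I : V →L[ℝ] (V →L[ℝ] ℝ) := innerSL ℝ
  let R : V → V := fun v => (InnerProductSpace.toDual ℝ V).symm (P v)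
  have hIR : ∀ v, I (R v) = P v := by
    intro v
    ext z
    show ⟪(InnerProductSpace.toDual ℝ V).symm (P v), z⟫ = P v z
    exact InnerProductSpace.toDual_symm_apply
  have hRsub : ∀ v v', ‖R v - R v'‖ = ‖P v - P v'‖ := by
    intro v v'
    show ‖(InnerProductSpace.toDual ℝ V).symm (P v) - (InnerProductSpace.toDual ℝ V).symm (P v')‖ = _
    rw [← map_sub, LinearIsometryEquiv.norm_map]
  have hPlip : ∀ B : ℝ, ∀ v v', ‖v‖ ≤ B → ‖v'‖ ≤ B →
      ‖P v - P v'‖ ≤ (ε / (2 * √κ) * B + phi ε κ B) * ‖v - v'‖ := by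
    intro B v v' hv hv'
    have h1 : P v - P v' = (phi ε κ (D.sig v) - phi ε κ (D.sig v')) • D.a v
        + phi ε κ (D.sig v') • D.a (v - v') := by
      ext z
      show phi ε κ (D.sig v) * D.a v z - phi ε κ (D.sig v') * D.a v' z
        = (phi ε κ (D.sig v) - phi ε κ (D.sig v')) * D.a v z + phi ε κ (D.sig v') * D.a (v - v') z
      rw [map_sub]
      show _ = _ + phi ε κ (D.sig v') * (D.a v z - D.a v' z)
      ring
    rw [h1]
    refine (norm_add_le _ _).trans ?_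
    rw [norm_smul, norm_smul, Real.norm_eq_abs, Real.norm_of_nonneg (H4.phi_nonneg hε0.le _), add_mul]
    have hB : 0 ≤ B := (norm_nonneg v).trans hv
    have hκs : 0 < √κ := Real.sqrt_pos.mpr hκpos
    have h2 : |phi ε κ (D.sig v) - phi ε κ (D.sig v')| ≤ ε / (2 * √κ) * ‖v - v'‖ :=
      (phi_lip hε0.le hκpos _ _).trans
        (mul_le_mul_of_nonneg_left (sig_sub_le D v v') (by positivity))
    have h3 : ‖D.a v‖ ≤ B := (norm_a_le D v).trans ((sig_le_norm D v).trans hv)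
    have h4 : phi ε κ (D.sig v') ≤ phi ε κ B := H4.phi_mono hε0.le ((sig_le_norm D v').trans hv')
    have h5 : ‖D.a (v - v')‖ ≤ ‖v - v'‖ := (norm_a_le D _).trans (sig_le_norm D _)
    have h6 : |phi ε κ (D.sig v) - phi ε κ (D.sig v')| * ‖D.a v‖ ≤ ε / (2 * √κ) * ‖v - v'‖ * B :=
      mul_le_mul h2 h3 (norm_nonneg _) (by positivity)
    have h7 : phi ε κ (D.sig v') * ‖D.a (v - v')‖ ≤ phi ε κ B * ‖v - v'‖ :=
      mul_le_mul h4 h5 (norm_nonneg _) ((H4.phi_nonneg hε0.le _))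
    calc _ ≤ ε / (2 * √κ) * ‖v - v'‖ * B + phi ε κ B * ‖v - v'‖ := add_le_add h6 h7
      _ = _ := by ring
  obtain ⟨x₁, hx₁⟩ := h1Criterion_proof V (fun t => R (u t)) (fun t => ‖w t‖)
    (fun T => (huw.memLp T).norm) (fun t => norm_nonneg _) (by
      intro T
      obtain ⟨B, hB⟩ := (isCompact_Icc (a := (0 : ℝ)) (b := T)).exists_bound_of_continuousOn (hucont T)
      refine ⟨ε / (2 * √κ) * B + phi ε κ B, fun s t hs hst htT => ?_⟩
      show ‖R (u t) - R (u s)‖ ≤ _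
      rw [hRsub]
      have hBs := hB s ⟨hs, hst.trans htT⟩
      have hBt := hB t ⟨hs.trans hst, htT⟩
      refine (hPlip B _ _ hBt hBs).trans ?_
      have hB0 : 0 ≤ B := (norm_nonneg _).trans hBs
      have hκs : 0 < √κ := Real.sqrt_pos.mpr hκpos
      have hcoef : 0 ≤ ε / (2 * √κ) * B + phi ε κ B :=
        add_nonneg (by positivity) (H4.phi_nonneg hε0.le _)
      refine mul_le_mul_of_nonneg_left ?_ hcoef
      have hwi : ∀ T', 0 ≤ T' → IntervalIntegrable w volume 0 T' := fun T' hT' => by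
        rw [intervalIntegrable_iff_integrableOn_Ioc_of_le hT']
        exact (huw.memLp T').integrable one_le_two
      have h1 : u t - u s = ∫ r in s..t, w r := by
        rw [huw.eq t (hs.trans hst), huw.eq s hs, add_sub_add_left_eq_sub]
        exact intervalIntegral.integral_interval_sub_left (hwi t (hs.trans hst)) (hwi s hs)
      rw [h1]
      exact intervalIntegral.norm_integral_le_integral_norm hst)
  have hgf : ∀ t, f t - P (u t) - f t = - P (u t) := fun t => by abel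
  have hIple : ∀ T, 0 ≤ T → ∫ s in (0 : ℝ)..T, phi ε κ (D.sig (u s)) * D.a (u s) (u s)
      ≤ M * (‖D.ι u₀‖ ^ 2 + ∫ s in (0 : ℝ)..T, ‖f s‖ ^ 2) := by
    intro T hT
    have h1 := hineq' T hT
    have h2 := hIA T hT
    have h3 := hIp T hT
    have : 0 ≤ η * ∫ s in (0 : ℝ)..T, D.a (u s) (u s) := mul_nonneg hη.le h2
    linarith
  have hcoef : ∀ c : ℝ, 0 ≤ c → c ≤ τ / M → ∀ T, 0 ≤ T →
      c * ∫ s in (0 : ℝ)..T, phi ε κ (D.sig (u s)) * D.a (u s) (u s)
        ≤ τ * (‖D.ι u₀‖ ^ 2 + ∫ s in (0 : ℝ)..T, ‖f s‖ ^ 2) := by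
    intro c hc0 hc T hT
    calc c * ∫ s in (0 : ℝ)..T, phi ε κ (D.sig (u s)) * D.a (u s) (u s)
        ≤ τ / M * (M * (‖D.ι u₀‖ ^ 2 + ∫ s in (0 : ℝ)..T, ‖f s‖ ^ 2)) :=
          mul_le_mul hc (hIple T hT) (hIp T hT) (by positivity)
      _ = _ := by field_simp
  have hvol : ∀ T : ℝ, 0 ≤ T → volume {t ∈ Ioc (0 : ℝ) T | η + phi ε κ (D.sig (u t)) ≠ η}
        ≤ ENNReal.ofReal (τ * (‖D.ι u₀‖ ^ 2 + ∫ s in (0 : ℝ)..T, ‖f s‖ ^ 2)) := by
    intro T hT
    set S : ℝ := ‖D.ι u₀‖ ^ 2 + ∫ s in (0 : ℝ)..T, ‖f s‖ ^ 2 with hSdef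
    have hsub : {t ∈ Ioc (0 : ℝ) T | η + phi ε κ (D.sig (u t)) ≠ η} ⊆
        {t | ENNReal.ofReal (κ ^ 2) ≤ ENNReal.ofReal (D.a (u t) (u t))} ∩ Ioc 0 T := by
      rintro t ⟨ht, hne⟩
      refine ⟨?_, ht⟩
      have h1 : κ < D.sig (u t) := by
        by_contra hcon
        push Not at hcon
        apply hne
        rw [phi_eq_zero hcon, add_zero]
      show ENNReal.ofReal (κ ^ 2) ≤ ENNReal.ofReal (D.a (u t) (u t))
      apply ENNReal.ofReal_le_ofReal
      rw [← H4.sig_sq]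
      exact pow_le_pow_left₀ hκpos.le h1.le 2
    have hmeas : AEMeasurable (fun t => ENNReal.ofReal (D.a (u t) (u t))) (volume.restrict (Ioc 0 T)) :=
      (((hAc T).mono Ioc_subset_Icc_self).aestronglyMeasurable measurableSet_Ioc).aemeasurable.ennreal_ofReal
    have hcheb := mul_meas_ge_le_lintegral₀ hmeas (ENNReal.ofReal (κ ^ 2))
    rw [Measure.restrict_apply' measurableSet_Ioc] at hcheb
    have hint : ∫⁻ t in Ioc 0 T, ENNReal.ofReal (D.a (u t) (u t))
        = ENNReal.ofReal (∫ s in (0 : ℝ)..T, D.a (u s) (u s)) := by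
      rw [intervalIntegral.integral_of_le hT, ofReal_integral_eq_lintegral_ofReal]
      · exact ((hAc T).integrableOn_Icc).mono_set Ioc_subset_Icc_self
      · filter_upwards with t
        exact hA0 t
    rw [hint] at hcheb
    have hIAle : ∫ s in (0 : ℝ)..T, D.a (u s) (u s) ≤ κ ^ 2 * (τ * S) := by
      have h1 := hineq' T hT
      have h3 := hIp T hT
      have h4 : η * (∫ s in (0 : ℝ)..T, D.a (u s) (u s)) ≤ M * S := by linarith
      have hS0 : 0 ≤ S := add_nonneg (sq_nonneg _) (hS T hT)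
      have h5 : M ≤ κ ^ 2 * (η * τ) := by
        have h6 : M ≤ κ * (η * τ) := by
          rwa [div_le_iff₀ (by positivity)] at hκ2
        have h7 : κ ≤ κ ^ 2 := by nlinarith
        have h8 : 0 < η * τ := by positivity
        nlinarith
      have h9 : η * (∫ s in (0 : ℝ)..T, D.a (u s) (u s)) ≤ η * (κ ^ 2 * (τ * S)) := by
        calc _ ≤ M * S := h4
          _ ≤ κ ^ 2 * (η * τ) * S := mul_le_mul_of_nonneg_right h5 hS0
          _ = _ := by ring
      exact le_of_mul_le_mul_left h9 hη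
    have h10 : ENNReal.ofReal (κ ^ 2) * volume ({t | ENNReal.ofReal (κ ^ 2) ≤ ENNReal.ofReal (D.a (u t) (u t))} ∩ Ioc 0 T)
        ≤ ENNReal.ofReal (κ ^ 2) * ENNReal.ofReal (τ * S) := by
      refine hcheb.trans ?_
      rw [← ENNReal.ofReal_mul (by positivity)]
      exact ENNReal.ofReal_le_ofReal hIAle
    have h11 : ENNReal.ofReal (κ ^ 2) ≠ 0 := by
      rw [Ne, ENNReal.ofReal_eq_zero, not_le]; positivity
    have h12 := (ENNReal.mul_le_mul_iff_right h11 ENNReal.ofReal_ne_top).mp h10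
    exact (measure_mono hsub).trans h12
  refine ⟨fun t => η + phi ε κ (D.sig (u t)), fun t => f t - P (u t), fun t => f₁ t - I (x₁ t), u, w,
    ⟨?_, ?_⟩, ?_, huw, hu0, hbd, ?_, ?_, ?_, ?_, ?_, ?_, ?_, hvol⟩
  · intro T
    exact (hf.memLp T).sub (I.comp_memLp' (hx₁.memLp T))
  · intro t ht
    have hf1i : IntervalIntegrable f₁ volume 0 t := by
      rw [intervalIntegrable_iff_integrableOn_Ioc_of_le ht]
      exact (hf.memLp t).integrable one_le_two
    have hx1i : IntervalIntegrable x₁ volume 0 t := by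
      rw [intervalIntegrable_iff_integrableOn_Ioc_of_le ht]
      exact (hx₁.memLp t).integrable one_le_two
    have hIx1i : IntervalIntegrable (fun s => I (x₁ s)) volume 0 t := by
      rw [intervalIntegrable_iff_integrableOn_Ioc_of_le ht]
      exact (I.comp_memLp' (hx₁.memLp t)).integrable one_le_two
    have h1 : P (u t) = P (u 0) + ∫ s in (0 : ℝ)..t, I (x₁ s) := by
      rw [← hIR (u t), ← hIR (u 0), show R (u t) = R (u 0) + ∫ s in (0 : ℝ)..t, x₁ s from hx₁.eq t ht,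
        map_add, I.intervalIntegral_comp_comm hx1i]
    show f t - P (u t) = f 0 - P (u 0) + ∫ s in (0 : ℝ)..t, (f₁ s - I (x₁ s))
    rw [intervalIntegral.integral_sub hf1i hIx1i, hf.eq t ht, h1]
    abel
  · show f 0 - phi ε κ (D.sig (u 0)) • D.a (u 0) = f 0
    rw [hu0, phi_eq_zero hκ0, zero_smul, sub_zero]
  · filter_upwards [heq] with t ht v
    have := ht v
    show _ = f t v - phi ε κ (D.sig (u t)) * D.a (u t) v
    rw [← this]; ring
  · intro t
    show η ≤ η + phi ε κ (D.sig (u t))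
    have := hp0 t
    linarith
  · intro t ht
    have h1 : ContinuousWithinAt u (Icc 0 (t + 1)) t := hucont (t + 1) t ⟨ht, by linarith [show (0 : ℝ) ≤ t from ht]⟩
    have h2 : ContinuousWithinAt u (Ici 0) t := by
      refine h1.mono_of_mem_nhdsWithin ?_
      have : Icc 0 (t + 1) = Ici 0 ∩ Iic (t + 1) := rfl
      rw [this]
      exact Filter.inter_mem self_mem_nhdsWithin (mem_nhdsWithin_of_mem_nhds (Iic_mem_nhds (by linarith)))
    exact continuousWithinAt_const.add ((H4.continuous_phi_sig D ε κ).continuousAt.comp_continuousWithinAt h2)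
  · intro t _ v
    show f t v - phi ε κ (D.sig (u t)) * D.a (u t) v = f t v - (η + phi ε κ (D.sig (u t)) - η) * D.a (u t) v
    ring
  · intro T hT
    have h1 := hid T hT
    have h2 := hsplit 1 T hT
    simp only [one_mul] at h2
    rw [h2] at h1
    have h3 := hIp T hT
    linarith
  · intro T hT
    have hcont1 : ContinuousOn (fun s => ε ^ (2 / 3 : ℝ) * (phi ε κ (D.sig (u s)) * D.a (u s) (u s))) (Icc 0 T) :=
      continuousOn_const.mul ((hpc T).mul (hAc T))
    calc ∫⁻ t in Ioc 0 T, ‖f t - P (u t) - f t‖ₑ ^ (5 / 3 : ℝ)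
        ≤ ∫⁻ t in Ioc 0 T, ENNReal.ofReal (ε ^ (2 / 3 : ℝ) * (phi ε κ (D.sig (u t)) * D.a (u t) (u t))) := by
          apply lintegral_mono
          intro t
          show ‖f t - P (u t) - f t‖ₑ ^ (5 / 3 : ℝ)
            ≤ ENNReal.ofReal (ε ^ (2 / 3 : ℝ) * (phi ε κ (D.sig (u t)) * D.a (u t) (u t)))
          rw [hgf, enorm_neg, ← ofReal_norm,
            ENNReal.ofReal_rpow_of_nonneg (norm_nonneg _) (by norm_num)]
          apply ENNReal.ofReal_le_ofReal
          rw [← H4.sig_sq]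
          exact (Real.rpow_le_rpow (norm_nonneg _) (hPn _) (by norm_num)).trans
            (rpow_phi hε0.le (H4.sig_nonneg D _))
      _ = ENNReal.ofReal (∫ t in Ioc 0 T, ε ^ (2 / 3 : ℝ) * (phi ε κ (D.sig (u t)) * D.a (u t) (u t))) := by
          rw [ofReal_integral_eq_lintegral_ofReal]
          · exact (hcont1.integrableOn_Icc).mono_set Ioc_subset_Icc_self
          · filter_upwards with t
            have := hp0 t
            have := hA0 t
            positivity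
      _ ≤ ENNReal.ofReal (τ * (‖D.ι u₀‖ ^ 2 + ∫ s in (0 : ℝ)..T, ‖f s‖ ^ 2)) := by
          apply ENNReal.ofReal_le_ofReal
          rw [← intervalIntegral.integral_of_le hT, intervalIntegral.integral_const_mul]
          exact hcoef _ (by positivity) hε23 T hT
  · intro T hT
    have hcont1 : ContinuousOn (fun s => ε ^ 4 * (phi ε κ (D.sig (u s)) * D.a (u s) (u s))) (Icc 0 T) :=
      continuousOn_const.mul ((hpc T).mul (hAc T))
    calc ∫⁻ t in Ioc 0 T, ENNReal.ofReal ((η + phi ε κ (D.sig (u t)) - η) ^ 5)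
        ≤ ∫⁻ t in Ioc 0 T, ENNReal.ofReal (ε ^ 4 * (phi ε κ (D.sig (u t)) * D.a (u t) (u t))) := by
          apply lintegral_mono
          intro t
          apply ENNReal.ofReal_le_ofReal
          rw [add_sub_cancel_left, ← H4.sig_sq]
          exact phi_pow5 hε0.le (H4.sig_nonneg D _)
      _ = ENNReal.ofReal (∫ t in Ioc 0 T, ε ^ 4 * (phi ε κ (D.sig (u t)) * D.a (u t) (u t))) := by
          rw [ofReal_integral_eq_lintegral_ofReal]
          · exact (hcont1.integrableOn_Icc).mono_set Ioc_subset_Icc_self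
          · filter_upwards with t
            have := hp0 t
            have := hA0 t
            positivity
      _ ≤ ENNReal.ofReal (τ * (‖D.ι u₀‖ ^ 2 + ∫ s in (0 : ℝ)..T, ‖f s‖ ^ 2)) := by
          apply ENNReal.ofReal_le_ofReal
          rw [← intervalIntegral.integral_of_le hT, intervalIntegral.integral_const_mul]
          exact hcoef _ (by positivity) hε4 T hT

end Pool.Agent.NSD
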