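import Mathlib

/-!
# A locally integrable function with vanishing primitive vanishes almost everywhere
-/

open MeasureTheory Set Filter Topology

noncomputable section

namespace Pool.Agent.NSD

theorem ae_zero_of_integral_Ioc {Y : Type*} [NormedAddCommGroup Y] [NormedSpace ℝ Y] [CompleteSpace Y]
    {g : ℝ → Y} {T : ℝ} (hg : IntegrableOn g (Ioc 0 T))
    (h : ∀ t ∈ Icc 0 T, ∫ s in (0 : ℝ)..t, g s = 0) :
    ∀ᵐ t ∂(volume.restrict (Ioc 0 T)), g t = 0 := by
  rcases le_or_gt 0 T with hT | hT
  swap
  · rw [Ioc_eq_empty (by linarith)]; simp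
  have hIic : ∀ a : ℝ, ∫ x in Iic a, g x ∂(volume.restrict (Ioc 0 T)) = 0 := by
    intro a
    rw [Measure.restrict_restrict measurableSet_Iic]
    rcases le_or_gt 0 a with ha | ha
    · have : Iic a ∩ Ioc 0 T = Ioc 0 (min a T) := by
        ext x; simp only [mem_inter_iff, mem_Iic, mem_Ioc, le_min_iff]; tauto
      rw [this]
      have h2 := h (min a T) ⟨le_min ha hT, min_le_right _ _⟩
      rwa [intervalIntegral.integral_of_le (le_min ha hT)] at h2
    · have : Iic a ∩ Ioc 0 T = ∅ := by
        ext x; simp only [mem_inter_iff, mem_Iic, mem_Ioc, mem_empty_iff_false, iff_false]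
        rintro ⟨h1, h2, -⟩; linarith
      rw [this]; simp
  have hall : ∀ s : Set ℝ, MeasurableSet s → ∫ x in s, g x ∂(volume.restrict (Ioc 0 T)) = 0 := by
    have huniv : ∫ x, g x ∂(volume.restrict (Ioc 0 T)) = 0 := by
      have h2 := h T ⟨hT, le_rfl⟩
      rwa [intervalIntegral.integral_of_le hT] at h2
    intro s hs
    induction s, hs using MeasurableSpace.induction_on_inter (borel_eq_generateFrom_Iic ℝ)
      isPiSystem_Iic with
    | empty => simp
    | basic t ht =>
      obtain ⟨a, rfl⟩ := ht
      exact hIic a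
    | compl t htm ih =>
      have h3 := integral_add_compl (μ := volume.restrict (Ioc 0 T)) (f := g) htm hg
      rw [ih, zero_add] at h3
      rw [h3, huniv]
    | iUnion f hd hm ih =>
      rw [integral_iUnion hm hd hg.integrableOn]
      simp [ih]
  have := Integrable.ae_eq_zero_of_forall_setIntegral_eq_zero (μ := volume.restrict (Ioc 0 T)) hg
    (fun s hs _ => hall s hs)
  filter_upwards [this] with x hx using hx

end Pool.Agent.NSD
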