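import Pool.Agent.NSD.Basic
import Pool.Agent.NSD.IntZero

/-!
# MP_fd8964_an: module Abstract (passage to the limit `δ → 0`)
-/

open MeasureTheory Set Filter Topology
open scoped RealInnerProductSpace

set_option maxSynthPendingDepth 3

noncomputable section

namespace Pool.Agent.NSD

/-- Convergence of integrals of a superposition operator along a locally uniformly convergent sequence. -/
theorem tendsto_integral_comp {V Y : Type*} [NormedAddCommGroup V] [NormedAddCommGroup Y] [NormedSpace ℝ Y]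
    {T : ℝ} (hT : 0 ≤ T) {u : ℕ → ℝ → V} {ulim : ℝ → V}
    (hu : ∀ n, ContinuousOn (u n) (Icc 0 T)) (hul : TendstoUniformlyOn u ulim atTop (Icc 0 T))
    {Ψ : ℝ → V → Y} (hmeas : ∀ x : ℝ → V, ContinuousOn x (Icc 0 T) → ContinuousOn (fun s => Ψ s (x s)) (Icc 0 T))
    (hcont : ∀ s ∈ Icc 0 T, Continuous (Ψ s))
    (hbd : ∀ R : ℝ, ∃ M : ℝ, ∀ s ∈ Icc 0 T, ∀ x, ‖x‖ ≤ R → ‖Ψ s x‖ ≤ M) :
    Tendsto (fun n => ∫ s in (0 : ℝ)..T, Ψ s (u n s)) atTop (𝓝 (∫ s in (0 : ℝ)..T, Ψ s (ulim s))) := by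
  have hulc : ContinuousOn ulim (Icc 0 T) := hul.continuousOn (Frequently.of_forall hu)
  obtain ⟨R, hR⟩ := isCompact_Icc.exists_bound_of_continuousOn hulc
  obtain ⟨M, hM⟩ := hbd (R + 1)
  refine intervalIntegral.tendsto_integral_filter_of_dominated_convergence (fun _ => M) ?_ ?_ ?_ ?_
  · refine Eventually.of_forall fun n => ?_
    rw [uIoc_of_le hT]
    exact ((hmeas (u n) (hu n)).mono Ioc_subset_Icc_self).aestronglyMeasurable measurableSet_Ioc
  · have h1 := (Metric.tendstoUniformlyOn_iff.1 hul) 1 one_pos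
    filter_upwards [h1] with n hn
    refine Eventually.of_forall fun s hs => ?_
    rw [uIoc_of_le hT] at hs
    have hs' : s ∈ Icc 0 T := Ioc_subset_Icc_self hs
    refine hM s hs' _ ?_
    have h2 := hn s hs'
    rw [dist_eq_norm] at h2
    have h3 := hR s hs'
    calc ‖u n s‖ = ‖ulim s - (ulim s - u n s)‖ := by congr 1; abel
      _ ≤ ‖ulim s‖ + ‖ulim s - u n s‖ := norm_sub_le _ _
      _ ≤ R + 1 := by linarith
  · exact intervalIntegrable_const
  · refine Eventually.of_forall fun s hs => ?_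
    rw [uIoc_of_le hT] at hs
    have hs' : s ∈ Icc 0 T := Ioc_subset_Icc_self hs
    exact ((hcont s hs').tendsto _).comp (hul.tendsto_at hs')

section
variable {V K : Type*} [NormedAddCommGroup V] [InnerProductSpace ℝ V]
    [NormedAddCommGroup K] [InnerProductSpace ℝ K] (D : Data V K)

/-- The nonlinear operator `u ↦ (η + φ(σ(u))) A u + B(u,u)`. -/
def Data.NL (η ε κ : ℝ) (u : V) : V →L[ℝ] ℝ := (η + phi ε κ (D.sig u)) • D.a u + D.b u u

theorem Data.NL_apply (η ε κ : ℝ) (u v : V) :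
    D.NL η ε κ u v = (η + phi ε κ (D.sig u)) * D.a u v + D.b u u v := by
  simp [Data.NL]

theorem Data.continuous_NL (η ε κ : ℝ) : Continuous (D.NL η ε κ) := by
  unfold Data.NL
  have h1 : Continuous fun u : V => η + phi ε κ (D.sig u) :=
    continuous_const.add ((continuous_phi ε κ).comp D.continuous_sig)
  have h2 : Continuous fun u : V => D.b u u := (D.b.continuous).clm_apply continuous_id
  exact (h1.smul D.a.continuous).add h2

theorem Data.NL_bound {η ε κ : ℝ} (hη : 0 < η) (hε : 0 ≤ ε) (R : ℝ) :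
    ∃ M : ℝ, 0 ≤ M ∧ ∀ u : V, ‖u‖ ≤ R → ‖D.NL η ε κ u‖ ≤ M := by
  rcases lt_or_ge R 0 with hR | hR
  · exact ⟨0, le_rfl, fun u hu => absurd (norm_nonneg u) (by linarith)⟩
  refine ⟨(η + ε * √R) * R + ‖D.b‖ * R * R, by positivity, fun u hu => ?_⟩
  have hs : D.sig u ≤ R := (D.sig_le_norm u).trans hu
  have h0 := D.sig_nonneg u
  have hp : phi ε κ (D.sig u) ≤ ε * √R :=
    (phi_le hε h0).trans (mul_le_mul_of_nonneg_left (Real.sqrt_le_sqrt hs) hε)
  have hp0 := phi_nonneg (κ := κ) hε (D.sig u)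
  unfold Data.NL
  refine (norm_add_le _ _).trans (add_le_add ?_ ?_)
  · rw [norm_smul, Real.norm_eq_abs, abs_of_nonneg (by linarith)]
    exact mul_le_mul (by linarith) ((D.norm_a_le u).trans hs) (norm_nonneg _) (by positivity)
  · refine (ContinuousLinearMap.le_opNorm₂ D.b u u).trans ?_
    gcongr

end

theorem IsVoigt.continuousOn {V K : Type*} [NormedAddCommGroup V] [InnerProductSpace ℝ V]
    [NormedAddCommGroup K] [InnerProductSpace ℝ K] {D : Data V K} {η ε κ δ : ℝ}
    {f : ℝ → (V →L[ℝ] ℝ)} {u du : ℝ → V} (h : IsVoigt D η ε κ δ f u du) : ContinuousOn u (Ici 0) :=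
  fun t ht => (h.deriv t ht).continuousWithinAt

theorem IsVoigt.ftc {V K : Type*} [NormedAddCommGroup V] [InnerProductSpace ℝ V] [CompleteSpace V]
    [NormedAddCommGroup K] [InnerProductSpace ℝ K] {D : Data V K} {η ε κ δ : ℝ}
    {f : ℝ → (V →L[ℝ] ℝ)} {u du : ℝ → V} (h : IsVoigt D η ε κ δ f u du) {a t : ℝ} (ha : 0 ≤ a)
    (hat : a ≤ t) : ∫ s in a..t, du s = u t - u a := by
  refine intervalIntegral.integral_eq_sub_of_hasDeriv_right_of_le hat
    (h.continuousOn.mono (Icc_subset_Ici_self.trans (Ici_subset_Ici.2 ha))) (fun x hx => ?_) ?_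
  · exact (h.deriv x (ha.trans hx.1.le)).mono (Ioi_subset_Ici (ha.trans hx.1.le))
  · refine ContinuousOn.intervalIntegrable_of_Icc hat ?_
    exact h.cont.mono (Icc_subset_Ici_self.trans (Ici_subset_Ici.2 ha))

theorem abstract_proof (hV : Stmt_VoigtExists) (hE : Stmt_Energy) (hD : Stmt_Deriv) (hL : Stmt_Limit)
    (hW : Stmt_WeakLimit) (hG : Stmt_Glue) : Stmt_Abstract := by
  intro V K _ _ _ _ _ D η ε κ f f₁ u₀ h₀ hη hε hκ hf hs₀ hcompat
  have hfc : ContinuousOn f (Ici 0) := hf.continuousOn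
  -- the Voigt solutions
  have hδ : ∀ n : ℕ, 0 < 1 / ((n : ℝ) + 1) := fun n => by positivity
  have hδ1 : ∀ n : ℕ, 1 / ((n : ℝ) + 1) ≤ 1 := fun n => by
    rw [div_le_one (by positivity)]; have : (0 : ℝ) ≤ n := Nat.cast_nonneg n; linarith
  have hδ0 : Tendsto (fun n : ℕ => 1 / ((n : ℝ) + 1)) atTop (𝓝 0) := tendsto_one_div_add_atTop_nhds_zero_nat
  choose u du hu0 hu using fun n : ℕ => hV V K D η ε κ (1 / ((n : ℝ) + 1)) f u₀ hη hε.le hκ (hδ n) hfc
  obtain ⟨ulim, hul⟩ := hL V K D η ε κ f f₁ u₀ h₀ hη hε hκ hf hs₀ hcompat u du hu hu0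
  have huc : ∀ n T, ContinuousOn (u n) (Icc 0 T) := fun n T => (hu n).continuousOn.mono Icc_subset_Ici_self
  have hulc : ∀ T, 0 ≤ T → ContinuousOn ulim (Icc 0 T) := fun T hT =>
    (hul T hT).continuousOn (Frequently.of_forall fun n => huc n T)
  have hpt : ∀ t, 0 ≤ t → Tendsto (fun n => u n t) atTop (𝓝 (ulim t)) := fun t ht =>
    (hul t ht).tendsto_at (right_mem_Icc.2 ht)
  have hulc' : ContinuousOn ulim (Ici 0) := by
    intro t ht
    have ht0 : (0 : ℝ) ≤ t := ht
    have h3 := hulc (t + 1) (by linarith) t ⟨ht0, by linarith⟩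
    refine h3.mono_of_mem_nhdsWithin ?_
    rw [← Ici_inter_Iic]
    exact inter_mem_nhdsWithin _ (Iic_mem_nhds (by linarith))
  have hul0 : ulim 0 = u₀ := by
    have h1 := hpt 0 le_rfl
    simp only [hu0] at h1
    exact tendsto_nhds_unique h1 tendsto_const_nhds
  choose! C hC using hD V K D η ε κ f f₁ u₀ h₀ hη hε hκ hf hs₀ hcompat
  have hCn : ∀ T, 0 ≤ T → ∀ n, (∀ t ∈ Icc 0 T, ‖D.ι (du n t)‖ ^ 2 + 1 / ((n : ℝ) + 1) * D.a (du n t) (du n t) ≤ C T) ∧
      (∫ s in (0 : ℝ)..T, D.a (du n s) (du n s)) ≤ C T := fun T hT n =>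
    hC T hT _ (hδ n) (hδ1 n) (u n) (du n) (hu n) (hu0 n)
  -- (i) `ulim` is in `H¹_loc`
  have hadu : ∀ n, ContinuousOn (fun s => D.a (du n s) (du n s)) (Ici 0) := fun n =>
    ContinuousOn.clm_apply (D.a.continuous.comp_continuousOn (hu n).cont) (hu n).cont
  obtain ⟨w, hw⟩ : ∃ w : ℝ → V, IsH1loc ulim w := by
    refine hG V ulim fun k => ?_
    have hk : (0 : ℝ) ≤ k := Nat.cast_nonneg k
    have hsub : Icc (k : ℝ) (k + 1) ⊆ Ici 0 := Icc_subset_Ici_self.trans (Ici_subset_Ici.2 hk)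
    obtain ⟨w, hw1, -, hw2⟩ := hW V (k : ℝ) (k + 1) (C (k + 1) / D.c₀) u du ulim (by linarith)
      (fun n => by
        have hcont : ContinuousOn (du n) (Icc (k : ℝ) (k + 1)) := (hu n).cont.mono hsub
        obtain ⟨M, hM⟩ := isCompact_Icc.exists_bound_of_continuousOn hcont
        refine MemLp.of_bound ((hcont.mono Ioc_subset_Icc_self).aestronglyMeasurable measurableSet_Ioc) M ?_
        refine (ae_restrict_iff' measurableSet_Ioc).2 (Eventually.of_forall fun x hx => hM x (Ioc_subset_Icc_self hx)))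
      (fun n => by
        have h1 := (hCn (k + 1) (by linarith) n).2
        rw [le_div_iff₀ D.c₀_pos, mul_comm, ← intervalIntegral.integral_const_mul]
        refine le_trans ?_ h1
        have hk0 : ∫ s in (0 : ℝ)..(k + 1), D.a (du n s) (du n s)
            = (∫ s in (0 : ℝ)..k, D.a (du n s) (du n s)) + ∫ s in (k : ℝ)..(k + 1), D.a (du n s) (du n s) := by
          rw [intervalIntegral.integral_add_adjacent_intervals]
          · exact ((hadu n).mono Icc_subset_Ici_self).intervalIntegrable_of_Icc hk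
          · exact ((hadu n).mono hsub).intervalIntegrable_of_Icc (by linarith)
        rw [hk0]
        have h2 : 0 ≤ ∫ s in (0 : ℝ)..k, D.a (du n s) (du n s) :=
          intervalIntegral.integral_nonneg hk fun s _ => D.a_nonneg _
        have h3 : ∫ s in (k : ℝ)..(k + 1), D.c₀ * ‖du n s‖ ^ 2 ≤ ∫ s in (k : ℝ)..(k + 1), D.a (du n s) (du n s) := by
          refine intervalIntegral.integral_mono_on (by linarith) ?_ ?_ fun s _ => D.a_coer _
          · exact (((((hu n).cont.mono hsub).norm.pow 2).const_smul D.c₀).intervalIntegrable_of_Icc (by linarith))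
          · exact ((hadu n).mono hsub).intervalIntegrable_of_Icc (by linarith)
        linarith)
      (fun n t ht => by
        rw [(hu n).ftc hk ht.1]; abel)
      (fun t ht => hpt t (hk.trans ht.1))
    exact ⟨w, hw1, hw2⟩
  -- the limit equation in integrated form
  have hNLc := D.continuous_NL η ε κ
  have hFc : ContinuousOn (fun s => f s - D.NL η ε κ (ulim s)) (Ici 0) :=
    hfc.sub (hNLc.comp_continuousOn hulc')
  have hint : ∀ t, 0 ≤ t → ∀ v, ⟪D.ι (ulim t - u₀), D.ι v⟫ = ∫ s in (0 : ℝ)..t, (f s - D.NL η ε κ (ulim s)) v := by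
    intro t ht v
    have h1 : ∀ n, ⟪D.ι (u n t - u₀), D.ι v⟫ + 1 / ((n : ℝ) + 1) * D.a (u n t - u₀) v
        = ∫ s in (0 : ℝ)..t, (f s - D.NL η ε κ (u n s)) v := by
      intro n
      have hcdu : ContinuousOn (fun s => ⟪D.ι (du n s), D.ι v⟫ + 1 / ((n : ℝ) + 1) * D.a (du n s) v) (Icc 0 t) := by
        have h2 : ContinuousOn (du n) (Icc 0 t) := (hu n).cont.mono Icc_subset_Ici_self
        have h3 : Continuous fun x : V => ⟪D.ι x, D.ι v⟫ + 1 / ((n : ℝ) + 1) * D.a x v := by
          have : Continuous fun x : V => D.a x v := (D.a.continuous).clm_apply continuous_const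
          fun_prop
        exact h3.comp_continuousOn h2
      have h4 : ∫ s in (0 : ℝ)..t, (f s - D.NL η ε κ (u n s)) v
          = ∫ s in (0 : ℝ)..t, (⟪D.ι (du n s), D.ι v⟫ + 1 / ((n : ℝ) + 1) * D.a (du n s) v) := by
        refine intervalIntegral.integral_congr fun s hs => ?_
        rw [uIcc_of_le ht] at hs
        have := (hu n).eq s hs.1 v
        simp only [ContinuousLinearMap.sub_apply, D.NL_apply]
        rw [← this]; ring
      rw [h4]
      have hL : ∀ x : V, ⟪D.ι x, D.ι v⟫ + 1 / ((n : ℝ) + 1) * D.a x v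
          = ((innerSL ℝ (D.ι v)).comp D.ι + (1 / ((n : ℝ) + 1)) • (D.a.flip v)) x := by
        intro x
        simp [real_inner_comm]
      simp only [hL]
      rw [ContinuousLinearMap.intervalIntegral_comp_comm, (hu n).ftc le_rfl ht, hu0]
      exact ((hu n).cont.mono Icc_subset_Ici_self).intervalIntegrable_of_Icc ht
    have h5 : Tendsto (fun n : ℕ => ⟪D.ι (u n t - u₀), D.ι v⟫ + 1 / ((n : ℝ) + 1) * D.a (u n t - u₀) v) atTop
        (𝓝 (⟪D.ι (ulim t - u₀), D.ι v⟫ + 0 * D.a (ulim t - u₀) v)) := by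
      have h6 := (hpt t ht).sub_const u₀
      have h7 : Continuous fun x : V => ⟪D.ι x, D.ι v⟫ := by fun_prop
      have h8 : Continuous fun x : V => D.a x v := (D.a.continuous).clm_apply continuous_const
      exact ((h7.tendsto _).comp h6).add (hδ0.mul ((h8.tendsto _).comp h6))
    have h9 := tendsto_integral_comp (T := t) ht (u := u) (ulim := ulim) (fun n => huc n t) (hul t ht)
      (Ψ := fun s x => (f s - D.NL η ε κ x) v)
      (fun x hx => by
        have := (hfc.mono (fun _ h => h.1 : Icc (0 : ℝ) t ⊆ Ici 0)).sub (hNLc.comp_continuousOn hx)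
        exact this.clm_apply continuousOn_const)
      (fun s _ => (continuous_const.sub hNLc).clm_apply continuous_const)
      (fun R => by
        obtain ⟨M, hM0, hM⟩ := D.NL_bound (κ := κ) hη hε.le R
        obtain ⟨N, hN⟩ := isCompact_Icc.exists_bound_of_continuousOn
          (hfc.mono (fun _ h => h.1 : Icc (0 : ℝ) t ⊆ Ici 0))
        refine ⟨(N + M) * ‖v‖, fun s hs x hx => ?_⟩
        refine (ContinuousLinearMap.le_opNorm _ _).trans (mul_le_mul_of_nonneg_right ?_ (norm_nonneg _))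
        exact (norm_sub_le _ _).trans (add_le_add (hN s hs) (hM x hx)))
    have h10 := tendsto_nhds_unique h5 ((tendsto_congr h1).2 h9)
    linarith
  -- a.e. equation
  have heq : ∀ᵐ t ∂(volume.restrict (Ioi (0 : ℝ))),
      ((innerSL ℝ (D.ι (w t))).comp D.ι : V →L[ℝ] ℝ) = f t - D.NL η ε κ (ulim t) := by
    let J : V →L[ℝ] (V →L[ℝ] ℝ) :=
      (innerSL ℝ : K →L[ℝ] K →L[ℝ] ℝ).bilinearComp D.ι D.ι
    have hJ : ∀ x, J x = (innerSL ℝ (D.ι x)).comp D.ι := fun x => rfl
    have hN : ∀ N : ℕ, ∀ᵐ t ∂(volume.restrict (Ioc (0 : ℝ) N)),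
        J (w t) - (f t - D.NL η ε κ (ulim t)) = 0 := by
      intro N
      have hN0 : (0 : ℝ) ≤ N := Nat.cast_nonneg N
      have hwi : IntervalIntegrable w volume 0 N := hw.intervalIntegrable le_rfl hN0
      have hJw : ∀ t, 0 ≤ t → IntervalIntegrable (fun s => J (w s)) volume 0 t := fun t ht =>
        ⟨J.integrable_comp (hw.intervalIntegrable le_rfl ht).1, J.integrable_comp (hw.intervalIntegrable le_rfl ht).2⟩
      have hFi : ∀ t, 0 ≤ t → IntervalIntegrable (fun s => f s - D.NL η ε κ (ulim s)) volume 0 t := fun t ht =>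
        (hFc.mono Icc_subset_Ici_self).intervalIntegrable_of_Icc ht
      refine ae_zero_of_integral_Ioc ?_ ?_
      · have := ((hJw N hN0).sub (hFi N hN0)).1
        exact this
      · intro t ht
        rw [intervalIntegral.integral_sub (hJw t ht.1) (hFi t ht.1), sub_eq_zero,
          ContinuousLinearMap.intervalIntegral_comp_comm J (hw.intervalIntegrable le_rfl ht.1),
          ← hw.sub_eq le_rfl ht.1, hul0]
        ext v
        rw [ContinuousLinearMap.intervalIntegral_apply (hFi t ht.1), ← hint t ht.1 v]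
        simp [hJ, inner_sub_left]
    rw [ae_restrict_iff' measurableSet_Ioi]
    have h1 : ∀ᵐ t : ℝ, ∀ N : ℕ, t ∈ Ioc (0 : ℝ) N → J (w t) - (f t - D.NL η ε κ (ulim t)) = 0 := by
      rw [ae_all_iff]
      intro N
      exact (ae_restrict_iff' measurableSet_Ioc).1 (hN N)
    filter_upwards [h1] with t ht ht0
    obtain ⟨N, hN⟩ := exists_nat_ge t
    have := ht N ⟨ht0, hN⟩
    rw [← hJ]
    exact sub_eq_zero.1 this
  -- pointwise bound of the right-hand side
  have hFb : ∀ T, 0 ≤ T → ∀ t ∈ Icc 0 T, ∀ v, (f t - D.NL η ε κ (ulim t)) v ≤ √(C T) * ‖D.ι v‖ := by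
    intro T hT t ht v
    have hCT : 0 ≤ C T := by
      have := (hCn T hT 0).1 t ht
      have h2 := mul_nonneg (hδ 0).le (D.a_nonneg (du 0 t))
      have h3 := sq_nonneg ‖D.ι (du 0 t)‖
      linarith
    have h1 : ∀ n, (f t - D.NL η ε κ (u n t)) v ≤ √(C T) * ‖D.ι v‖ + √(1 / ((n : ℝ) + 1)) * √(C T) * D.sig v := by
      intro n
      have h2 := (hu n).eq t ht.1 v
      have h3 := (hCn T hT n).1 t ht
      have h4 : (f t - D.NL η ε κ (u n t)) v = ⟪D.ι (du n t), D.ι v⟫ + 1 / ((n : ℝ) + 1) * D.a (du n t) v := by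
        simp only [ContinuousLinearMap.sub_apply, D.NL_apply]
        rw [← h2]; ring
      have ha := D.a_nonneg (du n t)
      have h5 : ‖D.ι (du n t)‖ ≤ √(C T) := by
        refine Real.le_sqrt_of_sq_le ?_
        have := mul_nonneg (hδ n).le ha
        linarith
      have h6 : √(1 / ((n : ℝ) + 1)) * D.sig (du n t) ≤ √(C T) := by
        refine Real.le_sqrt_of_sq_le ?_
        rw [mul_pow, Real.sq_sqrt (hδ n).le, D.sig_sq]
        have := sq_nonneg ‖D.ι (du n t)‖
        linarith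
      rw [h4]
      refine add_le_add ?_ ?_
      · exact (real_inner_le_norm _ _).trans (mul_le_mul_of_nonneg_right h5 (norm_nonneg _))
      · have h7 : D.a (du n t) v ≤ D.sig (du n t) * D.sig v := (le_abs_self _).trans (D.a_cs _ _)
        calc 1 / ((n : ℝ) + 1) * D.a (du n t) v ≤ 1 / ((n : ℝ) + 1) * (D.sig (du n t) * D.sig v) :=
              mul_le_mul_of_nonneg_left h7 (hδ n).le
          _ = √(1 / ((n : ℝ) + 1)) * (√(1 / ((n : ℝ) + 1)) * D.sig (du n t)) * D.sig v := by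
              rw [← mul_assoc √(1 / ((n : ℝ) + 1)), Real.mul_self_sqrt (hδ n).le]; ring
          _ ≤ √(1 / ((n : ℝ) + 1)) * √(C T) * D.sig v := by
              refine mul_le_mul_of_nonneg_right ?_ (D.sig_nonneg v)
              exact mul_le_mul_of_nonneg_left h6 (Real.sqrt_nonneg _)
    have h2 : Tendsto (fun n => (f t - D.NL η ε κ (u n t)) v) atTop (𝓝 ((f t - D.NL η ε κ (ulim t)) v)) := by
      have : Continuous fun x : V => (f t - D.NL η ε κ x) v := (continuous_const.sub hNLc).clm_apply continuous_const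
      exact (this.tendsto _).comp (hpt t ht.1)
    have h3 : Tendsto (fun n : ℕ => √(C T) * ‖D.ι v‖ + √(1 / ((n : ℝ) + 1)) * √(C T) * D.sig v) atTop
        (𝓝 (√(C T) * ‖D.ι v‖ + √0 * √(C T) * D.sig v)) := by
      refine tendsto_const_nhds.add ((Tendsto.mul_const _ ?_).mul_const _)
      exact (Real.continuous_sqrt.tendsto 0).comp hδ0
    have h4 := le_of_tendsto_of_tendsto' h2 h3 h1
    simpa using h4
  -- energy
  have hpc : Continuous fun x : V => phi ε κ (D.sig x) := (continuous_phi ε κ).comp D.continuous_sig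
  have hac : Continuous fun x : V => D.a x x := (D.a.continuous).clm_apply continuous_id
  have henb : ∀ c : ℝ, 0 ≤ c → ∀ T : ℝ, 0 ≤ T → Tendsto (fun n => ∫ s in (0 : ℝ)..T, (η + c * phi ε κ (D.sig (u n s))) * D.a (u n s) (u n s)) atTop
      (𝓝 (∫ s in (0 : ℝ)..T, (η + c * phi ε κ (D.sig (ulim s))) * D.a (ulim s) (ulim s))) := by
    intro c hc T hT
    have hcc : Continuous fun x : V => (η + c * phi ε κ (D.sig x)) * D.a x x :=
      (continuous_const.add (continuous_const.mul hpc)).mul hac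
    refine tendsto_integral_comp (T := T) hT (u := u) (ulim := ulim) (fun n => huc n T) (hul T hT)
      (Ψ := fun _ x => (η + c * phi ε κ (D.sig x)) * D.a x x)
      (fun x hx => hcc.comp_continuousOn hx) (fun s _ => hcc) (fun R => ?_)
    rcases lt_or_ge R 0 with hR | hR
    · exact ⟨0, fun s _ u hu => absurd (norm_nonneg u) (by linarith)⟩
    refine ⟨(η + c * (ε * √R)) * R ^ 2, fun s _ x hx => ?_⟩
    have hsx : D.sig x ≤ R := (D.sig_le_norm x).trans hx
    have hp : phi ε κ (D.sig x) ≤ ε * √R :=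
      (phi_le hε.le (D.sig_nonneg x)).trans (mul_le_mul_of_nonneg_left (Real.sqrt_le_sqrt hsx) hε.le)
    have hp0 := phi_nonneg (κ := κ) hε.le (D.sig x)
    rw [Real.norm_eq_abs, abs_of_nonneg (mul_nonneg (by positivity) (D.a_nonneg x))]
    refine mul_le_mul (by gcongr) ?_ (D.a_nonneg x) (by positivity)
    exact (D.a_le x).trans (by gcongr)
  have hend : ∀ T, 0 ≤ T → Tendsto (fun n : ℕ => 1 / ((n : ℝ) + 1) * D.a (u n T) (u n T)) atTop (𝓝 (0 * D.a (ulim T) (ulim T))) :=
    fun T hT => hδ0.mul ((hac.tendsto _).comp (hpt T hT))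
  have hini : Tendsto (fun n : ℕ => ‖D.ι u₀‖ ^ 2 + 1 / ((n : ℝ) + 1) * D.a u₀ u₀) atTop (𝓝 (‖D.ι u₀‖ ^ 2 + 0 * D.a u₀ u₀)) :=
    tendsto_const_nhds.add (hδ0.mul_const _)
  have hiT : ∀ T, 0 ≤ T → Tendsto (fun n : ℕ => ‖D.ι (u n T)‖ ^ 2) atTop (𝓝 (‖D.ι (ulim T)‖ ^ 2)) := by
    intro T hT
    have : Continuous fun x : V => ‖D.ι x‖ ^ 2 := by fun_prop
    exact (this.tendsto _).comp (hpt T hT)
  refine ⟨ulim, w, hw, hul0, ?_, ?_, ?_, ?_⟩
  · intro T
    rcases lt_or_ge T 0 with hT | hT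
    · refine ⟨0, ?_⟩
      rw [Ioc_eq_empty (by linarith)]; simp
    refine ⟨√(C T), ?_⟩
    rw [ae_restrict_iff' measurableSet_Ioc]
    rw [ae_restrict_iff' measurableSet_Ioi] at heq
    filter_upwards [heq] with t ht htT
    have h1 := ht htT.1
    have h2 := hFb T hT t ⟨htT.1.le, htT.2⟩ (w t)
    rw [← h1] at h2
    simp only [ContinuousLinearMap.comp_apply, innerSL_apply_apply, real_inner_self_eq_norm_sq] at h2
    rcases (norm_nonneg (D.ι (w t))).eq_or_lt with h0 | h0
    · rw [← h0]; exact Real.sqrt_nonneg _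
    · rw [sq] at h2
      exact le_of_mul_le_mul_right h2 h0
  · filter_upwards [heq] with t ht v
    have h1 := DFunLike.congr_fun ht v
    simp only [ContinuousLinearMap.comp_apply, innerSL_apply_apply, ContinuousLinearMap.sub_apply, D.NL_apply] at h1
    linarith
  · intro T hT
    have h1 : ∀ n, ‖D.ι (u n T)‖ ^ 2 + 1 / ((n : ℝ) + 1) * D.a (u n T) (u n T)
        + 2 * ∫ s in (0 : ℝ)..T, (η + 1 * phi ε κ (D.sig (u n s))) * D.a (u n s) (u n s)
        = ‖D.ι u₀‖ ^ 2 + 1 / ((n : ℝ) + 1) * D.a u₀ u₀ + 2 * ∫ s in (0 : ℝ)..T, f s (u n s) := by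
      intro n
      have := (hE V K D η ε κ (1 / ((n : ℝ) + 1)) f (u n) (du n) hη hε.le hκ (hδ n).le hfc (hu n) T hT).1
      rw [hu0] at this
      simpa only [one_mul] using this
    have h2 := (((hiT T hT).add (hend T hT)).add ((henb 1 zero_le_one T hT).const_mul 2))
    have h3 : Tendsto (fun n => ∫ s in (0 : ℝ)..T, f s (u n s)) atTop (𝓝 (∫ s in (0 : ℝ)..T, f s (ulim s))) := by
      refine tendsto_integral_comp (T := T) hT (u := u) (ulim := ulim) (fun n => huc n T) (hul T hT)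
        (Ψ := fun s x => f s x) (fun x hx => (hfc.mono Icc_subset_Ici_self).clm_apply hx)
        (fun s _ => (f s).continuous) (fun R => ?_)
      obtain ⟨N, hN⟩ := isCompact_Icc.exists_bound_of_continuousOn
        (hfc.mono (fun _ h => h.1 : Icc (0 : ℝ) T ⊆ Ici 0))
      refine ⟨N * R, fun s hs x hx => ?_⟩
      refine (ContinuousLinearMap.le_opNorm _ _).trans ?_
      exact mul_le_mul (hN s hs) hx (norm_nonneg _) ((norm_nonneg _).trans (hN s hs))
    have h4 := hini.add (h3.const_mul 2)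
    have h5 := tendsto_nhds_unique h2 ((tendsto_congr h1).2 h4)
    simp only [one_mul, zero_mul, add_zero] at h5
    exact h5
  · intro T hT
    have h1 : ∀ n, ∫ s in (0 : ℝ)..T, (η + 2 * phi ε κ (D.sig (u n s))) * D.a (u n s) (u n s)
        ≤ ‖D.ι u₀‖ ^ 2 + 1 / ((n : ℝ) + 1) * D.a u₀ u₀ + 1 / (D.c₀ * η) * ∫ s in (0 : ℝ)..T, ‖f s‖ ^ 2 := by
      intro n
      have := (hE V K D η ε κ (1 / ((n : ℝ) + 1)) f (u n) (du n) hη hε.le hκ (hδ n).le hfc (hu n) T hT).2
      rw [hu0] at this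
      have h2 := mul_nonneg (hδ n).le (D.a_nonneg (u n T))
      have h3 := sq_nonneg ‖D.ι (u n T)‖
      linarith
    have h2 := le_of_tendsto_of_tendsto' (henb 2 (by norm_num) T hT) (hini.add_const _) h1
    simpa using h2

end Pool.Agent.NSD
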