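import Pool.Agent.NSD.Abstract

/-!
# MP_fd8964_an: basic lemmas for the abstract part
-/

open MeasureTheory Set Filter Topology
open scoped RealInnerProductSpace

noncomputable section

namespace Pool.Agent.NSD

/-! ### `phi` -/

theorem phi_nonneg {ε κ : ℝ} (hε : 0 ≤ ε) (s : ℝ) : 0 ≤ phi ε κ s := by
  unfold phi
  exact mul_nonneg hε (sub_nonneg.2 (Real.sqrt_le_sqrt (le_max_right _ _)))

theorem phi_mono {ε κ : ℝ} (hε : 0 ≤ ε) {s t : ℝ} (h : s ≤ t) : phi ε κ s ≤ phi ε κ t := by
  unfold phi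
  have : √(max s κ) ≤ √(max t κ) := Real.sqrt_le_sqrt (max_le_max_right _ h)
  exact mul_le_mul_of_nonneg_left (by linarith) hε

theorem phi_eq_zero {ε κ s : ℝ} (h : s ≤ κ) : phi ε κ s = 0 := by
  unfold phi
  rw [max_eq_right h]; simp

theorem phi_le {ε κ s : ℝ} (hε : 0 ≤ ε) (hs : 0 ≤ s) : phi ε κ s ≤ ε * √s := by
  unfold phi
  refine mul_le_mul_of_nonneg_left ?_ hε
  rcases le_total s κ with h | h
  · rw [max_eq_right h]
    simpa using Real.sqrt_nonneg s
  · rw [max_eq_left h]
    have := Real.sqrt_nonneg κ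
    linarith

theorem phi_lipschitz {ε κ : ℝ} (hε : 0 ≤ ε) (hκ : 0 < κ) (s t : ℝ) :
    |phi ε κ s - phi ε κ t| ≤ ε / (2 * √κ) * |s - t| := by
  unfold phi
  have hk : 0 < √κ := Real.sqrt_pos.2 hκ
  have key : |√(max s κ) - √(max t κ)| ≤ 1 / (2 * √κ) * |s - t| := by
    have h1 : √κ ≤ √(max s κ) := Real.sqrt_le_sqrt (le_max_right _ _)
    have h2 : √κ ≤ √(max t κ) := Real.sqrt_le_sqrt (le_max_right _ _)
    have h3 : (√(max s κ) - √(max t κ)) * (√(max s κ) + √(max t κ)) = max s κ - max t κ := by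
      have e1 := Real.mul_self_sqrt (le_trans hκ.le (le_max_right s κ))
      have e2 := Real.mul_self_sqrt (le_trans hκ.le (le_max_right t κ))
      linear_combination e1 - e2
    have h4 : |max s κ - max t κ| ≤ |s - t| := abs_max_sub_max_le_abs _ _ _
    have h5 : |√(max s κ) - √(max t κ)| * (√(max s κ) + √(max t κ)) = |max s κ - max t κ| := by
      rw [← h3, abs_mul, abs_of_nonneg (by linarith : 0 ≤ √(max s κ) + √(max t κ))]
    rw [one_div, ← div_eq_inv_mul, le_div_iff₀ (by positivity)]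
    calc |√(max s κ) - √(max t κ)| * (2 * √κ)
        ≤ |√(max s κ) - √(max t κ)| * (√(max s κ) + √(max t κ)) :=
          mul_le_mul_of_nonneg_left (by linarith) (abs_nonneg _)
      _ = |max s κ - max t κ| := h5
      _ ≤ |s - t| := h4
  have : ε * (√(max s κ) - √κ) - ε * (√(max t κ) - √κ) = ε * (√(max s κ) - √(max t κ)) := by ring
  rw [this, abs_mul, abs_of_nonneg hε]
  calc ε * |√(max s κ) - √(max t κ)| ≤ ε * (1 / (2 * √κ) * |s - t|) :=
        mul_le_mul_of_nonneg_left key hε
    _ = ε / (2 * √κ) * |s - t| := by ring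

theorem continuous_phi (ε κ : ℝ) : Continuous (phi ε κ) := by
  unfold phi
  fun_prop

/-! ### The seminorm `sig` -/

section
variable {V K : Type*} [NormedAddCommGroup V] [InnerProductSpace ℝ V]
    [NormedAddCommGroup K] [InnerProductSpace ℝ K] (D : Data V K)

theorem Data.a_nonneg (v : V) : 0 ≤ D.a v v :=
  le_trans (mul_nonneg D.c₀_pos.le (sq_nonneg _)) (D.a_coer v)

theorem Data.sig_nonneg (v : V) : 0 ≤ D.sig v := Real.sqrt_nonneg _

theorem Data.sig_sq (v : V) : D.sig v ^ 2 = D.a v v := Real.sq_sqrt (D.a_nonneg v)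

theorem Data.sig_le_norm (v : V) : D.sig v ≤ ‖v‖ := by
  unfold Data.sig
  rw [Real.sqrt_le_left (norm_nonneg v)]
  exact D.a_le v

theorem Data.norm_le_sig (v : V) : √D.c₀ * ‖v‖ ≤ D.sig v := by
  unfold Data.sig
  rw [← Real.sqrt_sq (norm_nonneg v), ← Real.sqrt_mul D.c₀_pos.le]
  exact Real.sqrt_le_sqrt (D.a_coer v)

/-- Cauchy-Schwarz for `a`. -/
theorem Data.a_cs (x y : V) : |D.a x y| ≤ D.sig x * D.sig y := by
  have hx := D.a_nonneg x
  have hy := D.a_nonneg y
  have key : (D.a x y) ^ 2 ≤ D.a x x * D.a y y := by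
    have h : ∀ t : ℝ, 0 ≤ D.a y y * (t * t) + (2 * D.a x y) * t + D.a x x := by
      intro t
      have := D.a_nonneg (x + t • y)
      simp only [map_add, map_smul, ContinuousLinearMap.add_apply, ContinuousLinearMap.smul_apply,
        smul_eq_mul, D.a_symm y x] at this
      linarith
    have := discrim_le_zero h
    unfold discrim at this
    nlinarith
  rw [← Real.sqrt_sq_eq_abs]
  unfold Data.sig
  rw [← Real.sqrt_mul hx]
  exact Real.sqrt_le_sqrt key

theorem Data.sig_add_le (x y : V) : D.sig (x + y) ≤ D.sig x + D.sig y := by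
  have h1 := D.a_cs x y
  have h2 := D.sig_nonneg x
  have h3 := D.sig_nonneg y
  have h4 : D.sig (x + y) ^ 2 ≤ (D.sig x + D.sig y) ^ 2 := by
    rw [D.sig_sq]
    simp only [map_add, ContinuousLinearMap.add_apply, D.a_symm y x]
    have e1 := D.sig_sq x
    have e2 := D.sig_sq y
    have := (abs_le.1 h1).2
    nlinarith
  exact abs_le_of_sq_le_sq' h4 (by linarith) |>.2

theorem Data.sig_smul (c : ℝ) (x : V) : D.sig (c • x) = |c| * D.sig x := by
  unfold Data.sig
  simp only [map_smul, ContinuousLinearMap.smul_apply, smul_eq_mul]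
  rw [← mul_assoc, ← sq, Real.sqrt_mul (sq_nonneg c), Real.sqrt_sq_eq_abs]

theorem Data.sig_neg (x : V) : D.sig (-x) = D.sig x := by
  have := D.sig_smul (-1) x
  simpa using this

theorem Data.abs_sig_sub_le (x y : V) : |D.sig x - D.sig y| ≤ D.sig (x - y) := by
  rw [abs_le]
  constructor
  · have := D.sig_add_le (y - x) x
    have h2 := D.sig_neg (x - y)
    rw [neg_sub] at h2
    rw [sub_add_cancel] at this
    linarith
  · have := D.sig_add_le (x - y) y
    rw [sub_add_cancel] at this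
    linarith

theorem Data.abs_sig_sub_le_norm (x y : V) : |D.sig x - D.sig y| ≤ ‖x - y‖ :=
  (D.abs_sig_sub_le x y).trans (D.sig_le_norm _)

theorem Data.continuous_sig : Continuous D.sig := by
  unfold Data.sig
  have : Continuous fun v : V => D.a v v := (D.a.continuous).clm_apply continuous_id
  exact this.sqrt

theorem Data.norm_a_le (x : V) : ‖D.a x‖ ≤ D.sig x := by
  refine ContinuousLinearMap.opNorm_le_bound _ (D.sig_nonneg x) fun y => ?_
  rw [Real.norm_eq_abs]
  exact (D.a_cs x y).trans (mul_le_mul_of_nonneg_left (D.sig_le_norm y) (D.sig_nonneg x))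

end

/-! ### `H¹_loc` -/

section
variable {X : Type*} [NormedAddCommGroup X] [NormedSpace ℝ X] {f f₁ : ℝ → X}

theorem IsH1loc.intervalIntegrable (h : IsH1loc f f₁) {a b : ℝ} (ha : 0 ≤ a) (hb : 0 ≤ b) :
    IntervalIntegrable f₁ volume a b := by
  have h1 : IntegrableOn f₁ (Ioc 0 (max a b)) := by
    have := (h.memLp (max a b))
    exact this.integrable (by norm_num)
  rw [intervalIntegrable_iff]
  refine h1.mono_set ?_
  rw [uIoc]
  exact Ioc_subset_Ioc (le_min ha hb) le_rfl

theorem IsH1loc.sub_eq (h : IsH1loc f f₁) {s t : ℝ} (hs : 0 ≤ s) (ht : 0 ≤ t) :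
    f t - f s = ∫ r in s..t, f₁ r := by
  rw [h.eq t ht, h.eq s hs, add_sub_add_left_eq_sub]
  exact intervalIntegral.integral_interval_sub_left (h.intervalIntegrable le_rfl ht)
    (h.intervalIntegrable le_rfl hs)

theorem IsH1loc.continuousOn (h : IsH1loc f f₁) : ContinuousOn f (Ici 0) := by
  intro t ht
  have ht0 : (0 : ℝ) ≤ t := ht
  have h1 : ContinuousOn (fun x => f 0 + ∫ s in (0 : ℝ)..x, f₁ s) (Icc 0 (t + 1)) := by
    refine continuousOn_const.add ?_
    have := intervalIntegral.continuousOn_primitive_interval' (a := (0 : ℝ)) (b₁ := 0) (b₂ := t + 1)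
      (h.intervalIntegrable le_rfl (by linarith)) (by simp)
    rwa [uIcc_of_le (by linarith)] at this
  have h2 : ContinuousOn f (Icc 0 (t + 1)) := h1.congr fun x hx => h.eq x hx.1
  have h3 := h2 t ⟨ht0, by linarith⟩
  refine h3.mono_of_mem_nhdsWithin ?_
  rw [← Ici_inter_Iic]
  exact inter_mem_nhdsWithin _ (Iic_mem_nhds (by linarith))

end

end Pool.Agent.NSD
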