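import Pool.Agent.NSD.Concrete

/-!
# MP_fd8964_an, module C3b: for `u₀ ∈ V ∩ H²`, `ηAu₀ + B(u₀) ∈ H`
-/

open MeasureTheory Set Filter Topology
open scoped RealInnerProductSpace ContDiff

noncomputable section

namespace Pool.Agent.NSD

section aux

theorem cpt_finite {Ω : Set E} (hb : Bornology.IsBounded Ω) :
    IsFiniteMeasure (volume.restrict Ω) :=
  ⟨by rw [Measure.restrict_apply_univ]; exact hb.measure_lt_top⟩

/-- Continuity of `fld`. -/
theorem cpt_fld_cont (Ω : Set E) : Continuous (fun v : V Ω => fld v) :=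
  ((WithLp.fstL 2 ℝ (L2 Ω) (L2G Ω)).comp (V Ω).subtypeL).continuous

theorem cpt_grd_cont (Ω : Set E) : Continuous (fun v : V Ω => grd v) :=
  ((WithLp.sndL 2 ℝ (L2 Ω) (L2G Ω)).comp (V Ω).subtypeL).continuous

/-- `fld v ∈ H` for `v ∈ V`. -/
theorem cpt_fld_mem (hA : Stmt_Approx) (Ω : Set E) (v : V Ω) : fld v ∈ Hspace Ω := by
  obtain ⟨φ, p, hp, hlim⟩ := hA Ω v
  have h1 : Tendsto (fun n => fld (p n)) atTop (𝓝 (fld v)) :=
    ((cpt_fld_cont Ω).tendsto v).comp hlim
  have hcl : IsClosed (Hspace Ω : Set (L2 Ω)) := Submodule.isClosed_topologicalClosure _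
  refine hcl.mem_of_tendsto h1 (Filter.Eventually.of_forall fun n => ?_)
  refine Submodule.le_topologicalClosure _ (Submodule.subset_span ?_)
  exact ⟨φ n, (hp n).1, (hp n).2.1⟩

/-- Components of a test field. -/
theorem cpt_comp {Ω : Set E} {φ : E → E} (h : IsTest Ω φ) (k : Fin 3) :
    ContDiff ℝ ∞ (fun x => φ x k) ∧ HasCompactSupport (fun x => φ x k) ∧
      tsupport (fun x => φ x k) ⊆ Ω ∧
      ∀ x v, fderiv ℝ (fun x => φ x k) x v = fderiv ℝ φ x v k := by
  have hsub : tsupport (fun x => φ x k) ⊆ tsupport φ := by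
    refine closure_mono (fun x hx => ?_)
    rw [Function.mem_support] at hx ⊢
    intro h0
    exact hx (by simp [h0])
  refine ⟨?_, ?_, hsub.trans h.supp, ?_⟩
  · exact (EuclideanSpace.proj k : E →L[ℝ] ℝ).contDiff.comp h.smooth
  · exact h.compact.of_isClosed_subset (isClosed_tsupport _) hsub
  · intro x v
    have hd : HasFDerivAt φ (fderiv ℝ φ x) x :=
      (h.smooth.differentiable (by simp) x).hasFDerivAt
    have h2 : HasFDerivAt (fun x => φ x k)
        ((EuclideanSpace.proj k : E →L[ℝ] ℝ).comp (fderiv ℝ φ x)) x :=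
      (EuclideanSpace.proj k : E →L[ℝ] ℝ).hasFDerivAt.comp x hd
    rw [h2.fderiv]
    rfl

theorem cpt_int_comp {Ω : Set E} {F : E → E} (hF : Integrable F (volume.restrict Ω)) (k : Fin 3) :
    (∫ x in Ω, F x) k = ∫ x in Ω, F x k := by
  have := (EuclideanSpace.proj k : E →L[ℝ] ℝ).integral_comp_comm hF
  exact this.symm

theorem cpt_int_k {Ω : Set E} {F : E → E} (hF : Integrable F (volume.restrict Ω)) (k : Fin 3) :
    Integrable (fun x => F x k) (volume.restrict Ω) :=
  (EuclideanSpace.proj k : E →L[ℝ] ℝ).integrable_comp hF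

/-- Integration by parts against a test field. -/
theorem cpt_parts {Ω : Set E} (hb : Bornology.IsBounded Ω) (u₀ : V Ω)
    (D : Fin 3 → Fin 3 → L2 Ω)
    (hD : ∀ i j, ∀ θ : E → ℝ, ContDiff ℝ ∞ θ → HasCompactSupport θ → tsupport θ ⊆ Ω →
      ∫ x in Ω, (fderiv ℝ θ x (e j)) • ((grd u₀ : E → G) x i) = - ∫ x in Ω, θ x • (D i j : E → E) x)
    (φ : E → E) (p : V Ω) (hφ : IsTest Ω φ) (hp : Represents Ω φ p) :
    ⟪grd u₀, grd p⟫ = ⟪-∑ i, D i i, fld p⟫ := by
  have := cpt_finite hb
  have hg : Integrable (grd u₀ : E → G) (volume.restrict Ω) :=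
    (Lp.memLp (grd u₀)).integrable one_le_two
  have hgi : ∀ i : Fin 3, Integrable (fun x => (grd u₀ : E → G) x i) (volume.restrict Ω) := by
    intro i
    exact (PiLp.proj 2 (fun _ : Fin 3 => E) i : G →L[ℝ] E).integrable_comp hg
  have hDi : ∀ i : Fin 3, Integrable (D i i : E → E) (volume.restrict Ω) := fun i =>
    (Lp.memLp (D i i)).integrable one_le_two
  -- bounded multipliers
  have hmul : ∀ (θ : E → ℝ), Continuous θ → HasCompactSupport θ → ∀ F : E → E,
      Integrable F (volume.restrict Ω) → Integrable (fun x => θ x • F x) (volume.restrict Ω) := by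
    intro θ hθ hθc F hF
    obtain ⟨C, hC⟩ := hθ.bounded_above_of_compact_support hθc
    exact hF.bdd_smul C hθ.aestronglyMeasurable (Filter.Eventually.of_forall hC)
  -- the key identity for every pair (i,k)
  have hkey : ∀ i k : Fin 3, ∫ x in Ω, (fderiv ℝ φ x (e i) k) * ((grd u₀ : E → G) x i k) =
      - ∫ x in Ω, φ x k * (D i i : E → E) x k := by
    intro i k
    obtain ⟨c1, c2, c3, c4⟩ := cpt_comp hφ k
    have h := hD i i (fun x => φ x k) c1 c2 c3
    have hc : Continuous (fun x => fderiv ℝ (fun x => φ x k) x (e i)) :=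
      (c1.continuous_fderiv (by simp)).clm_apply continuous_const
    have i1 := hmul _ hc (c2.fderiv_apply ℝ (e i)) _ (hgi i)
    have i2 := hmul _ c1.continuous c2 _ (hDi i)
    have h' := congrArg (fun z : E => z k) h
    simp only [PiLp.neg_apply] at h'
    rw [cpt_int_comp i1, cpt_int_comp i2] at h'
    simpa [c4] using h'
  have e1 : ⟪grd u₀, grd p⟫ =
      ∫ x in Ω, ∑ i : Fin 3, ∑ k : Fin 3, (fderiv ℝ φ x (e i) k) * ((grd u₀ : E → G) x i k) := by
    rw [L2.inner_def]
    refine integral_congr_ae ?_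
    filter_upwards [hp.2] with x hx
    have hx' : (grd p : E → G) x = gradField φ x := hx
    rw [hx', PiLp.inner_apply]
    refine Finset.sum_congr rfl (fun i _ => ?_)
    rw [PiLp.inner_apply]
    refine Finset.sum_congr rfl (fun k _ => ?_)
    simp [gradField]
  have e2 : ⟪-∑ i, D i i, fld p⟫ =
      ∫ x in Ω, ∑ i : Fin 3, ∑ k : Fin 3, -(φ x k * (D i i : E → E) x k) := by
    rw [L2.inner_def]
    refine integral_congr_ae ?_
    have hs : ((∑ i, D i i : L2 Ω) : E → E) =ᵐ[volume.restrict Ω]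
        fun x => ∑ i, (D i i : E → E) x := by
      have hs' : (∑ i, D i i : L2 Ω) = D 0 0 + D 1 1 + D 2 2 := Fin.sum_univ_three _
      rw [hs']
      filter_upwards [Lp.coeFn_add (D 0 0 + D 1 1) (D 2 2), Lp.coeFn_add (D 0 0) (D 1 1)] with x h1 h2
      rw [h1, Pi.add_apply, h2, Pi.add_apply, Fin.sum_univ_three]
    filter_upwards [hp.1, Lp.coeFn_neg (∑ i, D i i), hs] with x hx h2 h3
    have hx' : (fld p : E → E) x = φ x := hx
    rw [hx', h2, Pi.neg_apply, h3, inner_neg_left, sum_inner, ← Finset.sum_neg_distrib]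
    refine Finset.sum_congr rfl (fun i _ => ?_)
    rw [PiLp.inner_apply, ← Finset.sum_neg_distrib]
    refine Finset.sum_congr rfl (fun k _ => ?_)
    simp
  have j1 : ∀ i k : Fin 3, Integrable (fun x => (fderiv ℝ φ x (e i) k) * ((grd u₀ : E → G) x i k))
      (volume.restrict Ω) := by
    intro i k
    obtain ⟨c1, c2, c3, c4⟩ := cpt_comp hφ k
    have hc : Continuous (fun x => fderiv ℝ (fun x => φ x k) x (e i)) :=
      (c1.continuous_fderiv (by simp)).clm_apply continuous_const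
    have i1 := cpt_int_k (hmul _ hc (c2.fderiv_apply ℝ (e i)) _ (hgi i)) k
    refine i1.congr (Filter.Eventually.of_forall fun x => ?_)
    simp [c4]
  have j2 : ∀ i k : Fin 3, Integrable (fun x => -(φ x k * (D i i : E → E) x k))
      (volume.restrict Ω) := by
    intro i k
    obtain ⟨c1, c2, c3, c4⟩ := cpt_comp hφ k
    have i1 := cpt_int_k (hmul _ c1.continuous c2 _ (hDi i)) k
    refine i1.neg.congr (Filter.Eventually.of_forall fun x => ?_)
    simp
  rw [e1, e2, integral_finsetSum _ (fun i _ => integrable_finsetSum _ (fun k _ => j1 i k)),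
    integral_finsetSum _ (fun i _ => integrable_finsetSum _ (fun k _ => j2 i k))]
  refine Finset.sum_congr rfl (fun i _ => ?_)
  rw [integral_finsetSum _ (fun k _ => j1 i k), integral_finsetSum _ (fun k _ => j2 i k)]
  refine Finset.sum_congr rfl (fun k _ => ?_)
  rw [hkey i k, integral_neg]

end aux

/-- **C3b.** -/
theorem compat_proof (hA : Stmt_Approx) (hH : Stmt_H2Bound) : Stmt_Compat := by
  intro Ω hΩ hb u₀ hu₀ η
  have := cpt_finite hb
  obtain ⟨D, hD⟩ := hu₀
  -- the linear part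
  have h1 : ∀ v : V Ω, ⟪grd u₀, grd v⟫ = ⟪-∑ i, D i i, fld v⟫ := by
    intro v
    obtain ⟨φ, p, hp, hlim⟩ := hA Ω v
    have t1 : Tendsto (fun n => ⟪grd u₀, grd (p n)⟫) atTop (𝓝 ⟪grd u₀, grd v⟫) :=
      tendsto_const_nhds.inner (((cpt_grd_cont Ω).tendsto v).comp hlim)
    have t2 : Tendsto (fun n => ⟪-∑ i, D i i, fld (p n)⟫) atTop (𝓝 ⟪-∑ i, D i i, fld v⟫) :=
      tendsto_const_nhds.inner (((cpt_fld_cont Ω).tendsto v).comp hlim)
    refine tendsto_nhds_unique t1 (t2.congr fun n => ?_)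
    exact (cpt_parts hb u₀ D hD (φ n) (p n) (hp n).1 (hp n).2).symm
  -- the quadratic part
  set F : E → E := fun x => ∑ i : Fin 3, (fld u₀ : E → E) x i • (grd u₀ : E → G) x i with hF
  have hFm : AEStronglyMeasurable F (volume.restrict Ω) := by
    rw [hF]
    refine Finset.aestronglyMeasurable_fun_sum _ (fun i _ => ?_)
    have m1 : AEStronglyMeasurable (fun x => (fld u₀ : E → E) x i) (volume.restrict Ω) :=
      (EuclideanSpace.proj i : E →L[ℝ] ℝ).continuous.comp_aestronglyMeasurable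
        (Lp.aestronglyMeasurable (fld u₀))
    have m2 : AEStronglyMeasurable (fun x => (grd u₀ : E → G) x i) (volume.restrict Ω) :=
      (PiLp.proj 2 (fun _ : Fin 3 => E) i : G →L[ℝ] E).continuous.comp_aestronglyMeasurable
        (Lp.aestronglyMeasurable (grd u₀))
    exact m1.smul m2
  have hFle : ∀ x, ‖F x‖ ≤ 3 * (‖(fld u₀ : E → E) x‖ * ‖(grd u₀ : E → G) x‖) := by
    intro x
    rw [hF]
    refine (norm_sum_le _ _).trans ?_
    have : ∀ i ∈ (Finset.univ : Finset (Fin 3)),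
        ‖(fld u₀ : E → E) x i • (grd u₀ : E → G) x i‖ ≤
          ‖(fld u₀ : E → E) x‖ * ‖(grd u₀ : E → G) x‖ := by
      intro i _
      rw [norm_smul]
      exact mul_le_mul (PiLp.norm_apply_le _ i) (PiLp.norm_apply_le _ i) (norm_nonneg _)
        (norm_nonneg _)
    refine (Finset.sum_le_card_nsmul _ _ _ this).trans ?_
    simp
  have hFL : MemLp F 2 (volume.restrict Ω) := by
    refine ⟨hFm, ?_⟩
    rw [eLpNorm_lt_top_iff_lintegral_rpow_enorm_lt_top (by norm_num) (by norm_num)]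
    have hfin := hH Ω hΩ hb u₀ ⟨D, hD⟩
    calc ∫⁻ x in Ω, ‖F x‖ₑ ^ (2 : ENNReal).toReal
        ≤ ∫⁻ x in Ω, 9 * (‖(fld u₀ : E → E) x‖ₑ * ‖(grd u₀ : E → G) x‖ₑ) ^ 2 := by
          refine lintegral_mono (fun x => ?_)
          have h2 : (2 : ENNReal).toReal = ((2 : ℕ) : ℝ) := by norm_num
          rw [h2, ENNReal.rpow_natCast]
          have h3 : ‖F x‖ₑ ≤ 3 * (‖(fld u₀ : E → E) x‖ₑ * ‖(grd u₀ : E → G) x‖ₑ) := by
            have h4 := hFle x
            rw [← ofReal_norm, ← ofReal_norm, ← ofReal_norm,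
              ← ENNReal.ofReal_mul (norm_nonneg _)]
            refine (ENNReal.ofReal_le_ofReal h4).trans (le_of_eq ?_)
            rw [ENNReal.ofReal_mul (by norm_num)]
            norm_num
          calc ‖F x‖ₑ ^ 2 ≤ (3 * (‖(fld u₀ : E → E) x‖ₑ * ‖(grd u₀ : E → G) x‖ₑ)) ^ 2 := by
                gcongr
            _ = 9 * (‖(fld u₀ : E → E) x‖ₑ * ‖(grd u₀ : E → G) x‖ₑ) ^ 2 := by
                rw [mul_pow]; norm_num
      _ = 9 * ∫⁻ x in Ω, (‖(fld u₀ : E → E) x‖ₑ * ‖(grd u₀ : E → G) x‖ₑ) ^ 2 :=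
          lintegral_const_mul' _ _ (by norm_num)
      _ < ⊤ := ENNReal.mul_lt_top (by norm_num) hfin
  set h₂ : L2 Ω := hFL.toLp F with hh₂
  have h2 : ∀ v : V Ω, trilin u₀ u₀ v = ⟪h₂, fld v⟫ := by
    intro v
    rw [L2.inner_def]
    unfold trilin
    refine integral_congr_ae ?_
    filter_upwards [hFL.coeFn_toLp] with x hx
    rw [hh₂, hx, hF, sum_inner]
    refine Finset.sum_congr rfl (fun i _ => ?_)
    rw [real_inner_smul_left]
  have : CompleteSpace (Hspace Ω) := Submodule.topologicalClosure.completeSpace _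
  refine ⟨(Hspace Ω).starProjection (η • (-∑ i, D i i) + h₂),
    Submodule.starProjection_apply_mem _ _, fun v => ?_⟩
  rw [Submodule.inner_starProjection_left_eq_right,
    Submodule.starProjection_eq_self_iff.2 (cpt_fld_mem hA Ω v), inner_add_left,
    real_inner_smul_left, h1 v, h2 v]

end Pool.Agent.NSD
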