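import Pool.Agent.NSD.Defs
import Pool.Agent.NSD.Abstract

/-!
# MP_fd8964_an: interface statements of the concrete modules, and the final statement
-/

open MeasureTheory Set Filter Topology
open scoped RealInnerProductSpace ContDiff

noncomputable section

namespace Pool.Agent.NSD

/-- C1a. Every test field is represented by an element of `V`. -/
def Stmt_Rep : Prop := ∀ (Ω : Set E) (v : E → E), IsTest Ω v → ∃ p : V Ω, Represents Ω v p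

/-- C1b. Test fields are dense in `V` (sequential form). -/
def Stmt_Approx : Prop := ∀ (Ω : Set E) (v : V Ω), ∃ (φ : ℕ → E → E) (p : ℕ → V Ω),
    (∀ n, IsTest Ω (φ n) ∧ Represents Ω (φ n) (p n)) ∧ Tendsto p atTop (𝓝 v)

/-- C1c. Poincaré inequality in `V`. -/
def Stmt_Poincare : Prop := ∀ (Ω : Set E), Bornology.IsBounded Ω →
    ∃ c : ℝ, 0 < c ∧ ∀ v : V Ω, c * ‖v‖ ^ 2 ≤ ‖grd v‖ ^ 2

/-- C1d. Sobolev inequality in `V`. -/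
def Stmt_L6 : Prop := ∀ (Ω : Set E), Bornology.IsBounded Ω →
    ∃ C : ℝ, 0 ≤ C ∧ ∀ v : V Ω,
      eLpNorm (fld v : E → E) 6 (volume.restrict Ω) ≤ ENNReal.ofReal (C * ‖grd v‖)

/-- C2a. The trilinear form is a bounded trilinear form on `V`. -/
def Stmt_Trilin : Prop := ∀ (Ω : Set E), Bornology.IsBounded Ω →
    ∃ b : V Ω →L[ℝ] V Ω →L[ℝ] V Ω →L[ℝ] ℝ, ∀ u v w, b u v w = trilin u v w

/-- C2b. Skew symmetry. -/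
def Stmt_Skew : Prop := ∀ (Ω : Set E), Bornology.IsBounded Ω → ∀ u v : V Ω, trilin u v v = 0

/-- C2c. The refined estimate in Young form. -/
def Stmt_Young : Prop := ∀ (Ω : Set E), Bornology.IsBounded Ω →
    ∃ C : ℝ, 0 ≤ C ∧ ∀ m : ℝ, 0 < m → ∀ u w : V Ω,
      |trilin w u w| ≤ m * ‖grd w‖ ^ 2 + C / m ^ 3 * (‖grd u‖ ^ 2) ^ 2 * ‖fld w‖ ^ 2

/-- C3a. For `u₀ ∈ V ∩ H²`, `|u₀| |∇u₀| ∈ L²` (test `-Δu₀ = h` with truncations of `|u₀|²u₀`). -/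
def Stmt_H2Bound : Prop := ∀ (Ω : Set E), IsOpen Ω → Bornology.IsBounded Ω → ∀ u₀ : V Ω, MemH2 u₀ →
    ∫⁻ x in Ω, (‖(fld u₀ : E → E) x‖ₑ * ‖(grd u₀ : E → G) x‖ₑ) ^ 2 < ⊤

/-- C3b. For `u₀ ∈ V ∩ H²`, `ηAu₀ + B(u₀) ∈ H`. -/
def Stmt_Compat : Prop := ∀ (Ω : Set E), IsOpen Ω → Bornology.IsBounded Ω → ∀ u₀ : V Ω, MemH2 u₀ →
    ∀ η : ℝ, ∃ h ∈ Hspace Ω, ∀ v : V Ω, η * ⟪grd u₀, grd v⟫ + trilin u₀ u₀ v = ⟪h, fld v⟫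

/-- The final theorem. -/
def Stmt_Main : Prop := ∀ (Ω : Set E), IsOpen Ω → Bornology.IsBounded Ω → ∀ (η : ℝ), 0 < η →
    ∀ (u₀ : V Ω), MemH2 u₀ → ∀ (f : ℝ → V' Ω), AdmissibleForce Ω f → ∀ (τ : ℝ), 0 < τ →
    ∃ (g : ℝ → V' Ω) (u : ℝ → V Ω), AdmissibleForce Ω g ∧ g 0 = f 0 ∧ IsRegularSolution Ω η u₀ g u ∧
      (∀ T : ℝ, 0 ≤ T → ∫⁻ t in Ioc 0 T, ‖g t - f t‖ₑ ^ (5 / 3 : ℝ)
        ≤ ENNReal.ofReal (τ * (‖fld u₀‖ ^ 2 + ∫ s in (0 : ℝ)..T, ‖f s‖ ^ 2))) ∧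
      (∀ T : ℝ, 0 ≤ T → volume {t ∈ Ioc (0 : ℝ) T | g t ≠ f t}
        ≤ ENNReal.ofReal (τ * (‖fld u₀‖ ^ 2 + ∫ s in (0 : ℝ)..T, ‖f s‖ ^ 2))) ∧
      (∀ T : ℝ, 0 ≤ T →
        ‖fld (u T)‖ ^ 2 + 2 * η * ∫ s in (0 : ℝ)..T, ‖grd (u s)‖ ^ 2
          ≤ ‖fld u₀‖ ^ 2 + 2 * ∫ s in (0 : ℝ)..T, f s (u s))

end Pool.Agent.NSD
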