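import Mathlib

/-!
# MP_fd8964_an (3D Navier-Stokes with Dirichlet boundary conditions): concrete definitions

`E = ℝ³`.  `V Ω` is the closure in `H¹(Ω)³` of the smooth compactly supported divergence free fields, realised
as a closed subspace of `L²(Ω;E) × L²(Ω;E³)` (a field together with its gradient).
-/

open MeasureTheory Set Filter Topology
open scoped RealInnerProductSpace ContDiff

noncomputable section

namespace Pool.Agent.NSD

/-- Euclidean three-space. -/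
abbrev E : Type := EuclideanSpace ℝ (Fin 3)

/-- Values of gradients of vector fields: the `i`-th entry is the `i`-th partial derivative. -/
abbrev G : Type := PiLp 2 (fun _ : Fin 3 => E)

/-- The `i`-th standard basis vector. -/
def e (i : Fin 3) : E := EuclideanSpace.single i (1 : ℝ)

/-- The gradient of a vector field: `(∇v)(x) i = ∂ᵢ v (x)`. -/
def gradField (v : E → E) (x : E) : G := WithLp.toLp 2 (fun i : Fin 3 => fderiv ℝ v x (e i))

/-- The divergence of a vector field. -/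
def divField (v : E → E) (x : E) : ℝ := ∑ i : Fin 3, fderiv ℝ v x (e i) i

/-- Smooth, compactly supported in `Ω`, divergence free fields: the space `𝒱`. -/
def IsTest (Ω : Set E) (v : E → E) : Prop :=
  ContDiff ℝ ∞ v ∧ HasCompactSupport v ∧ tsupport v ⊆ Ω ∧ ∀ x, divField v x = 0

theorem IsTest.smooth {Ω : Set E} {v : E → E} (h : IsTest Ω v) : ContDiff ℝ ∞ v := h.1

theorem IsTest.compact {Ω : Set E} {v : E → E} (h : IsTest Ω v) : HasCompactSupport v := h.2.1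

theorem IsTest.supp {Ω : Set E} {v : E → E} (h : IsTest Ω v) : tsupport v ⊆ Ω := h.2.2.1

theorem IsTest.div {Ω : Set E} {v : E → E} (h : IsTest Ω v) : ∀ x, divField v x = 0 := h.2.2.2

theorem IsTest.mk {Ω : Set E} {v : E → E} (smooth : ContDiff ℝ ∞ v) (compact : HasCompactSupport v)
    (supp : tsupport v ⊆ Ω) (div : ∀ x, divField v x = 0) : IsTest Ω v := ⟨smooth, compact, supp, div⟩

/-- `L²(Ω)³`. -/
abbrev L2 (Ω : Set E) : Type := Lp E 2 (volume.restrict Ω)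

/-- `L²(Ω)^{3 × 3}`. -/
abbrev L2G (Ω : Set E) : Type := Lp G 2 (volume.restrict Ω)

/-- The Hilbert space in which `H¹` fields live: (field, gradient). -/
abbrev H1 (Ω : Set E) : Type := WithLp 2 (L2 Ω × L2G Ω)

/-- The pair (field, gradient) in `L²(Ω) × L²(Ω)` is represented by the smooth field `v`. -/
def Represents (Ω : Set E) (v : E → E) (p : H1 Ω) : Prop :=
  (p.fst : E → E) =ᵐ[volume.restrict Ω] v ∧ (p.snd : E → G) =ᵐ[volume.restrict Ω] gradField v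

/-- `H`: the closure of `𝒱` in `L²(Ω)³`. -/
def Hspace (Ω : Set E) : Submodule ℝ (L2 Ω) :=
  (Submodule.span ℝ {p : L2 Ω | ∃ v, IsTest Ω v ∧ (p : E → E) =ᵐ[volume.restrict Ω] v}).topologicalClosure

/-- `V`: the closure of `𝒱` in `H¹(Ω)³`. -/
def V (Ω : Set E) : Submodule ℝ (H1 Ω) :=
  (Submodule.span ℝ {p : H1 Ω | ∃ v, IsTest Ω v ∧ Represents Ω v p}).topologicalClosure

/-- The dual space `V'`. -/
abbrev V' (Ω : Set E) : Type := V Ω →L[ℝ] ℝ

/-- The `L²` field underlying an element of `V`. -/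
def fld {Ω : Set E} (u : V Ω) : L2 Ω := (u : H1 Ω).fst

/-- The (weak) gradient of an element of `V`. -/
def grd {Ω : Set E} (u : V Ω) : L2G Ω := (u : H1 Ω).snd

/-- `∫_Ω (u·∇)v·w`. -/
def trilin {Ω : Set E} (u v w : V Ω) : ℝ :=
  ∫ x in Ω, ∑ i : Fin 3, (fld u : E → E) x i * ⟪(grd v : E → G) x i, (fld w : E → E) x⟫

/-- `u₀ ∈ H²(Ω)³` for `u₀ ∈ V`: the weak second derivatives `D i j = ∂ⱼ∂ᵢu₀` are in `L²(Ω)³`. -/
def MemH2 {Ω : Set E} (u₀ : V Ω) : Prop :=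
  ∃ D : Fin 3 → Fin 3 → L2 Ω, ∀ i j, ∀ θ : E → ℝ, ContDiff ℝ ∞ θ → HasCompactSupport θ → tsupport θ ⊆ Ω →
    ∫ x in Ω, (fderiv ℝ θ x (e j)) • ((grd u₀ : E → G) x i) = - ∫ x in Ω, θ x • (D i j : E → E) x

/-- Admissible forces: `f, ∂ₜf ∈ L²(0,T;V')` for all `T` and `f(0) ∈ H`. -/
def AdmissibleForce (Ω : Set E) (f : ℝ → V' Ω) : Prop :=
  (∃ f₁ : ℝ → V' Ω, (∀ T : ℝ, MemLp f₁ 2 (volume.restrict (Ioc 0 T))) ∧
    ∀ t : ℝ, 0 ≤ t → f t = f 0 + ∫ s in (0 : ℝ)..t, f₁ s) ∧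
  ∃ h ∈ Hspace Ω, ∀ v : V Ω, f 0 v = ⟪h, fld v⟫

/-- `u` is, on `[0,∞)`, a (weak) solution of the Navier-Stokes system in `Ω` with viscosity `η`, force `f` and
initial value `u₀`, whose time derivative `w = ∂ₜu` is in `L²(0,T;V) ∩ L^∞(0,T;H)` for every `T`. -/
def IsRegularSolution (Ω : Set E) (η : ℝ) (u₀ : V Ω) (f : ℝ → V' Ω) (u : ℝ → V Ω) : Prop :=
  ∃ w : ℝ → V Ω,
    (∀ T : ℝ, MemLp w 2 (volume.restrict (Ioc 0 T))) ∧
    (∀ T : ℝ, ∃ C : ℝ, ∀ᵐ t ∂(volume.restrict (Ioc 0 T)), ‖fld (w t)‖ ≤ C) ∧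
    (∀ t : ℝ, 0 ≤ t → u t = u₀ + ∫ s in (0 : ℝ)..t, w s) ∧
    ∀ᵐ t ∂(volume.restrict (Ioi (0 : ℝ))), ∀ v : V Ω,
      ⟪fld (w t), fld v⟫ + trilin (u t) (u t) v + η * ⟪grd (u t), grd v⟫ = f t v

end Pool.Agent.NSD
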