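import Pool.Agent.NSD.Abstract

/-!
# MP_fd8964_an: module `Gronwall`
-/

open MeasureTheory Set Filter Topology

noncomputable section

namespace Pool.Agent.NSD

/-- Continuous extension from a compact interval. -/
theorem H4.exists_cont_ext {T : ℝ} (hT : 0 ≤ T) {f : ℝ → ℝ} (hf : ContinuousOn f (Icc 0 T)) :
    ∃ g : ℝ → ℝ, Continuous g ∧ ∀ t ∈ Icc 0 T, g t = f t := by
  refine ⟨IccExtend hT ((Icc 0 T).domRestrict f), ?_, ?_⟩
  · exact (continuousOn_iff_continuous_domRestrict.1 hf).Icc_extend'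
  · intro t ht
    rw [IccExtend_of_mem hT _ ht]
    rfl

theorem gronwall_proof : Stmt_Gronwall := by
  intro T y y' Λ r z hy hΛ hr hz hΛ0 hr0 hz0 hle hy0 t ht
  have hT : 0 ≤ T := ht.1.trans ht.2
  obtain ⟨Λe, hΛc, hΛe⟩ := H4.exists_cont_ext hT hΛ
  obtain ⟨re, hrc, hre⟩ := H4.exists_cont_ext hT hr
  obtain ⟨ze, hzc, hze⟩ := H4.exists_cont_ext hT hz
  have hcongr : ∀ (f g : ℝ → ℝ), (∀ s ∈ Icc 0 T, g s = f s) → ∀ s ∈ Icc 0 T,
      (∫ x in (0 : ℝ)..s, f x) = ∫ x in (0 : ℝ)..s, g x := by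
    intro f g h s hs
    refine intervalIntegral.integral_congr (fun x hx => ?_)
    rw [uIcc_of_le hs.1] at hx
    exact (h x ⟨hx.1, hx.2.trans hs.2⟩).symm
  rw [hcongr Λ Λe hΛe t ht, hcongr r re hre t ht, hcongr z ze hze t ht]
  set L : ℝ → ℝ := fun s => ∫ x in (0 : ℝ)..s, Λe x with hL
  set R : ℝ → ℝ := fun s => ∫ x in (0 : ℝ)..s, re x with hR
  set Z : ℝ → ℝ := fun s => ∫ x in (0 : ℝ)..s, ze x with hZ
  have dL : ∀ s, HasDerivAt L (Λe s) s := fun s =>
    intervalIntegral.integral_hasDerivAt_right (hΛc.intervalIntegrable _ _)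
      (hΛc.stronglyMeasurableAtFilter _ _) hΛc.continuousAt
  have dR : ∀ s, HasDerivAt R (re s) s := fun s =>
    intervalIntegral.integral_hasDerivAt_right (hrc.intervalIntegrable _ _)
      (hrc.stronglyMeasurableAtFilter _ _) hrc.continuousAt
  have dZ : ∀ s, HasDerivAt Z (ze s) s := fun s =>
    intervalIntegral.integral_hasDerivAt_right (hzc.intervalIntegrable _ _)
      (hzc.stronglyMeasurableAtFilter _ _) hzc.continuousAt
  have L0 : L 0 = 0 := intervalIntegral.integral_same
  have R0 : R 0 = 0 := intervalIntegral.integral_same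
  have Z0 : Z 0 = 0 := intervalIntegral.integral_same
  have Lnn : ∀ s ∈ Icc 0 T, 0 ≤ L s := by
    intro s hs
    refine intervalIntegral.integral_nonneg hs.1 (fun x hx => ?_)
    rw [hΛe x ⟨hx.1, hx.2.trans hs.2⟩]
    exact hΛ0 x ⟨hx.1, hx.2.trans hs.2⟩
  have Znn : ∀ s ∈ Icc 0 T, 0 ≤ Z s := by
    intro s hs
    refine intervalIntegral.integral_nonneg hs.1 (fun x hx => ?_)
    rw [hze x ⟨hx.1, hx.2.trans hs.2⟩]
    exact hz0 x ⟨hx.1, hx.2.trans hs.2⟩
  -- the auxiliary function
  set U : ℝ → ℝ := fun s => ((y 0 + R s) * Real.exp (L s) - Z s - y s) * Real.exp (-L s) with hU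
  have hycont : ContinuousOn y (Icc 0 T) := fun s hs => (hy s hs).continuousWithinAt
  have hUcont : ContinuousOn U (Icc 0 T) := by
    have cL : Continuous L := continuous_iff_continuousAt.2 fun s => (dL s).continuousAt
    have cR : Continuous R := continuous_iff_continuousAt.2 fun s => (dR s).continuousAt
    have cZ : Continuous Z := continuous_iff_continuousAt.2 fun s => (dZ s).continuousAt
    exact ((((continuous_const.add cR).mul (Real.continuous_exp.comp cL)).sub cZ).continuousOn.sub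
      hycont).mul (Real.continuous_exp.comp cL.neg).continuousOn
  have hUder : ∀ s ∈ Ioo 0 T, HasDerivAt U
      ((re s * Real.exp (L s) + (y 0 + R s) * (Real.exp (L s) * Λe s) - ze s - y' s) * Real.exp (-L s)
        + ((y 0 + R s) * Real.exp (L s) - Z s - y s) * (Real.exp (-L s) * (-Λe s))) s := by
    intro s hs
    have hys : HasDerivAt y (y' s) s := (hy s (Ioo_subset_Icc_self hs)).hasDerivAt (Icc_mem_nhds hs.1 hs.2)
    exact (((((dR s).const_add (y 0)).mul (dL s).exp).sub (dZ s)).sub hys).mul (dL s).neg.exp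
  have hmono : MonotoneOn U (Icc 0 T) := by
    refine monotoneOn_of_deriv_nonneg (convex_Icc 0 T) hUcont ?_ ?_
    · rw [interior_Icc]
      exact fun s hs => (hUder s hs).differentiableAt.differentiableWithinAt
    · rw [interior_Icc]
      intro s hs
      rw [(hUder s hs).deriv]
      have hs' := Ioo_subset_Icc_self hs
      have h1 := hle s hs'
      have h2 := hΛ0 s hs'
      have h3 := hr0 s hs'
      have h4 := Lnn s hs'
      have h5 := Znn s hs'
      rw [hΛe s hs', hre s hs', hze s hs']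
      have h6 : 1 ≤ Real.exp (L s) := Real.one_le_exp h4
      have e1 : (r s * Real.exp (L s) + (y 0 + R s) * (Real.exp (L s) * Λ s) - z s - y' s) * Real.exp (-L s)
        + ((y 0 + R s) * Real.exp (L s) - Z s - y s) * (Real.exp (-L s) * (-Λ s))
        = ((Λ s * y s + r s - (y' s + z s)) + r s * (Real.exp (L s) - 1) + Λ s * Z s) * Real.exp (-L s) := by
        ring
      rw [e1]
      refine mul_nonneg ?_ (Real.exp_pos _).le
      have h7 : 0 ≤ r s * (Real.exp (L s) - 1) := mul_nonneg h3 (by linarith)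
      have h8 : 0 ≤ Λ s * Z s := mul_nonneg h2 h5
      linarith
  have h0 : U 0 = 0 := by
    simp only [hU, L0, R0, Z0]
    simp
  have h1 : 0 ≤ U t := by
    rw [← h0]
    exact hmono ⟨le_rfl, hT⟩ ht ht.1
  have h2 : 0 ≤ (y 0 + R t) * Real.exp (L t) - Z t - y t :=
    nonneg_of_mul_nonneg_left h1 (Real.exp_pos _)
  linarith

end Pool.Agent.NSD
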