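import Pool.Agent.NSD.Energy
import Pool.Agent.NSD.Gronwall

/-!
# MP_fd8964_an: module `Diff`
-/

open MeasureTheory Set Filter Topology
open scoped RealInnerProductSpace

noncomputable section

namespace Pool.Agent.NSD

/-- The pointwise inequality behind `Stmt_Diff`. -/
theorem H4.diff_ineq {V K : Type*} [NormedAddCommGroup V] [InnerProductSpace ℝ V]
    [NormedAddCommGroup K] [InnerProductSpace ℝ K] (D : Data V K) {η ε κ δ : ℝ}
    (hη : 0 < η) (hε : 0 ≤ ε) (hδ : 0 ≤ δ) (f g : V →L[ℝ] ℝ) (u u' v v' : V)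
    (hu : ⟪D.ι u', D.ι (u - v)⟫ + δ * D.a u' (u - v) + (η + phi ε κ (D.sig u)) * D.a u (u - v)
      + D.b u u (u - v) = f (u - v))
    (hv : ⟪D.ι v', D.ι (u - v)⟫ + δ * D.a v' (u - v) + (η + phi ε κ (D.sig v)) * D.a v (u - v)
      + D.b v v (u - v) = g (u - v)) :
    2 * (⟪D.ι (u' - v'), D.ι (u - v)⟫ + δ * D.a (u' - v') (u - v)) + η / 2 * D.a (u - v) (u - v)
      ≤ D.Lam η ε κ u * (‖D.ι (u - v)‖ ^ 2 + δ * D.a (u - v) (u - v))
        + 1 / (D.c₀ * η) * ‖f - g‖ ^ 2 := by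
  set p := phi ε κ (D.sig u) with hp
  set q := phi ε κ (D.sig v) with hq
  have hp0 : 0 ≤ p := H4.phi_nonneg hε _
  have hq0 : 0 ≤ q := H4.phi_nonneg hε _
  have haw : 0 ≤ D.a (u - v) (u - v) := H4.a_nonneg D _
  have hb : D.b u u (u - v) - D.b v v (u - v) = D.b (u - v) u (u - v) := by
    have h1 := D.b_skew v (u - v)
    have h2 : D.b (u - v) u (u - v) = D.b u u (u - v) - D.b v u (u - v) := by
      rw [map_sub D.b u v]; rfl
    have h3 : D.b v (u - v) (u - v) = D.b v u (u - v) - D.b v v (u - v) := by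
      rw [map_sub (D.b v) u v]; rfl
    linarith
  have hai : D.a u (u - v) - D.a v (u - v) = D.a (u - v) (u - v) := by
    rw [map_sub D.a u v]; rfl
  have hai2 : D.a u (u - v) + D.a v (u - v) = D.a u u - D.a v v := by
    rw [map_sub (D.a u), map_sub (D.a v), D.a_symm u v]
    ring
  have hmono : 0 ≤ (p - q) * (D.a u u - D.a v v) := by
    rcases le_total (D.a u u) (D.a v v) with h | h
    · have h1 : p ≤ q := H4.phi_mono hε (Real.sqrt_le_sqrt h)
      exact mul_nonneg_of_nonpos_of_nonpos (by linarith) (by linarith)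
    · have h1 : q ≤ p := H4.phi_mono hε (Real.sqrt_le_sqrt h)
      exact mul_nonneg (by linarith) (by linarith)
  have hvisc : p * D.a u (u - v) - q * D.a v (u - v) ≥ p / 2 * D.a (u - v) (u - v) := by
    have h1 : p * D.a u (u - v) - q * D.a v (u - v)
        = (p + q) / 2 * (D.a u (u - v) - D.a v (u - v))
          + (p - q) / 2 * (D.a u (u - v) + D.a v (u - v)) := by ring
    rw [h1, hai, hai2]
    have h2 : 0 ≤ q * D.a (u - v) (u - v) := mul_nonneg hq0 haw
    nlinarith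
  have hηp : 0 < η + p := by linarith
  have hyoung := D.b_young ((η + p) / 4) (by linarith) u (u - v)
  have hforce := H4.force_young D hη (f - g) (u - v)
  have hfg : f (u - v) - g (u - v) = (f - g) (u - v) := rfl
  have hm : D.CY / ((η + p) / 4) ^ 3 * (D.a u u) ^ 2 * ‖D.ι (u - v)‖ ^ 2
      = 1 / 2 * (D.Lam η ε κ u * ‖D.ι (u - v)‖ ^ 2) := by
    unfold Data.Lam
    rw [← hp]
    field_simp
    ring
  rw [hm] at hyoung
  have hLam0 : 0 ≤ D.Lam η ε κ u := by
    unfold Data.Lam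
    rw [← hp]
    have := D.CY_nonneg
    positivity
  have hδa : 0 ≤ D.Lam η ε κ u * (δ * D.a (u - v) (u - v)) := mul_nonneg hLam0 (mul_nonneg hδ haw)
  have hinner : ⟪D.ι (u' - v'), D.ι (u - v)⟫ = ⟪D.ι u', D.ι (u - v)⟫ - ⟪D.ι v', D.ι (u - v)⟫ := by
    rw [map_sub D.ι u', inner_sub_left]
  have ha' : D.a (u' - v') (u - v) = D.a u' (u - v) - D.a v' (u - v) := by
    rw [map_sub D.a u' v']; rfl
  rw [hinner, ha']
  have h1 := neg_abs_le (D.b (u - v) u (u - v))
  have h2 := le_abs_self ((f - g) (u - v))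
  have h3 : 0 ≤ p * D.a (u - v) (u - v) := mul_nonneg hp0 haw
  have h4 : (η + p) / 4 * D.a (u - v) (u - v)
      = η / 4 * D.a (u - v) (u - v) + p * D.a (u - v) (u - v) / 4 := by ring
  have h5 : η * D.a u (u - v) - η * D.a v (u - v) = η * D.a (u - v) (u - v) := by rw [← hai]; ring
  nlinarith

theorem diff_proof : Stmt_Diff := by
  intro V K _ _ _ _ D η ε κ δ f g u du v dv hη hε hκ hδ hf hg h h' T hT
  have hu : ContinuousOn u (Icc 0 T) := H4.cont_u h
  have hv : ContinuousOn v (Icc 0 T) := H4.cont_u h'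
  have hfg : ContinuousOn (fun s => f s - g s) (Icc 0 T) := (hf.sub hg).mono Icc_subset_Ici_self
  have hw : ContinuousOn (fun s => u s - v s) (Icc 0 T) := hu.sub hv
  have cΛ : ContinuousOn (fun s => D.Lam η ε κ (u s)) (Icc 0 T) := by
    unfold Data.Lam
    refine ContinuousOn.div ?_ ?_ ?_
    · exact continuousOn_const.mul (((H4.continuous_aa D).comp_continuousOn hu).pow 2)
    · exact (continuousOn_const.add ((H4.continuous_phi_sig D ε κ).comp_continuousOn hu)).pow 3
    · intro s _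
      have : 0 ≤ phi ε κ (D.sig (u s)) := H4.phi_nonneg hε _
      positivity
  have hder : ∀ t ∈ Icc 0 T, HasDerivWithinAt
      (fun t => ‖D.ι (u t - v t)‖ ^ 2 + δ * D.a (u t - v t) (u t - v t))
      (2 * (⟪D.ι (du t - dv t), D.ι (u t - v t)⟫ + δ * D.a (du t - dv t) (u t - v t))) (Icc 0 T) t := by
    intro t ht
    exact H4.hasDerivWithinAt_energy D δ
      (((h.deriv t ht.1).mono Icc_subset_Ici_self).sub ((h'.deriv t ht.1).mono Icc_subset_Ici_self))
  refine gronwall_proof T (fun t => ‖D.ι (u t - v t)‖ ^ 2 + δ * D.a (u t - v t) (u t - v t))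
    (fun t => 2 * (⟪D.ι (du t - dv t), D.ι (u t - v t)⟫ + δ * D.a (du t - dv t) (u t - v t)))
    (fun s => D.Lam η ε κ (u s)) (fun s => 1 / (D.c₀ * η) * ‖f s - g s‖ ^ 2)
    (fun s => η / 2 * D.a (u s - v s) (u s - v s)) hder cΛ
    (continuousOn_const.mul (hfg.norm.pow 2))
    (continuousOn_const.mul ((H4.continuous_aa D).comp_continuousOn hw)) ?_ ?_ ?_ ?_ ?_ T ⟨hT, le_rfl⟩
  · intro t _
    unfold Data.Lam
    have := D.CY_nonneg
    have : 0 ≤ phi ε κ (D.sig (u t)) := H4.phi_nonneg hε _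
    positivity
  · intro t _
    have := D.c₀_pos
    positivity
  · intro t _
    have : 0 ≤ D.a (u t - v t) (u t - v t) := H4.a_nonneg D _
    positivity
  · intro t ht
    exact H4.diff_ineq D hη hε hδ (f t) (g t) (u t) (du t) (v t) (dv t)
      (h.eq t ht.1 (u t - v t)) (h'.eq t ht.1 (u t - v t))
  · have : 0 ≤ D.a (u 0 - v 0) (u 0 - v 0) := H4.a_nonneg D _
    positivity

end Pool.Agent.NSD
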