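import Pool.Agent.NSD.BasicH4

/-!
# MP_fd8964_an: module `Lam`
-/

open MeasureTheory Set Filter Topology
open scoped RealInnerProductSpace

noncomputable section

namespace Pool.Agent.NSD

theorem lam_proof : Stmt_Lam := by
  intro V K _ _ _ _ D η ε κ hη hε hκ
  refine ⟨128 * D.CY * (256 * κ ^ 4 / η ^ 3 + 16 / ε ^ 4), ?_, ?_⟩
  · have := D.CY_nonneg
    positivity
  intro u
  have hs0 : 0 ≤ D.sig u := H4.sig_nonneg D u
  have hsq : D.sig u ^ 2 = D.a u u := H4.sig_sq D u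
  have hφ0 : 0 ≤ phi ε κ (D.sig u) := H4.phi_nonneg hε.le _
  have hCY := D.CY_nonneg
  unfold Data.Lam
  rw [← hsq]
  set s := D.sig u with hs
  set p := phi ε κ s with hp
  have key : (s ^ 2) ^ 2 / (η + p) ^ 3 ≤ (256 * κ ^ 4 / η ^ 3 + 16 / ε ^ 4) * (1 + p * s ^ 2) := by
    rcases le_total s (4 * κ) with h | h
    · have h1 : (s ^ 2) ^ 2 / (η + p) ^ 3 ≤ 256 * κ ^ 4 / η ^ 3 := by
        have h2 : (s ^ 2) ^ 2 ≤ 256 * κ ^ 4 := by
          calc (s ^ 2) ^ 2 = s ^ 4 := by ring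
            _ ≤ (4 * κ) ^ 4 := pow_le_pow_left₀ hs0 h 4
            _ = 256 * κ ^ 4 := by ring
        have h3 : η ^ 3 ≤ (η + p) ^ 3 := pow_le_pow_left₀ hη.le (by linarith) 3
        exact div_le_div₀ (by positivity) h2 (by positivity) h3
      have h4 : 0 ≤ 16 / ε ^ 4 := by positivity
      have h5 : 0 ≤ p * s ^ 2 := by positivity
      have h6 : 0 ≤ 256 * κ ^ 4 / η ^ 3 := by positivity
      nlinarith [mul_nonneg h4 h5, mul_nonneg h6 h5]
    · have hspos : 0 < s := lt_of_lt_of_le (by positivity) h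
      have hmax : max s κ = s := max_eq_left (by linarith)
      have h1 : √κ ≤ √s / 2 := by
        have h2 : √(4 * κ) ≤ √s := Real.sqrt_le_sqrt h
        rw [show (4 : ℝ) * κ = 2 ^ 2 * κ by norm_num, Real.sqrt_mul (by norm_num), Real.sqrt_sq (by norm_num)] at h2
        linarith
      have h2 : ε * √s / 2 ≤ p := by
        rw [hp]
        unfold phi
        rw [hmax]
        have : ε * (√s / 2) ≤ ε * (√s - √κ) := mul_le_mul_of_nonneg_left (by linarith) hε.le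
        linarith
      have hsq4 : √s ^ 4 = s ^ 2 := by
        rw [show √s ^ 4 = (√s ^ 2) ^ 2 by ring, Real.sq_sqrt hs0]
      have h3 : ε ^ 4 * s ^ 2 / 16 ≤ p ^ 4 := by
        calc ε ^ 4 * s ^ 2 / 16 = (ε * √s / 2) ^ 4 := by rw [← hsq4]; ring
          _ ≤ p ^ 4 := pow_le_pow_left₀ (by positivity) h2 4
      have hppos : 0 < p := lt_of_lt_of_le (by positivity) h2
      have h4 : p ^ 3 ≤ (η + p) ^ 3 := pow_le_pow_left₀ hppos.le (by linarith) 3
      have h5 : (s ^ 2) ^ 2 / (η + p) ^ 3 ≤ 16 / ε ^ 4 * (p * s ^ 2) := by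
        rw [div_le_iff₀ (by positivity)]
        have h6 : s ^ 2 ≤ 16 / ε ^ 4 * p ^ 4 := by
          rw [div_mul_eq_mul_div, le_div_iff₀ (by positivity)]
          linarith
        calc (s ^ 2) ^ 2 = s ^ 2 * s ^ 2 := by ring
          _ ≤ (16 / ε ^ 4 * p ^ 4) * s ^ 2 := mul_le_mul_of_nonneg_right h6 (by positivity)
          _ = 16 / ε ^ 4 * (p * s ^ 2) * p ^ 3 := by ring
          _ ≤ 16 / ε ^ 4 * (p * s ^ 2) * (η + p) ^ 3 := mul_le_mul_of_nonneg_left h4 (by positivity)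
      have h6 : 0 ≤ 256 * κ ^ 4 / η ^ 3 := by positivity
      have h7 : 0 ≤ 16 / ε ^ 4 := by positivity
      have h8 : 0 ≤ p * s ^ 2 := by positivity
      nlinarith [mul_nonneg h6 h8]
  calc 128 * D.CY * (s ^ 2) ^ 2 / (η + p) ^ 3 = 128 * D.CY * ((s ^ 2) ^ 2 / (η + p) ^ 3) := by ring
    _ ≤ 128 * D.CY * ((256 * κ ^ 4 / η ^ 3 + 16 / ε ^ 4) * (1 + p * s ^ 2)) :=
        mul_le_mul_of_nonneg_left key (by positivity)
    _ = _ := by ring

end Pool.Agent.NSD
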