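import Pool.Agent.NSD.Basic
import Pool.Agent.NSD.Diff
import Pool.Agent.NSD.Lam
import Pool.Agent.NSD.H1Criterion

/-!
# MP_fd8964_an: module `Deriv`
-/

open MeasureTheory Set Filter Topology
open scoped RealInnerProductSpace

noncomputable section

namespace Pool.Agent.NSD

namespace H48

/-- Increments of `H¹` functions in `L²`. -/
theorem incr_le {X : Type*} [NormedAddCommGroup X] [NormedSpace ℝ X] {f f₁ : ℝ → X}
    (hf : IsH1loc f f₁) {T h : ℝ} (hT : 0 ≤ T) (h0 : 0 < h) (h1 : h ≤ 1) :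
    ∫ s in (0 : ℝ)..T, ‖f (s + h) - f s‖ ^ 2 ≤ h ^ 2 * ∫ s in (0 : ℝ)..(T + 1), ‖f₁ s‖ ^ 2 := by
  have hk2i : ∀ a b : ℝ, 0 ≤ a → a ≤ b →
      IntervalIntegrable (fun s => ‖f₁ s‖ ^ 2) volume a b := by
    intro a b ha hab
    rw [intervalIntegrable_iff_integrableOn_Ioc_of_le hab]
    have h1 : IntegrableOn (fun s => ‖f₁ s‖ ^ 2) (Ioc 0 b) := (hf.memLp b).norm.integrable_sq
    exact h1.mono_set (Ioc_subset_Ioc_left ha)
  let G : ℝ → ℝ := fun t => ∫ r in (0 : ℝ)..t, ‖f₁ r‖ ^ 2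
  have hGsub : ∀ a b : ℝ, 0 ≤ a → a ≤ b → ∫ r in a..b, ‖f₁ r‖ ^ 2 = G b - G a := by
    intro a b ha hab
    exact (intervalIntegral.integral_interval_sub_left (hk2i 0 b le_rfl (ha.trans hab))
      (hk2i 0 a le_rfl ha)).symm
  have hGmono : ∀ a b : ℝ, 0 ≤ a → a ≤ b → G a ≤ G b := by
    intro a b ha hab
    have h1 := hGsub a b ha hab
    have h2 : 0 ≤ ∫ r in a..b, ‖f₁ r‖ ^ 2 :=
      intervalIntegral.integral_nonneg hab fun s _ => sq_nonneg _
    linarith
  have hGi : ∀ a b : ℝ, 0 ≤ a → a ≤ b → IntervalIntegrable G volume a b := by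
    intro a b ha hab
    apply MonotoneOn.intervalIntegrable
    rw [uIcc_of_le hab]
    intro s hs t ht hst
    exact hGmono s t (ha.trans hs.1) hst
  have hG0 : ∀ t, 0 ≤ t → 0 ≤ G t := fun t ht => by
    have := hGmono 0 t le_rfl ht
    simpa [G] using this
  have hpt : ∀ s ∈ Icc 0 T, ‖f (s + h) - f s‖ ^ 2 ≤ h * (G (s + h) - G s) := by
    intro s hs
    have e1 := hf.sub_eq hs.1 (by linarith [hs.1] : (0 : ℝ) ≤ s + h)
    rw [e1]
    have e2 : ‖∫ r in s..(s + h), f₁ r‖ ≤ ∫ r in s..(s + h), ‖f₁ r‖ :=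
      intervalIntegral.norm_integral_le_integral_norm (by linarith)
    have e3 := sq_intervalIntegral_le (k := fun r => ‖f₁ r‖) (by linarith : s < s + h)
      (hf.intervalIntegrable hs.1 (by linarith [hs.1])).norm
      (hk2i s (s + h) hs.1 (by linarith))
    rw [hGsub s (s + h) hs.1 (by linarith), add_sub_cancel_left] at e3
    exact (pow_le_pow_left₀ (norm_nonneg _) e2 2).trans e3
  have hfc := hf.continuousOn
  have hGs : IntervalIntegrable (fun s => G (s + h)) volume 0 T := by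
    apply MonotoneOn.intervalIntegrable
    rw [uIcc_of_le hT]
    intro s hs t ht hst
    exact hGmono _ _ (by linarith [hs.1]) (by linarith)
  have hint : IntervalIntegrable (fun s => ‖f (s + h) - f s‖ ^ 2) volume 0 T := by
    refine ContinuousOn.intervalIntegrable_of_Icc hT ?_
    refine (ContinuousOn.norm ?_).pow 2
    refine ContinuousOn.sub ?_ (hfc.mono Icc_subset_Ici_self)
    refine hfc.comp (by fun_prop) ?_
    intro s hs
    have := hs.1
    show (0 : ℝ) ≤ s + h
    linarith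
  have key := intervalIntegral.integral_mono_on hT hint
    ((hGs.sub (hGi 0 T le_rfl hT)).const_mul h) hpt
  refine key.trans ?_
  rw [intervalIntegral.integral_const_mul, intervalIntegral.integral_sub hGs (hGi 0 T le_rfl hT)]
  have e4 : ∫ s in (0 : ℝ)..T, G (s + h) = ∫ s in h..(T + h), G s := by
    rw [intervalIntegral.integral_comp_add_right (fun s => G s) h, zero_add]
  have e5 : (∫ s in (0 : ℝ)..T, G s) + ∫ s in T..(T + h), G s = ∫ s in (0 : ℝ)..(T + h), G s :=
    intervalIntegral.integral_add_adjacent_intervals (hGi 0 T le_rfl hT)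
      (hGi T (T + h) hT (by linarith))
  have e6 : (∫ s in (0 : ℝ)..h, G s) + ∫ s in h..(T + h), G s = ∫ s in (0 : ℝ)..(T + h), G s :=
    intervalIntegral.integral_add_adjacent_intervals (hGi 0 h le_rfl h0.le)
      (hGi h (T + h) h0.le (by linarith))
  have e7 : 0 ≤ ∫ s in (0 : ℝ)..h, G s :=
    intervalIntegral.integral_nonneg h0.le fun s hs => hG0 s hs.1
  have e8 : ∫ s in T..(T + h), G s ≤ ∫ _s in T..(T + h), G (T + 1) := by
    refine intervalIntegral.integral_mono_on (by linarith) (hGi T (T + h) hT (by linarith))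
      (by simp) fun s hs => hGmono _ _ (hT.trans hs.1) (by linarith [hs.2])
  rw [intervalIntegral.integral_const, smul_eq_mul, add_sub_cancel_left] at e8
  rw [e4]
  have e9 : (∫ s in h..(T + h), G s) - ∫ s in (0 : ℝ)..T, G s ≤ h * G (T + 1) := by linarith
  calc h * ((∫ s in h..(T + h), G s) - ∫ s in (0 : ℝ)..T, G s) ≤ h * (h * G (T + 1)) :=
        mul_le_mul_of_nonneg_left e9 h0.le
    _ = h ^ 2 * G (T + 1) := by ring

variable {V K : Type} [NormedAddCommGroup V] [InnerProductSpace ℝ V]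
    [NormedAddCommGroup K] [InnerProductSpace ℝ K]

/-- Shifted Voigt solutions. -/
theorem shift {D : Data V K} {η ε κ δ : ℝ} {f : ℝ → (V →L[ℝ] ℝ)} {u du : ℝ → V}
    (hu : IsVoigt D η ε κ δ f u du) {h : ℝ} (hh : 0 ≤ h) :
    IsVoigt D η ε κ δ (fun t => f (t + h)) (fun t => u (t + h)) (fun t => du (t + h)) := by
  have hmaps : MapsTo (fun t : ℝ => t + h) (Ici 0) (Ici 0) := by
    intro t ht
    have ht0 : (0 : ℝ) ≤ t := ht
    show (0 : ℝ) ≤ t + h
    linarith
  refine ⟨fun t ht => ?_, hu.cont.comp (by fun_prop) hmaps, fun t ht v => ?_⟩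
  · have h1 := hu.deriv (t + h) (by linarith)
    have h2 : HasDerivWithinAt (fun t : ℝ => t + h) 1 (Ici 0) t :=
      (hasDerivWithinAt_id t _).add_const h
    have h3 := h1.scomp t h2 hmaps
    rw [one_smul] at h3
    exact h3
  · exact hu.eq (t + h) (by linarith) v

/-- The initial value of the time derivative. -/
theorem init {D : Data V K} {η ε κ δ : ℝ} {f : ℝ → (V →L[ℝ] ℝ)} {u du : ℝ → V} {u₀ : V} {h₀ : K}
    (hδ : 0 ≤ δ) (hu : IsVoigt D η ε κ δ f u du) (hu0 : u 0 = u₀) (hs : D.sig u₀ ≤ κ)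
    (hc : ∀ v, f 0 v - η * D.a u₀ v - D.b u₀ u₀ v = ⟪h₀, D.ι v⟫) :
    ‖D.ι (du 0)‖ ^ 2 + δ * D.a (du 0) (du 0) ≤ ‖h₀‖ ^ 2 := by
  have h1 := hu.eq 0 le_rfl (du 0)
  rw [hu0, phi_eq_zero hs, add_zero] at h1
  have h2 := hc (du 0)
  have h3 : ⟪D.ι (du 0), D.ι (du 0)⟫ + δ * D.a (du 0) (du 0) = ⟪h₀, D.ι (du 0)⟫ := by linarith
  rw [real_inner_self_eq_norm_sq] at h3
  have h4 : ⟪h₀, D.ι (du 0)⟫ ≤ ‖h₀‖ * ‖D.ι (du 0)‖ := real_inner_le_norm _ _
  have h5 : 0 ≤ δ * D.a (du 0) (du 0) := mul_nonneg hδ (D.a_nonneg _)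
  nlinarith [sq_nonneg (‖h₀‖ - ‖D.ι (du 0)‖)]

theorem continuousOn_Lam {D : Data V K} {η ε κ : ℝ} (hη : 0 < η) (hε : 0 ≤ ε) {u : ℝ → V}
    {s : Set ℝ} (hu : ContinuousOn u s) : ContinuousOn (fun t => D.Lam η ε κ (u t)) s := by
  unfold Data.Lam
  refine ContinuousOn.div ?_ ?_ ?_
  · exact continuousOn_const.mul (((H4.continuous_aa D).comp_continuousOn hu).pow 2)
  · exact (continuousOn_const.add ((H4.continuous_phi_sig D ε κ).comp_continuousOn hu)).pow 3
  · intro t _
    have : 0 ≤ phi ε κ (D.sig (u t)) := H4.phi_nonneg hε _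
    positivity

/-- Bound for the exponent. -/
theorem exponent {D : Data V K} {η ε κ δ : ℝ} {f f₁ : ℝ → (V →L[ℝ] ℝ)} {u du : ℝ → V} {u₀ : V}
    (hη : 0 < η) (hε : 0 < ε) (hκ : 0 < κ) (hδ : 0 < δ) (hδ1 : δ ≤ 1) (hf : IsH1loc f f₁)
    (hu : IsVoigt D η ε κ δ f u du) (hu0 : u 0 = u₀) {CL : ℝ} (hCL0 : 0 ≤ CL)
    (hCL : ∀ u : V, D.Lam η ε κ u ≤ CL * (1 + phi ε κ (D.sig u) * D.a u u))
    {T t h : ℝ} (ht : 0 ≤ t) (htT : t ≤ T) (h0 : 0 ≤ h) (h1 : h ≤ 1) :
    ∫ s in (0 : ℝ)..t, D.Lam η ε κ (u (s + h)) ≤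
      CL * (T + (‖D.ι u₀‖ ^ 2 + D.a u₀ u₀ +
        1 / (D.c₀ * η) * ∫ s in (0 : ℝ)..(T + 1), ‖f s‖ ^ 2)) := by
  have hT : 0 ≤ T := ht.trans htT
  have huc : ContinuousOn u (Ici 0) := fun t ht => (hu.deriv t ht).continuousWithinAt
  have hus : ContinuousOn (fun s => u (s + h)) (Icc 0 t) := by
    refine huc.comp (by fun_prop) ?_
    intro s hs
    have := hs.1
    show (0 : ℝ) ≤ s + h
    linarith
  have hP : ∀ {s : Set ℝ} {v : ℝ → V}, ContinuousOn v s →
      ContinuousOn (fun r => phi ε κ (D.sig (v r)) * D.a (v r) (v r)) s := by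
    intro s v hv
    exact ((H4.continuous_phi_sig D ε κ).comp_continuousOn hv).mul
      ((H4.continuous_aa D).comp_continuousOn hv)
  have hPn : ∀ v : V, 0 ≤ phi ε κ (D.sig v) * D.a v v := fun v =>
    mul_nonneg (phi_nonneg hε.le _) (D.a_nonneg v)
  have i1 : IntervalIntegrable (fun s => D.Lam η ε κ (u (s + h))) volume 0 t :=
    (continuousOn_Lam hη hε.le hus).intervalIntegrable_of_Icc ht
  have i2 : IntervalIntegrable (fun s => phi ε κ (D.sig (u (s + h))) *
      D.a (u (s + h)) (u (s + h))) volume 0 t := (hP hus).intervalIntegrable_of_Icc ht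
  have e1 : ∫ s in (0 : ℝ)..t, D.Lam η ε κ (u (s + h)) ≤
      ∫ s in (0 : ℝ)..t, CL * (1 + phi ε κ (D.sig (u (s + h))) * D.a (u (s + h)) (u (s + h))) :=
    intervalIntegral.integral_mono_on ht i1 ((IntervalIntegrable.add (by simp) i2).const_mul CL)
      fun s _ => hCL _
  rw [intervalIntegral.integral_const_mul, intervalIntegral.integral_add (by simp) i2,
    intervalIntegral.integral_const, smul_eq_mul, mul_one, sub_zero] at e1
  -- the shifted dissipation
  have e2 : ∫ s in (0 : ℝ)..t, phi ε κ (D.sig (u (s + h))) * D.a (u (s + h)) (u (s + h)) =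
      ∫ s in h..(t + h), phi ε κ (D.sig (u s)) * D.a (u s) (u s) := by
    rw [intervalIntegral.integral_comp_add_right
      (fun s => phi ε κ (D.sig (u s)) * D.a (u s) (u s)) h, zero_add]
  have iP : ∀ a b : ℝ, 0 ≤ a → a ≤ b →
      IntervalIntegrable (fun s => phi ε κ (D.sig (u s)) * D.a (u s) (u s)) volume a b := by
    intro a b ha hab
    refine (hP (huc.mono ?_)).intervalIntegrable_of_Icc hab
    exact Icc_subset_Ici_self.trans (Ici_subset_Ici.2 ha)
  have e3 : ∫ s in h..(t + h), phi ε κ (D.sig (u s)) * D.a (u s) (u s) ≤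
      ∫ s in (0 : ℝ)..(T + 1), phi ε κ (D.sig (u s)) * D.a (u s) (u s) := by
    have a1 := intervalIntegral.integral_add_adjacent_intervals (iP 0 h le_rfl h0)
      (iP h (t + h) h0 (by linarith))
    have a2 := intervalIntegral.integral_add_adjacent_intervals
      (iP 0 (t + h) le_rfl (by linarith)) (iP (t + h) (T + 1) (by linarith) (by linarith))
    have a3 : 0 ≤ ∫ s in (0 : ℝ)..h, phi ε κ (D.sig (u s)) * D.a (u s) (u s) :=
      intervalIntegral.integral_nonneg h0 fun s _ => hPn _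
    have a4 : 0 ≤ ∫ s in (t + h)..(T + 1), phi ε κ (D.sig (u s)) * D.a (u s) (u s) :=
      intervalIntegral.integral_nonneg (by linarith) fun s _ => hPn _
    linarith
  have e4 := (energy_proof V K D η ε κ δ f u du hη hε.le hκ hδ.le hf.continuousOn hu (T + 1)
    (by linarith)).2
  have ia : IntervalIntegrable (fun s => D.a (u s) (u s)) volume 0 (T + 1) :=
    ((H4.continuous_aa D).comp_continuousOn (huc.mono Icc_subset_Ici_self)).intervalIntegrable_of_Icc
      (by linarith)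
  have e5 : ∫ s in (0 : ℝ)..(T + 1), (η + 2 * phi ε κ (D.sig (u s))) * D.a (u s) (u s) =
      η * (∫ s in (0 : ℝ)..(T + 1), D.a (u s) (u s)) +
        2 * ∫ s in (0 : ℝ)..(T + 1), phi ε κ (D.sig (u s)) * D.a (u s) (u s) := by
    rw [← intervalIntegral.integral_const_mul, ← intervalIntegral.integral_const_mul,
      ← intervalIntegral.integral_add (ia.const_mul η)
        ((iP 0 (T + 1) le_rfl (by linarith)).const_mul 2)]
    refine intervalIntegral.integral_congr fun s _ => ?_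
    ring
  rw [e5, hu0] at e4
  have e6 : 0 ≤ ∫ s in (0 : ℝ)..(T + 1), D.a (u s) (u s) :=
    intervalIntegral.integral_nonneg (by linarith) fun s _ => D.a_nonneg _
  have e7 : 0 ≤ ‖D.ι (u (T + 1))‖ ^ 2 := sq_nonneg _
  have e8 : 0 ≤ δ * D.a (u (T + 1)) (u (T + 1)) := mul_nonneg hδ.le (D.a_nonneg _)
  have e9 : δ * D.a u₀ u₀ ≤ D.a u₀ u₀ := by
    have := D.a_nonneg u₀
    nlinarith
  have e10 : 0 ≤ η * ∫ s in (0 : ℝ)..(T + 1), D.a (u s) (u s) := mul_nonneg hη.le e6
  have e11 : 0 ≤ ∫ s in (0 : ℝ)..(T + 1), phi ε κ (D.sig (u s)) * D.a (u s) (u s) :=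
    intervalIntegral.integral_nonneg (by linarith) fun s _ => hPn _
  refine e1.trans (mul_le_mul_of_nonneg_left ?_ hCL0)
  rw [e2]
  linarith

end H48

theorem deriv_proof : Stmt_Deriv := by
  intro V K _ _ _ _ _ D η ε κ f f₁ u₀ h₀ hη hε hκ hf hs hc T hT
  obtain ⟨CL, hCL0, hCL⟩ := lam_proof V K D η ε κ hη hε hκ
  have hc₀ := D.c₀_pos
  set G1 : ℝ := ∫ s in (0 : ℝ)..(T + 1), ‖f₁ s‖ ^ 2 with hG1
  have hG10 : 0 ≤ G1 := intervalIntegral.integral_nonneg (by linarith) fun s _ => sq_nonneg _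
  set E0 : ℝ := CL * (T + (‖D.ι u₀‖ ^ 2 + D.a u₀ u₀ +
        1 / (D.c₀ * η) * ∫ s in (0 : ℝ)..(T + 1), ‖f s‖ ^ 2)) with hE0
  set B : ℝ := (‖h₀‖ ^ 2 + 1 / (D.c₀ * η) * G1) * Real.exp E0 with hB
  have hB0 : 0 ≤ B := by positivity
  refine ⟨B + 2 / η * B, fun δ hδ hδ1 u du hu hu0 => ?_⟩
  have huc : ContinuousOn u (Ici 0) := fun t ht => (hu.deriv t ht).continuousWithinAt
  -- the difference quotients
  let h : ℕ → ℝ := fun n => 1 / ((n : ℝ) + 1)
  have hh0 : ∀ n, 0 < h n := fun n => by positivity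
  have hh1 : ∀ n, h n ≤ 1 := fun n => by
    show 1 / ((n : ℝ) + 1) ≤ 1
    rw [div_le_one (by positivity)]; linarith [(Nat.cast_nonneg n : (0 : ℝ) ≤ n)]
  have hht : Tendsto h atTop (𝓝 0) := tendsto_one_div_add_atTop_nhds_zero_nat
  let q : ℕ → ℝ → V := fun n t => (h n)⁻¹ • (u (t + h n) - u t)
  have hq : ∀ t, 0 ≤ t → Tendsto (fun n => q n t) atTop (𝓝 (du t)) := by
    intro t ht
    have h1 := (hasDerivWithinAt_iff_tendsto_slope.1 (hu.deriv t ht))
    have h2 : Tendsto (fun n => t + h n) atTop (𝓝[Ici 0 \ {t}] t) := by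
      rw [tendsto_nhdsWithin_iff]
      refine ⟨by simpa using hht.const_add t, Eventually.of_forall fun n => ⟨?_, ?_⟩⟩
      · show (0 : ℝ) ≤ t + h n
        linarith [hh0 n]
      · simp only [mem_singleton_iff]
        linarith [hh0 n]
    have h3 := h1.comp h2
    refine h3.congr fun n => ?_
    simp only [Function.comp, slope, q, vsub_eq_sub, add_sub_cancel_left]
  let Q : V → ℝ := fun x => ‖D.ι x‖ ^ 2 + δ * D.a x x
  have hQc : Continuous Q := by
    have h1 : Continuous fun x : V => D.a x x := H4.continuous_aa D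
    have h2 : Continuous fun x : V => D.ι x := D.ι.continuous
    exact (h2.norm.pow 2).add (continuous_const.mul h1)
  have hQs : ∀ (c : ℝ) (x : V), Q (c • x) = c ^ 2 * Q x := by
    intro c x
    simp only [Q, map_smul, ContinuousLinearMap.smul_apply, smul_eq_mul, norm_smul,
      Real.norm_eq_abs, mul_pow, sq_abs]
    ring
  have hQn : ∀ x, 0 ≤ Q x := fun x => by
    have := D.a_nonneg x
    positivity
  -- the basic inequality
  have hmain : ∀ n, ∀ t ∈ Icc 0 T,
      Q (q n t) + ∫ s in (0 : ℝ)..t, η / 2 * D.a (q n s) (q n s) ≤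
        (Q (q n 0) + 1 / (D.c₀ * η) * G1) * Real.exp E0 := by
    intro n t ht
    have hcs : ContinuousOn (fun t => f (t + h n)) (Ici 0) := by
      refine hf.continuousOn.comp (by fun_prop) ?_
      intro s hs
      have hs0 : (0 : ℝ) ≤ s := hs
      show (0 : ℝ) ≤ s + h n
      linarith [hh0 n]
    have h1 := diff_proof V K D η ε κ δ (fun t => f (t + h n)) f (fun t => u (t + h n))
      (fun t => du (t + h n)) u du hη hε.le hκ hδ.le hcs hf.continuousOn
      (H48.shift hu (hh0 n).le) hu t ht.1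
    have h2 := H48.exponent (D := D) hη hε hκ hδ hδ1 hf hu hu0 hCL0 hCL ht.1 ht.2
      (hh0 n).le (hh1 n)
    have h3 : ∫ s in (0 : ℝ)..t, 1 / (D.c₀ * η) * ‖f (s + h n) - f s‖ ^ 2 ≤
        1 / (D.c₀ * η) * (h n ^ 2 * G1) := by
      rw [intervalIntegral.integral_const_mul]
      refine mul_le_mul_of_nonneg_left ?_ (by positivity)
      refine (H48.incr_le hf ht.1 (hh0 n) (hh1 n)).trans ?_
      refine mul_le_mul_of_nonneg_left ?_ (sq_nonneg _)
      have a1 : ∀ a b : ℝ, 0 ≤ a → a ≤ b →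
          IntervalIntegrable (fun s => ‖f₁ s‖ ^ 2) volume a b := by
        intro a b ha hab
        rw [intervalIntegrable_iff_integrableOn_Ioc_of_le hab]
        have h1 : IntegrableOn (fun s => ‖f₁ s‖ ^ 2) (Ioc 0 b) :=
          (hf.memLp b).norm.integrable_sq
        exact h1.mono_set (Ioc_subset_Ioc_left ha)
      have a2 := intervalIntegral.integral_add_adjacent_intervals
        (a1 0 (t + 1) le_rfl (by linarith [ht.1])) (a1 (t + 1) (T + 1) (by linarith [ht.1])
        (by linarith [ht.2]))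
      have a3 : 0 ≤ ∫ s in (t + 1)..(T + 1), ‖f₁ s‖ ^ 2 :=
        intervalIntegral.integral_nonneg (by linarith [ht.2]) fun s _ => sq_nonneg _
      linarith
    have hq1 : ∀ s, q n s = (h n)⁻¹ • (u (s + h n) - u s) := fun s => rfl
    have hn2 : 0 < h n ^ 2 := by have := hh0 n; positivity
    have e1 : Q (q n t) = (h n ^ 2)⁻¹ * Q (u (t + h n) - u t) := by
      rw [hq1, hQs, inv_pow]
    have e2 : Q (q n 0) = (h n ^ 2)⁻¹ * Q (u (0 + h n) - u 0) := by
      rw [hq1, hQs, inv_pow]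
    have e3 : ∫ s in (0 : ℝ)..t, η / 2 * D.a (q n s) (q n s) =
        (h n ^ 2)⁻¹ * ∫ s in (0 : ℝ)..t, η / 2 * D.a (u (s + h n) - u s) (u (s + h n) - u s) := by
      rw [← intervalIntegral.integral_const_mul]
      refine intervalIntegral.integral_congr fun s _ => ?_
      simp only [hq1, map_smul, ContinuousLinearMap.smul_apply, smul_eq_mul]
      ring
    rw [e1, e2, e3, ← mul_add]
    have h4 : Q (u (t + h n) - u t) +
        ∫ s in (0 : ℝ)..t, η / 2 * D.a (u (s + h n) - u s) (u (s + h n) - u s) ≤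
        (Q (u (0 + h n) - u 0) + 1 / (D.c₀ * η) * (h n ^ 2 * G1)) * Real.exp E0 := by
      refine h1.trans (mul_le_mul ?_ (Real.exp_le_exp.2 h2) (Real.exp_pos _).le ?_)
      · exact add_le_add le_rfl h3
      · have := hQn (u (0 + h n) - u 0)
        positivity
    calc (h n ^ 2)⁻¹ * (Q (u (t + h n) - u t) +
          ∫ s in (0 : ℝ)..t, η / 2 * D.a (u (s + h n) - u s) (u (s + h n) - u s))
        ≤ (h n ^ 2)⁻¹ * ((Q (u (0 + h n) - u 0) + 1 / (D.c₀ * η) * (h n ^ 2 * G1)) *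
            Real.exp E0) := mul_le_mul_of_nonneg_left h4 (by positivity)
      _ = _ := by
          have hx : (h n ^ 2)⁻¹ * h n ^ 2 = 1 := inv_mul_cancel₀ hn2.ne'
          linear_combination (1 / (D.c₀ * η) * G1 * Real.exp E0) * hx
  -- limits
  have hR : Tendsto (fun n => (Q (q n 0) + 1 / (D.c₀ * η) * G1) * Real.exp E0) atTop
      (𝓝 ((Q (du 0) + 1 / (D.c₀ * η) * G1) * Real.exp E0)) :=
    (((hQc.tendsto _).comp (hq 0 le_rfl)).add_const _).mul_const _
  have hRB : (Q (du 0) + 1 / (D.c₀ * η) * G1) * Real.exp E0 ≤ B := by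
    have := H48.init hδ.le hu hu0 hs hc
    refine mul_le_mul_of_nonneg_right ?_ (Real.exp_pos _).le
    exact add_le_add this le_rfl
  have hinn : ∀ n t, 0 ≤ t → 0 ≤ ∫ s in (0 : ℝ)..t, η / 2 * D.a (q n s) (q n s) := by
    intro n t ht
    refine intervalIntegral.integral_nonneg ht fun s _ => ?_
    have := D.a_nonneg (q n s)
    positivity
  constructor
  · intro t ht
    have h1 : Q (du t) ≤ (Q (du 0) + 1 / (D.c₀ * η) * G1) * Real.exp E0 := by
      refine le_of_tendsto_of_tendsto' ((hQc.tendsto _).comp (hq t ht.1)) hR fun n => ?_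
      have a1 := hmain n t ht
      have a2 := hinn n t ht.1
      simp only [Function.comp]
      linarith
    have h2 : 0 ≤ 2 / η * B := by positivity
    have h3 : ‖D.ι (du t)‖ ^ 2 + δ * D.a (du t) (du t) = Q (du t) := rfl
    linarith
  · obtain ⟨M, hM⟩ : ∃ M : ℝ, ∀ t ∈ Icc 0 (T + 1), ‖du t‖ ≤ M :=
      isCompact_Icc.exists_bound_of_continuousOn (hu.cont.mono Icc_subset_Ici_self)
    have hM0 : 0 ≤ M := (norm_nonneg _).trans (hM 0 ⟨le_rfl, by linarith⟩)
    have hqM : ∀ n, ∀ s ∈ Icc 0 T, ‖q n s‖ ≤ M := by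
      intro n s hs
      have a1 : ‖u (s + h n) - u s‖ ≤ M * (s + h n - s) := by
        refine norm_image_sub_le_of_norm_deriv_le_segment' (a := s) (b := s + h n) (f := u)
          (f' := du) (fun x hx => (hu.deriv x (hs.1.trans hx.1)).mono ?_) (fun x hx => ?_)
          (s + h n) ⟨by linarith [hh0 n], le_rfl⟩
        · exact Icc_subset_Ici_self.trans (Ici_subset_Ici.2 hs.1)
        · exact hM x ⟨hs.1.trans hx.1, by linarith [hx.2, hs.2, hh1 n]⟩
      show ‖(h n)⁻¹ • (u (s + h n) - u s)‖ ≤ M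
      rw [norm_smul, norm_inv, Real.norm_eq_abs, abs_of_pos (hh0 n), inv_mul_le_iff₀ (hh0 n)]
      linarith
    have hqc : ∀ n, ContinuousOn (q n) (Icc 0 T) := by
      intro n
      refine ContinuousOn.const_smul (ContinuousOn.sub ?_ (huc.mono Icc_subset_Ici_self)) _
      refine huc.comp (by fun_prop) ?_
      intro s hs
      have hs0 := hs.1
      show (0 : ℝ) ≤ s + h n
      linarith [hh0 n]
    have hlim : Tendsto (fun n => ∫ s in (0 : ℝ)..T, η / 2 * D.a (q n s) (q n s)) atTop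
        (𝓝 (∫ s in (0 : ℝ)..T, η / 2 * D.a (du s) (du s))) := by
      refine intervalIntegral.tendsto_integral_filter_of_dominated_convergence
        (fun _ => η / 2 * M ^ 2) ?_ ?_ (by simp) ?_
      · refine Eventually.of_forall fun n => ?_
        have hcn : ContinuousOn (fun s => η / 2 * D.a (q n s) (q n s)) (Icc 0 T) :=
          continuousOn_const.mul ((H4.continuous_aa D).comp_continuousOn (hqc n))
        rw [uIoc_of_le hT]
        exact (hcn.mono Ioc_subset_Icc_self).aestronglyMeasurable measurableSet_Ioc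
      · refine Eventually.of_forall fun n => Eventually.of_forall fun s hs => ?_
        rw [uIoc_of_le hT] at hs
        have hs' : s ∈ Icc 0 T := ⟨hs.1.le, hs.2⟩
        have a1 := D.a_nonneg (q n s)
        have a2 := D.a_le (q n s)
        have a3 := pow_le_pow_left₀ (norm_nonneg _) (hqM n s hs') 2
        rw [Real.norm_eq_abs, abs_of_nonneg (by positivity)]
        exact mul_le_mul_of_nonneg_left (a2.trans a3) (by positivity)
      · refine Eventually.of_forall fun s hs => ?_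
        rw [uIoc_of_le hT] at hs
        exact (((H4.continuous_aa D).tendsto _).comp (hq s hs.1.le)).const_mul _
    have h1 : ∫ s in (0 : ℝ)..T, η / 2 * D.a (du s) (du s) ≤
        (Q (du 0) + 1 / (D.c₀ * η) * G1) * Real.exp E0 := by
      refine le_of_tendsto_of_tendsto' hlim hR fun n => ?_
      have a1 := hmain n T ⟨hT, le_rfl⟩
      have a2 := hQn (q n T)
      linarith
    rw [intervalIntegral.integral_const_mul] at h1
    have h2 : ∫ s in (0 : ℝ)..T, D.a (du s) (du s) ≤ 2 / η * B := by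
      have h3 := h1.trans hRB
      calc ∫ s in (0 : ℝ)..T, D.a (du s) (du s) =
          2 / η * (η / 2 * ∫ s in (0 : ℝ)..T, D.a (du s) (du s)) := by field_simp
        _ ≤ 2 / η * B := mul_le_mul_of_nonneg_left h3 (by positivity)
    linarith

end Pool.Agent.NSD
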