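import Pool.Agent.NSD.BasicH4

/-!
# MP_fd8964_an: module `Energy`
-/

open MeasureTheory Set Filter Topology
open scoped RealInnerProductSpace

noncomputable section

namespace Pool.Agent.NSD

theorem H4.cont_u {V K : Type*} [NormedAddCommGroup V] [InnerProductSpace ℝ V]
    [NormedAddCommGroup K] [InnerProductSpace ℝ K] {D : Data V K} {η ε κ δ : ℝ}
    {f : ℝ → (V →L[ℝ] ℝ)} {u du : ℝ → V} (h : IsVoigt D η ε κ δ f u du) {T : ℝ} :
    ContinuousOn u (Icc 0 T) := fun t ht =>
  ((h.deriv t ht.1).continuousWithinAt).mono Icc_subset_Ici_self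

theorem energy_proof : Stmt_Energy := by
  intro V K _ _ _ _ D η ε κ δ f u du hη hε hκ hδ hf h T hT
  have hu : ContinuousOn u (Icc 0 T) := H4.cont_u h
  have hfc : ContinuousOn f (Icc 0 T) := hf.mono Icc_subset_Ici_self
  have cfu : ContinuousOn (fun s => f s (u s)) (Icc 0 T) := hfc.clm_apply hu
  have ca : ContinuousOn (fun s => D.a (u s) (u s)) (Icc 0 T) :=
    (H4.continuous_aa D).comp_continuousOn hu
  have cφ : ContinuousOn (fun s => phi ε κ (D.sig (u s))) (Icc 0 T) :=
    (H4.continuous_phi_sig D ε κ).comp_continuousOn hu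
  have cφa : ContinuousOn (fun s => (η + phi ε κ (D.sig (u s))) * D.a (u s) (u s)) (Icc 0 T) :=
    (continuousOn_const.add cφ).mul ca
  have ii : ∀ g : ℝ → ℝ, ContinuousOn g (Icc 0 T) → IntervalIntegrable g volume 0 T := by
    intro g hg
    apply ContinuousOn.intervalIntegrable
    rwa [uIcc_of_le hT]
  have i1 : IntervalIntegrable (fun s => 2 * f s (u s)) volume 0 T := ii _ (continuousOn_const.mul cfu)
  have i2 : IntervalIntegrable (fun s => 2 * ((η + phi ε κ (D.sig (u s))) * D.a (u s) (u s))) volume 0 T :=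
    ii _ (continuousOn_const.mul cφa)
  have i3 : IntervalIntegrable (fun s => η * D.a (u s) (u s)) volume 0 T := ii _ (continuousOn_const.mul ca)
  have i4 : IntervalIntegrable (fun s => 1 / (D.c₀ * η) * ‖f s‖ ^ 2) volume 0 T :=
    ii _ (continuousOn_const.mul (hfc.norm.pow 2))
  have hderiv : ∀ t ∈ Icc 0 T, HasDerivWithinAt (fun t => ‖D.ι (u t)‖ ^ 2 + δ * D.a (u t) (u t))
      (2 * f t (u t) - 2 * ((η + phi ε κ (D.sig (u t))) * D.a (u t) (u t))) (Ici 0) t := by
    intro t ht
    refine (H4.hasDerivWithinAt_energy D δ (h.deriv t ht.1)).congr_deriv ?_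
    have h1 := h.eq t ht.1 (u t)
    rw [D.b_skew] at h1
    linarith
  have hid : (∫ s in (0 : ℝ)..T, (2 * f s (u s) - 2 * ((η + phi ε κ (D.sig (u s))) * D.a (u s) (u s))))
      = (‖D.ι (u T)‖ ^ 2 + δ * D.a (u T) (u T)) - (‖D.ι (u 0)‖ ^ 2 + δ * D.a (u 0) (u 0)) := by
    refine intervalIntegral.integral_eq_sub_of_hasDeriv_right_of_le
      (f := fun t => ‖D.ι (u t)‖ ^ 2 + δ * D.a (u t) (u t)) hT ?_ ?_ ?_
    · exact fun t ht => ((hderiv t ht).continuousWithinAt).mono Icc_subset_Ici_self
    · intro t ht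
      exact (hderiv t (Ioo_subset_Icc_self ht)).mono (fun x hx => (ht.1.trans hx).le)
    · exact i1.sub i2
  rw [intervalIntegral.integral_sub i1 i2,
    intervalIntegral.integral_const_mul, intervalIntegral.integral_const_mul] at hid
  refine ⟨by linarith, ?_⟩
  have hle : (∫ s in (0 : ℝ)..T, 2 * f s (u s))
      ≤ ∫ s in (0 : ℝ)..T, (η * D.a (u s) (u s) + 1 / (D.c₀ * η) * ‖f s‖ ^ 2) := by
    refine intervalIntegral.integral_mono_on hT i1 (i3.add i4) ?_
    intro s _
    have := H4.force_young D hη (f s) (u s)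
    have := le_abs_self (f s (u s))
    linarith
  rw [intervalIntegral.integral_add i3 i4, intervalIntegral.integral_const_mul,
    intervalIntegral.integral_const_mul, intervalIntegral.integral_const_mul] at hle
  have hsplit : (∫ s in (0 : ℝ)..T, (η + 2 * phi ε κ (D.sig (u s))) * D.a (u s) (u s))
      = 2 * (∫ s in (0 : ℝ)..T, (η + phi ε κ (D.sig (u s))) * D.a (u s) (u s))
        - η * ∫ s in (0 : ℝ)..T, D.a (u s) (u s) := by
    rw [← intervalIntegral.integral_const_mul, ← intervalIntegral.integral_const_mul,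
      ← intervalIntegral.integral_sub i2 i3]
    refine intervalIntegral.integral_congr (fun s _ => ?_)
    ring
  rw [hsplit]
  linarith

end Pool.Agent.NSD
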