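import Pool.Agent.NSD.Sobolev

/-!
# MP_fd8964_an, module C3a: `|u₀| |∇u₀| ∈ L²` for `u₀ ∈ V ∩ H²`
-/

open MeasureTheory Set Filter Topology
open scoped RealInnerProductSpace ContDiff

noncomputable section

namespace Pool.Agent.NSD.H2B

/-- The truncation of `|z|² z`. -/
def tr (ε : ℝ) (z : E) : E := (‖z‖ ^ 2 / (1 + ε * ‖z‖ ^ 2)) • z

/-- The derivative of `tr`. -/
def dtr (ε : ℝ) (z h : E) : E :=
  (‖z‖ ^ 2 / (1 + ε * ‖z‖ ^ 2)) • h + (2 * ⟪z, h⟫ / (1 + ε * ‖z‖ ^ 2) ^ 2) • z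

theorem den_pos {ε : ℝ} (hε : 0 < ε) (z : E) : 0 < 1 + ε * ‖z‖ ^ 2 := by positivity

theorem contDiff_tr {ε : ℝ} (hε : 0 < ε) : ContDiff ℝ ∞ (tr ε) := by
  unfold tr
  refine ContDiff.smul (ContDiff.div ?_ ?_ fun z => (den_pos hε z).ne') contDiff_id
  · exact contDiff_norm_sq ℝ
  · exact contDiff_const.add (contDiff_const.mul (contDiff_norm_sq ℝ))

theorem tr_zero (ε : ℝ) : tr ε 0 = 0 := by simp [tr]

theorem fderiv_tr {ε : ℝ} (hε : 0 < ε) (z h : E) : fderiv ℝ (tr ε) z h = dtr ε z h := by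
  have h1 : HasFDerivAt (fun z : E => ‖z‖ ^ 2) (2 • (innerSL ℝ z)) z :=
    (hasStrictFDerivAt_norm_sq z).hasFDerivAt
  have h2 : HasDerivAt (fun s : ℝ => s / (1 + ε * s)) (1 / (1 + ε * ‖z‖ ^ 2) ^ 2) (‖z‖ ^ 2) := by
    have h3 : HasDerivAt (fun s : ℝ => 1 + ε * s) ε (‖z‖ ^ 2) := by
      simpa using ((hasDerivAt_id (‖z‖ ^ 2)).const_mul ε).const_add 1
    have h4 : HasDerivAt (fun s : ℝ => s / (1 + ε * s))
        ((1 * (1 + ε * ‖z‖ ^ 2) - ‖z‖ ^ 2 * ε) / (1 + ε * ‖z‖ ^ 2) ^ 2) (‖z‖ ^ 2) :=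
      (hasDerivAt_id (‖z‖ ^ 2)).div h3 (den_pos hε z).ne'
    have h5 : (1 * (1 + ε * ‖z‖ ^ 2) - ‖z‖ ^ 2 * ε) / (1 + ε * ‖z‖ ^ 2) ^ 2 =
        1 / (1 + ε * ‖z‖ ^ 2) ^ 2 := by
      congr 1; ring
    rwa [h5] at h4
  have h5 := h2.comp_hasFDerivAt z h1
  have h6 := h5.smul (hasFDerivAt_id z)
  have h7 : HasFDerivAt (tr ε) _ z := h6
  rw [h7.fderiv]
  simp only [dtr, ContinuousLinearMap.add_apply, ContinuousLinearMap.smul_apply,
    ContinuousLinearMap.smulRight_apply, Function.comp_apply, innerSL_apply_apply, ContinuousLinearMap.id_apply,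
    smul_eq_mul, id_eq, nsmul_eq_mul, Nat.cast_ofNat]
  congr 2
  ring

theorem norm_tr_le {ε : ℝ} (hε : 0 < ε) (z : E) : ‖tr ε z‖ ≤ ‖z‖ ^ 3 := by
  unfold tr
  rw [norm_smul, Real.norm_eq_abs, abs_of_nonneg (by have := den_pos hε z; positivity)]
  have h1 : ‖z‖ ^ 2 / (1 + ε * ‖z‖ ^ 2) ≤ ‖z‖ ^ 2 := by
    refine div_le_self (by positivity) ?_
    have : 0 ≤ ε * ‖z‖ ^ 2 := by positivity
    linarith
  calc ‖z‖ ^ 2 / (1 + ε * ‖z‖ ^ 2) * ‖z‖ ≤ ‖z‖ ^ 2 * ‖z‖ := mul_le_mul_of_nonneg_right h1 (norm_nonneg _)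
    _ = ‖z‖ ^ 3 := by ring

theorem q_le {ε : ℝ} (hε : 0 < ε) (z : E) : ‖z‖ ^ 2 / (1 + ε * ‖z‖ ^ 2) ≤ 1 / ε := by
  rw [div_le_div_iff₀ (den_pos hε z) hε]
  nlinarith [sq_nonneg ‖z‖]

theorem norm_dtr_le {ε : ℝ} (hε : 0 < ε) (z h : E) : ‖dtr ε z h‖ ≤ 3 / ε * ‖h‖ := by
  unfold dtr
  have hd := den_pos hε z
  refine (norm_add_le _ _).trans ?_
  rw [norm_smul, norm_smul, Real.norm_eq_abs, Real.norm_eq_abs,
    abs_of_nonneg (show 0 ≤ ‖z‖ ^ 2 / (1 + ε * ‖z‖ ^ 2) by positivity), abs_div, abs_mul, abs_two,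
    abs_of_nonneg (show 0 ≤ (1 + ε * ‖z‖ ^ 2) ^ 2 by positivity)]
  have h1 : ‖z‖ ^ 2 / (1 + ε * ‖z‖ ^ 2) * ‖h‖ ≤ 1 / ε * ‖h‖ :=
    mul_le_mul_of_nonneg_right (q_le hε z) (norm_nonneg _)
  have h2 : |⟪z, h⟫| ≤ ‖z‖ * ‖h‖ := abs_real_inner_le_norm z h
  have h3 : 2 * |⟪z, h⟫| / (1 + ε * ‖z‖ ^ 2) ^ 2 * ‖z‖ ≤ 2 / ε * ‖h‖ := by
    have h4 : 2 * |⟪z, h⟫| / (1 + ε * ‖z‖ ^ 2) ^ 2 * ‖z‖ ≤
        2 * (‖z‖ * ‖h‖) / (1 + ε * ‖z‖ ^ 2) ^ 2 * ‖z‖ := by gcongr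
    refine h4.trans ?_
    have h5 : ‖z‖ ^ 2 / (1 + ε * ‖z‖ ^ 2) ^ 2 ≤ 1 / ε := by
      rw [div_le_div_iff₀ (by positivity) hε]
      nlinarith [sq_nonneg ‖z‖, sq_nonneg (ε * ‖z‖ ^ 2), mul_nonneg hε.le (sq_nonneg ‖z‖)]
    calc 2 * (‖z‖ * ‖h‖) / (1 + ε * ‖z‖ ^ 2) ^ 2 * ‖z‖
        = 2 * (‖z‖ ^ 2 / (1 + ε * ‖z‖ ^ 2) ^ 2) * ‖h‖ := by ring
      _ ≤ 2 * (1 / ε) * ‖h‖ := by gcongr
      _ = 2 / ε * ‖h‖ := by ring
  calc _ ≤ 1 / ε * ‖h‖ + 2 / ε * ‖h‖ := add_le_add h1 h3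
    _ = 3 / ε * ‖h‖ := by ring

theorem dtr_add (ε : ℝ) (z h k : E) : dtr ε z (h + k) = dtr ε z h + dtr ε z k := by
  unfold dtr
  rw [inner_add_right]
  module

theorem inner_dtr_ge {ε : ℝ} (hε : 0 < ε) (z h : E) :
    ‖z‖ ^ 2 / (1 + ε * ‖z‖ ^ 2) * ‖h‖ ^ 2 ≤ ⟪h, dtr ε z h⟫ := by
  unfold dtr
  rw [inner_add_right, real_inner_smul_right, real_inner_smul_right, real_inner_self_eq_norm_sq,
    real_inner_comm h z]
  have hd := den_pos hε z
  have : 0 ≤ 2 * ⟪z, h⟫ / (1 + ε * ‖z‖ ^ 2) ^ 2 * ⟪z, h⟫ := by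
    have : 2 * ⟪z, h⟫ / (1 + ε * ‖z‖ ^ 2) ^ 2 * ⟪z, h⟫ = 2 * ⟪z, h⟫ ^ 2 / (1 + ε * ‖z‖ ^ 2) ^ 2 := by ring
    rw [this]; positivity
  rw [real_inner_comm h z] at *
  linarith

/-- The key pointwise inequality. -/
theorem pointwise {ε : ℝ} (hε : 0 < ε) (z : E) (A B : G) :
    ‖z‖ ^ 2 / (1 + ε * ‖z‖ ^ 2) * ‖A‖ ^ 2 ≤
      ∑ i : Fin 3, ⟪A i, dtr ε z (B i)⟫ + 3 / ε * (‖A‖ * ‖B - A‖) := by
  have h1 : ∀ i : Fin 3, ‖z‖ ^ 2 / (1 + ε * ‖z‖ ^ 2) * ‖A i‖ ^ 2 ≤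
      ⟪A i, dtr ε z (B i)⟫ + 3 / ε * (‖A i‖ * ‖(B - A) i‖) := by
    intro i
    have h2 : dtr ε z (B i) = dtr ε z (A i) + dtr ε z ((B - A) i) := by
      rw [← dtr_add]; congr 1; simp
    rw [h2, inner_add_right]
    have h3 := inner_dtr_ge hε z (A i)
    have h4 : -(3 / ε * (‖A i‖ * ‖(B - A) i‖)) ≤ ⟪A i, dtr ε z ((B - A) i)⟫ := by
      have h5 := abs_real_inner_le_norm (A i) (dtr ε z ((B - A) i))
      have h6 := (abs_le.1 h5).1
      have h7 : ‖A i‖ * ‖dtr ε z ((B - A) i)‖ ≤ ‖A i‖ * (3 / ε * ‖(B - A) i‖) :=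
        mul_le_mul_of_nonneg_left (norm_dtr_le hε z _) (norm_nonneg _)
      calc -(3 / ε * (‖A i‖ * ‖(B - A) i‖)) = -(‖A i‖ * (3 / ε * ‖(B - A) i‖)) := by ring
        _ ≤ -(‖A i‖ * ‖dtr ε z ((B - A) i)‖) := by linarith
        _ ≤ _ := h6
    linarith
  have h2 : ∑ i : Fin 3, ‖A i‖ * ‖(B - A) i‖ ≤ ‖A‖ * ‖B - A‖ := by
    rw [PiLp.norm_eq_of_L2, PiLp.norm_eq_of_L2]
    exact Real.sum_mul_le_sqrt_mul_sqrt _ _ _
  calc ‖z‖ ^ 2 / (1 + ε * ‖z‖ ^ 2) * ‖A‖ ^ 2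
      = ∑ i : Fin 3, ‖z‖ ^ 2 / (1 + ε * ‖z‖ ^ 2) * ‖A i‖ ^ 2 := by
        rw [show ‖A‖ ^ 2 = ∑ i : Fin 3, ‖A i‖ ^ 2 from PiLp.norm_sq_eq_of_L2 _ A, Finset.mul_sum]
    _ ≤ ∑ i : Fin 3, (⟪A i, dtr ε z (B i)⟫ + 3 / ε * (‖A i‖ * ‖(B - A) i‖)) :=
        Finset.sum_le_sum fun i _ => h1 i
    _ = ∑ i : Fin 3, ⟪A i, dtr ε z (B i)⟫ + 3 / ε * ∑ i : Fin 3, ‖A i‖ * ‖(B - A) i‖ := by
        rw [Finset.sum_add_distrib, ← Finset.mul_sum]
    _ ≤ _ := by
        have : 3 / ε * ∑ i : Fin 3, ‖A i‖ * ‖(B - A) i‖ ≤ 3 / ε * (‖A‖ * ‖B - A‖) :=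
          mul_le_mul_of_nonneg_left h2 (by positivity)
        linarith

/-! ### Integration by parts against a smooth field which need not be divergence free -/

theorem comp_facts {Ω : Set E} {φ : E → E} (hs : ContDiff ℝ ∞ φ) (hc : HasCompactSupport φ)
    (hsub : tsupport φ ⊆ Ω) (k : Fin 3) :
    ContDiff ℝ ∞ (fun x => φ x k) ∧ HasCompactSupport (fun x => φ x k) ∧
      tsupport (fun x => φ x k) ⊆ Ω ∧
      ∀ x v, fderiv ℝ (fun x => φ x k) x v = fderiv ℝ φ x v k := by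
  have hsub' : tsupport (fun x => φ x k) ⊆ tsupport φ := by
    refine closure_mono (fun x hx => ?_)
    rw [Function.mem_support] at hx ⊢
    intro h0
    exact hx (by simp [h0])
  refine ⟨?_, ?_, hsub'.trans hsub, ?_⟩
  · exact (EuclideanSpace.proj k : E →L[ℝ] ℝ).contDiff.comp hs
  · exact hc.of_isClosed_subset (isClosed_tsupport _) hsub'
  · intro x v
    have hd : HasFDerivAt φ (fderiv ℝ φ x) x :=
      (hs.differentiable (by simp) x).hasFDerivAt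
    have h2 : HasFDerivAt (fun x => φ x k)
        ((EuclideanSpace.proj k : E →L[ℝ] ℝ).comp (fderiv ℝ φ x)) x :=
      (EuclideanSpace.proj k : E →L[ℝ] ℝ).hasFDerivAt.comp x hd
    rw [h2.fderiv]
    rfl

theorem parts {Ω : Set E} (hb : Bornology.IsBounded Ω) (u₀ : V Ω)
    (D : Fin 3 → Fin 3 → L2 Ω)
    (hD : ∀ i j, ∀ θ : E → ℝ, ContDiff ℝ ∞ θ → HasCompactSupport θ → tsupport θ ⊆ Ω →
      ∫ x in Ω, (fderiv ℝ θ x (e j)) • ((grd u₀ : E → G) x i) = - ∫ x in Ω, θ x • (D i j : E → E) x)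
    (φ : E → E) (hs : ContDiff ℝ ∞ φ) (hc : HasCompactSupport φ) (hsub : tsupport φ ⊆ Ω) :
    ∫ x in Ω, ∑ i : Fin 3, ⟪(grd u₀ : E → G) x i, fderiv ℝ φ x (e i)⟫ =
      - ∫ x in Ω, ∑ i : Fin 3, ⟪(D i i : E → E) x, φ x⟫ := by
  have : IsFiniteMeasure (volume.restrict Ω) :=
    ⟨by rw [Measure.restrict_apply_univ]; exact hb.measure_lt_top⟩
  have hg : Integrable (grd u₀ : E → G) (volume.restrict Ω) :=
    (Lp.memLp (grd u₀)).integrable one_le_two
  have hgi : ∀ i : Fin 3, Integrable (fun x => (grd u₀ : E → G) x i) (volume.restrict Ω) := by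
    intro i
    exact (PiLp.proj 2 (fun _ : Fin 3 => E) i : G →L[ℝ] E).integrable_comp hg
  have hDi : ∀ i : Fin 3, Integrable (D i i : E → E) (volume.restrict Ω) := fun i =>
    (Lp.memLp (D i i)).integrable one_le_two
  have hmul : ∀ (θ : E → ℝ), Continuous θ → HasCompactSupport θ → ∀ F : E → E,
      Integrable F (volume.restrict Ω) → Integrable (fun x => θ x • F x) (volume.restrict Ω) := by
    intro θ hθ hθc F hF
    obtain ⟨C, hC⟩ := hθ.bounded_above_of_compact_support hθc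
    exact hF.bdd_smul C hθ.aestronglyMeasurable (Filter.Eventually.of_forall hC)
  have hpr : ∀ (k : Fin 3) {F : E → E}, Integrable F (volume.restrict Ω) →
      (∫ x in Ω, F x) k = ∫ x in Ω, F x k := fun k F hF =>
    ((EuclideanSpace.proj k : E →L[ℝ] ℝ).integral_comp_comm hF).symm
  have hpi : ∀ (k : Fin 3) {F : E → E}, Integrable F (volume.restrict Ω) →
      Integrable (fun x => F x k) (volume.restrict Ω) := fun k F hF =>
    (EuclideanSpace.proj k : E →L[ℝ] ℝ).integrable_comp hF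
  have hkey : ∀ i k : Fin 3, ∫ x in Ω, (fderiv ℝ φ x (e i) k) * ((grd u₀ : E → G) x i k) =
      - ∫ x in Ω, φ x k * (D i i : E → E) x k := by
    intro i k
    obtain ⟨c1, c2, c3, c4⟩ := comp_facts hs hc hsub k
    have h := hD i i (fun x => φ x k) c1 c2 c3
    have hcc : Continuous (fun x => fderiv ℝ (fun x => φ x k) x (e i)) :=
      (c1.continuous_fderiv (by simp)).clm_apply continuous_const
    have i1 := hmul _ hcc (c2.fderiv_apply ℝ (e i)) _ (hgi i)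
    have i2 := hmul _ c1.continuous c2 _ (hDi i)
    have h' := congrArg (fun z : E => z k) h
    simp only [PiLp.neg_apply] at h'
    rw [hpr k i1, hpr k i2] at h'
    simpa [c4] using h'
  have j1 : ∀ i k : Fin 3, Integrable (fun x => (fderiv ℝ φ x (e i) k) * ((grd u₀ : E → G) x i k))
      (volume.restrict Ω) := by
    intro i k
    obtain ⟨c1, c2, c3, c4⟩ := comp_facts hs hc hsub k
    have hcc : Continuous (fun x => fderiv ℝ (fun x => φ x k) x (e i)) :=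
      (c1.continuous_fderiv (by simp)).clm_apply continuous_const
    have i1 := hpi k (hmul _ hcc (c2.fderiv_apply ℝ (e i)) _ (hgi i))
    refine i1.congr (Filter.Eventually.of_forall fun x => ?_)
    simp [c4]
  have j2 : ∀ i k : Fin 3, Integrable (fun x => φ x k * (D i i : E → E) x k)
      (volume.restrict Ω) := by
    intro i k
    obtain ⟨c1, c2, c3, c4⟩ := comp_facts hs hc hsub k
    have i1 := hpi k (hmul _ c1.continuous c2 _ (hDi i))
    refine i1.congr (Filter.Eventually.of_forall fun x => ?_)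
    simp
  have e1 : ∀ x, ∑ i : Fin 3, ⟪(grd u₀ : E → G) x i, fderiv ℝ φ x (e i)⟫ =
      ∑ i : Fin 3, ∑ k : Fin 3, (fderiv ℝ φ x (e i) k) * ((grd u₀ : E → G) x i k) := by
    intro x
    refine Finset.sum_congr rfl fun i _ => ?_
    rw [PiLp.inner_apply]
    refine Finset.sum_congr rfl fun k _ => ?_
    simp
  have e2 : ∀ x, ∑ i : Fin 3, ⟪(D i i : E → E) x, φ x⟫ =
      ∑ i : Fin 3, ∑ k : Fin 3, φ x k * (D i i : E → E) x k := by
    intro x
    refine Finset.sum_congr rfl fun i _ => ?_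
    rw [PiLp.inner_apply]
    refine Finset.sum_congr rfl fun k _ => ?_
    simp
  simp only [e1, e2]
  rw [integral_finsetSum _ (fun i _ => integrable_finsetSum _ (fun k _ => j1 i k)),
    integral_finsetSum _ (fun i _ => integrable_finsetSum _ (fun k _ => j2 i k)), ← Finset.sum_neg_distrib]
  refine Finset.sum_congr rfl (fun i _ => ?_)
  rw [integral_finsetSum _ (fun k _ => j1 i k), integral_finsetSum _ (fun k _ => j2 i k), ← Finset.sum_neg_distrib]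
  exact Finset.sum_congr rfl fun k _ => hkey i k

/-- Cauchy-Schwarz for norms. -/
theorem int_norm_mul_le {α F F' : Type*} [MeasurableSpace α] {μ : Measure α} [NormedAddCommGroup F]
    [NormedAddCommGroup F'] {f : α → F} {g : α → F'} (hf : MemLp f 2 μ) (hg : MemLp g 2 μ) :
    ∫ x, ‖f x‖ * ‖g x‖ ∂μ ≤ (eLpNorm f 2 μ).toReal * (eLpNorm g 2 μ).toReal := by
  have h1 := real_inner_le_norm (hf.norm.toLp (fun x => ‖f x‖)) (hg.norm.toLp (fun x => ‖g x‖))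
  rw [Lp.norm_toLp, Lp.norm_toLp, eLpNorm_norm, eLpNorm_norm, L2.inner_def] at h1
  refine le_trans (le_of_eq ?_) h1
  refine integral_congr_ae ?_
  filter_upwards [hf.norm.coeFn_toLp, hg.norm.coeFn_toLp] with x hx hy
  rw [hx, hy]
  simp [mul_comm]

theorem integrable_norm_mul {α F F' : Type*} [MeasurableSpace α] {μ : Measure α} [NormedAddCommGroup F]
    [NormedAddCommGroup F'] {f : α → F} {g : α → F'} (hf : MemLp f 2 μ) (hg : MemLp g 2 μ) :
    Integrable (fun x => ‖f x‖ * ‖g x‖) μ :=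
  hf.norm.integrable_mul hg.norm

/-- The main inequality for a test field. -/
theorem main_ineq {Ω : Set E} (hb : Bornology.IsBounded Ω) (u₀ : V Ω)
    (D : Fin 3 → Fin 3 → L2 Ω)
    (hD : ∀ i j, ∀ θ : E → ℝ, ContDiff ℝ ∞ θ → HasCompactSupport θ → tsupport θ ⊆ Ω →
      ∫ x in Ω, (fderiv ℝ θ x (e j)) • ((grd u₀ : E → G) x i) = - ∫ x in Ω, θ x • (D i j : E → E) x)
    {C : ℝ} (hC : 0 ≤ C) (hC6 : ∀ v : V Ω,
      eLpNorm (fld v : E → E) 6 (volume.restrict Ω) ≤ ENNReal.ofReal (C * ‖grd v‖))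
    {ε : ℝ} (hε : 0 < ε) (φ : E → E) (p : V Ω) (hφ : IsTest Ω φ) (hp : Represents Ω φ p) :
    ∫⁻ x in Ω, ENNReal.ofReal (‖φ x‖ ^ 2 / (1 + ε * ‖φ x‖ ^ 2) * ‖(grd u₀ : E → G) x‖ ^ 2) ≤
      ENNReal.ofReal ((∑ i : Fin 3, ‖D i i‖) * (C * ‖grd p‖) ^ 3 +
        3 / ε * (‖grd u₀‖ * ‖grd p - grd u₀‖)) := by
  have : IsFiniteMeasure (volume.restrict Ω) :=
    ⟨by rw [Measure.restrict_apply_univ]; exact hb.measure_lt_top⟩
  set θ : E → E := fun x => tr ε (φ x) with hθ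
  have hθs : ContDiff ℝ ∞ θ := (contDiff_tr hε).comp hφ.smooth
  have hθc : HasCompactSupport θ := hφ.compact.comp_left (tr_zero ε)
  have hθsub : tsupport θ ⊆ Ω := by
    refine (closure_mono (fun x hx => ?_)).trans hφ.supp
    rw [Function.mem_support] at hx ⊢
    intro h0
    exact hx (by simp [hθ, h0, tr_zero])
  have hθd : ∀ x v, fderiv ℝ θ x v = dtr ε (φ x) (fderiv ℝ φ x v) := by
    intro x v
    have h1 : HasFDerivAt φ (fderiv ℝ φ x) x := (hφ.smooth.differentiable (by simp) x).hasFDerivAt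
    have h2 : HasFDerivAt (tr ε) (fderiv ℝ (tr ε) (φ x)) (φ x) :=
      ((contDiff_tr hε).differentiable (by simp) (φ x)).hasFDerivAt
    have h3 : HasFDerivAt θ _ x := h2.comp x h1
    rw [h3.fderiv, ContinuousLinearMap.comp_apply, fderiv_tr hε]
  have hparts := parts hb u₀ D hD θ hθs hθc hθsub
  -- integrability
  have hA2 : MemLp (grd u₀ : E → G) 2 (volume.restrict Ω) := Lp.memLp _
  have hAsq : Integrable (fun x => ‖(grd u₀ : E → G) x‖ ^ 2) (volume.restrict Ω) := by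
    have := integrable_norm_mul hA2 hA2
    simpa [sq] using this
  have hq : Continuous (fun x => ‖φ x‖ ^ 2 / (1 + ε * ‖φ x‖ ^ 2)) := by
    have h1 := hφ.continuous
    exact Continuous.div (by fun_prop) (by fun_prop) fun x => (den_pos hε (φ x)).ne'
  have hq0 : ∀ x, 0 ≤ ‖φ x‖ ^ 2 / (1 + ε * ‖φ x‖ ^ 2) := fun x => by
    have := den_pos hε (φ x); positivity
  have hI1 : Integrable (fun x => ‖φ x‖ ^ 2 / (1 + ε * ‖φ x‖ ^ 2) * ‖(grd u₀ : E → G) x‖ ^ 2)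
      (volume.restrict Ω) := by
    refine hAsq.bdd_mul (c := 1 / ε) hq.aestronglyMeasurable (Eventually.of_forall fun x => ?_)
    rw [Real.norm_eq_abs, abs_of_nonneg (hq0 x)]
    exact q_le hε (φ x)
  have hB2 : MemLp (fun x => (grd p - grd u₀ : L2G Ω) x) 2 (volume.restrict Ω) := Lp.memLp _
  have hI3 := integrable_norm_mul hA2 hB2
  have hdθ : Continuous (fun x => fderiv ℝ θ x) := hθs.continuous_fderiv (by simp)
  have hI2 : Integrable (fun x => ∑ i : Fin 3, ⟪(grd u₀ : E → G) x i, fderiv ℝ θ x (e i)⟫)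
      (volume.restrict Ω) := by
    refine integrable_finsetSum _ fun i _ => ?_
    have hg : Integrable (grd u₀ : E → G) (volume.restrict Ω) := hA2.integrable one_le_two
    have hgi : Integrable (fun x => (grd u₀ : E → G) x i) (volume.restrict Ω) :=
      (PiLp.proj 2 (fun _ : Fin 3 => E) i : G →L[ℝ] E).integrable_comp hg
    have hc : Continuous (fun x => fderiv ℝ θ x (e i)) := hdθ.clm_apply continuous_const
    obtain ⟨N, hN⟩ := hc.bounded_above_of_compact_support (hθc.fderiv_apply ℝ (e i))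
    have h1 : Integrable (fun x => N * ‖(grd u₀ : E → G) x i‖) (volume.restrict Ω) := hgi.norm.const_mul N
    refine h1.mono' (hgi.aestronglyMeasurable.inner hc.aestronglyMeasurable) (Eventually.of_forall fun x => ?_)
    rw [Real.norm_eq_abs]
    refine (abs_real_inner_le_norm _ _).trans ?_
    rw [mul_comm]
    exact mul_le_mul_of_nonneg_right (hN x) (norm_nonneg _)
  -- the L² norm of θ
  have hφ6 : eLpNorm φ 6 (volume.restrict Ω) ≤ ENNReal.ofReal (C * ‖grd p‖) := by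
    have h1 := hC6 p
    have h2 : (fld p : E → E) =ᵐ[volume.restrict Ω] φ := hp.1
    rwa [eLpNorm_congr_ae h2] at h1
  have hθ2 : MemLp θ 2 (volume.restrict Ω) := hθs.continuous.memLp_of_hasCompactSupport hθc
  have hθn : (eLpNorm θ 2 (volume.restrict Ω)).toReal ≤ (C * ‖grd p‖) ^ 3 := by
    refine ENNReal.toReal_le_of_le_ofReal (by positivity) ?_
    calc eLpNorm θ 2 (volume.restrict Ω)
        ≤ eLpNorm (fun x => ‖φ x‖ ^ (3 : ℝ)) 2 (volume.restrict Ω) := by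
          refine eLpNorm_mono fun x => ?_
          rw [Real.norm_eq_abs, abs_of_nonneg (by positivity)]
          have := norm_tr_le hε (φ x)
          have h3 : ‖φ x‖ ^ (3 : ℝ) = ‖φ x‖ ^ (3 : ℕ) := by
            rw [← Real.rpow_natCast]; norm_num
          rw [h3]
          exact this
      _ = eLpNorm φ (2 * ENNReal.ofReal 3) (volume.restrict Ω) ^ (3 : ℝ) :=
          eLpNorm_norm_rpow φ (by norm_num)
      _ = eLpNorm φ 6 (volume.restrict Ω) ^ (3 : ℝ) := by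
          congr 2
          rw [show ENNReal.ofReal 3 = 3 by simp]
          norm_num
      _ ≤ ENNReal.ofReal (C * ‖grd p‖) ^ (3 : ℝ) := by gcongr
      _ = ENNReal.ofReal ((C * ‖grd p‖) ^ 3) := by
          rw [ENNReal.ofReal_rpow_of_nonneg (by positivity) (by norm_num)]
          norm_num
  have hDle : - ∫ x in Ω, ∑ i : Fin 3, ⟪(D i i : E → E) x, θ x⟫ ≤
      (∑ i : Fin 3, ‖D i i‖) * (C * ‖grd p‖) ^ 3 := by
    have hi : ∀ i : Fin 3, Integrable (fun x => ‖(D i i : E → E) x‖ * ‖θ x‖) (volume.restrict Ω) :=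
      fun i => integrable_norm_mul (Lp.memLp (D i i)) hθ2
    have h1 : - ∫ x in Ω, ∑ i : Fin 3, ⟪(D i i : E → E) x, θ x⟫ ≤
        ∫ x in Ω, ∑ i : Fin 3, ‖(D i i : E → E) x‖ * ‖θ x‖ := by
      refine (neg_le_abs _).trans ?_
      rw [← Real.norm_eq_abs]
      refine (norm_integral_le_integral_norm _).trans ?_
      refine integral_mono_of_nonneg (Eventually.of_forall fun x => norm_nonneg _)
        (integrable_finsetSum _ fun i _ => hi i) (Eventually.of_forall fun x => ?_)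
      refine (norm_sum_le _ _).trans (Finset.sum_le_sum fun i _ => ?_)
      exact norm_inner_le_norm _ _
    refine h1.trans ?_
    rw [integral_finsetSum _ fun i _ => hi i, Finset.sum_mul]
    refine Finset.sum_le_sum fun i _ => ?_
    refine (int_norm_mul_le (Lp.memLp (D i i)) hθ2).trans ?_
    exact mul_le_mul_of_nonneg_left hθn ENNReal.toReal_nonneg
  have hAB : ∫ x in Ω, ‖(grd u₀ : E → G) x‖ * ‖(grd p - grd u₀ : L2G Ω) x‖ ≤ ‖grd u₀‖ * ‖grd p - grd u₀‖ :=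
    int_norm_mul_le hA2 hB2
  rw [← ofReal_integral_eq_lintegral_ofReal hI1 (Eventually.of_forall fun x => mul_nonneg (hq0 x) (sq_nonneg _))]
  refine ENNReal.ofReal_le_ofReal ?_
  calc ∫ x in Ω, ‖φ x‖ ^ 2 / (1 + ε * ‖φ x‖ ^ 2) * ‖(grd u₀ : E → G) x‖ ^ 2
      ≤ ∫ x in Ω, (∑ i : Fin 3, ⟪(grd u₀ : E → G) x i, fderiv ℝ θ x (e i)⟫ +
          3 / ε * (‖(grd u₀ : E → G) x‖ * ‖(grd p - grd u₀ : L2G Ω) x‖)) := by
        refine integral_mono_ae hI1 (hI2.add (hI3.const_mul _)) ?_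
        have h2 : (grd p : E → G) =ᵐ[volume.restrict Ω] gradField φ := hp.2
        filter_upwards [h2, Lp.coeFn_sub (grd p) (grd u₀)] with x hx hy
        have h3 := pointwise hε (φ x) ((grd u₀ : E → G) x) (gradField φ x)
        rw [hy, Pi.sub_apply, hx]
        simp only [hθd]
        exact h3
    _ = (∫ x in Ω, ∑ i : Fin 3, ⟪(grd u₀ : E → G) x i, fderiv ℝ θ x (e i)⟫) +
          3 / ε * ∫ x in Ω, ‖(grd u₀ : E → G) x‖ * ‖(grd p - grd u₀ : L2G Ω) x‖ := by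
        rw [integral_add hI2 (hI3.const_mul _), integral_const_mul]
    _ ≤ _ := by
        rw [hparts]
        exact add_le_add hDle (mul_le_mul_of_nonneg_left hAB (by positivity))

end Pool.Agent.NSD.H2B

namespace Pool.Agent.NSD

open H2B

theorem h2Bound_of (hA : Stmt_Approx) (hL : Stmt_L6) : Stmt_H2Bound := by
  intro Ω hΩ hb u₀ hu₀
  obtain ⟨D, hD⟩ := hu₀
  obtain ⟨C, hC, hC6⟩ := hL Ω hb
  obtain ⟨φ, p, hp, hlim⟩ := hA Ω u₀
  have hfld : Tendsto (fun n => fld (p n)) atTop (𝓝 (fld u₀)) := (continuous_fld.tendsto _).comp hlim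
  have hgrd : Tendsto (fun n => grd (p n)) atTop (𝓝 (grd u₀)) := (continuous_grd.tendsto _).comp hlim
  obtain ⟨ns, hns, hae⟩ := (tendstoInMeasure_of_tendsto_Lp hfld).exists_seq_tendsto_ae
  have hae2 : ∀ᵐ x ∂(volume.restrict Ω), Tendsto (fun i => φ (ns i) x) atTop (𝓝 ((fld u₀ : E → E) x)) := by
    have h1 : ∀ᵐ x ∂(volume.restrict Ω), ∀ n, (fld (p n) : E → E) x = φ n x :=
      ae_all_iff.2 fun n => (hp n).2.1
    filter_upwards [hae, h1] with x hx h1x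
    simpa only [h1x] using hx
  set K : ℝ := ∑ i : Fin 3, ‖D i i‖ with hK
  set M : ℝ := K * (C * ‖grd u₀‖) ^ 3 with hM
  have hstep : ∀ ε : ℝ, 0 < ε →
      ∫⁻ x in Ω, ENNReal.ofReal (‖(fld u₀ : E → E) x‖ ^ 2 / (1 + ε * ‖(fld u₀ : E → E) x‖ ^ 2) *
        ‖(grd u₀ : E → G) x‖ ^ 2) ≤ ENNReal.ofReal M := by
    intro ε hε
    have h1 : ∀ᵐ x ∂(volume.restrict Ω), ENNReal.ofReal (‖(fld u₀ : E → E) x‖ ^ 2 /
        (1 + ε * ‖(fld u₀ : E → E) x‖ ^ 2) * ‖(grd u₀ : E → G) x‖ ^ 2) =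
        liminf (fun i => ENNReal.ofReal (‖φ (ns i) x‖ ^ 2 / (1 + ε * ‖φ (ns i) x‖ ^ 2) *
          ‖(grd u₀ : E → G) x‖ ^ 2)) atTop := by
      filter_upwards [hae2] with x hx
      refine (Tendsto.liminf_eq ?_).symm
      refine ENNReal.tendsto_ofReal (Tendsto.mul_const _ ?_)
      exact (hx.norm.pow 2).div (tendsto_const_nhds.add ((hx.norm.pow 2).const_mul ε)) (den_pos hε _).ne'
    rw [lintegral_congr_ae h1]
    refine (lintegral_liminf_le' ?_).trans ?_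
    · intro i
      have hc : Continuous (φ (ns i)) := (hp (ns i)).1.continuous
      have hq : Continuous (fun x => ‖φ (ns i) x‖ ^ 2 / (1 + ε * ‖φ (ns i) x‖ ^ 2)) :=
        Continuous.div (by fun_prop) (by fun_prop) fun x => (den_pos hε (φ (ns i) x)).ne'
      have hg : AEMeasurable (fun x => ‖(grd u₀ : E → G) x‖ ^ 2) (volume.restrict Ω) :=
        (Lp.aestronglyMeasurable (grd u₀)).norm.aemeasurable.pow_const 2
      exact (hq.measurable.aemeasurable.mul hg).ennreal_ofReal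
    · have h2 : ∀ i, ∫⁻ x in Ω, ENNReal.ofReal (‖φ (ns i) x‖ ^ 2 / (1 + ε * ‖φ (ns i) x‖ ^ 2) *
          ‖(grd u₀ : E → G) x‖ ^ 2) ≤ ENNReal.ofReal (K * (C * ‖grd (p (ns i))‖) ^ 3 +
            3 / ε * (‖grd u₀‖ * ‖grd (p (ns i)) - grd u₀‖)) := fun i =>
        main_ineq hb u₀ D hD hC hC6 hε (φ (ns i)) (p (ns i)) (hp _).1 (hp _).2
      have h3 : Tendsto (fun i => ENNReal.ofReal (K * (C * ‖grd (p (ns i))‖) ^ 3 +
            3 / ε * (‖grd u₀‖ * ‖grd (p (ns i)) - grd u₀‖))) atTop (𝓝 (ENNReal.ofReal M)) := by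
        refine ENNReal.tendsto_ofReal ?_
        have h4 := hgrd.comp hns.tendsto_atTop
        have h5 : Tendsto (fun i => ‖grd (p (ns i)) - grd u₀‖) atTop (𝓝 0) := by
          have := (h4.sub_const (grd u₀)).norm
          simpa using this
        have h6 : Tendsto (fun i => K * (C * ‖grd (p (ns i))‖) ^ 3 +
            3 / ε * (‖grd u₀‖ * ‖grd (p (ns i)) - grd u₀‖)) atTop
            (𝓝 (K * (C * ‖grd u₀‖) ^ 3 + 3 / ε * (‖grd u₀‖ * 0))) :=
          (((h4.norm.const_mul C).pow 3).const_mul K).add ((h5.const_mul _).const_mul _)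
        simpa [hM] using h6
      rw [← h3.liminf_eq]
      exact liminf_le_liminf (Eventually.of_forall h2)
  have hfin : ∫⁻ x in Ω, (‖(fld u₀ : E → E) x‖ₑ * ‖(grd u₀ : E → G) x‖ₑ) ^ 2 ≤ ENNReal.ofReal M := by
    have hδ0 : Tendsto (fun n : ℕ => 1 / ((n : ℝ) + 1)) atTop (𝓝 0) := tendsto_one_div_add_atTop_nhds_zero_nat
    have h1 : ∀ x, (‖(fld u₀ : E → E) x‖ₑ * ‖(grd u₀ : E → G) x‖ₑ) ^ 2 =
        liminf (fun n : ℕ => ENNReal.ofReal (‖(fld u₀ : E → E) x‖ ^ 2 /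
          (1 + 1 / ((n : ℝ) + 1) * ‖(fld u₀ : E → E) x‖ ^ 2) * ‖(grd u₀ : E → G) x‖ ^ 2)) atTop := by
      intro x
      have h2 : (‖(fld u₀ : E → E) x‖ₑ * ‖(grd u₀ : E → G) x‖ₑ) ^ 2 =
          ENNReal.ofReal (‖(fld u₀ : E → E) x‖ ^ 2 / (1 + 0 * ‖(fld u₀ : E → E) x‖ ^ 2) *
            ‖(grd u₀ : E → G) x‖ ^ 2) := by
        rw [mul_pow, zero_mul, add_zero, div_one, ENNReal.ofReal_mul (by positivity),
          ENNReal.ofReal_pow (norm_nonneg _), ENNReal.ofReal_pow (norm_nonneg _), ofReal_norm, ofReal_norm]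
      rw [h2]
      refine (Tendsto.liminf_eq ?_).symm
      refine ENNReal.tendsto_ofReal (Tendsto.mul_const _ ?_)
      exact tendsto_const_nhds.div (tendsto_const_nhds.add (hδ0.mul_const _)) (by simp)
    simp only [h1]
    refine (lintegral_liminf_le' ?_).trans ?_
    · intro n
      have hf : AEMeasurable (fun x => ‖(fld u₀ : E → E) x‖ ^ 2) (volume.restrict Ω) :=
        (Lp.aestronglyMeasurable (fld u₀)).norm.aemeasurable.pow_const 2
      have hg : AEMeasurable (fun x => ‖(grd u₀ : E → G) x‖ ^ 2) (volume.restrict Ω) :=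
        (Lp.aestronglyMeasurable (grd u₀)).norm.aemeasurable.pow_const 2
      exact ((hf.div (aemeasurable_const.add (hf.const_mul _))).mul hg).ennreal_ofReal
    · refine (liminf_le_liminf (Eventually.of_forall fun n : ℕ => hstep (1 / ((n : ℝ) + 1)) (by positivity))).trans ?_
      simp
  exact hfin.trans_lt ENNReal.ofReal_lt_top

end Pool.Agent.NSD
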