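import Pool.Agent.NSD.Abstract

/-!
# MP_fd8964_an, module A5: convergence of the Voigt solutions
-/

open MeasureTheory Set Filter Topology
open scoped RealInnerProductSpace

noncomputable section

namespace Pool.Agent.NSD

section aux

variable {V K : Type} [NormedAddCommGroup V] [InnerProductSpace ℝ V]
    [NormedAddCommGroup K] [InnerProductSpace ℝ K]

theorem lim_a_nonneg (D : Data V K) (v : V) : 0 ≤ D.a v v :=
  le_trans (mul_nonneg D.c₀_pos.le (sq_nonneg _)) (D.a_coer v)

/-- Cauchy-Schwarz for the form `a`, squared. -/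
theorem lim_a_cs (D : Data V K) (x y : V) : (D.a x y) ^ 2 ≤ D.a x x * D.a y y := by
  have key : ∀ t : ℝ, 0 ≤ D.a y y * (t * t) + 2 * D.a x y * t + D.a x x := by
    intro t
    have h := lim_a_nonneg D (x + t • y)
    simp only [map_add, map_smul, add_apply, smul_apply,
      smul_eq_mul] at h
    rw [D.a_symm y x] at h
    nlinarith [h]
  have := discrim_le_zero key
  unfold discrim at this
  nlinarith [this]

theorem lim_norm_a_sq (D : Data V K) (x : V) : ‖D.a x‖ ^ 2 ≤ D.a x x := by
  have h0 := lim_a_nonneg D x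
  have h1 : ‖D.a x‖ ≤ √(D.a x x) := by
    refine ContinuousLinearMap.opNorm_le_bound _ (Real.sqrt_nonneg _) (fun y => ?_)
    rw [Real.norm_eq_abs]
    refine abs_le_of_sq_le_sq ?_ (by positivity) |> fun h => h
    rw [mul_pow, Real.sq_sqrt h0]
    exact (lim_a_cs D x y).trans (mul_le_mul_of_nonneg_left (D.a_le y) h0)
  calc ‖D.a x‖ ^ 2 ≤ (√(D.a x x)) ^ 2 := by gcongr
    _ = D.a x x := Real.sq_sqrt h0

theorem lim_young (D : Data V K) {lam : ℝ} (hl : 0 < lam) (x y : V) :
    2 * D.a x y ≤ lam * D.a x x + lam⁻¹ * D.a y y := by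
  have h := lim_a_nonneg D (lam • x - y)
  simp only [map_sub, map_smul, sub_apply, smul_apply,
      smul_eq_mul] at h
  rw [D.a_symm y x] at h
  have h2 : 0 ≤ lam⁻¹ * (lam * (lam * D.a x x - D.a x y) - (lam * D.a x y - D.a y y)) :=
    mul_nonneg (inv_nonneg.2 hl.le) (by nlinarith [h])
  have h3 : lam⁻¹ * (lam * (lam * D.a x x - D.a x y) - (lam * D.a x y - D.a y y))
      = lam * D.a x x - 2 * D.a x y + lam⁻¹ * D.a y y := by
    field_simp
    ring
  linarith [h2, h3.symm.le, h3.le]

theorem lim_a_sub_le (D : Data V K) (x y : V) :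
    D.a (x - y) (x - y) ≤ 2 * D.a x x + 2 * D.a y y := by
  have h := lim_a_nonneg D (x + y)
  simp only [map_add, map_sub, add_apply, sub_apply] at h ⊢
  linarith [h]

theorem lim_continuousOn_f {X : Type*} [NormedAddCommGroup X] [NormedSpace ℝ X] {f f₁ : ℝ → X}
    (h : IsH1loc f f₁) : ContinuousOn f (Ici 0) := by
  intro t ht
  have ht0 : (0 : ℝ) ≤ t := ht
  have hint : IntervalIntegrable f₁ volume 0 (t + 1) := by
    rw [intervalIntegrable_iff_integrableOn_Ioc_of_le (by linarith)]
    exact (h.memLp (t + 1)).integrable (by norm_num)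
  have hc : ContinuousOn (fun s => ∫ r in (0 : ℝ)..s, f₁ r) (uIcc 0 (t + 1)) :=
    intervalIntegral.continuousOn_primitive_interval' hint left_mem_uIcc
  rw [uIcc_of_le (by linarith)] at hc
  have hc' : ContinuousOn f (Icc 0 (t + 1)) := by
    refine ContinuousOn.congr (continuousOn_const.add hc) (fun s hs => h.eq s hs.1)
  have := hc' t ⟨ht0, by linarith⟩
  refine this.mono_of_mem_nhdsWithin ?_
  have : Icc (0 : ℝ) (t + 1) = Ici 0 ∩ Iic (t + 1) := by ext; simp
  rw [this]
  exact inter_mem self_mem_nhdsWithin (mem_nhdsWithin_of_mem_nhds (Iic_mem_nhds (by linarith)))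

theorem lim_cont_u {D : Data V K} {η ε κ δ : ℝ} {f : ℝ → (V →L[ℝ] ℝ)} {u du : ℝ → V}
    (h : IsVoigt D η ε κ δ f u du) : ContinuousOn u (Ici 0) :=
  fun t ht => (h.deriv t ht).continuousWithinAt

theorem lim_cont_a (D : Data V K) {x y : ℝ → V} {s : Set ℝ} (hx : ContinuousOn x s)
    (hy : ContinuousOn y s) : ContinuousOn (fun t => D.a (x t) (y t)) s :=
  (D.a.continuous.comp_continuousOn hx).clm_apply hy

theorem lim_cont_phi (D : Data V K) (ε κ : ℝ) {x : ℝ → V} {s : Set ℝ} (hx : ContinuousOn x s) :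
    ContinuousOn (fun t => phi ε κ (D.sig (x t))) s := by
  have h1 : ContinuousOn (fun t => D.sig (x t)) s := by
    unfold Data.sig
    exact Real.continuous_sqrt.comp_continuousOn (lim_cont_a D hx hx)
  unfold phi
  refine continuousOn_const.mul ((Real.continuous_sqrt.comp_continuousOn ?_).sub continuousOn_const)
  exact h1.sup continuousOn_const

theorem lim_phi_nonneg {ε κ s : ℝ} (hε : 0 ≤ ε) : 0 ≤ phi ε κ s := by
  unfold phi
  refine mul_nonneg hε (sub_nonneg.2 (Real.sqrt_le_sqrt (le_max_right _ _)))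

theorem lim_cont_Lam (D : Data V K) {η ε : ℝ} (κ : ℝ) (hη : 0 < η) (hε : 0 ≤ ε) {x : ℝ → V} {s : Set ℝ}
    (hx : ContinuousOn x s) : ContinuousOn (fun t => D.Lam η ε κ (x t)) s := by
  unfold Data.Lam
  refine ContinuousOn.div (continuousOn_const.mul ((lim_cont_a D hx hx).pow 2))
    ((continuousOn_const.add (lim_cont_phi D ε κ hx)).pow 3) (fun t _ => ?_)
  have := lim_phi_nonneg (κ := κ) (s := D.sig (x t)) hε
  positivity

end aux

/-- **A5.** -/
theorem limit_proof (hDeriv : Stmt_Deriv) (hDiff : Stmt_Diff) (hEnergy : Stmt_Energy)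
    (hLam : Stmt_Lam) : Stmt_Limit := by
  intro V K _ _ _ _ _ D η ε κ f f₁ u₀ h₀ hη hε hκ hf hsig hcompat u du hV hu0
  have hfc : ContinuousOn f (Ici 0) := lim_continuousOn_f hf
  obtain ⟨CL, hCL0, hCL⟩ := hLam V K D η ε κ hη hε hκ
  set δ : ℕ → ℝ := fun n => 1 / ((n : ℝ) + 1) with hδ
  have hδpos : ∀ n, 0 < δ n := fun n => by rw [hδ]; positivity
  have hδle : ∀ n, δ n ≤ 1 := fun n => by
    rw [hδ]
    simp only
    rw [div_le_one (by positivity)]
    have : (0 : ℝ) ≤ n := Nat.cast_nonneg n
    linarith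
  have hδlim : Tendsto δ atTop (𝓝 0) := tendsto_one_div_add_atTop_nhds_zero_nat
  have huc : ∀ n, ContinuousOn (u n) (Ici 0) := fun n => lim_cont_u (hV n)
  have hduc : ∀ n, ContinuousOn (du n) (Ici 0) := fun n => (hV n).cont
  -- the solutions as solutions with δ = 0
  have hV0 : ∀ n, IsVoigt D η ε κ 0 (fun t => f t - δ n • D.a (du n t)) (u n) (du n) := by
    intro n
    refine ⟨(hV n).deriv, (hV n).cont, fun t ht v => ?_⟩
    have := (hV n).eq t ht v
    simp only [sub_apply, smul_apply, smul_eq_mul, zero_mul,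
      add_zero]
    have h2 : δ n = 1 / ((n : ℝ) + 1) := rfl
    rw [← h2] at this
    linarith
  have hfnc : ∀ n, ContinuousOn (fun t => f t - δ n • D.a (du n t)) (Ici 0) := fun n =>
    hfc.sub ((D.a.continuous.comp_continuousOn (hduc n)).const_smul (δ n))
  have key : ∀ T : ℝ, 0 ≤ T → UniformCauchySeqOn u atTop (Icc 0 T) := by
    intro T hT
    have hsub : Icc (0 : ℝ) T ⊆ Ici 0 := Icc_subset_Ici_self
    have hii : ∀ g : ℝ → ℝ, ContinuousOn g (Ici 0) → IntervalIntegrable g volume 0 T := fun g hg =>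
      (hg.mono hsub).intervalIntegrable_of_Icc hT
    obtain ⟨C₁, hC₁⟩ := hDeriv V K D η ε κ f f₁ u₀ h₀ hη hε hκ hf hsig hcompat T hT
    have hC₁0 : ∀ n, ∫ s in (0 : ℝ)..T, D.a (du n s) (du n s) ≤ C₁ := fun n =>
      (hC₁ (δ n) (hδpos n) (hδle n) (u n) (du n) (hV n) (hu0 n)).2
    have hC₁n : 0 ≤ C₁ := le_trans
      (intervalIntegral.integral_nonneg hT (fun s _ => lim_a_nonneg D _)) (hC₁0 0)
    -- energy bound
    set E₁ : ℝ := ‖D.ι u₀‖ ^ 2 + D.a u₀ u₀ + 1 / (D.c₀ * η) * ∫ s in (0 : ℝ)..T, ‖f s‖ ^ 2 with hE₁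
    have hphia : ∀ n, ContinuousOn (fun s => phi ε κ (D.sig (u n s)) * D.a (u n s) (u n s)) (Ici 0) :=
      fun n => (lim_cont_phi D ε κ (huc n)).mul (lim_cont_a D (huc n) (huc n))
    have hen : ∀ n, ∫ s in (0 : ℝ)..T, phi ε κ (D.sig (u n s)) * D.a (u n s) (u n s) ≤ E₁ := by
      intro n
      have h := (hEnergy V K D η ε κ (δ n) f (u n) (du n) hη hε.le hκ (hδpos n).le hfc (hV n) T hT).2
      rw [hu0 n] at h
      have h1 : 0 ≤ ‖D.ι (u n T)‖ ^ 2 := sq_nonneg _
      have h2 : 0 ≤ δ n * D.a (u n T) (u n T) := mul_nonneg (hδpos n).le (lim_a_nonneg D _)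
      have h3 : δ n * D.a u₀ u₀ ≤ D.a u₀ u₀ := by
        have := mul_le_mul_of_nonneg_right (hδle n) (lim_a_nonneg D u₀)
        linarith
      have h4 : ∫ s in (0 : ℝ)..T, phi ε κ (D.sig (u n s)) * D.a (u n s) (u n s) ≤
          ∫ s in (0 : ℝ)..T, (η + 2 * phi ε κ (D.sig (u n s))) * D.a (u n s) (u n s) := by
        refine intervalIntegral.integral_mono_on hT (hii _ (hphia n)) (hii _ ?_) (fun s _ => ?_)
        · exact (continuousOn_const.add (continuousOn_const.mul (lim_cont_phi D ε κ (huc n)))).mul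
            (lim_cont_a D (huc n) (huc n))
        · refine mul_le_mul_of_nonneg_right ?_ (lim_a_nonneg D _)
          have := lim_phi_nonneg (κ := κ) (s := D.sig (u n s)) hε.le
          linarith
      rw [hE₁]
      linarith
    set C₂ : ℝ := CL * (T + E₁) with hC₂
    have hLamInt : ∀ n, ∫ s in (0 : ℝ)..T, D.Lam η ε κ (u n s) ≤ C₂ := by
      intro n
      calc ∫ s in (0 : ℝ)..T, D.Lam η ε κ (u n s)
          ≤ ∫ s in (0 : ℝ)..T, CL * (1 + phi ε κ (D.sig (u n s)) * D.a (u n s) (u n s)) := by
            refine intervalIntegral.integral_mono_on hT (hii _ (lim_cont_Lam D κ hη hε.le (huc n)))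
              (hii _ ?_) (fun s _ => hCL _)
            exact continuousOn_const.mul (continuousOn_const.add (hphia n))
        _ = CL * (T + ∫ s in (0 : ℝ)..T, phi ε κ (D.sig (u n s)) * D.a (u n s) (u n s)) := by
            rw [intervalIntegral.integral_const_mul, intervalIntegral.integral_add
              intervalIntegrable_const (hii _ (hphia n))]
            simp
        _ ≤ C₂ := by
            rw [hC₂]
            exact mul_le_mul_of_nonneg_left (by linarith [hen n]) hCL0
    have hc₀ := D.c₀_pos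
    -- the integral of a(w,w)
    set C₃ : ℝ := 2 / η * ((1 / (D.c₀ * η) * (2 * C₁)) * Real.exp C₂) with hC₃
    have hC₃0 : 0 ≤ C₃ := by rw [hC₃]; positivity
    have hw : ∀ n m, ∫ s in (0 : ℝ)..T, D.a (u n s - u m s) (u n s - u m s) ≤
        C₃ * (δ n ^ 2 + δ m ^ 2) := by
      intro n m
      have h := hDiff V K D η ε κ 0 _ _ (u n) (du n) (u m) (du m) hη hε.le hκ le_rfl
        (hfnc n) (hfnc m) (hV0 n) (hV0 m) T hT
      rw [hu0 n, hu0 m] at h
      simp only [sub_self, map_zero, norm_zero, ne_eq, OfNat.ofNat_ne_zero, not_false_eq_true,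
        zero_pow, zero_mul, zero_add, add_zero] at h
      have h1 : 0 ≤ ‖D.ι (u n T - u m T)‖ ^ 2 := sq_nonneg _
      have hac : ∀ n, ContinuousOn (fun s => D.a (du n s) (du n s)) (Ici 0) := fun n =>
        lim_cont_a D (hduc n) (hduc n)
      have h2 : ∫ s in (0 : ℝ)..T, 1 / (D.c₀ * η) *
          ‖(f s - δ n • D.a (du n s)) - (f s - δ m • D.a (du m s))‖ ^ 2 ≤
          (1 / (D.c₀ * η) * (2 * C₁)) * (δ n ^ 2 + δ m ^ 2) := by
        calc ∫ s in (0 : ℝ)..T, 1 / (D.c₀ * η) *
              ‖(f s - δ n • D.a (du n s)) - (f s - δ m • D.a (du m s))‖ ^ 2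
            ≤ ∫ s in (0 : ℝ)..T, 1 / (D.c₀ * η) *
                (2 * (δ n ^ 2 * D.a (du n s) (du n s) + δ m ^ 2 * D.a (du m s) (du m s))) := by
              refine intervalIntegral.integral_mono_on hT (hii _ ?_) (hii _ ?_) (fun s _ => ?_)
              · exact continuousOn_const.mul (((hfnc n).sub (hfnc m)).norm.pow 2)
              · exact continuousOn_const.mul (continuousOn_const.mul
                  ((continuousOn_const.mul (hac n)).add (continuousOn_const.mul (hac m))))
              · refine mul_le_mul_of_nonneg_left ?_ (by positivity)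
                have e1 : (f s - δ n • D.a (du n s)) - (f s - δ m • D.a (du m s)) =
                    δ m • D.a (du m s) - δ n • D.a (du n s) := by abel
                rw [e1]
                have e2 : ‖δ m • D.a (du m s) - δ n • D.a (du n s)‖ ≤
                    δ m * ‖D.a (du m s)‖ + δ n * ‖D.a (du n s)‖ := by
                  refine (norm_sub_le _ _).trans (le_of_eq ?_)
                  rw [norm_smul, norm_smul, Real.norm_of_nonneg (hδpos m).le,
                    Real.norm_of_nonneg (hδpos n).le]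
                have e3 := lim_norm_a_sq D (du n s)
                have e4 := lim_norm_a_sq D (du m s)
                calc ‖δ m • D.a (du m s) - δ n • D.a (du n s)‖ ^ 2
                    ≤ (δ m * ‖D.a (du m s)‖ + δ n * ‖D.a (du n s)‖) ^ 2 := by gcongr
                  _ ≤ 2 * (δ n ^ 2 * ‖D.a (du n s)‖ ^ 2 + δ m ^ 2 * ‖D.a (du m s)‖ ^ 2) := by
                    nlinarith [sq_nonneg (δ m * ‖D.a (du m s)‖ - δ n * ‖D.a (du n s)‖)]
                  _ ≤ 2 * (δ n ^ 2 * D.a (du n s) (du n s) + δ m ^ 2 * D.a (du m s) (du m s)) := by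
                    gcongr
          _ = 1 / (D.c₀ * η) * (2 * (δ n ^ 2 * (∫ s in (0 : ℝ)..T, D.a (du n s) (du n s)) +
                δ m ^ 2 * ∫ s in (0 : ℝ)..T, D.a (du m s) (du m s))) := by
              rw [intervalIntegral.integral_const_mul, intervalIntegral.integral_const_mul,
                intervalIntegral.integral_add
                  (hii (fun s => δ n ^ 2 * D.a (du n s) (du n s)) (continuousOn_const.mul (hac n)))
                  (hii (fun s => δ m ^ 2 * D.a (du m s) (du m s)) (continuousOn_const.mul (hac m))),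
                intervalIntegral.integral_const_mul,
                intervalIntegral.integral_const_mul]
          _ ≤ 1 / (D.c₀ * η) * (2 * (δ n ^ 2 * C₁ + δ m ^ 2 * C₁)) := by
              gcongr
              · exact hC₁0 n
              · exact hC₁0 m
          _ = (1 / (D.c₀ * η) * (2 * C₁)) * (δ n ^ 2 + δ m ^ 2) := by ring
      have h3 : Real.exp (∫ s in (0 : ℝ)..T, D.Lam η ε κ (u n s)) ≤ Real.exp C₂ :=
        Real.exp_le_exp.2 (hLamInt n)
      have h4 : ∫ s in (0 : ℝ)..T, η / 2 * D.a (u n s - u m s) (u n s - u m s) ≤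
          ((1 / (D.c₀ * η) * (2 * C₁)) * (δ n ^ 2 + δ m ^ 2)) * Real.exp C₂ := by
        have h5 : (∫ s in (0 : ℝ)..T, 1 / (D.c₀ * η) *
            ‖(f s - δ n • D.a (du n s)) - (f s - δ m • D.a (du m s))‖ ^ 2) *
            Real.exp (∫ s in (0 : ℝ)..T, D.Lam η ε κ (u n s)) ≤
            ((1 / (D.c₀ * η) * (2 * C₁)) * (δ n ^ 2 + δ m ^ 2)) * Real.exp C₂ :=
          mul_le_mul h2 h3 (Real.exp_pos _).le (by positivity)
        linarith [h, h5]
      rw [intervalIntegral.integral_const_mul] at h4
      have h6 : (∫ s in (0 : ℝ)..T, D.a (u n s - u m s) (u n s - u m s)) =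
          2 / η * (η / 2 * ∫ s in (0 : ℝ)..T, D.a (u n s - u m s) (u n s - u m s)) := by
        field_simp
      rw [h6, hC₃]
      calc 2 / η * (η / 2 * ∫ s in (0 : ℝ)..T, D.a (u n s - u m s) (u n s - u m s))
          ≤ 2 / η * (((1 / (D.c₀ * η) * (2 * C₁)) * (δ n ^ 2 + δ m ^ 2)) * Real.exp C₂) :=
            mul_le_mul_of_nonneg_left h4 (by positivity)
        _ = 2 / η * ((1 / (D.c₀ * η) * (2 * C₁)) * Real.exp C₂) * (δ n ^ 2 + δ m ^ 2) := by ring
    -- the sup bound
    have hsup : ∀ n m, ∀ lam : ℝ, 0 < lam → ∀ t ∈ Icc (0 : ℝ) T,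
        D.a (u n t - u m t) (u n t - u m t) ≤ lam * (C₃ * (δ n ^ 2 + δ m ^ 2)) + lam⁻¹ * (4 * C₁) := by
      intro n m lam hlam t ht
      have hwc : ContinuousOn (fun s => u n s - u m s) (Ici 0) := (huc n).sub (huc m)
      have hdwc : ContinuousOn (fun s => du n s - du m s) (Ici 0) := (hduc n).sub (hduc m)
      have hsubt : Icc (0 : ℝ) t ⊆ Ici 0 := Icc_subset_Ici_self
      have hiit : ∀ g : ℝ → ℝ, ContinuousOn g (Ici 0) → IntervalIntegrable g volume 0 t := fun g hg =>
        (hg.mono hsubt).intervalIntegrable_of_Icc ht.1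
      have hft : ∫ s in (0 : ℝ)..t, 2 * D.a (u n s - u m s) (du n s - du m s) =
          D.a (u n t - u m t) (u n t - u m t) - D.a (u n 0 - u m 0) (u n 0 - u m 0) := by
        refine intervalIntegral.integral_eq_sub_of_hasDeriv_right
          (f := fun s => D.a (u n s - u m s) (u n s - u m s)) ?_ ?_ ?_
        · rw [uIcc_of_le ht.1]
          exact (lim_cont_a D hwc hwc).mono hsubt
        · intro s hs
          rw [min_eq_left ht.1, max_eq_right ht.1] at hs
          have hd : HasDerivAt (fun s => u n s - u m s) (du n s - du m s) s :=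
            ((hV n).deriv s hs.1.le |>.hasDerivAt (Ici_mem_nhds hs.1)).sub
              ((hV m).deriv s hs.1.le |>.hasDerivAt (Ici_mem_nhds hs.1))
          have hd1 : HasDerivAt (fun s => D.a (u n s - u m s)) (D.a (du n s - du m s)) s :=
            D.a.hasFDerivAt.comp_hasDerivAt s hd
          have hd2 := hd1.clm_apply hd
          have e : D.a (du n s - du m s) (u n s - u m s) + D.a (u n s - u m s) (du n s - du m s) =
              2 * D.a (u n s - u m s) (du n s - du m s) := by
            rw [D.a_symm (du n s - du m s) (u n s - u m s)]; ring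
          rw [e] at hd2
          exact hd2.hasDerivWithinAt
        · exact hiit _ (continuousOn_const.mul (lim_cont_a D hwc hdwc))
      rw [hu0 n, hu0 m, sub_self, map_zero, sub_zero] at hft
      rw [← hft]
      have hmono : ∀ g : ℝ → ℝ, ContinuousOn g (Ici 0) → (∀ s, 0 ≤ g s) →
          ∫ s in (0 : ℝ)..t, g s ≤ ∫ s in (0 : ℝ)..T, g s := by
        intro g hg hg0
        refine intervalIntegral.integral_mono_interval le_rfl ht.1 ht.2 ?_ (hii g hg)
        exact Filter.Eventually.of_forall hg0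
      calc ∫ s in (0 : ℝ)..t, 2 * D.a (u n s - u m s) (du n s - du m s)
          ≤ ∫ s in (0 : ℝ)..t, (lam * D.a (u n s - u m s) (u n s - u m s) +
              lam⁻¹ * (2 * D.a (du n s) (du n s) + 2 * D.a (du m s) (du m s))) := by
            refine intervalIntegral.integral_mono_on ht.1
              (hiit _ (continuousOn_const.mul (lim_cont_a D hwc hdwc))) (hiit _ ?_) (fun s _ => ?_)
            · exact (continuousOn_const.mul (lim_cont_a D hwc hwc)).add (continuousOn_const.mul
                ((continuousOn_const.mul (lim_cont_a D (hduc n) (hduc n))).add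
                  (continuousOn_const.mul (lim_cont_a D (hduc m) (hduc m)))))
            · refine (lim_young D hlam _ _).trans ?_
              have := lim_a_sub_le D (du n s) (du m s)
              gcongr
        _ = lam * (∫ s in (0 : ℝ)..t, D.a (u n s - u m s) (u n s - u m s)) +
              lam⁻¹ * (2 * (∫ s in (0 : ℝ)..t, D.a (du n s) (du n s)) +
                2 * ∫ s in (0 : ℝ)..t, D.a (du m s) (du m s)) := by
            have j1 := hiit (fun s => lam * D.a (u n s - u m s) (u n s - u m s))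
              (continuousOn_const.mul (lim_cont_a D hwc hwc))
            have j2 := hiit (fun s => 2 * D.a (du n s) (du n s))
              (continuousOn_const.mul (lim_cont_a D (hduc n) (hduc n)))
            have j3 := hiit (fun s => 2 * D.a (du m s) (du m s))
              (continuousOn_const.mul (lim_cont_a D (hduc m) (hduc m)))
            rw [intervalIntegral.integral_add j1 ((j2.add j3).const_mul _),
              intervalIntegral.integral_const_mul, intervalIntegral.integral_const_mul,
              intervalIntegral.integral_add j2 j3,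
              intervalIntegral.integral_const_mul, intervalIntegral.integral_const_mul]
        _ ≤ lam * (C₃ * (δ n ^ 2 + δ m ^ 2)) + lam⁻¹ * (4 * C₁) := by
            have i1 := (hmono _ (lim_cont_a D hwc hwc) (fun s => lim_a_nonneg D _)).trans (hw n m)
            have i2 := (hmono _ (lim_cont_a D (hduc n) (hduc n)) (fun s => lim_a_nonneg D _)).trans
              (hC₁0 n)
            have i3 := (hmono _ (lim_cont_a D (hduc m) (hduc m)) (fun s => lim_a_nonneg D _)).trans
              (hC₁0 m)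
            have i4 : 2 * (∫ s in (0 : ℝ)..t, D.a (du n s) (du n s)) +
                2 * ∫ s in (0 : ℝ)..t, D.a (du m s) (du m s) ≤ 4 * C₁ := by linarith
            have := inv_pos.2 hlam
            gcongr
    -- conclusion
    rw [Metric.uniformCauchySeqOn_iff]
    intro r hr
    set lam : ℝ := (8 * C₁ + 1) / (D.c₀ * r ^ 2) with hlam
    have hlam0 : 0 < lam := by rw [hlam]; positivity
    have hlim2 : Tendsto (fun n => lam * (C₃ * (2 * δ n ^ 2))) atTop (𝓝 0) := by
      have : Tendsto (fun n => lam * (C₃ * (2 * δ n ^ 2))) atTop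
          (𝓝 (lam * (C₃ * (2 * (0 : ℝ) ^ 2)))) :=
        ((hδlim.pow 2).const_mul 2 |>.const_mul C₃).const_mul lam
      simpa using this
    have hev : ∀ᶠ n in atTop, lam * (C₃ * (2 * δ n ^ 2)) < D.c₀ * r ^ 2 / 2 :=
      hlim2.eventually (gt_mem_nhds (by positivity))
    obtain ⟨N, hN⟩ := hev.exists_forall_of_atTop
    refine ⟨N, fun n hn m hm t ht => ?_⟩
    have h1 := hsup n m lam hlam0 t ht
    have h2 := hN n hn
    have h3 := hN m hm
    have h4 : lam * (C₃ * (δ n ^ 2 + δ m ^ 2)) < D.c₀ * r ^ 2 / 2 := by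
      have : lam * (C₃ * (δ n ^ 2 + δ m ^ 2)) =
        (lam * (C₃ * (2 * δ n ^ 2)) + lam * (C₃ * (2 * δ m ^ 2))) / 2 := by ring
      rw [this]; linarith
    have h5 : lam⁻¹ * (4 * C₁) ≤ D.c₀ * r ^ 2 / 2 := by
      rw [hlam, inv_div, div_mul_eq_mul_div, div_le_iff₀ (by positivity)]
      nlinarith [mul_pos hc₀ (pow_pos hr 2)]
    have h6 := D.a_coer (u n t - u m t)
    have h7 : D.c₀ * ‖u n t - u m t‖ ^ 2 < D.c₀ * r ^ 2 := by linarith
    have h8 : ‖u n t - u m t‖ ^ 2 < r ^ 2 := lt_of_mul_lt_mul_left h7 hc₀.le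
    rw [dist_eq_norm]
    exact lt_of_pow_lt_pow_left₀ 2 hr.le h8
  -- pointwise limit
  have hpt : ∀ t : ℝ, 0 ≤ t → ∃ x : V, Tendsto (fun n => u n t) atTop (𝓝 x) := by
    intro t ht
    refine cauchySeq_tendsto_of_complete ?_
    exact (key t ht).cauchySeq (right_mem_Icc.2 ht)
  choose! ulim hulim using hpt
  refine ⟨ulim, fun T hT => ?_⟩
  exact (key T hT).tendstoUniformlyOn_of_tendsto (fun t ht => hulim t ht.1)

end Pool.Agent.NSD
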