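import Pool.Agent.NSD.Concrete

/-!
# MP_fd8964_an: final assembly
-/

open MeasureTheory Set Filter Topology
open scoped RealInnerProductSpace ContDiff

noncomputable section

namespace Pool.Agent.NSD

/-- `fld` as a continuous linear map. -/
def fldLM (Ω : Set E) : V Ω →L[ℝ] L2 Ω :=
  (WithLp.fstL 2 ℝ (L2 Ω) (L2G Ω)).comp (V Ω).subtypeL

/-- `grd` as a continuous linear map. -/
def grdLM (Ω : Set E) : V Ω →L[ℝ] L2G Ω :=
  (WithLp.sndL 2 ℝ (L2 Ω) (L2G Ω)).comp (V Ω).subtypeL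

@[simp] theorem fldLM_apply {Ω : Set E} (u : V Ω) : fldLM Ω u = fld u := rfl
@[simp] theorem grdLM_apply {Ω : Set E} (u : V Ω) : grdLM Ω u = grd u := rfl

/-- The Dirichlet form. -/
def aFormM (Ω : Set E) : V Ω →L[ℝ] V Ω →L[ℝ] ℝ :=
  (innerSL ℝ : L2G Ω →L[ℝ] L2G Ω →L[ℝ] ℝ).bilinearComp (grdLM Ω) (grdLM Ω)

@[simp] theorem aFormM_apply {Ω : Set E} (u v : V Ω) : aFormM Ω u v = ⟪grd u, grd v⟫ := rfl

instance instCompleteV (Ω : Set E) : CompleteSpace (V Ω) := by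
  unfold V
  exact Submodule.topologicalClosure.completeSpace _

theorem norm_sq_V {Ω : Set E} (u : V Ω) : ‖u‖ ^ 2 = ‖fld u‖ ^ 2 + ‖grd u‖ ^ 2 := by
  have h : ‖u‖ ^ 2 = ⟪(u : H1 Ω), (u : H1 Ω)⟫ := by
    rw [real_inner_self_eq_norm_sq]; rfl
  rw [h, WithLp.prod_inner_apply, real_inner_self_eq_norm_sq, real_inner_self_eq_norm_sq]
  rfl

theorem main_of (hA : Stmt_AbstractFinal) (hP : Stmt_Poincare) (hT : Stmt_Trilin) (hS : Stmt_Skew)
    (hY : Stmt_Young) (hC : Stmt_Compat) : Stmt_Main := by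
  intro Ω hΩ hb η hη u₀ hu₀ f hf τ hτ
  obtain ⟨⟨f₁, hf₁, hf₂⟩, h, hh, hfh⟩ := hf
  obtain ⟨c, hc, hpoin⟩ := hP Ω hb
  obtain ⟨b, hbb⟩ := hT Ω hb
  obtain ⟨CY, hCY, hyoung⟩ := hY Ω hb
  obtain ⟨k, hk, hcomp⟩ := hC Ω hΩ hb u₀ hu₀ η
  let D : Data (V Ω) (L2 Ω) :=
    { ι := fldLM Ω
      a := aFormM Ω
      b := b
      a_symm := fun u v => by simp [real_inner_comm]
      c₀ := c
      c₀_pos := hc
      a_coer := fun v => by simpa using hpoin v
      a_le := fun v => by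
        rw [aFormM_apply, real_inner_self_eq_norm_sq, norm_sq_V]
        have := sq_nonneg ‖fld v‖
        linarith
      b_skew := fun u v => by rw [hbb]; exact hS Ω hb u v
      CY := CY
      CY_nonneg := hCY
      b_young := fun m hm u w => by
        rw [hbb, aFormM_apply, aFormM_apply, real_inner_self_eq_norm_sq, real_inner_self_eq_norm_sq]
        exact hyoung m hm u w }
  have hι : ∀ v, D.ι v = fld v := fun v => rfl
  have ha : ∀ u v, D.a u v = ⟪grd u, grd v⟫ := fun u v => rfl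
  have hb' : ∀ u v w, D.b u v w = trilin u v w := hbb
  obtain ⟨g, g₁, u, w, hg, hg0, hu, hu0, hwH, heq, hen, hcost, hmeas⟩ :=
    hA (V Ω) (L2 Ω) D η τ f f₁ u₀ (h - k) hη hτ ⟨hf₁, hf₂⟩ (by
      intro v
      rw [hι, ha, hb', inner_sub_left, ← hfh v, ← hcomp v]
      ring)
  refine ⟨g, u, ⟨⟨g₁, hg.memLp, hg.eq⟩, h, hh, ?_⟩, hg0, ⟨w, hu.memLp, ?_, ?_, ?_⟩, ?_, ?_, ?_⟩
  · intro v; rw [hg0]; exact hfh v
  · exact hwH
  · intro t ht; rw [hu.eq t ht, hu0]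
  · filter_upwards [heq] with t ht v
    have := ht v
    rw [hι, hι, hb', ha] at this
    exact this
  · exact hcost
  · exact hmeas
  · intro T hT
    have := hen T hT
    simp only [hι, ha, real_inner_self_eq_norm_sq] at this
    exact this

end Pool.Agent.NSD
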