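import Mathlib
import Pool.Agent.NSD.Abstract

/-!
# MP_fd8964_an: global existence for ODEs in Banach spaces (module ODE)
-/

open MeasureTheory Set Filter Topology

noncomputable section

namespace Pool.Agent.NSD

section ODE
variable {X : Type} [NormedAddCommGroup X] [NormedSpace ℝ X]

/-- `y` solves `y' = F(t,y)` on `[0,T]`. -/
def SolOn (F : ℝ → X → X) (T : ℝ) (y : ℝ → X) : Prop :=
  ∀ t ∈ Icc 0 T, HasDerivWithinAt y (F t (y t)) (Icc 0 T) t

lemma SolOn.glue {F : ℝ → X → X} {a b : ℝ} (ha : 0 ≤ a) (hab : a ≤ b) {y z : ℝ → X}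
    (hy : SolOn F a y) (hz : ∀ t ∈ Icc a b, HasDerivWithinAt z (F t (z t)) (Icc a b) t)
    (hza : z a = y a) : ∃ w : ℝ → X, w 0 = y 0 ∧ SolOn F b w := by
  refine ⟨fun t => if t ≤ a then y t else z t, by simp [ha], ?_⟩
  set w : ℝ → X := fun t => if t ≤ a then y t else z t with hw
  have hw1 : ∀ t, t ≤ a → w t = y t := fun t ht => by simp [hw, ht]
  have hw2 : ∀ t, a ≤ t → w t = z t := by
    intro t ht
    rcases ht.eq_or_lt with h | h
    · subst h
      simp [hw, hza]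
    · simp [hw, not_le.mpr h]
  intro t ht
  have h1 : HasDerivWithinAt w (F t (w t)) (Icc 0 a) t := by
    by_cases hta : t ≤ a
    · have := hy t ⟨ht.1, hta⟩
      rw [hw1 t hta]
      exact this.congr (fun s hs => hw1 s hs.2) (hw1 t hta)
    · have hnot : t ∉ closure (Icc 0 a) := by
        rw [closure_Icc]
        intro h
        exact hta h.2
      exact HasFDerivWithinAt.of_notMem_closure hnot
  have h2 : HasDerivWithinAt w (F t (w t)) (Icc a b) t := by
    by_cases hta : a ≤ t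
    · have := hz t ⟨hta, ht.2⟩
      rw [hw2 t hta]
      exact this.congr (fun s hs => hw2 s hs.1) (hw2 t hta)
    · have hnot : t ∉ closure (Icc a b) := by
        rw [closure_Icc]
        intro h
        exact hta h.1
      exact HasFDerivWithinAt.of_notMem_closure hnot
  have := h1.union h2
  rwa [Icc_union_Icc_eq_Icc ha hab] at this

lemma SolOn.exists [CompleteSpace X] {F : ℝ → X → X} {x₀ : X} {T R : ℝ} (hT : 0 ≤ T)
    (hc : ∀ x, ContinuousOn (fun t => F t x) (Ici 0)) (hR0 : 0 ≤ R) {L : NNReal}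
    (hL : ∀ t ∈ Icc 0 T, LipschitzOnWith L (F t) (Metric.closedBall 0 (R + 1)))
    (hR : ∀ T' ∈ Icc 0 T, ∀ y : ℝ → X, y 0 = x₀ → SolOn F T' y → ∀ t ∈ Icc 0 T', ‖y t‖ ≤ R) :
    ∃ y : ℝ → X, y 0 = x₀ ∧ SolOn F T y := by
  obtain ⟨M₀, hM₀⟩ := isCompact_Icc.exists_bound_of_continuousOn
    ((hc 0).mono (Icc_subset_Ici_self : Icc (0 : ℝ) T ⊆ Ici 0))
  have hM₀0 : 0 ≤ M₀ := (norm_nonneg _).trans (hM₀ 0 ⟨le_rfl, hT⟩)
  set M : NNReal := Real.toNNReal M₀ + L * Real.toNNReal (R + 1) with hM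
  have hMcoe : (M : ℝ) = M₀ + L * (R + 1) := by
    simp [hM, hM₀0, add_nonneg hR0 zero_le_one]
  have hFM : ∀ t ∈ Icc 0 T, ∀ x ∈ Metric.closedBall (0 : X) (R + 1), ‖F t x‖ ≤ M := by
    intro t ht x hx
    have h0 : (0 : X) ∈ Metric.closedBall (0 : X) (R + 1) := by
      simp [add_nonneg hR0 zero_le_one]
    have h1 := (hL t ht).dist_le_mul x hx 0 h0
    rw [dist_eq_norm, dist_eq_norm, sub_zero] at h1
    have hx' : ‖x‖ ≤ R + 1 := by simpa using hx
    have h2 : ‖F t x‖ ≤ ‖F t x - F t 0‖ + ‖F t 0‖ := by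
      have := norm_add_le (F t x - F t 0) (F t 0)
      simpa using this
    have h3 : (L : ℝ) * ‖x‖ ≤ L * (R + 1) := by gcongr
    have h4 := hM₀ t ht
    rw [hMcoe]
    linarith
  obtain ⟨h, hh, hMh⟩ : ∃ h : ℝ, 0 < h ∧ (M : ℝ) * h ≤ 1 := by
    refine ⟨1 / (M + 1), by positivity, ?_⟩
    rw [mul_one_div, div_le_one (by positivity)]
    linarith
  have key : ∀ k : ℕ, ∃ y : ℝ → X, y 0 = x₀ ∧ SolOn F (min (k * h) T) y := by
    intro k
    induction k with
    | zero =>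
      refine ⟨fun _ => x₀, rfl, ?_⟩
      intro t ht
      have h0 : min (((0 : ℕ) : ℝ) * h) T = 0 := by simp [hT]
      rw [h0] at ht ⊢
      have ht0 : t = 0 := le_antisymm ht.2 ht.1
      subst ht0
      rw [Icc_self]
      exact HasFDerivWithinAt.singleton
    | succ k ih =>
      obtain ⟨y, hy0, hy⟩ := ih
      set a := min ((k : ℝ) * h) T with ha
      set b := min (((k + 1 : ℕ) : ℝ) * h) T with hb
      have ha0 : 0 ≤ a := le_min (by positivity) hT
      have haT : a ≤ T := min_le_right _ _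
      have hbT : b ≤ T := min_le_right _ _
      have hab : a ≤ b := by
        apply min_le_min_right
        push_cast
        nlinarith
      have hba : b - a ≤ h := by
        rcases le_total ((k : ℝ) * h) T with hk | hk
        · have : a = k * h := min_eq_left hk
          have : b ≤ ((k + 1 : ℕ) : ℝ) * h := min_le_left _ _
          push_cast at this
          linarith
        · have : a = T := min_eq_right hk
          linarith
      have hya : ‖y a‖ ≤ R := hR a ⟨ha0, haT⟩ y hy0 hy a ⟨ha0, le_rfl⟩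
      have hsub : Metric.closedBall (y a) ((1 : NNReal) : ℝ) ⊆ Metric.closedBall (0 : X) (R + 1) := by
        intro x hx
        rw [Metric.mem_closedBall, dist_eq_norm] at hx
        rw [mem_closedBall_zero_iff]
        have := norm_add_le (x - y a) (y a)
        simp only [sub_add_cancel] at this
        have h1 : ((1 : NNReal) : ℝ) = 1 := rfl
        linarith
      have hPL : IsPicardLindelof F (tmin := a) (tmax := b) ⟨a, le_rfl, hab⟩ (y a) 1 0 M L :=
        { lipschitzOnWith := fun t ht =>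
            (hL t ⟨ha0.trans ht.1, ht.2.trans hbT⟩).mono hsub
          continuousOn := fun x _ => (hc x).mono fun t ht => ha0.trans ht.1
          norm_le := fun t ht x hx => hFM t ⟨ha0.trans ht.1, ht.2.trans hbT⟩ x (hsub hx)
          mul_max_le := by
            simp only [sub_self, NNReal.coe_one, NNReal.coe_zero, sub_zero]
            rw [max_eq_left (sub_nonneg.mpr hab)]
            calc (M : ℝ) * (b - a) ≤ M * h := by gcongr
              _ ≤ 1 := hMh }
      obtain ⟨z, hza, hz⟩ := hPL.exists_eq_forall_mem_Icc_hasDerivWithinAt₀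
      obtain ⟨w, hw0, hw⟩ := SolOn.glue ha0 hab hy hz hza
      exact ⟨w, hw0.trans hy0, hw⟩
  obtain ⟨k, hk⟩ := exists_nat_ge (T / h)
  obtain ⟨y, hy0, hy⟩ := key k
  have hkT : min ((k : ℝ) * h) T = T := by
    apply min_eq_right
    rwa [div_le_iff₀ hh] at hk
  rw [hkT] at hy
  exact ⟨y, hy0, hy⟩

lemma SolOn.mono {F : ℝ → X → X} {T T' : ℝ} {y : ℝ → X} (hy : SolOn F T y) (h : T' ≤ T) :
    SolOn F T' y := fun t ht =>
  (hy t ⟨ht.1, ht.2.trans h⟩).mono (Icc_subset_Icc_right h)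

lemma SolOn.unique {F : ℝ → X → X} {T R : ℝ} {L : NNReal}
    (hL : ∀ t ∈ Icc 0 T, LipschitzOnWith L (F t) (Metric.closedBall 0 R)) {y z : ℝ → X}
    (hy : SolOn F T y) (hz : SolOn F T z) (hyR : ∀ t ∈ Icc 0 T, ‖y t‖ ≤ R)
    (hzR : ∀ t ∈ Icc 0 T, ‖z t‖ ≤ R) (h0 : y 0 = z 0) : EqOn y z (Icc 0 T) := by
  refine ODE_solution_unique_of_mem_Icc_right (v := F) (s := fun _ => Metric.closedBall 0 R)
    (K := L) (fun t ht => hL t ⟨ht.1, ht.2.le⟩) (fun t ht => (hy t ht).continuousWithinAt) ?_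
    (fun t ht => mem_closedBall_zero_iff.mpr (hyR t ⟨ht.1, ht.2.le⟩))
    (fun t ht => (hz t ht).continuousWithinAt) ?_
    (fun t ht => mem_closedBall_zero_iff.mpr (hzR t ⟨ht.1, ht.2.le⟩)) h0
  · intro t ht
    refine (hy t ⟨ht.1, ht.2.le⟩).mono_of_mem_nhdsWithin ?_
    exact mem_of_superset (Icc_mem_nhdsGE ht.2) (Icc_subset_Icc_left ht.1)
  · intro t ht
    refine (hz t ⟨ht.1, ht.2.le⟩).mono_of_mem_nhdsWithin ?_
    exact mem_of_superset (Icc_mem_nhdsGE ht.2) (Icc_subset_Icc_left ht.1)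

end ODE

theorem ODE_proof : Stmt_ODE := by
  intro X _ _ _ F x₀ hc hlip hap
  have hsol : ∀ n : ℕ, ∃ y : ℝ → X, y 0 = x₀ ∧ SolOn F n y := by
    intro n
    obtain ⟨R, hR⟩ := hap n
    obtain ⟨L, hL⟩ := hlip n (max R 0 + 1)
    exact SolOn.exists (R := max R 0) n.cast_nonneg hc (le_max_right _ _) hL
      (fun T' hT' y hy0 hy t ht => (hR T' hT' y hy0 hy t ht).trans (le_max_left _ _))
  choose Y hY0 hY using hsol
  have huniq : ∀ m n : ℕ, m ≤ n → EqOn (Y m) (Y n) (Icc 0 (m : ℝ)) := by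
    intro m n hmn
    obtain ⟨R, hR⟩ := hap m
    obtain ⟨L, hL⟩ := hlip m R
    have hmn' : (m : ℝ) ≤ n := by exact_mod_cast hmn
    have hYn : SolOn F m (Y n) := (hY n).mono hmn'
    exact SolOn.unique hL (hY m) hYn
      (hR m ⟨m.cast_nonneg, le_rfl⟩ _ (hY0 m) (hY m))
      (hR m ⟨m.cast_nonneg, le_rfl⟩ _ (hY0 n) hYn) ((hY0 m).trans (hY0 n).symm)
  refine ⟨fun t => Y (⌊t⌋₊ + 1) t, hY0 _, ?_⟩
  intro t ht
  set N : ℕ := ⌊t⌋₊ + 1 with hN
  have htN : t < N := by
    rw [hN]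
    push_cast
    exact Nat.lt_floor_add_one t
  have hEq : ∀ s : ℝ, 0 ≤ s → s < N → Y (⌊s⌋₊ + 1) s = Y N s := by
    intro s hs hsN
    have h1 : ⌊s⌋₊ + 1 ≤ N := by
      have : ⌊s⌋₊ < N := (Nat.floor_lt hs).mpr hsN
      omega
    refine huniq _ _ h1 ⟨hs, ?_⟩
    push_cast
    exact (Nat.lt_floor_add_one s).le
  have hd := hY N t ⟨ht, htN.le⟩
  have hd' : HasDerivWithinAt (Y N) (F t (Y N t)) (Ici 0) t := by
    refine hd.mono_of_mem_nhdsWithin ?_
    rw [mem_nhdsWithin]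
    exact ⟨Iio (N : ℝ), isOpen_Iio, htN, fun s hs => ⟨hs.2, le_of_lt hs.1⟩⟩
  refine hd'.congr_of_eventuallyEq ?_ rfl
  have : Iio (N : ℝ) ∈ 𝓝[Ici 0] t := mem_nhdsWithin_of_mem_nhds (isOpen_Iio.mem_nhds htN)
  filter_upwards [this, self_mem_nhdsWithin] with s hs hs0
  exact hEq s hs0 hs

end Pool.Agent.NSD
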