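import Pool.Agent.NSD.Concrete

/-!
# MP_fd8964_an: modules Rep (C1a) and Approx (C1b)
-/

open MeasureTheory Set Filter Topology
open scoped RealInnerProductSpace ContDiff

noncomputable section

namespace Pool.Agent.NSD

lemma IsTest.continuous {Ω : Set E} {v : E → E} (h : IsTest Ω v) : Continuous v := h.smooth.continuous

lemma IsTest.differentiable {Ω : Set E} {v : E → E} (h : IsTest Ω v) : Differentiable ℝ v :=
  h.smooth.differentiable (by simp)

lemma continuous_gradField {v : E → E} (h : ContDiff ℝ ∞ v) : Continuous (gradField v) := by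
  have h1 : Continuous (fderiv ℝ v) := h.continuous_fderiv (by simp)
  unfold gradField
  exact (PiLp.continuous_toLp 2 _).comp (continuous_pi fun i => h1.clm_apply continuous_const)

lemma hasCompactSupport_gradField {v : E → E} (h : HasCompactSupport v) :
    HasCompactSupport (gradField v) := by
  have h1 : HasCompactSupport (fderiv ℝ v) := h.fderiv ℝ
  exact h1.comp_left (g := fun L : E →L[ℝ] E => (WithLp.toLp 2 (fun i : Fin 3 => L (e i)) : G))
    (by ext; simp)

lemma IsTest.memLp {Ω : Set E} {v : E → E} (h : IsTest Ω v) (p : ENNReal) (S : Set E) :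
    MemLp v p (volume.restrict S) :=
  h.continuous.memLp_of_hasCompactSupport h.compact

lemma IsTest.memLp_grad {Ω : Set E} {v : E → E} (h : IsTest Ω v) (p : ENNReal) (S : Set E) :
    MemLp (gradField v) p (volume.restrict S) :=
  (continuous_gradField h.smooth).memLp_of_hasCompactSupport (hasCompactSupport_gradField h.compact)

theorem Rep_proof : Stmt_Rep := by
  intro Ω v hv
  have hm1 : MemLp v 2 (volume.restrict Ω) := hv.memLp 2 Ω
  have hm2 : MemLp (gradField v) 2 (volume.restrict Ω) := hv.memLp_grad 2 Ω
  have hrep : Represents Ω v (WithLp.toLp 2 (hm1.toLp v, hm2.toLp _)) :=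
    ⟨hm1.coeFn_toLp, hm2.coeFn_toLp⟩
  exact ⟨⟨_, Submodule.le_topologicalClosure _ (Submodule.subset_span ⟨v, hv, hrep⟩)⟩, hrep⟩

lemma isTest_zero (Ω : Set E) : IsTest Ω (0 : E → E) :=
  IsTest.mk (smooth := contDiff_const)
    (compact := HasCompactSupport.zero)
    (supp := by simp [tsupport])
    (div := by intro x; simp [divField])

lemma gradField_zero : gradField (0 : E → E) = 0 := by
  funext x; ext i j; simp [gradField]

lemma gradField_add {v w : E → E} (hv : Differentiable ℝ v) (hw : Differentiable ℝ w) :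
    gradField (v + w) = gradField v + gradField w := by
  funext x; ext i j
  simp [gradField, fderiv_add (hv x) (hw x)]

lemma gradField_smul {v : E → E} (c : ℝ) (hv : Differentiable ℝ v) :
    gradField (c • v) = c • gradField v := by
  funext x; ext i j
  simp [gradField, fderiv_const_smul (hv x)]

lemma IsTest.add {Ω : Set E} {v w : E → E} (hv : IsTest Ω v) (hw : IsTest Ω w) : IsTest Ω (v + w) :=
  IsTest.mk (smooth := hv.smooth.add hw.smooth)
    (compact := hv.compact.add hw.compact)
    (supp := (tsupport_add v w).trans (union_subset hv.supp hw.supp))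
    (div := by
      intro x
      have h1 := hv.div x
      have h2 := hw.div x
      simp only [divField] at h1 h2 ⊢
      rw [fderiv_add (hv.differentiable x) (hw.differentiable x)]
      simp only [ContinuousLinearMap.add_apply, PiLp.add_apply, Finset.sum_add_distrib, h1, h2, add_zero])

lemma IsTest.smul {Ω : Set E} {v : E → E} (c : ℝ) (hv : IsTest Ω v) : IsTest Ω (c • v) :=
  IsTest.mk (smooth := hv.smooth.const_smul c)
    (compact := hv.compact.smul_left (f := fun _ => c))
    (supp := (tsupport_smul_subset_right (fun _ => c) v).trans hv.supp)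
    (div := by
      intro x
      have h1 := hv.div x
      simp only [divField] at h1 ⊢
      rw [fderiv_const_smul (hv.differentiable x)]
      simp only [ContinuousLinearMap.smul_apply, PiLp.smul_apply, smul_eq_mul, ← Finset.mul_sum, h1, mul_zero])

lemma span_represented (Ω : Set E) (p : H1 Ω)
    (hp : p ∈ Submodule.span ℝ {p : H1 Ω | ∃ v, IsTest Ω v ∧ Represents Ω v p}) :
    ∃ v, IsTest Ω v ∧ Represents Ω v p := by
  induction hp using Submodule.span_induction with
  | mem x hx => exact hx
  | zero =>
    refine ⟨0, isTest_zero Ω, ?_, ?_⟩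
    · exact Lp.coeFn_zero E 2 _
    · rw [gradField_zero]; exact Lp.coeFn_zero G 2 _
  | add x y _ _ hx hy =>
    obtain ⟨v, hv, hv1, hv2⟩ := hx
    obtain ⟨w, hw, hw1, hw2⟩ := hy
    refine ⟨v + w, hv.add hw, ?_, ?_⟩
    · exact (Lp.coeFn_add x.fst y.fst).trans (hv1.add hw1)
    · rw [gradField_add hv.differentiable hw.differentiable]
      exact (Lp.coeFn_add x.snd y.snd).trans (hv2.add hw2)
  | smul c x _ hx =>
    obtain ⟨v, hv, hv1, hv2⟩ := hx
    refine ⟨c • v, hv.smul c, ?_, ?_⟩
    · exact (Lp.coeFn_smul c x.fst).trans (hv1.const_smul c)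
    · rw [gradField_smul c hv.differentiable]
      exact (Lp.coeFn_smul c x.snd).trans (hv2.const_smul c)

theorem Approx_proof : Stmt_Approx := by
  intro Ω v
  have hv : (v : H1 Ω) ∈ closure ((Submodule.span ℝ
      {p : H1 Ω | ∃ v, IsTest Ω v ∧ Represents Ω v p} : Submodule ℝ (H1 Ω)) : Set (H1 Ω)) := v.2
  obtain ⟨q, hq, hlim⟩ := mem_closure_iff_seq_limit.1 hv
  choose φ hφ1 hφ2 using fun n => span_represented Ω (q n) (hq n)
  refine ⟨φ, fun n => ⟨q n, Submodule.le_topologicalClosure _ (hq n)⟩,
    fun n => ⟨hφ1 n, hφ2 n⟩, ?_⟩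
  exact tendsto_subtype_rng.2 hlim

end Pool.Agent.NSD
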