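import Pool.Agent.NSD.Concrete

/-!
# The trilinear form is bounded
-/

set_option autoImplicit false

open MeasureTheory Set Filter Topology
open scoped RealInnerProductSpace ContDiff

noncomputable section

namespace Pool.Agent.NSD

/-- The pointwise product `(a, c) ↦ (a_i c)_i`. -/
def prodG (a c : E) : G := WithLp.toLp 2 (fun i : Fin 3 => a i • c)

lemma prodG_apply (a c : E) (i : Fin 3) : prodG a c i = a i • c := rfl

lemma prodG_cont : Continuous (fun p : E × E => prodG p.1 p.2) := by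
  unfold prodG
  refine (PiLp.continuous_toLp 2 _).comp (continuous_pi fun i => ?_)
  have h1 : Continuous (fun p : E × E => p.1 i) := by fun_prop
  exact h1.smul continuous_snd

lemma norm_prodG (a c : E) : ‖prodG a c‖ = ‖a‖ * ‖c‖ := by
  have h : ‖prodG a c‖ ^ 2 = (‖a‖ * ‖c‖) ^ 2 := by
    rw [PiLp.norm_sq_eq_of_L2, mul_pow, EuclideanSpace.real_norm_sq_eq a, Finset.sum_mul]
    refine Finset.sum_congr rfl fun i _ => ?_
    rw [prodG_apply, norm_smul, mul_pow, Real.norm_eq_abs, sq_abs]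
  exact (pow_left_inj₀ (norm_nonneg _) (by positivity) two_ne_zero).1 h

lemma inner_prodG (g : G) (a c : E) : ⟪g, prodG a c⟫ = ∑ i, a i * ⟪g i, c⟫ := by
  rw [PiLp.inner_apply]
  refine Finset.sum_congr rfl fun i _ => ?_
  rw [prodG_apply, real_inner_smul_right]

/-- The gradient as a continuous linear map. -/
def grdL (Ω : Set E) : V Ω →L[ℝ] L2G Ω :=
  (WithLp.sndL 2 ℝ (L2 Ω) (L2G Ω)).comp (V Ω).subtypeL

lemma grdL_apply {Ω : Set E} (u : V Ω) : grdL Ω u = grd u := rfl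

/-- The underlying field as a continuous linear map. -/
def fldL (Ω : Set E) : V Ω →L[ℝ] L2 Ω :=
  (WithLp.fstL 2 ℝ (L2 Ω) (L2G Ω)).comp (V Ω).subtypeL

lemma fldL_apply {Ω : Set E} (u : V Ω) : fldL Ω u = fld u := rfl

lemma norm_grd_le {Ω : Set E} (u : V Ω) : ‖grd u‖ ≤ ‖u‖ := by
  have h := WithLp.norm_snd_le (p := 2) _ (u : H1 Ω)
  exact h

lemma norm_fld_le {Ω : Set E} (u : V Ω) : ‖fld u‖ ≤ ‖u‖ := by
  have h := WithLp.norm_fst_le (p := 2) _ (u : H1 Ω)
  exact h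

instance holder442 : ENNReal.HolderTriple 4 4 2 := ⟨by
  have h4 : (4 : ENNReal) = 2 * 2 := by norm_num
  rw [h4, ENNReal.mul_inv (Or.inl (by norm_num)) (Or.inl (by norm_num)), ← mul_two, mul_assoc,
    ENNReal.inv_mul_cancel (by norm_num) (by norm_num), mul_one]⟩

/-- `L⁴` bound. -/
lemma l4_bound (hL6 : Stmt_L6) (Ω : Set E) (hΩ : Bornology.IsBounded Ω) : ∃ C : ℝ, 0 ≤ C ∧
    ∀ v : V Ω, eLpNorm (fld v : E → E) 4 (volume.restrict Ω) ≤ ENNReal.ofReal (C * ‖grd v‖) := by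
  obtain ⟨C, hC, h⟩ := hL6 Ω hΩ
  have hfin : (volume.restrict Ω) univ ≠ ⊤ := by
    rw [Measure.restrict_apply_univ]
    exact hΩ.measure_lt_top.ne
  set m : ENNReal := (volume.restrict Ω) univ ^ (1 / (4 : ENNReal).toReal - 1 / (6 : ENNReal).toReal) with hm
  have hmfin : m ≠ ⊤ := ENNReal.rpow_ne_top_of_nonneg (by norm_num) hfin
  refine ⟨C * m.toReal, by positivity, fun v => ?_⟩
  refine (eLpNorm_le_eLpNorm_mul_rpow_measure_univ (p := 4) (q := 6) (by norm_num)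
    (Lp.aestronglyMeasurable (fld v))).trans ?_
  rw [← hm]
  calc eLpNorm (fld v : E → E) 6 (volume.restrict Ω) * m ≤ ENNReal.ofReal (C * ‖grd v‖) * m := by
        gcongr; exact h v
    _ = ENNReal.ofReal (C * ‖grd v‖) * ENNReal.ofReal m.toReal := by rw [ENNReal.ofReal_toReal hmfin]
    _ = ENNReal.ofReal (C * m.toReal * ‖grd v‖) := by
        rw [← ENNReal.ofReal_mul (by positivity)]
        congr 1
        ring

lemma aesm_prod {Ω : Set E} (u w : V Ω) : AEStronglyMeasurable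
    (fun x => prodG ((fld u : E → E) x) ((fld w : E → E) x)) (volume.restrict Ω) :=
  prodG_cont.comp_aestronglyMeasurable
    ((Lp.aestronglyMeasurable (fld u)).prodMk (Lp.aestronglyMeasurable (fld w)))

lemma eLpNorm_prod_le {Ω : Set E} (u w : V Ω) :
    eLpNorm (fun x => prodG ((fld u : E → E) x) ((fld w : E → E) x)) 2 (volume.restrict Ω) ≤
      eLpNorm (fld u : E → E) 4 (volume.restrict Ω) * eLpNorm (fld w : E → E) 4 (volume.restrict Ω) := by
  have h := eLpNorm_le_eLpNorm_mul_eLpNorm_of_nnnorm (p := 4) (q := 4) (r := 2)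
    (Lp.aestronglyMeasurable (fld u)) (Lp.aestronglyMeasurable (fld w)) prodG 1 ?_
  · simpa using h
  · refine Filter.Eventually.of_forall fun x => ?_
    rw [one_mul, ← NNReal.coe_le_coe]
    push_cast
    rw [norm_prodG]

lemma memLp_prod (hL6 : Stmt_L6) {Ω : Set E} (hΩ : Bornology.IsBounded Ω) (u w : V Ω) :
    MemLp (fun x => prodG ((fld u : E → E) x) ((fld w : E → E) x)) 2 (volume.restrict Ω) := by
  obtain ⟨C, hC, h⟩ := l4_bound hL6 Ω hΩ
  refine ⟨aesm_prod u w, (eLpNorm_prod_le u w).trans_lt ?_⟩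
  exact ENNReal.mul_lt_top ((h u).trans_lt ENNReal.ofReal_lt_top) ((h w).trans_lt ENNReal.ofReal_lt_top)

/-- The product in `L²`. -/
def prodL (hL6 : Stmt_L6) {Ω : Set E} (hΩ : Bornology.IsBounded Ω) (u w : V Ω) : L2G Ω :=
  (memLp_prod hL6 hΩ u w).toLp

lemma coeFn_prodL (hL6 : Stmt_L6) {Ω : Set E} (hΩ : Bornology.IsBounded Ω) (u w : V Ω) :
    (prodL hL6 hΩ u w : E → G) =ᵐ[volume.restrict Ω]
      fun x => prodG ((fld u : E → E) x) ((fld w : E → E) x) :=
  MemLp.coeFn_toLp _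

/-- Integral formula. -/
lemma inner_prodL (hL6 : Stmt_L6) {Ω : Set E} (hΩ : Bornology.IsBounded Ω) (u v w : V Ω) :
    ⟪grd v, prodL hL6 hΩ u w⟫ = trilin u v w := by
  unfold trilin
  rw [L2.inner_def]
  refine integral_congr_ae ?_
  filter_upwards [coeFn_prodL hL6 hΩ u w] with x hx
  rw [hx, inner_prodG]

lemma norm_prodL_le (hL6 : Stmt_L6) {Ω : Set E} (hΩ : Bornology.IsBounded Ω) : ∃ C : ℝ, 0 ≤ C ∧
    ∀ u w : V Ω, ‖prodL hL6 hΩ u w‖ ≤ C * ‖grd u‖ * ‖grd w‖ := by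
  obtain ⟨C, hC, h⟩ := l4_bound hL6 Ω hΩ
  refine ⟨C * C, by positivity, fun u w => ?_⟩
  unfold prodL
  rw [Lp.norm_toLp]
  refine ENNReal.toReal_le_of_le_ofReal (by positivity) ?_
  refine (eLpNorm_prod_le u w).trans ?_
  calc eLpNorm (fld u : E → E) 4 (volume.restrict Ω) * eLpNorm (fld w : E → E) 4 (volume.restrict Ω)
      ≤ ENNReal.ofReal (C * ‖grd u‖) * ENNReal.ofReal (C * ‖grd w‖) := mul_le_mul' (h u) (h w)
    _ = ENNReal.ofReal (C * C * ‖grd u‖ * ‖grd w‖) := by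
        rw [← ENNReal.ofReal_mul (by positivity)]
        congr 1
        ring

lemma prodG_add_left (a a' c : E) : prodG (a + a') c = prodG a c + prodG a' c := by
  ext i j
  simp [prodG, add_mul]

lemma prodG_add_right (a c c' : E) : prodG a (c + c') = prodG a c + prodG a c' := by
  ext i j
  simp [prodG, mul_add]

lemma prodG_smul_left (r : ℝ) (a c : E) : prodG (r • a) c = r • prodG a c := by
  ext i j
  simp [prodG, mul_assoc]

lemma prodG_smul_right (r : ℝ) (a c : E) : prodG a (r • c) = r • prodG a c := by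
  ext i j
  simp [prodG]
  ring

lemma fld_add {Ω : Set E} (u v : V Ω) : fld (u + v) = fld u + fld v := rfl

lemma fld_smul {Ω : Set E} (r : ℝ) (u : V Ω) : fld (r • u) = r • fld u := rfl

/-- The product as a bilinear map. -/
def prodBil (hL6 : Stmt_L6) {Ω : Set E} (hΩ : Bornology.IsBounded Ω) : V Ω →ₗ[ℝ] V Ω →ₗ[ℝ] L2G Ω :=
  LinearMap.mk₂ ℝ (fun u w => prodL hL6 hΩ u w)
    (by
      intro u u' w
      refine Lp.ext ?_
      filter_upwards [coeFn_prodL hL6 hΩ (u + u') w, coeFn_prodL hL6 hΩ u w, coeFn_prodL hL6 hΩ u' w,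
        Lp.coeFn_add (prodL hL6 hΩ u w) (prodL hL6 hΩ u' w), Lp.coeFn_add (fld u) (fld u')]
        with x h1 h2 h3 h4 h5
      rw [h1, h4, Pi.add_apply, h2, h3, fld_add, h5, Pi.add_apply, prodG_add_left])
    (by
      intro r u w
      refine Lp.ext ?_
      filter_upwards [coeFn_prodL hL6 hΩ (r • u) w, coeFn_prodL hL6 hΩ u w,
        Lp.coeFn_smul r (prodL hL6 hΩ u w), Lp.coeFn_smul r (fld u)]
        with x h1 h2 h3 h4
      rw [h1, h3, Pi.smul_apply, h2, fld_smul, h4, Pi.smul_apply, prodG_smul_left])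
    (by
      intro u w w'
      refine Lp.ext ?_
      filter_upwards [coeFn_prodL hL6 hΩ u (w + w'), coeFn_prodL hL6 hΩ u w, coeFn_prodL hL6 hΩ u w',
        Lp.coeFn_add (prodL hL6 hΩ u w) (prodL hL6 hΩ u w'), Lp.coeFn_add (fld w) (fld w')]
        with x h1 h2 h3 h4 h5
      rw [h1, h4, Pi.add_apply, h2, h3, fld_add, h5, Pi.add_apply, prodG_add_right])
    (by
      intro r u w
      refine Lp.ext ?_
      filter_upwards [coeFn_prodL hL6 hΩ u (r • w), coeFn_prodL hL6 hΩ u w,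
        Lp.coeFn_smul r (prodL hL6 hΩ u w), Lp.coeFn_smul r (fld w)]
        with x h1 h2 h3 h4
      rw [h1, h3, Pi.smul_apply, h2, fld_smul, h4, Pi.smul_apply, prodG_smul_right])

/-- The product as a continuous bilinear map. -/
lemma exists_prodC (hL6 : Stmt_L6) {Ω : Set E} (hΩ : Bornology.IsBounded Ω) :
    ∃ P : V Ω →L[ℝ] V Ω →L[ℝ] L2G Ω, ∀ u w, P u w = prodL hL6 hΩ u w := by
  obtain ⟨C, hC, h⟩ := norm_prodL_le hL6 hΩ
  refine ⟨(prodBil hL6 hΩ).mkContinuous₂ C fun u w => ?_, fun u w => rfl⟩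
  refine (h u w).trans ?_
  have h1 := norm_grd_le u
  have h2 := norm_grd_le w
  gcongr

/-- The real inner product as a continuous bilinear map. -/
lemma exists_innerC (H : Type) [NormedAddCommGroup H] [InnerProductSpace ℝ H] :
    ∃ B : H →L[ℝ] H →L[ℝ] ℝ, ∀ x y, B x y = ⟪x, y⟫ := by
  refine ⟨(LinearMap.mk₂ ℝ (fun x y : H => ⟪x, y⟫) ?_ ?_ ?_ ?_).mkContinuous₂ 1 ?_, fun x y => rfl⟩
  · intro x x' y; exact inner_add_left _ _ _
  · intro r x y; exact real_inner_smul_left _ _ _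
  · intro x y y'; exact inner_add_right _ _ _
  · intro r x y; exact real_inner_smul_right _ _ _
  · intro x y
    rw [one_mul]
    exact norm_inner_le_norm x y

lemma exists_tricomp (X H : Type) [NormedAddCommGroup X] [NormedSpace ℝ X] [NormedAddCommGroup H]
    [InnerProductSpace ℝ H] (B : H →L[ℝ] H →L[ℝ] ℝ) (g : X →L[ℝ] H) (P : X →L[ℝ] X →L[ℝ] H) :
    ∃ b : X →L[ℝ] X →L[ℝ] X →L[ℝ] ℝ, ∀ u v w, b u v w = B (g v) (P u w) := by
  let c : X →L[ℝ] (X →L[ℝ] H) →L[ℝ] (X →L[ℝ] ℝ) :=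
    (ContinuousLinearMap.compL ℝ X H ℝ).comp (B.comp g)
  exact ⟨c.flip.comp P, fun u v w => rfl⟩

theorem trilin_proof (hL6 : Stmt_L6) : Stmt_Trilin := by
  intro Ω hΩ
  obtain ⟨P, hP⟩ := exists_prodC hL6 hΩ
  obtain ⟨B, hB⟩ := exists_innerC (L2G Ω)
  obtain ⟨b, hb⟩ := exists_tricomp (V Ω) (L2G Ω) B (grdL Ω) P
  refine ⟨b, ?_⟩
  intro u v w
  rw [hb]
  have h : B (grdL Ω v) (P u w) = trilin u v w := by
    rw [hB, hP, grdL_apply]
    exact inner_prodL hL6 hΩ u v w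
  exact h

end Pool.Agent.NSD
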