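import Pool.Agent.NSD.Rep
import Pool.Agent.NSD.Trilin

/-!
# Skew symmetry of the trilinear form
-/

set_option autoImplicit false

open MeasureTheory Set Filter Topology
open scoped RealInnerProductSpace ContDiff

noncomputable section

namespace Pool.Agent.NSD

/-- One component of the integration by parts. -/
lemma skew_comp {Ω : Set E} {φ ψ : E → E} (hφ : IsTest Ω φ) (hψ : IsTest Ω ψ) (i : Fin 3) :
    Integrable (fun x => φ x i * ⟪gradField ψ x i, ψ x⟫) ∧
    Integrable (fun x => fderiv ℝ φ x (e i) i * (‖ψ x‖ ^ 2 / 2)) ∧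
    ∫ x, φ x i * ⟪gradField ψ x i, ψ x⟫ = - ∫ x, fderiv ℝ φ x (e i) i * (‖ψ x‖ ^ 2 / 2) := by
  have hg : ContDiff ℝ ∞ (fun x => ‖ψ x‖ ^ 2 / 2) := (hψ.smooth.norm_sq ℝ).div_const 2
  have hgd : ∀ x, fderiv ℝ (fun x => ‖ψ x‖ ^ 2 / 2) x (e i) = ⟪gradField ψ x i, ψ x⟫ := by
    intro x
    have h1 : HasFDerivAt (fun x => ‖ψ x‖ ^ 2) (2 • (innerSL ℝ (ψ x)).comp (fderiv ℝ ψ x)) x :=
      ((hψ.differentiable x).hasFDerivAt).norm_sq
    have h2 : HasFDerivAt (fun x => ‖ψ x‖ ^ 2 / 2)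
        ((2 : ℝ)⁻¹ • (2 • (innerSL ℝ (ψ x)).comp (fderiv ℝ ψ x))) x := by
      have := h1.const_smul ((2 : ℝ)⁻¹)
      refine this.congr_of_eventuallyEq (Filter.Eventually.of_forall fun y => ?_)
      simp only [Pi.smul_apply, smul_eq_mul]
      ring
    rw [h2.fderiv]
    simp only [ContinuousLinearMap.smul_apply, ContinuousLinearMap.comp_apply, innerSL_apply_apply,
      smul_eq_mul, nsmul_eq_mul, Nat.cast_ofNat]
    rw [real_inner_comm]
    simp [gradField]
  have hφi : ContDiff ℝ ∞ (fun x => φ x i) := by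
    have := hφ.smooth
    fun_prop
  have hφd : ∀ x, fderiv ℝ (fun x => φ x i) x (e i) = fderiv ℝ φ x (e i) i := by
    intro x
    have h1 : HasFDerivAt (fun x => φ x i)
        ((EuclideanSpace.proj i : E →L[ℝ] ℝ).comp (fderiv ℝ φ x)) x :=
      (EuclideanSpace.proj i : E →L[ℝ] ℝ).hasFDerivAt.comp x (hφ.differentiable x).hasFDerivAt
    rw [h1.fderiv]
    rfl
  have hcφ : HasCompactSupport (fun x => φ x i) :=
    hφ.compact.comp_left (g := fun z : E => z i) rfl
  have hcφ' : HasCompactSupport (fun x => fderiv ℝ (fun x => φ x i) x (e i)) :=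
    (hcφ.fderiv ℝ).comp_left (g := fun L : E →L[ℝ] ℝ => L (e i)) rfl
  have hcont1 : Continuous (fun x => fderiv ℝ (fun x => φ x i) x (e i)) :=
    (hφi.continuous_fderiv (by simp)).clm_apply continuous_const
  have hcont2 : Continuous (fun x => fderiv ℝ (fun x => ‖ψ x‖ ^ 2 / 2) x (e i)) :=
    (hg.continuous_fderiv (by simp)).clm_apply continuous_const
  have i1 : Integrable (fun x => fderiv ℝ (fun x => φ x i) x (e i) * (‖ψ x‖ ^ 2 / 2)) :=
    (hcont1.mul hg.continuous).integrable_of_hasCompactSupport hcφ'.mul_right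
  have i2 : Integrable (fun x => φ x i * fderiv ℝ (fun x => ‖ψ x‖ ^ 2 / 2) x (e i)) :=
    (hφi.continuous.mul hcont2).integrable_of_hasCompactSupport hcφ.mul_right
  have i3 : Integrable (fun x => φ x i * (‖ψ x‖ ^ 2 / 2)) :=
    (hφi.continuous.mul hg.continuous).integrable_of_hasCompactSupport hcφ.mul_right
  have key := integral_mul_fderiv_eq_neg_fderiv_mul_of_integrable i1 i2 i3
    (fun x _ => (hφi.differentiable (by simp)) x) (fun x _ => (hg.differentiable (by simp)) x)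
  simp only [hgd, hφd] at key i1 i2
  exact ⟨i2, i1, key⟩

/-- Skew symmetry for test fields. -/
lemma skew_test {Ω : Set E} {φ ψ : E → E} (hφ : IsTest Ω φ) (hψ : IsTest Ω ψ) {p q : V Ω}
    (hp : Represents Ω φ p) (hq : Represents Ω ψ q) : trilin p q q = 0 := by
  have h1 : trilin p q q = ∫ x in Ω, ∑ i : Fin 3, φ x i * ⟪gradField ψ x i, ψ x⟫ := by
    unfold trilin
    refine integral_congr_ae ?_
    filter_upwards [hp.1, hq.1, hq.2] with x h1 h2 h3
    have h1' : (fld p : E → E) x = φ x := h1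
    have h2' : (fld q : E → E) x = ψ x := h2
    have h3' : (grd q : E → G) x = gradField ψ x := h3
    rw [h1', h2', h3']
  rw [h1]
  have h2 : ∫ x in Ω, ∑ i : Fin 3, φ x i * ⟪gradField ψ x i, ψ x⟫ =
      ∫ x, ∑ i : Fin 3, φ x i * ⟪gradField ψ x i, ψ x⟫ := by
    refine setIntegral_eq_integral_of_forall_compl_eq_zero fun x hx => ?_
    have hφx : φ x = 0 := image_eq_zero_of_notMem_tsupport fun h => hx (hφ.supp h)
    simp [hφx]
  rw [h2, integral_finsetSum _ fun i _ => (skew_comp hφ hψ i).1]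
  have h3 : ∑ i : Fin 3, ∫ x, φ x i * ⟪gradField ψ x i, ψ x⟫ =
      ∑ i : Fin 3, - ∫ x, fderiv ℝ φ x (e i) i * (‖ψ x‖ ^ 2 / 2) :=
    Finset.sum_congr rfl fun i _ => (skew_comp hφ hψ i).2.2
  rw [h3, Finset.sum_neg_distrib, ← integral_finsetSum _ fun i _ => (skew_comp hφ hψ i).2.1]
  have h4 : ∀ x, ∑ i : Fin 3, fderiv ℝ φ x (e i) i * (‖ψ x‖ ^ 2 / 2) = 0 := by
    intro x
    rw [← Finset.sum_mul]
    have := hφ.div x
    unfold divField at this
    rw [this, zero_mul]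
  simp [h4]

lemma tri_tendsto (X : Type) [NormedAddCommGroup X] [NormedSpace ℝ X]
    (b : X →L[ℝ] X →L[ℝ] X →L[ℝ] ℝ) {p q : ℕ → X} {u v : X} (hp : Tendsto p atTop (𝓝 u))
    (hq : Tendsto q atTop (𝓝 v)) :
    Tendsto (fun n => b (p n) (q n) (q n)) atTop (𝓝 (b u v v)) := by
  have hc : Continuous (fun z : X × X => b z.1 z.2 z.2) := by fun_prop
  exact (hc.tendsto (u, v)).comp (hp.prodMk_nhds hq)

theorem skew_proof (hT : Stmt_Trilin) : Stmt_Skew := by
  intro Ω hΩ u v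
  obtain ⟨b, hb⟩ := hT Ω hΩ
  obtain ⟨φ, p, hp, hpl⟩ := Approx_proof Ω u
  obtain ⟨ψ, q, hq, hql⟩ := Approx_proof Ω v
  have h1 : Tendsto (fun n => b (p n) (q n) (q n)) atTop (𝓝 (b u v v)) := by
    exact tri_tendsto (V Ω) b hpl hql
  have h2 : ∀ n, b (p n) (q n) (q n) = 0 := by
    intro n
    rw [hb]
    exact skew_test (hp n).1 (hq n).1 (hp n).2 (hq n).2
  have h3 : b u v v = 0 := by
    refine tendsto_nhds_unique h1 ?_
    simp only [h2]
    exact tendsto_const_nhds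
  rw [← hb, h3]

end Pool.Agent.NSD
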