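import Pool.Agent.NSD.Rep

/-!
# MP_fd8964_an: modules Poincare (C1c) and L6 (C1d)
-/

open MeasureTheory Set Filter Topology
open scoped RealInnerProductSpace ContDiff ENNReal NNReal

noncomputable section

namespace Pool.Agent.NSD

/-- The operator norm of the derivative is at most the Hilbert-Schmidt norm of the gradient. -/
lemma norm_fderiv_le_gradField (v : E → E) (x : E) : ‖fderiv ℝ v x‖ ≤ ‖gradField v x‖ := by
  refine ContinuousLinearMap.opNorm_le_bound _ (norm_nonneg _) fun y => ?_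
  have hy : y = ∑ i : Fin 3, y i • e i := by
    ext j
    simp [e, Pi.single_apply]
  have h1 : ‖fderiv ℝ v x y‖ ≤ ∑ i : Fin 3, |y i| * ‖fderiv ℝ v x (e i)‖ := by
    conv_lhs => rw [hy]
    rw [map_sum]
    refine (norm_sum_le _ _).trans (le_of_eq ?_)
    refine Finset.sum_congr rfl fun i _ => ?_
    rw [map_smul, norm_smul, Real.norm_eq_abs]
  refine h1.trans ?_
  have h2 := Finset.sum_mul_sq_le_sq_mul_sq Finset.univ (fun i : Fin 3 => |y i|)
    (fun i => ‖fderiv ℝ v x (e i)‖)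
  have h3 : ‖y‖ ^ 2 = ∑ i : Fin 3, |y i| ^ 2 := by
    rw [EuclideanSpace.norm_sq_eq]; simp
  have h4 : ‖gradField v x‖ ^ 2 = ∑ i : Fin 3, ‖fderiv ℝ v x (e i)‖ ^ 2 := by
    rw [PiLp.norm_sq_eq_of_L2]; rfl
  rw [← h3, ← h4, ← mul_pow] at h2
  have h5 : ‖gradField v x‖ * ‖y‖ = ‖y‖ * ‖gradField v x‖ := mul_comm _ _
  rw [h5]
  exact (pow_le_pow_iff_left₀ (Finset.sum_nonneg fun i _ => by positivity) (by positivity)
    two_ne_zero).1 h2

lemma finrank_E : Module.finrank ℝ E = 3 := by simp [E]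

/-- The Sobolev inequalities for test fields. -/
lemma test_sobolev (Ω : Set E) (hΩ : Bornology.IsBounded Ω) (q : ℝ≥0)
    (hq : (2 : ℝ≥0)⁻¹ - (Module.finrank ℝ E : ℝ)⁻¹ ≤ (q : ℝ)⁻¹) :
    ∃ C : ℝ≥0, ∀ v : E → E, IsTest Ω v →
      eLpNorm v q (volume.restrict Ω) ≤ C * eLpNorm (gradField v) 2 (volume.restrict Ω) := by
  refine ⟨eLpNormLESNormFDerivOfLeConst E volume Ω 2 q, fun v hv => ?_⟩
  have hs : v.support ⊆ Ω := (subset_tsupport v).trans hv.supp
  have h1 := eLpNorm_le_eLpNorm_fderiv_of_le (μ := (volume : Measure E)) (F := E) (u := v)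
    (s := Ω) (p := 2) (q := q) (hv.smooth.of_le (by simp)) hs (by norm_num)
    (by rw [finrank_E]; norm_num) hq hΩ
  have hg : (gradField v).support ⊆ Ω := by
    intro x hx
    apply hv.supp
    by_contra hxs
    apply hx
    have : fderiv ℝ v x = 0 := by
      have := (support_fderiv_subset ℝ (f := v)).trans (le_refl _)
      by_contra h
      exact hxs (this h)
    ext i j
    simp [gradField, this]
  rw [eLpNorm_restrict_eq_of_support_subset hs, eLpNorm_restrict_eq_of_support_subset hg]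
  refine h1.trans ?_
  gcongr
  exact eLpNorm_mono fun x => norm_fderiv_le_gradField v x

lemma enorm_fld {Ω : Set E} (v : V Ω) : eLpNorm (fld v : E → E) 2 (volume.restrict Ω) = ‖fld v‖ₑ :=
  (Lp.enorm_def (fld v)).symm

lemma enorm_grd {Ω : Set E} (v : V Ω) : eLpNorm (grd v : E → G) 2 (volume.restrict Ω) = ‖grd v‖ₑ :=
  (Lp.enorm_def (grd v)).symm

lemma continuous_fld {Ω : Set E} : Continuous (fld (Ω := Ω)) :=
  (WithLp.continuous_fst 2 _ _).comp continuous_subtype_val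

lemma continuous_grd {Ω : Set E} : Continuous (grd (Ω := Ω)) :=
  (WithLp.continuous_snd 2 _ _).comp continuous_subtype_val

theorem Poincare_proof : Stmt_Poincare := by
  intro Ω hΩ
  obtain ⟨C, hC⟩ := test_sobolev Ω hΩ 2 (by rw [finrank_E]; norm_num)
  have key : ∀ v : V Ω, ‖fld v‖ ≤ C * ‖grd v‖ := by
    intro v
    obtain ⟨φ, p, hp, hlim⟩ := Approx_proof Ω v
    have h1 : ∀ n, ‖fld (p n)‖ ≤ C * ‖grd (p n)‖ := by
      intro n
      have h := hC (φ n) (hp n).1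
      have e1 : eLpNorm (φ n) 2 (volume.restrict Ω) = ‖fld (p n)‖ₑ := by
        rw [← enorm_fld]; exact eLpNorm_congr_ae (hp n).2.1.symm
      have e2 : eLpNorm (gradField (φ n)) 2 (volume.restrict Ω) = ‖grd (p n)‖ₑ := by
        rw [← enorm_grd]; exact eLpNorm_congr_ae (hp n).2.2.symm
      have h' : ‖fld (p n)‖ₑ ≤ C * ‖grd (p n)‖ₑ := by
        rw [← e1, ← e2]; exact_mod_cast h
      have h'' : ‖fld (p n)‖₊ ≤ C * ‖grd (p n)‖₊ := by
        have : ((‖fld (p n)‖₊ : ℝ≥0) : ℝ≥0∞) ≤ ((C * ‖grd (p n)‖₊ : ℝ≥0) : ℝ≥0∞) := by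
          push_cast; exact h'
        exact_mod_cast this
      exact_mod_cast h''
    exact le_of_tendsto_of_tendsto ((continuous_fld.tendsto v).comp hlim).norm
      ((((continuous_grd.tendsto v).comp hlim).norm).const_mul (C : ℝ)) (Eventually.of_forall h1)
  refine ⟨1 / ((C : ℝ) ^ 2 + 1), by positivity, fun v => ?_⟩
  have h2 : ‖v‖ ^ 2 = ‖fld v‖ ^ 2 + ‖grd v‖ ^ 2 := WithLp.prod_norm_sq_eq_of_L2 (v : H1 Ω)
  have h3 : ‖fld v‖ ^ 2 ≤ (C : ℝ) ^ 2 * ‖grd v‖ ^ 2 := by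
    rw [← mul_pow]; exact pow_le_pow_left₀ (norm_nonneg _) (key v) 2
  rw [h2, div_mul_eq_mul_div, one_mul, div_le_iff₀ (by positivity)]
  nlinarith

theorem L6_proof : Stmt_L6 := by
  intro Ω hΩ
  obtain ⟨C, hC⟩ := test_sobolev Ω hΩ 6 (by rw [finrank_E]; norm_num)
  refine ⟨C, C.coe_nonneg, fun v => ?_⟩
  obtain ⟨φ, p, hp, hlim⟩ := Approx_proof Ω v
  have hm := tendstoInMeasure_of_tendsto_Lp ((continuous_fld.tendsto v).comp hlim)
  obtain ⟨ns, hns, hae⟩ := hm.exists_seq_tendsto_ae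
  have h1 := Lp.eLpNorm_lim_le_liminf_eLpNorm (p := 6)
    (fun k => Lp.aestronglyMeasurable (fld (p (ns k)))) (fld v : E → E) hae
  refine h1.trans ?_
  have h2 : ∀ k, eLpNorm (fld (p (ns k)) : E → E) 6 (volume.restrict Ω)
      ≤ ENNReal.ofReal (C * ‖grd (p (ns k))‖) := by
    intro k
    have h := hC (φ (ns k)) (hp (ns k)).1
    have e1 : eLpNorm (fld (p (ns k)) : E → E) 6 (volume.restrict Ω)
        = eLpNorm (φ (ns k)) 6 (volume.restrict Ω) := eLpNorm_congr_ae (hp (ns k)).2.1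
    have e2 : eLpNorm (gradField (φ (ns k))) 2 (volume.restrict Ω) = ‖grd (p (ns k))‖ₑ := by
      rw [← enorm_grd]; exact eLpNorm_congr_ae (hp (ns k)).2.2.symm
    rw [e1, ENNReal.ofReal_mul C.coe_nonneg, ENNReal.ofReal_coe_nnreal, ofReal_norm_eq_enorm, ← e2]
    exact_mod_cast h
  have h3 : Tendsto (fun k => ENNReal.ofReal (C * ‖grd (p (ns k))‖)) atTop
      (𝓝 (ENNReal.ofReal (C * ‖grd v‖))) :=
    (ENNReal.continuous_ofReal.tendsto _).comp
      (((((continuous_grd.tendsto v).comp hlim).comp hns.tendsto_atTop).norm).const_mul (C : ℝ))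
  calc atTop.liminf (fun k => eLpNorm (fld (p (ns k)) : E → E) 6 (volume.restrict Ω))
      ≤ atTop.liminf (fun k => ENNReal.ofReal (C * ‖grd (p (ns k))‖)) :=
        Filter.liminf_le_liminf (Eventually.of_forall h2)
    _ = ENNReal.ofReal (C * ‖grd v‖) := h3.liminf_eq

end Pool.Agent.NSD
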