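import Pool.Agent.NSD.Abstract

/-! A6: weak compactness in `L²(α,β;X)` and identification of the limit. -/

open MeasureTheory Set Filter Topology
open scoped RealInnerProductSpace

noncomputable section

namespace Pool.Agent.NSD

theorem weakLimit_proof : Stmt_WeakLimit := by
  intro X _ _ _ α β C x y xlim hαβ hy hC hx hlim
  set μ : Measure ℝ := volume.restrict (Ioc α β) with hμ
  let H : Type := Lp X 2 μ
  let Y : ℕ → Lp X 2 μ := fun n => (hy n).toLp (y n)
  have hYn : ∀ n, ‖Y n‖ ^ 2 = ∫ s in α..β, ‖y n s‖ ^ 2 := by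
    intro n
    rw [← real_inner_self_eq_norm_sq, L2.inner_def, intervalIntegral.integral_of_le hαβ]
    apply integral_congr_ae
    filter_upwards [(hy n).coeFn_toLp] with s hs
    rw [show (Y n : ℝ → X) s = y n s from hs, real_inner_self_eq_norm_sq]
  have hC0 : 0 ≤ C := le_trans (by rw [← hYn 0]; positivity) (hC 0)
  have hYb : ∀ n, ‖Y n‖ ≤ √C := by
    intro n
    apply Real.le_sqrt_of_sq_le
    rw [hYn n]; exact hC n
  -- the sequence in the weak dual
  let D := StrongDual ℝ (Lp X 2 μ)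
  let seq : ℕ → WeakDual ℝ (Lp X 2 μ) := fun n =>
    StrongDual.toWeakDual (InnerProductSpace.toDual ℝ (Lp X 2 μ) (Y n))
  have hK : IsCompact (WeakDual.toStrongDual ⁻¹' Metric.closedBall (0 : StrongDual ℝ (Lp X 2 μ)) (√C)) :=
    WeakDual.isCompact_closedBall _ _
  have hseq : ∀ n, seq n ∈ WeakDual.toStrongDual ⁻¹' Metric.closedBall (0 : StrongDual ℝ (Lp X 2 μ)) (√C) := by
    intro n
    refine (mem_closedBall_zero_iff (a := InnerProductSpace.toDual ℝ (Lp X 2 μ) (Y n))).mpr ?_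
    rw [LinearIsometryEquiv.norm_map]
    exact hYb n
  obtain ⟨f, hfK, hf⟩ := hK.ultrafilter_le_nhds ((hyperfilter ℕ).map seq) (by
    rw [Ultrafilter.coe_map, le_principal_iff, mem_map]
    exact Filter.univ_mem' hseq)
  have hft : ∀ Φ : Lp X 2 μ, Tendsto (fun n => ⟪Y n, Φ⟫) (hyperfilter ℕ : Filter ℕ) (𝓝 (f Φ)) := by
    intro Φ
    have h1 : Tendsto seq (hyperfilter ℕ : Filter ℕ) (𝓝 f) := hf
    exact ((WeakDual.eval_continuous Φ).tendsto f).comp h1
  let w : Lp X 2 μ := (InnerProductSpace.toDual ℝ (Lp X 2 μ)).symm (WeakDual.toStrongDual f)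
  have hw : ∀ Φ : Lp X 2 μ, ⟪w, Φ⟫ = f Φ := by
    intro Φ
    exact InnerProductSpace.toDual_symm_apply
  have hwn : ‖w‖ ≤ √C := by
    show ‖(InnerProductSpace.toDual ℝ (Lp X 2 μ)).symm (WeakDual.toStrongDual f)‖ ≤ _
    rw [LinearIsometryEquiv.norm_map]
    exact (mem_closedBall_zero_iff (a := WeakDual.toStrongDual f)).mp hfK
  refine ⟨w, Lp.memLp w, ?_, ?_⟩
  · have h1 : ‖w‖ ^ 2 = ∫ s in α..β, ‖(w : ℝ → X) s‖ ^ 2 := by
      rw [← real_inner_self_eq_norm_sq, L2.inner_def, intervalIntegral.integral_of_le hαβ]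
      apply integral_congr_ae
      filter_upwards with s
      rw [real_inner_self_eq_norm_sq]
    rw [← h1]
    calc ‖w‖ ^ 2 ≤ (√C) ^ 2 := by gcongr
      _ = C := Real.sq_sqrt hC0
  · intro t ht
    have hsub : Ioc α t ⊆ Ioc α β := Ioc_subset_Ioc_right ht.2
    have hres : μ.restrict (Ioc α t) = volume.restrict (Ioc α t) :=
      Measure.restrict_restrict_of_subset hsub
    have hfin : μ (Ioc α t) ≠ ⊤ := by
      have : μ (Ioc α t) ≤ volume (Ioc α t) := Measure.restrict_apply_le _ _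
      exact ne_top_of_le_ne_top (by simp) this
    have hgen : ∀ (v : X) (g : Lp X 2 μ), ⟪g, indicatorConstLp 2 measurableSet_Ioc hfin v⟫
        = ⟪v, ∫ s in Ioc α t, (g : ℝ → X) s⟫ := by
      intro v g
      rw [real_inner_comm, L2.inner_indicatorConstLp_eq_inner_setIntegral, hres]
    have hYint : ∀ n, ∫ s in Ioc α t, (Y n : ℝ → X) s = x n t - x n α := by
      intro n
      rw [hx n t ht, add_sub_cancel_left, intervalIntegral.integral_of_le ht.1]
      apply integral_congr_ae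
      rw [← hres]
      exact ae_restrict_of_ae (hy n).coeFn_toLp
    have hkey : ∀ v : X, ⟪v, ∫ s in Ioc α t, (w : ℝ → X) s⟫ = ⟪v, xlim t - xlim α⟫ := by
      intro v
      have h1 : Tendsto (fun n => ⟪v, x n t - x n α⟫) (hyperfilter ℕ : Filter ℕ)
          (𝓝 (⟪v, ∫ s in Ioc α t, (w : ℝ → X) s⟫)) := by
        have h2 := hft (indicatorConstLp 2 measurableSet_Ioc hfin v)
        rw [← hw, hgen] at h2
        refine h2.congr fun n => ?_
        rw [hgen, hYint]
      have h3 : Tendsto (fun n => ⟪v, x n t - x n α⟫) (hyperfilter ℕ : Filter ℕ)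
          (𝓝 (⟪v, xlim t - xlim α⟫)) := by
        have h4 : Tendsto (fun n => ⟪v, x n t - x n α⟫) atTop (𝓝 (⟪v, xlim t - xlim α⟫)) :=
          Tendsto.inner tendsto_const_nhds ((hlim t ht).sub (hlim α ⟨le_rfl, hαβ⟩))
        exact h4.mono_left Nat.hyperfilter_le_atTop
      exact tendsto_nhds_unique h1 h3
    have h5 : ∫ s in Ioc α t, (w : ℝ → X) s = xlim t - xlim α :=
      ext_inner_left ℝ hkey
    rw [intervalIntegral.integral_of_le ht.1, h5]
    abel

end Pool.Agent.NSD
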