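import Pool.Agent.NSD.Trilin

/-!
# The refined estimate of the trilinear form in Young form
-/

set_option autoImplicit false

open MeasureTheory Set Filter Topology
open scoped RealInnerProductSpace ContDiff

noncomputable section

namespace Pool.Agent.NSD

/-- Interpolation: `‖|w|²‖_2² ≤ ‖w‖_2 ‖w‖_6³`. -/
lemma eLpNorm_prod_sq_le {Ω : Set E} (w : V Ω) :
    eLpNorm (fun x => prodG ((fld w : E → E) x) ((fld w : E → E) x)) 2 (volume.restrict Ω) ^ 2 ≤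
      eLpNorm (fld w : E → E) 2 (volume.restrict Ω) * eLpNorm (fld w : E → E) 6 (volume.restrict Ω) ^ 3 := by
  have hm : AEMeasurable (fun x => ‖(fld w : E → E) x‖ₑ) (volume.restrict Ω) :=
    (Lp.aestronglyMeasurable (fld w)).enorm
  have hm3 : AEMeasurable (fun x => ‖(fld w : E → E) x‖ₑ ^ 3) (volume.restrict Ω) := hm.pow_const 3
  have h := ENNReal.lintegral_mul_le_Lp_mul_Lq (volume.restrict Ω) Real.HolderConjugate.two_two hm hm3
  rw [eLpNorm_eq_lintegral_rpow_enorm_toReal (by norm_num) (by norm_num),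
    eLpNorm_eq_lintegral_rpow_enorm_toReal (by norm_num) (by norm_num),
    eLpNorm_eq_lintegral_rpow_enorm_toReal (by norm_num) (by norm_num)]
  have e1 : ((∫⁻ x in Ω, ‖prodG ((fld w : E → E) x) ((fld w : E → E) x)‖ₑ ^ (2 : ENNReal).toReal) ^
      (1 / (2 : ENNReal).toReal)) ^ 2 =
      ∫⁻ x in Ω, ((fun x => ‖(fld w : E → E) x‖ₑ) * (fun x => ‖(fld w : E → E) x‖ₑ ^ 3)) x := by
    rw [← ENNReal.rpow_natCast, ← ENNReal.rpow_mul]
    norm_num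
    refine lintegral_congr fun x => ?_
    have : ‖prodG ((fld w : E → E) x) ((fld w : E → E) x)‖ₑ =
        ‖(fld w : E → E) x‖ₑ * ‖(fld w : E → E) x‖ₑ := by
      rw [← ofReal_norm, norm_prodG, ENNReal.ofReal_mul (norm_nonneg _), ofReal_norm]
    rw [this]
    ring
  rw [e1]
  refine h.trans (le_of_eq ?_)
  have e3 : (∫⁻ (a : E) in Ω, ‖(fld w : E → E) a‖ₑ ^ (2 : ℝ)) ^ (1 / (2 : ℝ)) =
      (∫⁻ (a : E) in Ω, ‖(fld w : E → E) a‖ₑ ^ (2 : ENNReal).toReal) ^ (1 / (2 : ENNReal).toReal) := by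
    norm_num
  rw [← e3]
  congr 1
  · have e2 : ∀ x : E, (‖(fld w : E → E) x‖ₑ ^ 3) ^ (2 : ℝ) = ‖(fld w : E → E) x‖ₑ ^ (6 : ENNReal).toReal := by
      intro x
      rw [← ENNReal.rpow_natCast, ← ENNReal.rpow_mul]
      norm_num
    simp only [e2]
    rw [← ENNReal.rpow_natCast, ← ENNReal.rpow_mul]
    congr 1
    norm_num

lemma norm_prodL_sq_le (hL6 : Stmt_L6) {Ω : Set E} (hΩ : Bornology.IsBounded Ω) : ∃ C : ℝ, 0 ≤ C ∧
    ∀ w : V Ω, ‖prodL hL6 hΩ w w‖ ^ 2 ≤ ‖fld w‖ * (C * ‖grd w‖) ^ 3 := by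
  obtain ⟨C, hC, h⟩ := hL6 Ω hΩ
  refine ⟨C, hC, fun w => ?_⟩
  unfold prodL
  rw [Lp.norm_toLp, ← ENNReal.toReal_pow]
  refine ENNReal.toReal_le_of_le_ofReal (by positivity) ?_
  refine (eLpNorm_prod_sq_le w).trans ?_
  rw [ENNReal.ofReal_mul (norm_nonneg _), ENNReal.ofReal_pow (by positivity)]
  gcongr
  · rw [Lp.norm_def, ENNReal.ofReal_toReal (Lp.eLpNorm_ne_top _)]
  · exact h w

lemma young_real {C m N x y s : ℝ} (hm : 0 < m) (hN0 : 0 ≤ N) (hx0 : 0 ≤ x) (hy0 : 0 ≤ y)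
    (hs0 : 0 ≤ s) (hC : 0 ≤ C) (h1 : N ^ 2 ≤ x * (C * y) ^ 3) :
    s * N ≤ m * y ^ 2 + C ^ 6 / m ^ 3 * (s ^ 2) ^ 2 * x ^ 2 := by
  obtain ⟨t, ht⟩ : ∃ t : ℝ, t = C ^ 3 * s ^ 2 * x / m ^ 2 := ⟨_, rfl⟩
  have ht0 : 0 ≤ t := by rw [ht]; positivity
  have e1 : C ^ 6 / m ^ 3 * (s ^ 2) ^ 2 * x ^ 2 = m * t ^ 2 := by
    rw [ht]
    field_simp
  rw [e1]
  have e2 : (s * N) ^ 2 ≤ (m * y ^ 2 + m * t ^ 2) ^ 2 := by
    have h2 : (s * N) ^ 2 ≤ m ^ 2 * (y ^ 3 * t) := by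
      have h3 : m ^ 2 * (y ^ 3 * t) = s ^ 2 * (x * (C * y) ^ 3) := by
        rw [ht]
        field_simp
      rw [h3, mul_pow]
      exact mul_le_mul_of_nonneg_left h1 (sq_nonneg _)
    refine h2.trans ?_
    have h4 : (m * y ^ 2 + m * t ^ 2) ^ 2 = m ^ 2 * (y ^ 2 + t ^ 2) ^ 2 := by ring
    rw [h4]
    refine mul_le_mul_of_nonneg_left ?_ (sq_nonneg _)
    have h5 : y * t ≤ y ^ 2 + t ^ 2 := by nlinarith [sq_nonneg (y - t), mul_nonneg hy0 ht0]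
    have h6 : y ^ 2 ≤ y ^ 2 + t ^ 2 := by nlinarith [sq_nonneg t]
    calc y ^ 3 * t = y ^ 2 * (y * t) := by ring
      _ ≤ (y ^ 2 + t ^ 2) * (y ^ 2 + t ^ 2) := mul_le_mul h6 h5 (by positivity) (by positivity)
      _ = (y ^ 2 + t ^ 2) ^ 2 := by ring
  exact (pow_le_pow_iff_left₀ (by positivity) (by positivity) two_ne_zero).1 e2

theorem young_proof (hL6 : Stmt_L6) : Stmt_Young := by
  intro Ω hΩ
  obtain ⟨C, hC, h⟩ := norm_prodL_sq_le hL6 hΩ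
  refine ⟨C ^ 6, by positivity, fun m hm u w => ?_⟩
  rw [← inner_prodL hL6 hΩ w u w]
  refine (abs_real_inner_le_norm _ _).trans ?_
  exact young_real hm (norm_nonneg _) (norm_nonneg _) (norm_nonneg _) (norm_nonneg _) hC (h w)

end Pool.Agent.NSD
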