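import Pool.Agent.NSD.MainNu
import Pool.Agent.NSD.AbstractNu
import Pool.Agent.NSD.AbstractProof
import Pool.Agent.NSD.Compat
import Pool.Agent.NSD.Diff
import Pool.Agent.NSD.Energy
import Pool.Agent.NSD.Glue
import Pool.Agent.NSD.Gronwall
import Pool.Agent.NSD.H2Bound
import Pool.Agent.NSD.Lam
import Pool.Agent.NSD.Limit
import Pool.Agent.NSD.ODE
import Pool.Agent.NSD.Rep
import Pool.Agent.NSD.Skew
import Pool.Agent.NSD.Sobolev
import Pool.Agent.NSD.Trilin
import Pool.Agent.NSD.WeakLimit
import Pool.Agent.NSD.Young
import Pool.Agent.NSD.VoigtExists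
import Pool.Agent.NSD.Deriv

/-!
# MP_fd8964_an: the theorem, over the definitions of `Pool.Agent.NSD.Defs`
-/

namespace Pool.Agent.NSD

theorem mainNu_proof : Stmt_MainNu :=
  main_nu_of
    (abstractNu_proof (abstract_proof voigtExists_proof energy_proof deriv_proof
      (limit_proof deriv_proof diff_proof energy_proof lam_proof) weakLimit_proof glue_proof))
    Poincare_proof (trilin_proof L6_proof) (skew_proof (trilin_proof L6_proof)) (young_proof L6_proof)
    (compat_proof Approx_proof (h2Bound_of Approx_proof L6_proof))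

end Pool.Agent.NSD
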