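import Pool.Agent.NSD.Transfer

/-!
# Global regular solutions of the 3D Navier-Stokes system after a small change of the force

For every bounded open set `Ω ⊆ ℝ³`, every viscosity `η > 0`, every admissible `(u₀, f)` and every `τ > 0` there is
an admissible force `g` for which the conclusion of Q1 holds, such that `g = f - (ν(t) - η) A u` differs from `f` only
on a set of times of measure at most `τ M(T)` in `[0,T]`, and `∫₀ᵀ ‖g - f‖_{V'}^{5/3} ≤ τ M(T)`, where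
`M(T) = ‖u₀‖² + ∫₀ᵀ ‖f‖²_{V'}`.  In other words: `u` solves the system with the original force `f` and with the
time-dependent viscosity `ν(t) ≥ η`, which differs from `η` by little in `L⁵` and only on a small set of times.
-/

open MeasureTheory Set Filter Topology
open scoped RealInnerProductSpace ContDiff

namespace Pool.Agent.Results.MP_fd8964_an.NearbyForce

open Pool.Agent.NSDS

theorem result (Ω : Set R3) (hΩ : IsOpen Ω) (hb : Bornology.IsBounded Ω) (η : ℝ) (hη : 0 < η)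
    (u₀ : V Ω) (hu₀ : MemH2 u₀) (f : ℝ → (V Ω →L[ℝ] ℝ)) (hf : AdmissibleForce Ω f) (τ : ℝ) (hτ : 0 < τ) :
    ∃ (ν : ℝ → ℝ) (g : ℝ → (V Ω →L[ℝ] ℝ)) (u : ℝ → V Ω),
      AdmissibleForce Ω g ∧ g 0 = f 0 ∧ IsRegularSolution Ω η u₀ g u ∧
      (∀ t, η ≤ ν t) ∧ ContinuousOn ν (Ici 0) ∧
      (∀ t, 0 ≤ t → ∀ v : V Ω, g t v = f t v - (ν t - η) * ⟪grd (u t), grd v⟫) ∧
      (∀ T : ℝ, 0 ≤ T →
        ‖fld (u T)‖ ^ 2 + 2 * η * ∫ s in (0 : ℝ)..T, ‖grd (u s)‖ ^ 2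
          ≤ ‖fld u₀‖ ^ 2 + 2 * ∫ s in (0 : ℝ)..T, f s (u s)) ∧
      (∀ T : ℝ, 0 ≤ T → ∫⁻ t in Ioc 0 T, ‖g t - f t‖ₑ ^ (5 / 3 : ℝ)
        ≤ ENNReal.ofReal (τ * (‖fld u₀‖ ^ 2 + ∫ s in (0 : ℝ)..T, ‖f s‖ ^ 2))) ∧
      (∀ T : ℝ, 0 ≤ T → ∫⁻ t in Ioc 0 T, ENNReal.ofReal ((ν t - η) ^ 5)
        ≤ ENNReal.ofReal (τ * (‖fld u₀‖ ^ 2 + ∫ s in (0 : ℝ)..T, ‖f s‖ ^ 2))) ∧
      (∀ T : ℝ, 0 ≤ T → volume {t ∈ Ioc (0 : ℝ) T | ν t ≠ η}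
        ≤ ENNReal.ofReal (τ * (‖fld u₀‖ ^ 2 + ∫ s in (0 : ℝ)..T, ‖f s‖ ^ 2))) :=
  Pool.Agent.NSDT.abs_sealed Ω hΩ hb η hη u₀ hu₀ f hf τ hτ

end Pool.Agent.Results.MP_fd8964_an.NearbyForce
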