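import Pool.Agent.NSD.Concrete

/-!
# MP_fd8964_an: the strengthened final statements (time-dependent viscosity formulation)
-/

open MeasureTheory Set Filter Topology
open scoped RealInnerProductSpace ContDiff

noncomputable section

namespace Pool.Agent.NSD

/-- A9'. The abstract theorem with the viscosity function `ν` (`ν t = η + phi ε κ (σ (u t))`). -/
def Stmt_AbstractNu : Prop := ∀ (V K : Type) [NormedAddCommGroup V] [InnerProductSpace ℝ V]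
    [CompleteSpace V] [NormedAddCommGroup K] [InnerProductSpace ℝ K] (D : Data V K)
    (η τ : ℝ) (f f₁ : ℝ → (V →L[ℝ] ℝ)) (u₀ : V) (h₀ : K), 0 < η → 0 < τ →
    IsH1loc f f₁ →
    (∀ v, f 0 v - η * D.a u₀ v - D.b u₀ u₀ v = ⟪h₀, D.ι v⟫) →
    ∃ (ν : ℝ → ℝ) (g g₁ : ℝ → (V →L[ℝ] ℝ)) (u w : ℝ → V),
      IsH1loc g g₁ ∧ g 0 = f 0 ∧ IsH1loc u w ∧ u 0 = u₀ ∧
      (∀ T : ℝ, ∃ C : ℝ, ∀ᵐ t ∂(volume.restrict (Ioc 0 T)), ‖D.ι (w t)‖ ≤ C) ∧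
      (∀ᵐ t ∂(volume.restrict (Ioi (0 : ℝ))), ∀ v, ⟪D.ι (w t), D.ι v⟫
        + D.b (u t) (u t) v + η * D.a (u t) v = g t v) ∧
      (∀ t, η ≤ ν t) ∧ ContinuousOn ν (Ici 0) ∧
      (∀ t, 0 ≤ t → ∀ v, g t v = f t v - (ν t - η) * D.a (u t) v) ∧
      (∀ T : ℝ, 0 ≤ T →
        ‖D.ι (u T)‖ ^ 2 + 2 * η * ∫ s in (0 : ℝ)..T, D.a (u s) (u s)
          ≤ ‖D.ι u₀‖ ^ 2 + 2 * ∫ s in (0 : ℝ)..T, f s (u s)) ∧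
      (∀ T : ℝ, 0 ≤ T → ∫⁻ t in Ioc 0 T, ‖g t - f t‖ₑ ^ (5 / 3 : ℝ)
        ≤ ENNReal.ofReal (τ * (‖D.ι u₀‖ ^ 2 + ∫ s in (0 : ℝ)..T, ‖f s‖ ^ 2))) ∧
      (∀ T : ℝ, 0 ≤ T → ∫⁻ t in Ioc 0 T, ENNReal.ofReal ((ν t - η) ^ 5)
        ≤ ENNReal.ofReal (τ * (‖D.ι u₀‖ ^ 2 + ∫ s in (0 : ℝ)..T, ‖f s‖ ^ 2))) ∧
      (∀ T : ℝ, 0 ≤ T → volume {t ∈ Ioc (0 : ℝ) T | ν t ≠ η}
        ≤ ENNReal.ofReal (τ * (‖D.ι u₀‖ ^ 2 + ∫ s in (0 : ℝ)..T, ‖f s‖ ^ 2)))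

/-- The final theorem, strengthened form. -/
def Stmt_MainNu : Prop := ∀ (Ω : Set E), IsOpen Ω → Bornology.IsBounded Ω → ∀ (η : ℝ), 0 < η →
    ∀ (u₀ : V Ω), MemH2 u₀ → ∀ (f : ℝ → V' Ω), AdmissibleForce Ω f → ∀ (τ : ℝ), 0 < τ →
    ∃ (ν : ℝ → ℝ) (g : ℝ → V' Ω) (u : ℝ → V Ω),
      AdmissibleForce Ω g ∧ g 0 = f 0 ∧ IsRegularSolution Ω η u₀ g u ∧
      (∀ t, η ≤ ν t) ∧ ContinuousOn ν (Ici 0) ∧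
      (∀ t, 0 ≤ t → ∀ v : V Ω, g t v = f t v - (ν t - η) * ⟪grd (u t), grd v⟫) ∧
      (∀ T : ℝ, 0 ≤ T →
        ‖fld (u T)‖ ^ 2 + 2 * η * ∫ s in (0 : ℝ)..T, ‖grd (u s)‖ ^ 2
          ≤ ‖fld u₀‖ ^ 2 + 2 * ∫ s in (0 : ℝ)..T, f s (u s)) ∧
      (∀ T : ℝ, 0 ≤ T → ∫⁻ t in Ioc 0 T, ‖g t - f t‖ₑ ^ (5 / 3 : ℝ)
        ≤ ENNReal.ofReal (τ * (‖fld u₀‖ ^ 2 + ∫ s in (0 : ℝ)..T, ‖f s‖ ^ 2))) ∧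
      (∀ T : ℝ, 0 ≤ T → ∫⁻ t in Ioc 0 T, ENNReal.ofReal ((ν t - η) ^ 5)
        ≤ ENNReal.ofReal (τ * (‖fld u₀‖ ^ 2 + ∫ s in (0 : ℝ)..T, ‖f s‖ ^ 2))) ∧
      (∀ T : ℝ, 0 ≤ T → volume {t ∈ Ioc (0 : ℝ) T | ν t ≠ η}
        ≤ ENNReal.ofReal (τ * (‖fld u₀‖ ^ 2 + ∫ s in (0 : ℝ)..T, ‖f s‖ ^ 2)))

end Pool.Agent.NSD
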