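import Pool.Agent.NSD.Rep

/-!
# MP_fd8964_an.NearbyForce: the hypotheses are satisfied by non-trivial data

Every smooth divergence free field with compact support in `Ω` is in `V ∩ H²`, and every constant force `h ∈ H` is
admissible.
-/

open MeasureTheory Set Filter Topology
open scoped RealInnerProductSpace ContDiff

noncomputable section

namespace Pool.Agent.NSD

/-- Test fields are in `H²(Ω)³`. -/
theorem memH2_of_test {Ω : Set E} {v : E → E} (hv : IsTest Ω v) (u : V Ω)
    (hu : Represents Ω v u) : MemH2 u := by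
  have hg : ∀ i, ContDiff ℝ ∞ (fun x => fderiv ℝ v x (e i)) := fun i =>
    (hv.smooth.fderiv_right (m := ∞) (by simp)).clm_apply contDiff_const
  have hgc : ∀ i, HasCompactSupport (fun x => fderiv ℝ v x (e i)) := fun i =>
    (hv.compact.fderiv ℝ).comp_left (g := fun L : E →L[ℝ] E => L (e i)) (by simp)
  have hgg : ∀ i j, Continuous (fun x => fderiv ℝ (fun y => fderiv ℝ v y (e i)) x (e j)) := fun i j =>
    ((hg i).continuous_fderiv (by simp)).clm_apply continuous_const
  have hggc : ∀ i j, HasCompactSupport (fun x => fderiv ℝ (fun y => fderiv ℝ v y (e i)) x (e j)) :=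
    fun i j => ((hgc i).fderiv ℝ).comp_left (g := fun L : E →L[ℝ] E => L (e j)) (by simp)
  have hm : ∀ i j, MemLp (fun x => fderiv ℝ (fun y => fderiv ℝ v y (e i)) x (e j)) 2 (volume.restrict Ω) :=
    fun i j => (hgg i j).memLp_of_hasCompactSupport (hggc i j)
  refine ⟨fun i j => (hm i j).toLp _, fun i j θ hθ hθc hθs => ?_⟩
  have h1 : ∫ x in Ω, (fderiv ℝ θ x (e j)) • ((grd u : E → G) x i)
      = ∫ x in Ω, (fderiv ℝ θ x (e j)) • (fderiv ℝ v x (e i)) := by
    refine integral_congr_ae ?_
    filter_upwards [hu.2] with x hx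
    have : (grd u : E → G) x = gradField v x := hx
    rw [this]
    rfl
  have h2 : ∫ x in Ω, θ x • ((hm i j).toLp _ : E → E) x
      = ∫ x in Ω, θ x • fderiv ℝ (fun y => fderiv ℝ v y (e i)) x (e j) := by
    refine integral_congr_ae ?_
    filter_upwards [(hm i j).coeFn_toLp] with x hx
    rw [hx]
  rw [h1, h2]
  have hθ1 : Continuous (fun x => fderiv ℝ θ x (e j)) :=
    (hθ.continuous_fderiv (by simp)).clm_apply continuous_const
  have hθ1c : HasCompactSupport (fun x => fderiv ℝ θ x (e j)) :=
    (hθc.fderiv ℝ).comp_left (g := fun L : E →L[ℝ] ℝ => L (e j)) (by simp)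
  have h3 : ∫ x in Ω, (fderiv ℝ θ x (e j)) • (fderiv ℝ v x (e i))
      = ∫ x, (fderiv ℝ θ x (e j)) • (fderiv ℝ v x (e i)) := by
    refine setIntegral_eq_integral_of_forall_compl_eq_zero (fun x hx => ?_)
    have : x ∉ tsupport θ := fun h => hx (hθs h)
    have h0 : fderiv ℝ θ x = 0 := by
      by_contra h
      exact this (support_fderiv_subset ℝ (Function.mem_support.2 h))
    simp [h0]
  have h4 : ∫ x in Ω, θ x • fderiv ℝ (fun y => fderiv ℝ v y (e i)) x (e j)
      = ∫ x, θ x • fderiv ℝ (fun y => fderiv ℝ v y (e i)) x (e j) := by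
    refine setIntegral_eq_integral_of_forall_compl_eq_zero (fun x hx => ?_)
    have : x ∉ tsupport θ := fun h => hx (hθs h)
    simp [image_eq_zero_of_notMem_tsupport this]
  rw [h3, h4]
  have h5 := integral_smul_fderiv_eq_neg_fderiv_smul_of_integrable (μ := (volume : Measure E)) (f := θ)
    (g := fun y => fderiv ℝ v y (e i)) (v := e j)
    ((hθ1.smul (hg i).continuous).integrable_of_hasCompactSupport hθ1c.smul_right)
    ((hθ.continuous.smul (hgg i j)).integrable_of_hasCompactSupport hθc.smul_right)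
    ((hθ.continuous.smul (hg i).continuous).integrable_of_hasCompactSupport hθc.smul_right)
    (fun x _ => (hθ.differentiable (by simp)) x) (fun x _ => ((hg i).differentiable (by simp)) x)
  rw [h5, neg_neg]

theorem zero_gen {F : Type*} [NormedAddCommGroup F] (μ : Measure ℝ) : MemLp (fun _ : ℝ => (0 : F)) 2 μ :=
  MemLp.zero

/-- Constant forces in `H` are admissible. -/
theorem admissible_const {Ω : Set E} (h : L2 Ω) (hh : h ∈ Hspace Ω) (F : V' Ω) (hF : ∀ v, F v = ⟪h, fld v⟫) :
    AdmissibleForce Ω (fun _ => F) := by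
  refine ⟨⟨fun _ => (0 : V' Ω), fun T => zero_gen (F := V' Ω) _, fun t _ => ?_⟩, h, hh, hF⟩
  simp

end Pool.Agent.NSD
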