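import Mathlib

/-!
# MP_fd8964_an: the definitions used in the statement, in a form that prints shortly

The spaces are the same as in `Pool.Agent.NSD.Defs`; every type carries named instances.
-/

open MeasureTheory Set Filter Topology
open scoped RealInnerProductSpace ContDiff

noncomputable section

namespace Pool.Agent.NSDS

/-- Euclidean three-space. -/
def R3 : Type := EuclideanSpace ℝ (Fin 3)

instance r3N : NormedAddCommGroup R3 := (inferInstance : NormedAddCommGroup (EuclideanSpace ℝ (Fin 3)))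
instance r3I : InnerProductSpace ℝ R3 := (inferInstance : InnerProductSpace ℝ (EuclideanSpace ℝ (Fin 3)))
instance r3M : MeasureSpace R3 := (inferInstance : MeasureSpace (EuclideanSpace ℝ (Fin 3)))

/-- The `i`-th coordinate. -/
def coord (x : R3) (i : Fin 3) : ℝ := @WithLp.ofLp 2 (Fin 3 → ℝ) x i

/-- The `i`-th standard basis vector. -/
def bas (i : Fin 3) : R3 := (EuclideanSpace.single i (1 : ℝ) : EuclideanSpace ℝ (Fin 3))

/-- Values of gradients of vector fields, with the Euclidean norm: the `i`-th row is the `i`-th partial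
derivative. -/
def G3 : Type := PiLp 2 (fun _ : Fin 3 => R3)

instance g3N : NormedAddCommGroup G3 := (inferInstance : NormedAddCommGroup (PiLp 2 (fun _ : Fin 3 => R3)))
instance g3I : InnerProductSpace ℝ G3 := (inferInstance : InnerProductSpace ℝ (PiLp 2 (fun _ : Fin 3 => R3)))

/-- The `i`-th row. -/
def row (A : G3) (i : Fin 3) : R3 := @WithLp.ofLp 2 (Fin 3 → R3) A i

/-- The gradient of a vector field: row `i` is `∂ᵢ v (x)`. -/
def gradField (v : R3 → R3) (x : R3) : G3 :=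
  (WithLp.toLp 2 (fun i : Fin 3 => fderiv ℝ v x (bas i)) : PiLp 2 (fun _ : Fin 3 => R3))

/-- The divergence of a vector field. -/
def divField (v : R3 → R3) (x : R3) : ℝ := ∑ i : Fin 3, coord (fderiv ℝ v x (bas i)) i

/-- The space `𝒱` of smooth divergence free fields with compact support in `Ω`. -/
def IsTest (Ω : Set R3) (v : R3 → R3) : Prop :=
  ContDiff ℝ ∞ v ∧ HasCompactSupport v ∧ tsupport v ⊆ Ω ∧ ∀ x, divField v x = 0

/-- `L²(Ω)³`. -/
def L2E (Ω : Set R3) : Type := Lp R3 2 (volume.restrict Ω)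

instance l2N (Ω : Set R3) : NormedAddCommGroup (L2E Ω) :=
  (inferInstance : NormedAddCommGroup (Lp R3 2 (volume.restrict Ω)))
instance l2I (Ω : Set R3) : InnerProductSpace ℝ (L2E Ω) :=
  (inferInstance : InnerProductSpace ℝ (Lp R3 2 (volume.restrict Ω)))

/-- The function underlying an element of `L²(Ω)³`. -/
def fn {Ω : Set R3} (p : L2E Ω) : R3 → R3 :=
  (@Subtype.val (R3 →ₘ[volume.restrict Ω] R3) (fun q => q ∈ Lp R3 2 (volume.restrict Ω)) p : R3 →ₘ[volume.restrict Ω] R3)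

/-- `L²(Ω)^{3×3}`. -/
def L2G (Ω : Set R3) : Type := Lp G3 2 (volume.restrict Ω)

instance l2gN (Ω : Set R3) : NormedAddCommGroup (L2G Ω) :=
  (inferInstance : NormedAddCommGroup (Lp G3 2 (volume.restrict Ω)))
instance l2gI (Ω : Set R3) : InnerProductSpace ℝ (L2G Ω) :=
  (inferInstance : InnerProductSpace ℝ (Lp G3 2 (volume.restrict Ω)))

/-- The function underlying an element of `L²(Ω)^{3×3}`. -/
def gfn {Ω : Set R3} (p : L2G Ω) : R3 → G3 :=
  (@Subtype.val (R3 →ₘ[volume.restrict Ω] G3) (fun q => q ∈ Lp G3 2 (volume.restrict Ω)) p : R3 →ₘ[volume.restrict Ω] G3)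

/-- `L²(Ω)³ × L²(Ω)^{3×3}` with the Hilbert norm, the home of pairs (field, gradient). -/
def Pair (Ω : Set R3) : Type := WithLp 2 (L2E Ω × L2G Ω)

instance pairN (Ω : Set R3) : NormedAddCommGroup (Pair Ω) :=
  (inferInstance : NormedAddCommGroup (WithLp 2 (L2E Ω × L2G Ω)))
instance pairI (Ω : Set R3) : InnerProductSpace ℝ (Pair Ω) :=
  (inferInstance : InnerProductSpace ℝ (WithLp 2 (L2E Ω × L2G Ω)))

/-- The field of a pair. -/
def pfld {Ω : Set R3} (p : Pair Ω) : L2E Ω := @WithLp.fst 2 (L2E Ω) (L2G Ω) p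

/-- The gradient of a pair. -/
def pgrd {Ω : Set R3} (p : Pair Ω) : L2G Ω := @WithLp.snd 2 (L2E Ω) (L2G Ω) p

/-- `H`: the closure of `𝒱` in `L²(Ω)³`. -/
def H (Ω : Set R3) : Submodule ℝ (L2E Ω) :=
  (Submodule.span ℝ {p : L2E Ω | ∃ v, IsTest Ω v ∧ fn p =ᵐ[volume.restrict Ω] v}).topologicalClosure

/-- The closed subspace of pairs `(v, ∇v)`, closure of `v ∈ 𝒱`. -/
def Vsub (Ω : Set R3) : Submodule ℝ (Pair Ω) :=
  (Submodule.span ℝ {p : Pair Ω | ∃ v, IsTest Ω v ∧ (fn (pfld p) =ᵐ[volume.restrict Ω] v ∧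
    gfn (pgrd p) =ᵐ[volume.restrict Ω] gradField v)}).topologicalClosure

/-- `V`: the closure of `𝒱` in `H¹(Ω)³`. -/
def V (Ω : Set R3) : Type := Vsub Ω

instance vN (Ω : Set R3) : NormedAddCommGroup (V Ω) := (inferInstance : NormedAddCommGroup (Vsub Ω))
instance vI (Ω : Set R3) : InnerProductSpace ℝ (V Ω) := (inferInstance : InnerProductSpace ℝ (Vsub Ω))

/-- The `L²` field underlying an element of `V`. -/
def fld {Ω : Set R3} (u : V Ω) : L2E Ω := pfld (@Subtype.val (Pair Ω) (fun p => p ∈ Vsub Ω) u)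

/-- The weak gradient of an element of `V`. -/
def grd {Ω : Set R3} (u : V Ω) : L2G Ω := pgrd (@Subtype.val (Pair Ω) (fun p => p ∈ Vsub Ω) u)

/-- `∫_Ω (u·∇)v·w`. -/
def trilin {Ω : Set R3} (u v w : V Ω) : ℝ :=
  ∫ x in Ω, ∑ i : Fin 3, coord (fn (fld u) x) i * ⟪row (gfn (grd v) x) i, fn (fld w) x⟫

/-- `u₀ ∈ H²(Ω)³` for `u₀ ∈ V`: the weak second derivatives `D i j = ∂ⱼ∂ᵢu₀` are in `L²(Ω)³`. -/
def MemH2 {Ω : Set R3} (u₀ : V Ω) : Prop :=
  ∃ D : Fin 3 → Fin 3 → L2E Ω, ∀ i j, ∀ θ : R3 → ℝ, ContDiff ℝ ∞ θ → HasCompactSupport θ → tsupport θ ⊆ Ω →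
    ∫ x in Ω, (fderiv ℝ θ x (bas j)) • row (gfn (grd u₀) x) i = - ∫ x in Ω, θ x • fn (D i j) x

/-- Admissible forces: `f, ∂ₜf ∈ L²(0,T;V')` for all `T` and `f(0) ∈ H`. -/
def AdmissibleForce (Ω : Set R3) (f : ℝ → (V Ω →L[ℝ] ℝ)) : Prop :=
  (∃ f₁ : ℝ → (V Ω →L[ℝ] ℝ), (∀ T : ℝ, MemLp f₁ 2 (volume.restrict (Ioc 0 T))) ∧
    ∀ t : ℝ, 0 ≤ t → f t = f 0 + ∫ s in (0 : ℝ)..t, f₁ s) ∧
  ∃ h ∈ H Ω, ∀ v : V Ω, f 0 v = ⟪h, fld v⟫

/-- `u` is, on `[0,∞)`, a (weak) solution of the Navier-Stokes system in `Ω` with viscosity `η`, force `f` and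
initial value `u₀`, whose time derivative `w = ∂ₜu` is in `L²(0,T;V) ∩ L^∞(0,T;H)` for every `T`. -/
def IsRegularSolution (Ω : Set R3) (η : ℝ) (u₀ : V Ω) (f : ℝ → (V Ω →L[ℝ] ℝ)) (u : ℝ → V Ω) : Prop :=
  ∃ w : ℝ → V Ω,
    (∀ T : ℝ, MemLp w 2 (volume.restrict (Ioc 0 T))) ∧
    (∀ T : ℝ, ∃ C : ℝ, ∀ᵐ t ∂(volume.restrict (Ioc 0 T)), ‖fld (w t)‖ ≤ C) ∧
    (∀ t : ℝ, 0 ≤ t → u t = u₀ + ∫ s in (0 : ℝ)..t, w s) ∧
    ∀ᵐ t ∂(volume.restrict (Ioi (0 : ℝ))), ∀ v : V Ω,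
      ⟪fld (w t), fld v⟫ + trilin (u t) (u t) v + η * ⟪grd (u t), grd v⟫ = f t v

end Pool.Agent.NSDS
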