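import Pool.Agent.NSD.MainProof
import Pool.Agent.NSD.Sealed

/-!
# MP_fd8964_an: transfer of the theorem from `Pool.Agent.NSD.Defs` to `Pool.Agent.NSD.Sealed`
-/

open MeasureTheory Set Filter Topology
open scoped RealInnerProductSpace ContDiff

noncomputable section

namespace Pool.Agent.NSDT

section
variable (VV LE LG : Type) [NormedAddCommGroup VV] [InnerProductSpace ℝ VV] [NormedAddCommGroup LE]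
  [InnerProductSpace ℝ LE] [NormedAddCommGroup LG] [InnerProductSpace ℝ LG]

def Adm (fl : VV → LE) (Hs : Submodule ℝ LE) (f : ℝ → (VV →L[ℝ] ℝ)) : Prop :=
  (∃ f₁ : ℝ → (VV →L[ℝ] ℝ), (∀ T : ℝ, MemLp f₁ 2 (volume.restrict (Ioc 0 T))) ∧
    ∀ t : ℝ, 0 ≤ t → f t = f 0 + ∫ s in (0 : ℝ)..t, f₁ s) ∧
  ∃ h ∈ Hs, ∀ v : VV, f 0 v = ⟪h, fl v⟫

def Reg (fl : VV → LE) (gr : VV → LG) (tri : VV → VV → VV → ℝ) (η : ℝ) (u₀ : VV) (f : ℝ → (VV →L[ℝ] ℝ))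
    (u : ℝ → VV) : Prop :=
  ∃ w : ℝ → VV,
    (∀ T : ℝ, MemLp w 2 (volume.restrict (Ioc 0 T))) ∧
    (∀ T : ℝ, ∃ C : ℝ, ∀ᵐ t ∂(volume.restrict (Ioc 0 T)), ‖fl (w t)‖ ≤ C) ∧
    (∀ t : ℝ, 0 ≤ t → u t = u₀ + ∫ s in (0 : ℝ)..t, w s) ∧
    ∀ᵐ t ∂(volume.restrict (Ioi (0 : ℝ))), ∀ v : VV,
      ⟪fl (w t), fl v⟫ + tri (u t) (u t) v + η * ⟪gr (u t), gr v⟫ = f t v

def Abs (fl : VV → LE) (gr : VV → LG) (tri : VV → VV → VV → ℝ) (Hs : Submodule ℝ LE) (Good : VV → Prop) :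
    Prop :=
  ∀ (η : ℝ), 0 < η → ∀ (u₀ : VV), Good u₀ → ∀ (f : ℝ → (VV →L[ℝ] ℝ)), Adm VV LE fl Hs f →
    ∀ (τ : ℝ), 0 < τ →
    ∃ (ν : ℝ → ℝ) (g : ℝ → (VV →L[ℝ] ℝ)) (u : ℝ → VV),
      Adm VV LE fl Hs g ∧ g 0 = f 0 ∧ Reg VV LE LG fl gr tri η u₀ g u ∧
      (∀ t, η ≤ ν t) ∧ ContinuousOn ν (Ici 0) ∧
      (∀ t, 0 ≤ t → ∀ v : VV, g t v = f t v - (ν t - η) * ⟪gr (u t), gr v⟫) ∧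
      (∀ T : ℝ, 0 ≤ T →
        ‖fl (u T)‖ ^ 2 + 2 * η * ∫ s in (0 : ℝ)..T, ‖gr (u s)‖ ^ 2
          ≤ ‖fl u₀‖ ^ 2 + 2 * ∫ s in (0 : ℝ)..T, f s (u s)) ∧
      (∀ T : ℝ, 0 ≤ T → ∫⁻ t in Ioc 0 T, ‖g t - f t‖ₑ ^ (5 / 3 : ℝ)
        ≤ ENNReal.ofReal (τ * (‖fl u₀‖ ^ 2 + ∫ s in (0 : ℝ)..T, ‖f s‖ ^ 2))) ∧
      (∀ T : ℝ, 0 ≤ T → ∫⁻ t in Ioc 0 T, ENNReal.ofReal ((ν t - η) ^ 5)
        ≤ ENNReal.ofReal (τ * (‖fl u₀‖ ^ 2 + ∫ s in (0 : ℝ)..T, ‖f s‖ ^ 2))) ∧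
      (∀ T : ℝ, 0 ≤ T → volume {t ∈ Ioc (0 : ℝ) T | ν t ≠ η}
        ≤ ENNReal.ofReal (τ * (‖fl u₀‖ ^ 2 + ∫ s in (0 : ℝ)..T, ‖f s‖ ^ 2)))

end

open Pool.Agent

theorem abs_unsealed (Ω : Set NSD.E) (hΩ : IsOpen Ω) (hb : Bornology.IsBounded Ω) :
    Abs (NSD.V Ω) (NSD.L2 Ω) (NSD.L2G Ω) NSD.fld NSD.grd NSD.trilin (NSD.Hspace Ω) NSD.MemH2 :=
  fun η hη u₀ hu₀ f hf τ hτ => NSD.mainNu_proof Ω hΩ hb η hη u₀ hu₀ f hf τ hτ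

theorem key (Ω : Set NSD.E) :
    Abs (NSD.V Ω) (NSD.L2 Ω) (NSD.L2G Ω) NSD.fld NSD.grd NSD.trilin (NSD.Hspace Ω) NSD.MemH2 →
    Abs (NSDS.V Ω) (NSDS.L2E Ω) (NSDS.L2G Ω) NSDS.fld NSDS.grd NSDS.trilin (NSDS.H Ω) NSDS.MemH2 := by
  delta NSDS.MemH2 NSDS.trilin NSDS.fld NSDS.grd NSDS.H NSDS.vI NSDS.vN NSDS.V NSDS.Vsub NSDS.pgrd
    NSDS.pfld NSDS.pairI NSDS.pairN NSDS.Pair NSDS.gfn NSDS.l2gI NSDS.l2gN NSDS.L2G NSDS.fn NSDS.l2I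
    NSDS.l2N NSDS.L2E NSDS.IsTest NSDS.divField NSDS.gradField NSDS.row NSDS.g3I NSDS.g3N NSDS.G3
    NSDS.bas NSDS.coord NSDS.r3M NSDS.r3I NSDS.r3N NSDS.R3 NSD.MemH2 NSD.trilin NSD.fld NSD.grd
    NSD.Hspace NSD.V NSD.Represents NSD.IsTest NSD.divField NSD.gradField NSD.e NSD.L2 NSD.L2G NSD.H1
    NSD.G NSD.E
  exact fun h => h

theorem abs_sealed (Ω : Set NSDS.R3) (hΩ : IsOpen Ω) (hb : Bornology.IsBounded Ω) :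
    Abs (NSDS.V Ω) (NSDS.L2E Ω) (NSDS.L2G Ω) NSDS.fld NSDS.grd NSDS.trilin (NSDS.H Ω) NSDS.MemH2 :=
  key Ω (abs_unsealed Ω hΩ hb)

end Pool.Agent.NSDT
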