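import Pool.Agent.NSD.Basic
import Pool.Agent.NSD.BasicH4
import Pool.Agent.NSD.ODE

/-!
# MP_fd8964_an: module `VoigtExists`
-/

open MeasureTheory Set Filter Topology
open scoped RealInnerProductSpace

noncomputable section

namespace Pool.Agent.NSD

namespace H48

/-- A continuous functional calculus of the Voigt operator: a Lipschitz map `S : V' → V` with
`⟪ι (S l), ι v⟫ + δ a(S l, v) = l v`. -/
theorem exists_inverse {V K : Type} [NormedAddCommGroup V] [InnerProductSpace ℝ V]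
    [CompleteSpace V] [NormedAddCommGroup K] [InnerProductSpace ℝ K] (D : Data V K)
    {δ : ℝ} (hδ : 0 < δ) :
    ∃ (S : (V →L[ℝ] ℝ) → V) (C : ℝ), 0 ≤ C ∧
      (∀ l v, ⟪D.ι (S l), D.ι v⟫ + δ * D.a (S l) v = l v) ∧
      ∀ l l', ‖S l - S l'‖ ≤ C * ‖l - l'‖ := by
  let J : K →L[ℝ] K →L[ℝ] ℝ := (isBoundedBilinearMap_inner (𝕜 := ℝ) (E := K)).toContinuousLinearMap
  let B : V →L[ℝ] V →L[ℝ] ℝ := J.bilinearComp D.ι D.ι + δ • D.a
  have hB : ∀ v w, B v w = ⟪D.ι v, D.ι w⟫ + δ * D.a v w := by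
    intro v w
    rfl
  have hcoer : IsCoercive B := by
    refine ⟨δ * D.c₀, mul_pos hδ D.c₀_pos, fun u => ?_⟩
    rw [hB]
    have h1 := D.a_coer u
    have h2 : (0 : ℝ) ≤ ⟪D.ι u, D.ι u⟫ := real_inner_self_nonneg
    nlinarith
  let E := hcoer.continuousLinearEquivOfBilin
  let S : (V →L[ℝ] ℝ) → V := fun l => E.symm ((InnerProductSpace.toDual ℝ V).symm l)
  refine ⟨S, ‖(E.symm : V →L[ℝ] V)‖, norm_nonneg _, ?_, ?_⟩
  · intro l v
    rw [← hB]
    have h := hcoer.continuousLinearEquivOfBilin_apply (S l) v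
    rw [← h]
    have h2 : E (S l) = (InnerProductSpace.toDual ℝ V).symm l := E.apply_symm_apply _
    change ⟪E (S l), v⟫ = l v
    rw [h2, InnerProductSpace.toDual_symm_apply]
  · intro l l'
    have h1 : S l - S l' = (E.symm : V →L[ℝ] V)
        ((InnerProductSpace.toDual ℝ V).symm l - (InnerProductSpace.toDual ℝ V).symm l') := by
      rw [map_sub]; rfl
    rw [h1]
    refine (ContinuousLinearMap.le_opNorm _ _).trans ?_
    rw [← map_sub, LinearIsometryEquiv.norm_map]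

/-- The nonlinearity. -/
def NL {V K : Type} [NormedAddCommGroup V] [InnerProductSpace ℝ V]
    [NormedAddCommGroup K] [InnerProductSpace ℝ K] (D : Data V K) (η ε κ : ℝ) (u : V) :
    V →L[ℝ] ℝ :=
  (η + phi ε κ (D.sig u)) • D.a u + D.b u u

theorem exists_b_bound {V K : Type} [NormedAddCommGroup V] [InnerProductSpace ℝ V]
    [NormedAddCommGroup K] [InnerProductSpace ℝ K] (D : Data V K) :
    ∃ Cb : ℝ, 0 ≤ Cb ∧ ∀ x y, ‖D.b x y‖ ≤ Cb * ‖x‖ * ‖y‖ := by
  obtain ⟨C, hC⟩ : ∃ C : ℝ, ∀ x y, ‖D.b x y‖ ≤ C * ‖x‖ * ‖y‖ := ⟨_, D.b.le_opNorm₂⟩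
  refine ⟨|C|, abs_nonneg _, fun x y => (hC x y).trans ?_⟩
  exact mul_le_mul_of_nonneg_right (mul_le_mul_of_nonneg_right (le_abs_self C) (norm_nonneg _))
    (norm_nonneg _)

theorem NL_lip {V K : Type} [NormedAddCommGroup V] [InnerProductSpace ℝ V]
    [NormedAddCommGroup K] [InnerProductSpace ℝ K] (D : Data V K) {η ε κ : ℝ}
    (hη : 0 < η) (hε : 0 ≤ ε) (hκ : 0 < κ) {Cb : ℝ} (hCb0 : 0 ≤ Cb)
    (hCb : ∀ x y, ‖D.b x y‖ ≤ Cb * ‖x‖ * ‖y‖) {R : ℝ} {u v : V} (hu : ‖u‖ ≤ R) (hv : ‖v‖ ≤ R) :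
    ‖NL D η ε κ u - NL D η ε κ v‖ ≤
      (ε / (2 * √κ) * R + (η + ε * √R) + 2 * Cb * R) * ‖u - v‖ := by
  have hR : 0 ≤ R := (norm_nonneg u).trans hu
  have h1 : NL D η ε κ u - NL D η ε κ v =
      (phi ε κ (D.sig u) - phi ε κ (D.sig v)) • D.a u + (η + phi ε κ (D.sig v)) • D.a (u - v)
        + (D.b (u - v) u + D.b v (u - v)) := by
    unfold NL
    have e1 : D.a (u - v) = D.a u - D.a v := map_sub _ _ _
    have e2 : D.b (u - v) u = D.b u u - D.b v u := by rw [map_sub]; rfl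
    have e3 : D.b v (u - v) = D.b v u - D.b v v := map_sub _ _ _
    rw [e1, e2, e3]
    simp only [smul_sub, sub_smul (phi ε κ (D.sig u)) (phi ε κ (D.sig v)) (D.a u), add_smul]
    abel
  rw [h1]
  have n1 : ‖(phi ε κ (D.sig u) - phi ε κ (D.sig v)) • D.a u‖ ≤ ε / (2 * √κ) * R * ‖u - v‖ := by
    rw [norm_smul, Real.norm_eq_abs]
    have a1 := phi_lipschitz (ε := ε) hε hκ (D.sig u) (D.sig v)
    have a2 : |D.sig u - D.sig v| ≤ ‖u - v‖ := D.abs_sig_sub_le_norm u v
    have a3 : ‖D.a u‖ ≤ R := (D.norm_a_le u).trans ((D.sig_le_norm u).trans hu)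
    have a4 : 0 ≤ ε / (2 * √κ) := by positivity
    calc |phi ε κ (D.sig u) - phi ε κ (D.sig v)| * ‖D.a u‖
        ≤ (ε / (2 * √κ) * ‖u - v‖) * R := by
          refine mul_le_mul (a1.trans (mul_le_mul_of_nonneg_left a2 a4)) a3 (norm_nonneg _) ?_
          positivity
      _ = ε / (2 * √κ) * R * ‖u - v‖ := by ring
  have n2 : ‖(η + phi ε κ (D.sig v)) • D.a (u - v)‖ ≤ (η + ε * √R) * ‖u - v‖ := by
    rw [norm_smul, Real.norm_eq_abs]
    have a0 : 0 ≤ phi ε κ (D.sig v) := phi_nonneg hε _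
    have a1 : phi ε κ (D.sig v) ≤ ε * √R := by
      refine (phi_le hε (D.sig_nonneg v)).trans (mul_le_mul_of_nonneg_left ?_ hε)
      exact Real.sqrt_le_sqrt ((D.sig_le_norm v).trans hv)
    have a3 : ‖D.a (u - v)‖ ≤ ‖u - v‖ := (D.norm_a_le _).trans (D.sig_le_norm _)
    rw [abs_of_nonneg (by linarith)]
    exact mul_le_mul (by linarith) a3 (norm_nonneg _) (by positivity)
  have n3 : ‖D.b (u - v) u + D.b v (u - v)‖ ≤ 2 * Cb * R * ‖u - v‖ := by
    have a1 : ‖D.b (u - v) u‖ ≤ Cb * ‖u - v‖ * R :=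
      (hCb _ _).trans (mul_le_mul_of_nonneg_left hu (by positivity))
    have a2 : ‖D.b v (u - v)‖ ≤ Cb * R * ‖u - v‖ := by
      refine (hCb _ _).trans ?_
      exact mul_le_mul_of_nonneg_right (mul_le_mul_of_nonneg_left hv hCb0)
        (norm_nonneg _)
    refine (norm_add_le _ _).trans ?_
    calc ‖D.b (u - v) u‖ + ‖D.b v (u - v)‖ ≤ Cb * ‖u - v‖ * R + Cb * R * ‖u - v‖ :=
          add_le_add a1 a2
      _ = 2 * Cb * R * ‖u - v‖ := by ring
  refine (norm_add_le _ _).trans ((add_le_add (norm_add_le _ _) le_rfl).trans ?_)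
  linarith

end H48

theorem voigtExists_proof : Stmt_VoigtExists := by
  intro V K _ _ _ _ _ D η ε κ δ f u₀ hη hε hκ hδ hf
  obtain ⟨S, C, hC, hS, hSl⟩ := H48.exists_inverse D hδ
  obtain ⟨Cb, hCb0, hCb⟩ := H48.exists_b_bound D
  let F : ℝ → V → V := fun t u => S (f t - H48.NL D η ε κ u)
  have hScont : Continuous S := by
    have : LipschitzWith ⟨C, hC⟩ S := by
      refine LipschitzWith.of_dist_le_mul fun x y => ?_
      rw [dist_eq_norm, dist_eq_norm]
      exact hSl x y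
    exact this.continuous
  have hNLcont : Continuous (H48.NL D η ε κ) := by
    unfold H48.NL
    have c1 : Continuous fun u : V => η + phi ε κ (D.sig u) :=
      continuous_const.add (H4.continuous_phi_sig D ε κ)
    have c2 : Continuous fun u : V => D.b u u := D.b.continuous.clm_apply continuous_id
    exact (c1.smul D.a.continuous).add c2
  have hFeq : ∀ t u v, ⟪D.ι (F t u), D.ι v⟫ + δ * D.a (F t u) v
      + (η + phi ε κ (D.sig u)) * D.a u v + D.b u u v = f t v := by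
    intro t u v
    have h := hS (f t - H48.NL D η ε κ u) v
    have h2 : (f t - H48.NL D η ε κ u) v =
        f t v - ((η + phi ε κ (D.sig u)) * D.a u v + D.b u u v) := rfl
    rw [h2] at h
    change ⟪D.ι (F t u), D.ι v⟫ + δ * D.a (F t u) v = _ at h
    linarith
  obtain ⟨y, hy0, hy⟩ := ODE_proof V F u₀ (by
      intro x
      exact hScont.comp_continuousOn (hf.sub continuousOn_const)) (by
      intro T R
      set R' := |R| with hR'
      have hR'0 : 0 ≤ R' := abs_nonneg R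
      have hL : 0 ≤ C * (ε / (2 * √κ) * R' + (η + ε * √R') + 2 * Cb * R') := by positivity
      refine ⟨⟨_, hL⟩, fun t _ => LipschitzOnWith.of_dist_le_mul fun u hu v hv => ?_⟩
      rw [mem_closedBall_zero_iff] at hu hv
      rw [dist_eq_norm, dist_eq_norm]
      refine (hSl _ _).trans ?_
      have e : (f t - H48.NL D η ε κ u) - (f t - H48.NL D η ε κ v) =
          H48.NL D η ε κ v - H48.NL D η ε κ u := by abel
      rw [e, norm_sub_rev]
      have := H48.NL_lip D hη hε hκ hCb0 hCb (hu.trans (le_abs_self R)) (hv.trans (le_abs_self R))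
      calc C * ‖H48.NL D η ε κ u - H48.NL D η ε κ v‖ ≤
          C * ((ε / (2 * √κ) * R' + (η + ε * √R') + 2 * Cb * R') * ‖u - v‖) :=
            mul_le_mul_of_nonneg_left this hC
        _ = _ := by rw [← mul_assoc]; rfl) (by
      intro T
      -- a bound for `f` on `[0,T]`
      obtain ⟨M, hM⟩ : ∃ M : ℝ, ∀ t ∈ Icc 0 T, ‖f t‖ ≤ M :=
        isCompact_Icc.exists_bound_of_continuousOn (hf.mono Icc_subset_Ici_self)
      set g₀ : ℝ := ‖D.ι u₀‖ ^ 2 + δ * D.a u₀ u₀ with hg₀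
      set c : ℝ := 1 / (D.c₀ * (2 * η)) * M ^ 2 with hc
      have hc₀ := D.c₀_pos
      have hc0 : 0 ≤ c := by positivity
      refine ⟨√((g₀ + c * |T|) / (δ * D.c₀)), ?_⟩
      intro T' hT' z hz0 hz t ht
      have hTT : T' ≤ |T| := hT'.2.trans (le_abs_self T)
      set g : ℝ → ℝ := fun t => ‖D.ι (z t)‖ ^ 2 + δ * D.a (z t) (z t) with hg
      have hg' : ∀ s ∈ Icc 0 T', HasDerivWithinAt (fun s => g s - c * s)
          (2 * (⟪D.ι (F s (z s)), D.ι (z s)⟫ + δ * D.a (F s (z s)) (z s)) - c * 1) (Icc 0 T') s := by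
        intro s hs
        exact (H4.hasDerivWithinAt_energy D δ (hz s hs)).sub
          ((hasDerivWithinAt_id s _).const_mul c)
      have hle : ∀ s ∈ Icc 0 T',
          2 * (⟪D.ι (F s (z s)), D.ι (z s)⟫ + δ * D.a (F s (z s)) (z s)) - c * 1 ≤ 0 := by
        intro s hs
        have h1 := hFeq s (z s) (z s)
        rw [D.b_skew] at h1
        have h2 := H4.force_young D (θ := 2 * η) (by linarith) (f s) (z s)
        have h3 : ‖f s‖ ^ 2 ≤ M ^ 2 :=
          pow_le_pow_left₀ (norm_nonneg _) (hM s ⟨hs.1, hs.2.trans hT'.2⟩) 2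
        have h4 : 0 ≤ phi ε κ (D.sig (z s)) := phi_nonneg hε _
        have h5 := D.a_nonneg (z s)
        have h6 : 1 / (D.c₀ * (2 * η)) * ‖f s‖ ^ 2 ≤ c :=
          mul_le_mul_of_nonneg_left h3 (by positivity)
        have h7 := le_abs_self (f s (z s))
        have h8 : 0 ≤ phi ε κ (D.sig (z s)) * D.a (z s) (z s) := mul_nonneg h4 h5
        nlinarith
      have hanti : AntitoneOn (fun s => g s - c * s) (Icc 0 T') := by
        refine antitoneOn_of_hasDerivWithinAt_nonpos (convex_Icc 0 T')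
          (f' := fun s => 2 * (⟪D.ι (F s (z s)), D.ι (z s)⟫ + δ * D.a (F s (z s)) (z s)) - c * 1)
          (fun s hs => (hg' s hs).continuousWithinAt) ?_ ?_
        · intro s hs
          exact (hg' s (interior_subset hs)).mono interior_subset
        · intro s hs
          exact hle s (interior_subset hs)
      have h0 : (0 : ℝ) ∈ Icc 0 T' := ⟨le_rfl, hT'.1⟩
      have h1 := hanti h0 ht ht.1
      simp only [hg, hz0, mul_zero, sub_zero] at h1
      have h2 : δ * D.c₀ * ‖z t‖ ^ 2 ≤ g₀ + c * |T| := by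
        have a1 := D.a_coer (z t)
        have a2 : 0 ≤ ‖D.ι (z t)‖ ^ 2 := sq_nonneg _
        have a3 : c * t ≤ c * |T| := mul_le_mul_of_nonneg_left (ht.2.trans hTT) hc0
        nlinarith
      apply Real.le_sqrt_of_sq_le
      rw [le_div_iff₀ (by positivity)]
      linarith)
  refine ⟨y, fun t => F t (y t), hy0, ⟨hy, ?_, ?_⟩⟩
  · have hyc : ContinuousOn y (Ici 0) := fun t ht => (hy t ht).continuousWithinAt
    exact hScont.comp_continuousOn (hf.sub (hNLcont.comp_continuousOn hyc))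
  · intro t _ v
    exact hFeq t (y t) v

end Pool.Agent.NSD
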